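import Pool.Agent.FT.ConjQ

/-!
# FT: common definitions for the Lie part (blueprint: helper81, notes 2227, 2234, 2235; helper22)

All modules are left submodules of the algebra `A`; a layer is a pair `B ≤ D` (`Lay`), stable under the group,
under `Φ` and under the operators of a submodule `L` of `A`.
-/

set_option autoImplicit false

namespace Pool.Agent.FT

open Pool.Agent.LgP Pool.Agent.ThR

variable {O A G : Type} [CommRing O] [Ring A] [Algebra O A] [Group G]

/-- `B ≤ D` are stable under `r g`, `Φ` and the operators in `L` -/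
structure Lay (r : G →* A) (Φ : A) (L D B : Submodule O A) : Prop where
  le : B ≤ D
  sD : Stab r Φ D
  sB : Stab r Φ B
  lD : ∀ a ∈ L, ∀ x ∈ D, a * x ∈ D
  lB : ∀ a ∈ L, ∀ x ∈ B, a * x ∈ B

/-- `c` is stable under conjugation with `r g` and with `Φ` -/
structure Cj (r : G →* A) (Φ Ψ : A) (c : Submodule O A) : Prop where
  g : ∀ g, ∀ a ∈ c, r g * a * r g⁻¹ ∈ c
  p : ∀ a ∈ c, Φ * a * Ψ ∈ c

/-- the elements of `c` have no component of degree `0` -/
def Tr0 (n : ℕ) (Φ Ψ : A) (c : Submodule O A) : Prop :=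
  ∀ a ∈ c, ∑ j ∈ Finset.range n, Φ ^ j * a * Ψ ^ j = 0

/-- the elements of `c` commute on `D / B` -/
def Cm (c D B : Submodule O A) : Prop :=
  ∀ x ∈ c, ∀ y ∈ c, ∀ v ∈ D, (x * y - y * x) * v ∈ B

/-- the smallest submodule containing `X` and stable under `[y, ·]`, `y ∈ J` -/
def LI (J X : Submodule O A) : Submodule O A :=
  sInf {T | X ≤ T ∧ ∀ y ∈ J, ∀ x ∈ T, y * x - x * y ∈ T}

/-- the homogeneous part of degree `i` of `c` -/
def hp (ζ : O) (Φ : A) (c : Submodule O A) (i : ℕ) : Submodule O A where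
  carrier := {x | x ∈ c ∧ Hm ζ Φ i x}
  add_mem' := by
    rintro a b ⟨ha, ha'⟩ ⟨hb, hb'⟩
    refine ⟨c.add_mem ha hb, ?_⟩
    unfold Hm at ha' hb' ⊢
    rw [mul_add, add_mul, smul_add, ha', hb']
  zero_mem' := by
    refine ⟨c.zero_mem, ?_⟩
    unfold Hm
    rw [mul_zero, zero_mul, smul_zero]
  smul_mem' := by
    rintro o a ⟨ha, ha'⟩
    refine ⟨c.smul_mem o ha, ?_⟩
    unfold Hm at ha' ⊢
    rw [mul_smul_comm, ha', smul_mul_assoc, smul_comm]

theorem LI_le {J X T : Submodule O A} (h : X ≤ T) (hT : ∀ y ∈ J, ∀ x ∈ T, y * x - x * y ∈ T) :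
    LI J X ≤ T := sInf_le ⟨h, hT⟩

theorem le_LI (J X : Submodule O A) : X ≤ LI J X := le_sInf fun _ h => h.1

theorem LI_br (J X : Submodule O A) : ∀ y ∈ J, ∀ x ∈ LI J X, y * x - x * y ∈ LI J X := by
  intro y hy x hx
  unfold LI at hx ⊢
  rw [Submodule.mem_sInf] at hx ⊢
  intro T hT
  exact hT.2 y hy x (hx T hT)

end Pool.Agent.FT
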