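import Pool.Agent.FT.Base

/-!
# ClaimAux: auxiliary lemmas for `Claim.lean`

Derived series of Lie closed submodules, `Xs` and commutators, the centraliser steps (i), (iii), the relative
centraliser `RR`, restriction to a derived subgroup, step (iv) and step (v).
-/

set_option autoImplicit false

open scoped commutatorElement

namespace Pool.Agent.FT

open Pool.Agent.LgP Pool.Agent.ThR

section lie

variable {O A : Type} [CommRing O] [Ring A] [Algebra O A]

theorem CA_derL_ideal {L : Submodule O A} (hL : IsLie L) (s : ℕ) :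
    ∀ a ∈ L, ∀ b ∈ derL s L, a * b - b * a ∈ derL s L := by
  induction s with
  | zero => exact hL
  | succ s ih =>
    intro a ha b hb
    change b ∈ Submodule.span O {x | ∃ u ∈ derL s L, ∃ v ∈ derL s L, x = u * v - v * u} at hb
    have h1 : Submodule.span O {x | ∃ u ∈ derL s L, ∃ v ∈ derL s L, x = u * v - v * u} ≤
        (derL (s + 1) L).comap (LinearMap.mulLeft O a - LinearMap.mulRight O a) := by
      refine Submodule.span_le.2 ?_
      rintro x ⟨u, hu, v, hv, rfl⟩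
      rw [SetLike.mem_coe, Submodule.mem_comap, LinearMap.sub_apply, LinearMap.mulLeft_apply,
        LinearMap.mulRight_apply]
      have e : a * (u * v - v * u) - (u * v - v * u) * a =
          ((a * u - u * a) * v - v * (a * u - u * a)) +
            (u * (a * v - v * a) - (a * v - v * a) * u) := by
        noncomm_ring
      rw [e]
      refine Submodule.add_mem _ ?_ ?_
      · exact Submodule.subset_span ⟨_, ih a ha u hu, v, hv, rfl⟩
      · exact Submodule.subset_span ⟨u, hu, _, ih a ha v hv, rfl⟩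
    have h2 := h1 hb
    rw [Submodule.mem_comap, LinearMap.sub_apply, LinearMap.mulLeft_apply,
      LinearMap.mulRight_apply] at h2
    exact h2

theorem CA_derL_le {L : Submodule O A} (hL : IsLie L) (s : ℕ) : derL s L ≤ L := by
  induction s with
  | zero => exact le_rfl
  | succ s ih =>
    refine Submodule.span_le.2 ?_
    rintro x ⟨u, hu, v, hv, rfl⟩
    exact hL u (ih hu) v (ih hv)

theorem CA_derL_lie {L : Submodule O A} (hL : IsLie L) (s : ℕ) : IsLie (derL s L) := by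
  intro a ha b hb
  exact CA_derL_ideal hL s a (CA_derL_le hL s ha) b hb

theorem CA_derL_mono {L L' : Submodule O A} (h : L ≤ L') (s : ℕ) : derL s L ≤ derL s L' := by
  induction s with
  | zero => exact h
  | succ s ih =>
    refine Submodule.span_mono ?_
    rintro x ⟨u, hu, v, hv, rfl⟩
    exact ⟨u, ih hu, v, ih hv, rfl⟩

theorem CA_derL_succ_le {L : Submodule O A} (hL : IsLie L) (s : ℕ) :
    derL (s + 1) L ≤ derL s L := by
  refine Submodule.span_le.2 ?_
  rintro x ⟨u, hu, v, hv, rfl⟩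
  exact CA_derL_lie hL s u hu v hv

theorem CA_derL_br {L : Submodule O A} (s : ℕ) : ∀ a ∈ derL s L, ∀ b ∈ derL s L,
    a * b - b * a ∈ derL (s + 1) L := by
  intro a ha b hb
  exact Submodule.subset_span ⟨a, ha, b, hb, rfl⟩

theorem CA_Tr0_mono {n : ℕ} {Φ Ψ : A} {c c' : Submodule O A} (h : c ≤ c')
    (hc : Tr0 n Φ Ψ c') : Tr0 n Φ Ψ c := by
  exact fun a ha => hc a (h ha)

theorem CA_LI_sub {J X : Submodule O A} (hJ : IsLie J) (hX : X ≤ J) : LI J X ≤ J := by
  exact LI_le hX hJ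

theorem CA_LI_lie {J X : Submodule O A} (hJ : IsLie J) (hX : X ≤ J) : IsLie (LI J X) := by
  exact fun a ha b hb => LI_br J X a (CA_LI_sub hJ hX ha) b hb

private theorem CA_conj_mul {p q : A} (hqp : q * p = 1) (y z : A) :
    p * (y * z) * q = (p * y * q) * (p * z * q) := by
  calc p * (y * z) * q = p * y * 1 * z * q := by simp only [mul_assoc, one_mul]
    _ = p * y * (q * p) * z * q := by rw [hqp]
    _ = _ := by simp only [mul_assoc]

private theorem CA_conj_br {p q : A} (hqp : q * p = 1) (y z : A) :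
    p * (y * z - z * y) * q = (p * y * q) * (p * z * q) - (p * z * q) * (p * y * q) := by
  rw [mul_sub, sub_mul, CA_conj_mul hqp, CA_conj_mul hqp]

private theorem CA_derL_conj {L : Submodule O A} {p q : A} (hqp : q * p = 1)
    (hLg : ∀ a ∈ L, p * a * q ∈ L) (s : ℕ) : ∀ a ∈ derL s L, p * a * q ∈ derL s L := by
  induction s with
  | zero => exact hLg
  | succ s ih =>
    intro b hb
    change b ∈ Submodule.span O {x | ∃ u ∈ derL s L, ∃ v ∈ derL s L, x = u * v - v * u} at hb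
    have h1 : Submodule.span O {x | ∃ u ∈ derL s L, ∃ v ∈ derL s L, x = u * v - v * u} ≤
        (derL (s + 1) L).comap ((LinearMap.mulRight O q).comp (LinearMap.mulLeft O p)) := by
      refine Submodule.span_le.2 ?_
      rintro x ⟨u, hu, v, hv, rfl⟩
      rw [SetLike.mem_coe, Submodule.mem_comap, LinearMap.comp_apply, LinearMap.mulLeft_apply,
        LinearMap.mulRight_apply, CA_conj_br hqp]
      exact Submodule.subset_span ⟨_, ih u hu, _, ih v hv, rfl⟩
    have h2 := h1 hb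
    rw [Submodule.mem_comap, LinearMap.comp_apply, LinearMap.mulLeft_apply,
      LinearMap.mulRight_apply] at h2
    exact h2

private theorem CA_LI_conj {J X : Submodule O A} {p q : A} (hqp : q * p = 1)
    (hJ : ∀ a ∈ J, p * a * q ∈ J) (hX : ∀ a ∈ X, p * a * q ∈ X) :
    ∀ a ∈ LI J X, p * a * q ∈ LI J X := by
  have h1 : LI J X ≤ LI J X ⊓
      (LI J X).comap ((LinearMap.mulRight O q).comp (LinearMap.mulLeft O p)) := by
    refine LI_le (le_inf (le_LI J X) ?_) ?_
    · intro x hx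
      rw [Submodule.mem_comap, LinearMap.comp_apply, LinearMap.mulLeft_apply,
        LinearMap.mulRight_apply]
      exact le_LI J X (hX x hx)
    · rintro y hy x ⟨hx, hx'⟩
      rw [SetLike.mem_coe, Submodule.mem_comap, LinearMap.comp_apply, LinearMap.mulLeft_apply,
        LinearMap.mulRight_apply] at hx'
      refine ⟨LI_br J X y hy x hx, ?_⟩
      rw [SetLike.mem_coe, Submodule.mem_comap, LinearMap.comp_apply, LinearMap.mulLeft_apply,
        LinearMap.mulRight_apply, CA_conj_br hqp]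
      exact LI_br J X _ (hJ y hy) _ hx'
  intro a ha
  have h2 := (h1 ha).2
  rw [SetLike.mem_coe, Submodule.mem_comap, LinearMap.comp_apply, LinearMap.mulLeft_apply,
    LinearMap.mulRight_apply] at h2
  exact h2

/-- the elements of `e` which commute with `e` on `D / B` -/
def RR (e D B : Submodule O A) : Submodule O A where
  carrier := {x | x ∈ e ∧ ∀ y ∈ e, ∀ v ∈ D, (x * y - y * x) * v ∈ B}
  add_mem' := by
    rintro a b ⟨ha, ha'⟩ ⟨hb, hb'⟩
    refine ⟨e.add_mem ha hb, fun y hy v hv => ?_⟩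
    have e1 : ((a + b) * y - y * (a + b)) * v = (a * y - y * a) * v + (b * y - y * b) * v := by
      noncomm_ring
    rw [e1]
    exact B.add_mem (ha' y hy v hv) (hb' y hy v hv)
  zero_mem' := by
    refine ⟨e.zero_mem, fun y _ v _ => ?_⟩
    rw [zero_mul, mul_zero, sub_zero, zero_mul]
    exact B.zero_mem
  smul_mem' := by
    rintro o a ⟨ha, ha'⟩
    refine ⟨e.smul_mem o ha, fun y hy v hv => ?_⟩
    rw [smul_mul_assoc, mul_smul_comm, ← smul_sub, smul_mul_assoc]
    exact B.smul_mem o (ha' y hy v hv)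

theorem mem_RR {e D B : Submodule O A} {x : A} :
    x ∈ RR e D B ↔ x ∈ e ∧ ∀ y ∈ e, ∀ v ∈ D, (x * y - y * x) * v ∈ B := Iff.rfl

theorem RR_le (e D B : Submodule O A) : RR e D B ≤ e := fun _ hx => hx.1

theorem RR_cm (e D B : Submodule O A) : Cm (RR e D B) D B :=
  fun _ hx _ hy v hv => hx.2 _ hy.1 v hv

/-- step (iv): `derL (ρ + 1) J2` kills `D / B` (here `e = derL ρ J1`) -/
theorem CA_step4 {J1 J2 R D B : Submodule O A} (ρ : ℕ) (h21 : J2 ≤ J1) (hJ2 : IsLie J2)
    (heR : ∀ x ∈ derL ρ J1, ∀ w ∈ J2, x * w - w * x ∈ R)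
    (hR2 : ∀ x ∈ R, ∀ w ∈ J2, ∀ v ∈ D, (x * w - w * x) * v ∈ B)
    (h0 : ρ = 0 → J2 ≤ R) : derL (ρ + 1) J2 * D ≤ B := by
  refine Submodule.mul_le.2 fun x hx v hv => ?_
  change x ∈ Submodule.span O {x | ∃ u ∈ derL ρ J2, ∃ v ∈ derL ρ J2, x = u * v - v * u} at hx
  have h1 : Submodule.span O {x | ∃ u ∈ derL ρ J2, ∃ v ∈ derL ρ J2, x = u * v - v * u} ≤
      B.comap (LinearMap.mulRight O v) := by
    refine Submodule.span_le.2 ?_
    rintro x ⟨a, ha, b, hb, rfl⟩
    rw [SetLike.mem_coe, Submodule.mem_comap, LinearMap.mulRight_apply]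
    cases ρ with
    | zero => exact hR2 a (h0 rfl ha) b hb v hv
    | succ k =>
      have haL : a ∈ derL (k + 1) J1 := CA_derL_mono h21 _ ha
      change b ∈ Submodule.span O {x | ∃ u ∈ derL k J2, ∃ v ∈ derL k J2, x = u * v - v * u} at hb
      have h2 : Submodule.span O {x | ∃ u ∈ derL k J2, ∃ v ∈ derL k J2, x = u * v - v * u} ≤
          B.comap ((LinearMap.mulRight O v).comp
            (LinearMap.mulLeft O a - LinearMap.mulRight O a)) := by
        refine Submodule.span_le.2 ?_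
        rintro y ⟨u, hu, w, hw, rfl⟩
        rw [SetLike.mem_coe, Submodule.mem_comap, LinearMap.comp_apply, LinearMap.sub_apply,
          LinearMap.mulLeft_apply, LinearMap.mulRight_apply, LinearMap.mulRight_apply]
        have hu2 : u ∈ J2 := CA_derL_le hJ2 k hu
        have hw2 : w ∈ J2 := CA_derL_le hJ2 k hw
        have e : (a * (u * w - w * u) - (u * w - w * u) * a) * v =
            ((a * u - u * a) * w - w * (a * u - u * a)) * v -
              ((a * w - w * a) * u - u * (a * w - w * a)) * v := by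
          noncomm_ring
        rw [e]
        exact B.sub_mem (hR2 _ (heR a haL u hu2) w hw2 v hv) (hR2 _ (heR a haL w hw2) u hu2 v hv)
      have h3 := h2 hb
      rw [Submodule.mem_comap, LinearMap.comp_apply, LinearMap.sub_apply,
        LinearMap.mulLeft_apply, LinearMap.mulRight_apply, LinearMap.mulRight_apply] at h3
      exact h3
  have h2 := h1 hx
  rw [Submodule.mem_comap, LinearMap.mulRight_apply] at h2
  exact h2

end lie

section grp

variable {O A G : Type} [CommRing O] [Ring A] [Algebra O A] [Group G] {n : ℕ} {φ : G →* G}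
  {ζ : O} {Φ Ψ : A} {r : G →* A}

private theorem CA_gg (r : G →* A) (g : G) : r g⁻¹ * r g = 1 := by
  rw [← map_mul, inv_mul_cancel, map_one]

private theorem CA_gg' (r : G →* A) (g : G) : r g * r g⁻¹ = 1 := by
  rw [← map_mul, mul_inv_cancel, map_one]

theorem CA_derL_cj (h : GRep n φ ζ Φ Ψ r) {L : Submodule O A} (hL : Cj r Φ Ψ L) (s : ℕ) :
    Cj r Φ Ψ (derL s L) := by
  refine ⟨fun g => ?_, ?_⟩
  · exact CA_derL_conj (CA_gg r g) (hL.g g) s
  · exact CA_derL_conj h.qp hL.p s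

theorem CA_LI_cj (h : GRep n φ ζ Φ Ψ r) {J X : Submodule O A} (hJ : Cj r Φ Ψ J)
    (hX : Cj r Φ Ψ X) : Cj r Φ Ψ (LI J X) := by
  refine ⟨fun g => ?_, ?_⟩
  · exact CA_LI_conj (CA_gg r g) (hJ.g g) (hX.g g)
  · exact CA_LI_conj h.qp hJ.p hX.p

theorem CA_Xs_le {c : Submodule O A} (hc : Cj r Φ Ψ c) (N : Subgroup G) : Xs r c N ≤ c := by
  refine Submodule.span_le.2 ?_
  rintro a ⟨x, hx, g, _, rfl⟩
  exact c.sub_mem (hc.g g x hx) hx

theorem CA_Xs_mono {c c' : Submodule O A} {N N' : Subgroup G} (hc : c ≤ c') (hN : N ≤ N') :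
    Xs r c N ≤ Xs r c' N' := by
  refine Submodule.span_mono ?_
  rintro a ⟨x, hx, g, hg, rfl⟩
  exact ⟨x, hc hx, g, hN hg, rfl⟩

theorem CA_Xs_cj (h : GRep n φ ζ Φ Ψ r) {c : Submodule O A} (hc : Cj r Φ Ψ c) {N : Subgroup G}
    (hN : N.Normal) (hNφ : ∀ g ∈ N, φ g ∈ N) : Cj r Φ Ψ (Xs r c N) := by
  have hconj : ∀ a b c : G, ∀ x : A, r a * (r b * x * r b⁻¹ - x) * r a⁻¹ =
      r (a * b * a⁻¹) * (r a * x * r a⁻¹) * r (a * b * a⁻¹)⁻¹ - r a * x * r a⁻¹ := by
    intro a b _ x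
    have e1 : r (a * b * a⁻¹) * (r a * x * r a⁻¹) * r (a * b * a⁻¹)⁻¹ =
        r a * (r b * x * r b⁻¹) * r a⁻¹ := by
      rw [mul_inv_rev, mul_inv_rev, inv_inv]
      simp only [map_mul]
      calc r a * r b * r a⁻¹ * (r a * x * r a⁻¹) * (r a * (r b⁻¹ * r a⁻¹))
          = r a * r b * (r a⁻¹ * r a) * x * (r a⁻¹ * r a) * (r b⁻¹ * r a⁻¹) := by
            simp only [mul_assoc]
        _ = _ := by rw [CA_gg, mul_one, mul_one]; simp only [mul_assoc]
    rw [e1, mul_sub, sub_mul]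
  have hsp : ∀ (p q : A), (∀ x ∈ c, ∀ g ∈ N, p * (r g * x * r g⁻¹ - x) * q ∈ Xs r c N) →
      ∀ a ∈ Xs r c N, p * a * q ∈ Xs r c N := by
    intro p q hpq a ha
    have h1 : Xs r c N ≤ (Xs r c N).comap
        ((LinearMap.mulRight O q).comp (LinearMap.mulLeft O p)) := by
      refine Submodule.span_le.2 ?_
      rintro y ⟨x, hx, g, hg, rfl⟩
      rw [SetLike.mem_coe, Submodule.mem_comap, LinearMap.comp_apply, LinearMap.mulLeft_apply,
        LinearMap.mulRight_apply]
      exact hpq x hx g hg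
    have h2 := h1 ha
    rw [Submodule.mem_comap, LinearMap.comp_apply, LinearMap.mulLeft_apply,
      LinearMap.mulRight_apply] at h2
    exact h2
  refine ⟨fun g => hsp _ _ ?_, hsp _ _ ?_⟩
  · intro x hx k hk
    rw [hconj g k 1 x]
    exact Submodule.subset_span ⟨_, hc.g g x hx, _, hN.conj_mem k hk g, rfl⟩
  · intro x hx k hk
    have e1 : Φ * (r k * x * r k⁻¹ - x) * Ψ =
        r (φ k) * (Φ * x * Ψ) * r (φ k)⁻¹ - Φ * x * Ψ := by
      have e2 : Φ * (r k * x * r k⁻¹) * Ψ = (Φ * r k * Ψ) * (Φ * x * Ψ) * (Φ * r k⁻¹ * Ψ) := by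
        calc Φ * (r k * x * r k⁻¹) * Ψ = Φ * r k * 1 * x * 1 * r k⁻¹ * Ψ := by
              simp only [mul_assoc, one_mul]
          _ = Φ * r k * (Ψ * Φ) * x * (Ψ * Φ) * r k⁻¹ * Ψ := by rw [h.qp]
          _ = _ := by simp only [mul_assoc]
      rw [mul_sub, sub_mul, e2, h.eq, h.eq, map_inv]
    rw [e1]
    exact Submodule.subset_span ⟨_, hc.p x hx, _, hNφ k hk, rfl⟩

theorem CA_Xs_comm {U : Submodule O A} (hU : Cj r Φ Ψ U) (N : Subgroup G) :
    Xs r U ⁅N, N⁆ ≤ Xs r (Xs r U N) N := by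
  obtain ⟨T, hT⟩ : ∃ T, T = Xs r (Xs r U N) N := ⟨_, rfl⟩
  rw [← hT]
  let K : Subgroup G :=
    { carrier := {w | ∀ x ∈ U, r w * x * r w⁻¹ - x ∈ T}
      one_mem' := by
        intro x _
        rw [inv_one, map_one, one_mul, mul_one, sub_self]
        exact T.zero_mem
      mul_mem' := by
        intro a b ha hb x hx
        have e1 : r (a * b) * x * r (a * b)⁻¹ - x =
            (r a * (r b * x * r b⁻¹) * r a⁻¹ - r b * x * r b⁻¹) + (r b * x * r b⁻¹ - x) := by
          rw [mul_inv_rev, map_mul, map_mul]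
          simp only [mul_assoc]
          abel
        rw [e1]
        exact T.add_mem (ha _ (hU.g b x hx)) (hb x hx)
      inv_mem' := by
        intro a ha x hx
        have e1 : r a⁻¹ * x * r a⁻¹⁻¹ - x =
            -(r a * (r a⁻¹ * x * r a⁻¹⁻¹) * r a⁻¹ - r a⁻¹ * x * r a⁻¹⁻¹) := by
          rw [inv_inv]
          have e2 : r a * (r a⁻¹ * x * r a) * r a⁻¹ = (r a * r a⁻¹) * x * (r a * r a⁻¹) := by
            simp only [mul_assoc]
          rw [e2, CA_gg', one_mul, mul_one]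
          abel
        rw [e1]
        exact T.neg_mem (ha _ (hU.g a⁻¹ x hx)) }
  have hK : ⁅N, N⁆ ≤ K := by
    rw [Subgroup.commutator_le]
    intro a ha b hb x hx
    obtain ⟨y, hy⟩ : ∃ y, y = r a⁻¹ * (r b⁻¹ * x * r b) * r a := ⟨_, rfl⟩
    have hyU : y ∈ U := by
      rw [hy]
      have h1 := hU.g b⁻¹ x hx
      rw [inv_inv] at h1
      have h2 := hU.g a⁻¹ _ h1
      rw [inv_inv] at h2
      exact h2
    have e1 : r ⁅a, b⁆ * x * r ⁅a, b⁆⁻¹ - x =
        (r a * (r b * y * r b⁻¹ - y) * r a⁻¹ - (r b * y * r b⁻¹ - y)) -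
          (r b * (r a * y * r a⁻¹ - y) * r b⁻¹ - (r a * y * r a⁻¹ - y)) := by
      have e2 : r ⁅a, b⁆ * x * r ⁅a, b⁆⁻¹ = r a * (r b * y * r b⁻¹) * r a⁻¹ := by
        rw [hy, commutatorElement_def, mul_inv_rev, mul_inv_rev, mul_inv_rev, inv_inv, inv_inv]
        simp only [map_mul, mul_assoc]
      have e3 : r b * (r a * y * r a⁻¹) * r b⁻¹ = x := by
        have e4 : r a * y * r a⁻¹ = r b⁻¹ * x * r b := by
          rw [hy]
          calc r a * (r a⁻¹ * (r b⁻¹ * x * r b) * r a) * r a⁻¹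
              = (r a * r a⁻¹) * (r b⁻¹ * x * r b) * (r a * r a⁻¹) := by simp only [mul_assoc]
            _ = _ := by rw [CA_gg', one_mul, mul_one]
        rw [e4]
        calc r b * (r b⁻¹ * x * r b) * r b⁻¹ = (r b * r b⁻¹) * x * (r b * r b⁻¹) := by
              simp only [mul_assoc]
          _ = _ := by rw [CA_gg', one_mul, mul_one]
      rw [e2, mul_sub (r a), sub_mul, mul_sub (r b), sub_mul, e3]
      abel
    show r ⁅a, b⁆ * x * r ⁅a, b⁆⁻¹ - x ∈ T
    rw [e1, hT]
    refine Submodule.sub_mem _ ?_ ?_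
    · exact Submodule.subset_span ⟨_, Submodule.subset_span ⟨y, hyU, b, hb, rfl⟩, a, ha, rfl⟩
    · exact Submodule.subset_span ⟨_, Submodule.subset_span ⟨y, hyU, a, ha, rfl⟩, b, hb, rfl⟩
  refine Submodule.span_le.2 ?_
  rintro z ⟨x, hx, g, hg, rfl⟩
  exact hK hg x hx

/-- steps (i), (iii): if `c` is trivial for `N` on `D / B` then `LI J (Xs r J N)` commutes with `c` on
`D / B` -/
theorem CA_cent {J c D B : Submodule O A} (hJ : Cj r Φ Ψ J) (hc : Cj r Φ Ψ c)
    (hcJ : ∀ y ∈ J, ∀ x ∈ c, y * x - x * y ∈ c) (hl : Lay r Φ J D B) (N : Subgroup G)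
    (htr : ∀ g ∈ N, ∀ x ∈ c, ∀ v ∈ D, (r g * x * r g⁻¹ - x) * v ∈ B) :
    ∀ u ∈ c, ∀ w ∈ LI J (Xs r J N), ∀ v ∈ D, (u * w - w * u) * v ∈ B := by
  have hsub : LI J (Xs r J N) ≤
      (⨅ u : c, ⨅ v : D, B.comap ((LinearMap.mulRight O (v : A)).comp
        (LinearMap.mulLeft O (u : A) - LinearMap.mulRight O (u : A)))) := by
    have hmem : ∀ w : A, (w ∈ (⨅ u : c, ⨅ v : D, B.comap ((LinearMap.mulRight O (v : A)).comp
        (LinearMap.mulLeft O (u : A) - LinearMap.mulRight O (u : A))))) ↔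
        ∀ u ∈ c, ∀ v ∈ D, (u * w - w * u) * v ∈ B := by
      intro w
      simp only [Submodule.mem_iInf, Submodule.mem_comap, LinearMap.comp_apply,
        LinearMap.sub_apply, LinearMap.mulLeft_apply, LinearMap.mulRight_apply, Subtype.forall]
    refine LI_le ?_ ?_
    · refine Submodule.span_le.2 ?_
      rintro z ⟨y, hy, g, hg, rfl⟩
      rw [SetLike.mem_coe, hmem]
      intro u hu v hv
      obtain ⟨u', hu'⟩ : ∃ u', u' = r g⁻¹ * u * r g := ⟨_, rfl⟩
      have hu'c : u' ∈ c := by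
        have h1 := hc.g g⁻¹ u hu
        rw [inv_inv] at h1
        rw [hu']
        exact h1
      have hu'u : ∀ v ∈ D, (u' - u) * v ∈ B := by
        intro v hv
        have h1 := htr g⁻¹ (N.inv_mem hg) u hu v hv
        rw [inv_inv, ← hu'] at h1
        exact h1
      -- the element [u, y]
      obtain ⟨k, hk⟩ : ∃ k, k = u * y - y * u := ⟨_, rfl⟩
      have hkc : k ∈ c := by
        have h1 := c.neg_mem (hcJ y hy u hu)
        rwa [neg_sub, ← hk] at h1
      have e1 : u * (r g * y * r g⁻¹ - y) - (r g * y * r g⁻¹ - y) * u =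
          r g * (u' * y - y * u') * r g⁻¹ - k := by
        have e2 : r g * (u' * y) * r g⁻¹ = u * (r g * y * r g⁻¹) := by
          rw [hu']
          calc r g * (r g⁻¹ * u * r g * y) * r g⁻¹ = (r g * r g⁻¹) * u * (r g * y * r g⁻¹) := by
                simp only [mul_assoc]
            _ = _ := by rw [CA_gg', one_mul]
        have e3 : r g * (y * u') * r g⁻¹ = (r g * y * r g⁻¹) * u := by
          rw [hu']
          calc r g * (y * (r g⁻¹ * u * r g)) * r g⁻¹ = (r g * y * r g⁻¹) * u * (r g * r g⁻¹) := by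
                simp only [mul_assoc]
            _ = _ := by rw [CA_gg', mul_one]
        rw [mul_sub (r g), sub_mul _ _ (r g⁻¹), e2, e3, hk]
        noncomm_ring
      rw [e1]
      have e4 : (r g * (u' * y - y * u') * r g⁻¹ - k) * v =
          r g * (((u' - u) * (y * (r g⁻¹ * v))) - y * ((u' - u) * (r g⁻¹ * v))) +
            (r g * k * r g⁻¹ - k) * v := by
        rw [hk]
        noncomm_ring
      rw [e4]
      have hgv : r g⁻¹ * v ∈ D := hl.sD.g g⁻¹ v hv
      refine B.add_mem (hl.sB.g g _ (B.sub_mem (hu'u _ (hl.lD y hy _ hgv)) ?_))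
        (htr g hg k hkc v hv)
      exact hl.lB y hy _ (hu'u _ hgv)
    · intro y hy w hw
      rw [hmem] at hw ⊢
      intro u hu v hv
      have e1 : (u * (y * w - w * y) - (y * w - w * y) * u) * v =
          -(((y * u - u * y) * w - w * (y * u - u * y)) * v) + y * ((u * w - w * u) * v) -
            (u * w - w * u) * (y * v) := by
        noncomm_ring
      rw [e1]
      refine B.sub_mem (B.add_mem (B.neg_mem (hw _ (hcJ y hy u hu) v hv)) ?_) ?_
      · exact hl.lB y hy _ (hw u hu v hv)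
      · exact hw u hu _ (hl.lD y hy v hv)
  intro u hu w hw v hv
  have h1 := hsub hw
  simp only [Submodule.mem_iInf, Submodule.mem_comap, LinearMap.comp_apply,
    LinearMap.sub_apply, LinearMap.mulLeft_apply, LinearMap.mulRight_apply, Subtype.forall] at h1
  exact h1 u hu v hv

/-- `[e, LI J (Xs r J N)] ≤ R` if `N` is trivial on `e` modulo `R` -/
theorem CA_eR {J e R : Submodule O A} (hJ : Cj r Φ Ψ J) (he : Cj r Φ Ψ e)
    (heJ : ∀ y ∈ J, ∀ x ∈ e, y * x - x * y ∈ e) (hRJ : ∀ y ∈ J, ∀ x ∈ R, y * x - x * y ∈ R)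
    (N : Subgroup G) (htr : ∀ g ∈ N, ∀ x ∈ e, r g * x * r g⁻¹ - x ∈ R) :
    ∀ x ∈ e, ∀ w ∈ LI J (Xs r J N), x * w - w * x ∈ R := by
  have hmem : ∀ w : A, (w ∈ (⨅ u : e, R.comap
      (LinearMap.mulLeft O (u : A) - LinearMap.mulRight O (u : A)))) ↔
      ∀ u ∈ e, u * w - w * u ∈ R := by
    intro w
    simp only [Submodule.mem_iInf, Submodule.mem_comap,
      LinearMap.sub_apply, LinearMap.mulLeft_apply, LinearMap.mulRight_apply, Subtype.forall]
  have hsub : LI J (Xs r J N) ≤ (⨅ u : e, R.comap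
      (LinearMap.mulLeft O (u : A) - LinearMap.mulRight O (u : A))) := by
    refine LI_le ?_ ?_
    · refine Submodule.span_le.2 ?_
      rintro z ⟨y, hy, g, hg, rfl⟩
      rw [SetLike.mem_coe, hmem]
      intro u hu
      obtain ⟨u', hu'⟩ : ∃ u', u' = r g⁻¹ * u * r g := ⟨_, rfl⟩
      have hu'c : u' ∈ e := by
        have h1 := he.g g⁻¹ u hu
        rw [inv_inv] at h1
        rw [hu']
        exact h1
      have hu'u : u' - u ∈ R := by
        have h1 := htr g⁻¹ (N.inv_mem hg) u hu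
        rw [inv_inv, ← hu'] at h1
        exact h1
      have e2 : r g * (u' * y) * r g⁻¹ = u * (r g * y * r g⁻¹) := by
        rw [hu']
        calc r g * (r g⁻¹ * u * r g * y) * r g⁻¹ = (r g * r g⁻¹) * u * (r g * y * r g⁻¹) := by
              simp only [mul_assoc]
          _ = _ := by rw [CA_gg', one_mul]
      have e3 : r g * (y * u') * r g⁻¹ = (r g * y * r g⁻¹) * u := by
        rw [hu']
        calc r g * (y * (r g⁻¹ * u * r g)) * r g⁻¹ = (r g * y * r g⁻¹) * u * (r g * r g⁻¹) := by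
              simp only [mul_assoc]
          _ = _ := by rw [CA_gg', mul_one]
      have e1 : u * (r g * y * r g⁻¹ - y) - (r g * y * r g⁻¹ - y) * u =
          (r g * (u' * y - y * u') * r g⁻¹ - (u' * y - y * u')) -
            (y * (u' - u) - (u' - u) * y) := by
        rw [mul_sub (r g), sub_mul _ _ (r g⁻¹), e2, e3]
        noncomm_ring
      rw [e1]
      refine R.sub_mem (htr g hg _ ?_) (hRJ y hy _ hu'u)
      have h1 := e.neg_mem (heJ y hy u' hu'c)
      rwa [neg_sub] at h1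
    · intro y hy w hw
      rw [hmem] at hw ⊢
      intro u hu
      have e1 : u * (y * w - w * y) - (y * w - w * y) * u =
          -((y * u - u * y) * w - w * (y * u - u * y)) +
            (y * (u * w - w * u) - (u * w - w * u) * y) := by
        noncomm_ring
      rw [e1]
      exact R.add_mem (R.neg_mem (hw _ (heJ y hy u hu))) (hRJ y hy _ (hw u hu))
  intro x hx w hw
  exact (hmem w).1 (hsub hw) x hx

theorem CA_RR_ideal {J e D B : Submodule O A} (heJ : ∀ y ∈ J, ∀ x ∈ e, y * x - x * y ∈ e)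
    (hl : Lay r Φ J D B) : ∀ y ∈ J, ∀ x ∈ RR e D B, y * x - x * y ∈ RR e D B := by
  rintro y hy x ⟨hx, hx'⟩
  refine ⟨heJ y hy x hx, fun z hz v hv => ?_⟩
  have e1 : ((y * x - x * y) * z - z * (y * x - x * y)) * v =
      y * ((x * z - z * x) * v) - (x * z - z * x) * (y * v) -
        (x * (y * z - z * y) - (y * z - z * y) * x) * v := by
    noncomm_ring
  rw [e1]
  refine B.sub_mem (B.sub_mem (hl.lB y hy _ (hx' z hz v hv)) (hx' z hz _ (hl.lD y hy v hv))) ?_
  exact hx' _ (heJ y hy z hz) v hv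

theorem CA_RR_cj (h : GRep n φ ζ Φ Ψ r) {J e D B : Submodule O A} (he : Cj r Φ Ψ e)
    (hl : Lay r Φ J D B) : Cj r Φ Ψ (RR e D B) := by
  have key : ∀ p q : A, p * q = 1 → q * p = 1 → (∀ a ∈ e, p * a * q ∈ e) →
      (∀ a ∈ e, q * a * p ∈ e) → (∀ v ∈ D, q * v ∈ D) → (∀ v ∈ B, p * v ∈ B) →
      ∀ x ∈ RR e D B, p * x * q ∈ RR e D B := by
    rintro p q hpq hqp h1 h2 h3 h4 x ⟨hx, hx'⟩
    refine ⟨h1 x hx, fun y hy v hv => ?_⟩
    have hy' : y = p * (q * y * p) * q := by
      calc y = (p * q) * y * (p * q) := by rw [hpq, one_mul, mul_one]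
        _ = _ := by simp only [mul_assoc]
    have e1 : (p * x * q * y - y * (p * x * q)) * v =
        p * ((x * (q * y * p) - (q * y * p) * x) * (q * v)) := by
      conv_lhs => rw [hy']
      rw [← CA_conj_br hqp]
      simp only [mul_assoc]
    rw [e1]
    exact h4 _ (hx' _ (h2 y hy) _ (h3 v hv))
  have hΨ : Ψ = Φ ^ (n - 1) := h.dt.psi
  have hΨD : ∀ v ∈ D, Ψ * v ∈ D := by
    have : ∀ k : ℕ, ∀ v ∈ D, Φ ^ k * v ∈ D := by
      intro k
      induction k with
      | zero => intro v hv; rwa [pow_zero, one_mul]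
      | succ k ih => intro v hv; rw [pow_succ', mul_assoc]; exact hl.sD.p _ (ih v hv)
    rw [hΨ]
    exact this _
  have hΨe : ∀ a ∈ e, Ψ * a * Φ ∈ e := by
    have hk : ∀ k : ℕ, ∀ a ∈ e, Φ ^ k * a * Ψ ^ k ∈ e := by
      intro k
      induction k with
      | zero => intro a ha; rwa [pow_zero, pow_zero, one_mul, mul_one]
      | succ k ih =>
        intro a ha
        rw [pow_succ', pow_succ]
        have e1 : Φ * Φ ^ k * a * (Ψ ^ k * Ψ) = Φ * (Φ ^ k * a * Ψ ^ k) * Ψ := by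
          simp only [mul_assoc]
        rw [e1]
        exact he.p _ (ih a ha)
    have hΦ : Ψ ^ (n - 1) = Φ := by
      have h1 : Ψ ^ n = 1 := h.dt.psi_pow
      have hn : n = n - 1 + 1 := by
        have := h.prim.pos
        omega
      rw [hn, pow_succ] at h1
      calc Ψ ^ (n - 1) = Ψ ^ (n - 1) * (Ψ * Φ) := by rw [h.qp, mul_one]
        _ = (Ψ ^ (n - 1) * Ψ) * Φ := by rw [mul_assoc]
        _ = Φ := by rw [h1, one_mul]
    intro a ha
    have h1 := hk (n - 1) a ha
    rwa [← hΨ, hΦ] at h1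
  refine ⟨fun g => key _ _ (CA_gg' r g) (CA_gg r g) (he.g g) (fun a ha => ?_)
    (hl.sD.g g⁻¹) (hl.sB.g g), key _ _ h.pq h.qp he.p hΨe hΨD hl.sB.p⟩
  have h1 := he.g g⁻¹ a ha
  rwa [inv_inv] at h1

theorem CA_res_grep (h : GRep n φ ζ Φ Ψ r) (H : Subgroup G) (hH : ∀ g ∈ H, φ g ∈ H) :
    GRep n (res φ H hH) ζ Φ Ψ (r.comp H.subtype) := by
  refine ⟨h.prim, h.pq, h.qp, h.pow, fun g => h.eq g, ?_⟩
  obtain ⟨K, hK⟩ := h.nil
  refine ⟨K, ?_⟩
  rw [eq_bot_iff, ← hK]
  refine pow_le_pow_left' ?_ _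
  refine Submodule.span_mono ?_
  rintro x ⟨g, rfl⟩
  exact ⟨g, rfl⟩

theorem CA_res_cj {c : Submodule O A} (hc : Cj r Φ Ψ c) (H : Subgroup G) :
    Cj (r.comp H.subtype) Φ Ψ c := by
  exact ⟨fun g => hc.g g, hc.p⟩

theorem CA_res_lay {L L' D B : Submodule O A} (hl : Lay r Φ L D B) (hL : L' ≤ L)
    (H : Subgroup G) : Lay (r.comp H.subtype) Φ L' D B := by
  exact ⟨hl.le, ⟨fun g => hl.sD.g g, hl.sD.p⟩, ⟨fun g => hl.sB.g g, hl.sB.p⟩,
    fun a ha => hl.lD a (hL ha), fun a ha => hl.lB a (hL ha)⟩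

theorem CA_res_Xs (U : Submodule O A) (H : Subgroup G) (K : Subgroup H) :
    Xs (r.comp H.subtype) U K = Xs r U (K.map H.subtype) := by
  refine le_antisymm (Submodule.span_mono ?_) (Submodule.span_mono ?_)
  · rintro a ⟨x, hx, g, hg, rfl⟩
    exact ⟨x, hx, g, ⟨g, hg, rfl⟩, rfl⟩
  · rintro a ⟨x, hx, g, ⟨k, hk, rfl⟩, rfl⟩
    exact ⟨x, hx, k, hk, rfl⟩

theorem CA_derG_res (s t : ℕ) :
    (derG t (⊤ : Subgroup (derG s (⊤ : Subgroup G)))).map (derG s (⊤ : Subgroup G)).subtype =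
      derG (s + t) ⊤ := by
  rw [derG_sub, ThR.derG_add]

/-- step (v) -/
theorem CA_step5 (h : GRep n φ ζ Φ Ψ r) {J : Submodule O A} (hL : IsLie J) (hJ : Cj r Φ Ψ J)
    (s t : ℕ) :
    Xs r J (derG (2 * s + t + 2) (⊤ : Subgroup G)) ≤
      Xs (r.comp (derG s (⊤ : Subgroup G)).subtype)
        (LI (LI J (Xs r J (derG s (⊤ : Subgroup G))))
          (Xs (r.comp (derG s (⊤ : Subgroup G)).subtype) (LI J (Xs r J (derG s (⊤ : Subgroup G))))
            (derG s (⊤ : Subgroup (derG s (⊤ : Subgroup G))))))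
        (derG t (⊤ : Subgroup (derG s (⊤ : Subgroup G)))) := by
  obtain ⟨J1, hJ1⟩ : ∃ J1, J1 = LI J (Xs r J (derG s (⊤ : Subgroup G))) := ⟨_, rfl⟩
  rw [← hJ1]
  have hX1 : Xs r J (derG s (⊤ : Subgroup G)) ≤ J1 := hJ1 ▸ le_LI _ _
  have hJ1c : Cj r Φ Ψ J1 := by
    rw [hJ1]
    exact CA_LI_cj h hJ (CA_Xs_cj h hJ (derG_top_normal s) (derG_top_phi φ s))
  rw [CA_res_Xs, CA_derG_res, CA_res_Xs, CA_derG_res]
  have e1 : derG (2 * s + t + 2) (⊤ : Subgroup G) =
      ⁅derG (2 * s + t + 1) (⊤ : Subgroup G), derG (2 * s + t + 1) ⊤⁆ := rfl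
  have e2 : derG (2 * s + t + 1) (⊤ : Subgroup G) =
      ⁅derG (2 * s + t) (⊤ : Subgroup G), derG (2 * s + t) ⊤⁆ := rfl
  have hle : ∀ i j : ℕ, i ≤ j → derG j (⊤ : Subgroup G) ≤ derG i ⊤ := by
    intro i j hij
    obtain ⟨k, rfl⟩ := Nat.exists_eq_add_of_le hij
    exact derG_top_le i k
  rw [e1]
  refine (CA_Xs_comm hJ _).trans ?_
  refine (CA_Xs_mono ((CA_Xs_mono le_rfl (hle s _ (by omega))).trans hX1) le_rfl).trans ?_
  rw [e2]
  refine (CA_Xs_comm hJ1c _).trans ?_
  refine CA_Xs_mono ?_ (hle _ _ (by omega))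
  refine (CA_Xs_mono le_rfl (hle (s + s) _ (by omega))).trans ?_
  exact le_LI _ _

end grp

end Pool.Agent.FT
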