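import Pool.Agent.FT.Base

/-!
# HLa: the first layer of the Heisenberg lemma (part (1) of the proof in `HLs.lean`)

`HLa_C` is the space of the elements of `e` which commute with `J` and the group on `D / B`; it contains the
commutators of elements of `e` and is stable under `Φ · Ψ`. `HLa_D` is spanned by `B` and the elements
`cmp i z * v`, `z ∈ HLa_C`, `v ∈ D`, `i ∉ P`. For such `z`, `i` the space `B + (cmp i z) D` has its degrees (modulo `B`)
in `S ∩ (S + i)`, a proper subset of `S`; so the group `derG s ⊤` acts trivially on it modulo `B`.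
-/

set_option autoImplicit false

namespace Pool.Agent.FT

open Pool.Agent.LgP Pool.Agent.ThR

variable {O A G : Type} [CommRing O] [Ring A] [Algebra O A] [Group G]

/-- the elements of `e` which commute with `J` and the group on `D / B` -/
def HLa_C (r : G →* A) (J e D B : Submodule O A) : Submodule O A where
  carrier := {z | z ∈ e ∧ (∀ w ∈ J, ∀ v ∈ D, (z * w - w * z) * v ∈ B) ∧
    ∀ g, ∀ v ∈ D, (z * r g - r g * z) * v ∈ B}
  add_mem' := by
    rintro a b ⟨ha1, ha2, ha3⟩ ⟨hb1, hb2, hb3⟩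
    refine ⟨e.add_mem ha1 hb1, fun w hw v hv => ?_, fun g v hv => ?_⟩
    · have h1 : ((a + b) * w - w * (a + b)) * v = (a * w - w * a) * v + (b * w - w * b) * v := by
        noncomm_ring
      rw [h1]
      exact B.add_mem (ha2 w hw v hv) (hb2 w hw v hv)
    · have h1 : ((a + b) * r g - r g * (a + b)) * v =
          (a * r g - r g * a) * v + (b * r g - r g * b) * v := by
        noncomm_ring
      rw [h1]
      exact B.add_mem (ha3 g v hv) (hb3 g v hv)
  zero_mem' := by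
    refine ⟨e.zero_mem, fun w _ v _ => ?_, fun g v _ => ?_⟩
    · rw [zero_mul, mul_zero, sub_self, zero_mul]
      exact B.zero_mem
    · rw [zero_mul, mul_zero, sub_self, zero_mul]
      exact B.zero_mem
  smul_mem' := by
    rintro o a ⟨ha1, ha2, ha3⟩
    refine ⟨e.smul_mem o ha1, fun w hw v hv => ?_, fun g v hv => ?_⟩
    · rw [smul_mul_assoc, mul_smul_comm, ← smul_sub, smul_mul_assoc]
      exact B.smul_mem o (ha2 w hw v hv)
    · rw [smul_mul_assoc, mul_smul_comm, ← smul_sub, smul_mul_assoc]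
      exact B.smul_mem o (ha3 g v hv)

/-- the first layer -/
def HLa_D (n : ℕ) (ζ : O) (Φ Ψ : A) (r : G →* A) (P : AddSubgroup (ZMod n))
    (J e D B : Submodule O A) : Submodule O A :=
  B ⊔ Submodule.span O {x | ∃ i : ℕ, (i : ZMod n) ∉ P ∧ ∃ z ∈ HLa_C r J e D B, ∃ v ∈ D,
    x = cmp n ζ Φ Ψ i z * v}

variable {n : ℕ} {φ : G →* G} {ζ : O} {Φ Ψ : A} {r : G →* A} {J e D B : Submodule O A}

private theorem HLa_psi (hd : Dt n ζ Φ Ψ) {X : Submodule O A} (hX : ∀ x ∈ X, Φ * x ∈ X) (x : A)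
    (hx : x ∈ X) : Ψ * x ∈ X := by
  have hp : ∀ j : ℕ, Φ ^ j * x ∈ X := by
    intro j
    induction j with
    | zero => simpa using hx
    | succ j ih =>
      rw [pow_succ', mul_assoc]
      exact hX _ ih
  rw [hd.psi]
  exact hp _

private theorem HLa_psi' (hd : Dt n ζ Φ Ψ) {X : Submodule O A} (hX : ∀ x ∈ X, Φ * x * Ψ ∈ X)
    (x : A) (hx : x ∈ X) : Ψ * x * Φ ∈ X := by
  have hΨ : Ψ = Φ ^ (n - 1) := hd.psi
  have hΦ : Φ = Ψ ^ (n - 1) := by
    have h1 : Ψ ^ n = 1 := hd.psi_pow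
    have h2 : n = (n - 1) + 1 := by have := hd.prim.pos; omega
    calc Φ = Φ * Ψ ^ n := by rw [h1, mul_one]
      _ = Φ * Ψ ^ ((n - 1) + 1) := by rw [← h2]
      _ = Ψ ^ (n - 1) := by rw [pow_succ', ← mul_assoc, hd.pq, one_mul]
  have h1 := iter_mem X hX hx (n - 1)
  rw [← hΨ] at h1
  rwa [← hΦ] at h1

private theorem HLa_psi_r (h : GRep n φ ζ Φ Ψ r) (g : G) : ∃ g' : G, Ψ * r g * Φ = r g' := by
  have hd := h.dt
  have hΨ : Ψ = Φ ^ (n - 1) := hd.psi
  have hΦ : Φ = Ψ ^ (n - 1) := by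
    have h1 : Ψ ^ n = 1 := hd.psi_pow
    have h2 : n = (n - 1) + 1 := by have := hd.prim.pos; omega
    calc Φ = Φ * Ψ ^ n := by rw [h1, mul_one]
      _ = Φ * Ψ ^ ((n - 1) + 1) := by rw [← h2]
      _ = Ψ ^ (n - 1) := by rw [pow_succ', ← mul_assoc, hd.pq, one_mul]
  have key : ∀ j : ℕ, ∃ g' : G, Φ ^ j * r g * Ψ ^ j = r g' := by
    intro j
    induction j with
    | zero => exact ⟨g, by simp⟩
    | succ j ih =>
      obtain ⟨g', hg'⟩ := ih
      refine ⟨φ g', ?_⟩
      rw [← h.eq, ← hg', pow_succ', pow_succ]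
      simp only [mul_assoc]
  obtain ⟨g', hg'⟩ := key (n - 1)
  refine ⟨g', ?_⟩
  rw [← hΨ, ← hΦ] at hg'
  exact hg'

theorem HLa_C_p (h : GRep n φ ζ Φ Ψ r) (hJ : Cj r Φ Ψ J) (he : Cj r Φ Ψ e)
    (hL : Lay r Φ J D B) : ∀ z ∈ HLa_C r J e D B, Φ * z * Ψ ∈ HLa_C r J e D B := by
  have hd := h.dt
  rintro z ⟨hz1, hz2, hz3⟩
  refine ⟨he.p z hz1, fun w hw v hv => ?_, fun g v hv => ?_⟩
  · have hw' : Ψ * w * Φ ∈ J := HLa_psi' hd hJ.p w hw
    have hv' : Ψ * v ∈ D := HLa_psi hd hL.sD.p v hv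
    have h1 := hL.sB.p _ (hz2 _ hw' _ hv')
    have h2 : Φ * ((z * (Ψ * w * Φ) - Ψ * w * Φ * z) * (Ψ * v)) =
        (Φ * z * Ψ * w - w * (Φ * z * Ψ)) * v := by
      have h3 : Φ * ((z * (Ψ * w * Φ) - Ψ * w * Φ * z) * (Ψ * v)) =
          Φ * z * Ψ * w * (Φ * Ψ) * v - (Φ * Ψ) * w * (Φ * z * Ψ) * v := by
        noncomm_ring
      rw [h3, hd.pq]
      noncomm_ring
    rw [h2] at h1
    exact h1
  · obtain ⟨g', hg'⟩ := HLa_psi_r h g
    have hv' : Ψ * v ∈ D := HLa_psi hd hL.sD.p v hv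
    have h1 := hL.sB.p _ (hz3 g' _ hv')
    rw [← hg'] at h1
    have h2 : Φ * ((z * (Ψ * r g * Φ) - Ψ * r g * Φ * z) * (Ψ * v)) =
        (Φ * z * Ψ * r g - r g * (Φ * z * Ψ)) * v := by
      have h3 : Φ * ((z * (Ψ * r g * Φ) - Ψ * r g * Φ * z) * (Ψ * v)) =
          Φ * z * Ψ * r g * (Φ * Ψ) * v - (Φ * Ψ) * r g * (Φ * z * Ψ) * v := by
        noncomm_ring
      rw [h3, hd.pq]
      noncomm_ring
    rw [h2] at h1
    exact h1

/-- a proper subset of `S` -/
private theorem HLa_card {k : ℕ} (hn : 0 < n) {S : Set (ZMod n)} (hSk : S.ncard ≤ k + 1)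
    (P : AddSubgroup (ZMod n)) (hP : ∀ f, f ∈ P ↔ ∀ x, x ∈ S ↔ x + f ∈ S) (f : ZMod n)
    (hf : f ∉ P) : (S ∩ {x | x - f ∈ S}).ncard ≤ k := by
  have : NeZero n := ⟨by omega⟩
  have hfin : S.Finite := Set.toFinite S
  have h1 : (S ∩ {x | x - f ∈ S}).ncard < S.ncard := by
    refine Set.ncard_lt_ncard ?_ hfin
    refine ⟨Set.inter_subset_left, fun hsub => hf ?_⟩
    rw [hP]
    have hmaps : Set.MapsTo (fun x => x - f) S S := fun x hx => (hsub hx).2
    have hinj : Set.InjOn (fun x : ZMod n => x - f) S := fun x _ y _ hxy => by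
      simpa using hxy
    have hsurj : Set.SurjOn (fun x => x - f) S S := by
      have h2 : (fun x => x - f) '' S = S := by
        refine Set.eq_of_subset_of_ncard_le (Set.image_subset_iff.2 hmaps) ?_ hfin
        rw [Set.InjOn.ncard_image hinj]
      intro x hx
      rw [h2]
      exact hx
    intro x
    constructor
    · intro hx
      obtain ⟨y, hy, hyx⟩ := hsurj hx
      have h3 : y = x + f := by
        rw [← hyx]
        simp
      rw [← h3]
      exact hy
    · intro hx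
      have h3 := hmaps hx
      simpa using h3
  omega

theorem hl_first {n s k : ℕ} (hT : TT n s k) {S : Set (ZMod n)} (hSk : S.ncard ≤ k + 1)
    {G : Type} [Group G] {φ : G →* G} (hG : Ph n G φ) {O A : Type} [CommRing O] [Ring A]
    [Algebra O A] {ζ : O} {Φ Ψ : A} {r : G →* A} (h : GRep n φ ζ Φ Ψ r) (hS : Sup n ζ Φ S)
    (P : AddSubgroup (ZMod n)) (hP : ∀ f, f ∈ P ↔ ∀ x, x ∈ S ↔ x + f ∈ S)
    (J e : Submodule O A) (hJ : Cj r Φ Ψ J) (he : Cj r Φ Ψ e) (heJ : e ≤ J)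
    (hJe : ∀ y ∈ J, ∀ x ∈ e, y * x - x * y ∈ e) (h0 : Tr0 n Φ Ψ J)
    (D B : Submodule O A) (hL : Lay r Φ J D B)
    (hcJ : ∀ x ∈ e, ∀ y ∈ e, ∀ z ∈ J, ∀ v ∈ D,
      ((x * y - y * x) * z - z * (x * y - y * x)) * v ∈ B)
    (hcG : ∀ x ∈ e, ∀ y ∈ e, ∀ g, ∀ v ∈ D,
      ((x * y - y * x) * r g - r g * (x * y - y * x)) * v ∈ B) :
    ∃ D1 : Submodule O A, D1 ≤ D ∧ B ≤ D1 ∧ Lay r Φ J D D1 ∧ Lay r Φ J D1 B ∧
      (∀ i : ℕ, ((i : ZMod n) ∉ P ∨ (i : ZMod n) = 0) → ∀ x ∈ e, ∀ y ∈ e, ∀ v ∈ D,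
        cmp n ζ Φ Ψ i (x * y - y * x) * v ∈ D1) ∧
      (∀ g ∈ derG s (⊤ : Subgroup G), ∀ y ∈ J, ∀ v ∈ D1, (r g * y * r g⁻¹ - y) * v ∈ B) := by
  have hd := h.dt
  have hn := hd.prim.pos
  have hCp := HLa_C_p h hJ he hL
  have hCc : ∀ (i : ℕ), ∀ z ∈ HLa_C r J e D B, cmp n ζ Φ Ψ i z ∈ HLa_C r J e D B :=
    fun i z hz => cmp_mem _ hCp hz i
  have hgen : ∀ i : ℕ, (i : ZMod n) ∉ P → ∀ z ∈ HLa_C r J e D B, ∀ v ∈ D,
      cmp n ζ Φ Ψ i z * v ∈ HLa_D n ζ Φ Ψ r P J e D B :=
    fun i hi z hz v hv => Submodule.mem_sup_right (Submodule.subset_span ⟨i, hi, z, hz, v, hv, rfl⟩)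
  have hBD1 : B ≤ HLa_D n ζ Φ Ψ r P J e D B := le_sup_left
  have hD1D : HLa_D n ζ Φ Ψ r P J e D B ≤ D := by
    refine sup_le hL.le (Submodule.span_le.2 ?_)
    rintro x ⟨i, _, z, hz, v, hv, rfl⟩
    exact hL.lD _ (heJ (hCc i z hz).1) v hv
  -- stability of `D1`
  have hind : ∀ T : Submodule O A, B ≤ T → (∀ i : ℕ, (i : ZMod n) ∉ P →
      ∀ z ∈ HLa_C r J e D B, ∀ v ∈ D, cmp n ζ Φ Ψ i z * v ∈ T) →
      HLa_D n ζ Φ Ψ r P J e D B ≤ T := by
    intro T h1 h2
    refine sup_le h1 (Submodule.span_le.2 ?_)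
    rintro x ⟨i, hi, z, hz, v, hv, rfl⟩
    exact h2 i hi z hz v hv
  have hsg : ∀ g, ∀ x ∈ HLa_D n ζ Φ Ψ r P J e D B, r g * x ∈ HLa_D n ζ Φ Ψ r P J e D B := by
    intro g
    refine hind ((HLa_D n ζ Φ Ψ r P J e D B).comap (LinearMap.mulLeft O (r g))) ?_ ?_
    · intro x hx
      exact hBD1 (hL.sB.g g x hx)
    · intro i hi z hz v hv
      rw [Submodule.mem_comap, LinearMap.mulLeft_apply]
      have h1 : r g * (cmp n ζ Φ Ψ i z * v) = cmp n ζ Φ Ψ i z * (r g * v) -
          (cmp n ζ Φ Ψ i z * r g - r g * cmp n ζ Φ Ψ i z) * v := by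
        noncomm_ring
      rw [h1]
      exact Submodule.sub_mem _ (hgen i hi z hz _ (hL.sD.g g v hv))
        (hBD1 ((hCc i z hz).2.2 g v hv))
  have hsp : ∀ x ∈ HLa_D n ζ Φ Ψ r P J e D B, Φ * x ∈ HLa_D n ζ Φ Ψ r P J e D B := by
    refine hind ((HLa_D n ζ Φ Ψ r P J e D B).comap (LinearMap.mulLeft O Φ)) ?_ ?_
    · intro x hx
      exact hBD1 (hL.sB.p x hx)
    · intro i hi z hz v hv
      rw [Submodule.mem_comap, LinearMap.mulLeft_apply]
      have h1 : Hm ζ Φ i (cmp n ζ Φ Ψ i z) := cmp_hm hd i z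
      unfold Hm at h1
      rw [← mul_assoc, h1, smul_mul_assoc, mul_assoc]
      exact Submodule.smul_mem _ _ (hgen i hi z hz _ (hL.sD.p v hv))
  have hsl : ∀ w ∈ J, ∀ x ∈ HLa_D n ζ Φ Ψ r P J e D B, w * x ∈ HLa_D n ζ Φ Ψ r P J e D B := by
    intro w hw
    refine hind ((HLa_D n ζ Φ Ψ r P J e D B).comap (LinearMap.mulLeft O w)) ?_ ?_
    · intro x hx
      exact hBD1 (hL.lB w hw x hx)
    · intro i hi z hz v hv
      rw [Submodule.mem_comap, LinearMap.mulLeft_apply]
      have h1 : w * (cmp n ζ Φ Ψ i z * v) = cmp n ζ Φ Ψ i z * (w * v) -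
          (cmp n ζ Φ Ψ i z * w - w * cmp n ζ Φ Ψ i z) * v := by
        noncomm_ring
      rw [h1]
      exact Submodule.sub_mem _ (hgen i hi z hz _ (hL.lD w hw v hv))
        (hBD1 ((hCc i z hz).2.1 w hw v hv))
  refine ⟨HLa_D n ζ Φ Ψ r P J e D B, hD1D, hBD1, ⟨hD1D, hL.sD, ⟨hsg, hsp⟩, hL.lD, hsl⟩,
    ⟨hBD1, ⟨hsg, hsp⟩, hL.sB, hsl, hL.lB⟩, ?_, ?_⟩
  · intro i hi x hx y hy v hv
    have hz : x * y - y * x ∈ HLa_C r J e D B :=
      ⟨hJe x (heJ hx) y hy, fun w hw v hv => hcJ x hx y hy w hw v hv,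
        fun g v hv => hcG x hx y hy g v hv⟩
    rcases hi with hi | hi
    · exact hgen i hi _ hz v hv
    · have h1 : i % n = 0 % n := by
        rw [Nat.zero_mod]
        exact Nat.mod_eq_zero_of_dvd ((ZMod.natCast_eq_zero_iff i n).1 hi)
      have h2 : cmp n ζ Φ Ψ i (x * y - y * x) = cmp n ζ Φ Ψ 0 (x * y - y * x) := by
        unfold ThR.cmp
        congr 1
        refine Finset.sum_congr rfl fun k _ => ?_
        congr 1
        apply zpow_congr hd.prim
        have h3 : (n - 1) * i * k = (n - 1) * k * i := by ring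
        have h4 : (n - 1) * 0 * k = (n - 1) * k * 0 := by ring
        rw [h3, h4, Nat.mul_mod, h1, ← Nat.mul_mod]
      rw [h2, cmp_zero, h0 _ (heJ hz.1), smul_zero, zero_mul]
      exact Submodule.zero_mem _
  · intro g hg y hy
    refine hind (B.comap (LinearMap.mulLeft O (r g * y * r g⁻¹ - y))) ?_ ?_
    · intro x hx
      rw [Submodule.mem_comap, LinearMap.mulLeft_apply]
      exact hL.lB _ (J.sub_mem (hJ.g g y hy) hy) x hx
    · intro i hi z hz v hv
      rw [Submodule.mem_comap, LinearMap.mulLeft_apply]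
      obtain ⟨c, hc⟩ : ∃ c, c = cmp n ζ Φ Ψ i z := ⟨_, rfl⟩
      have hcm : c ∈ HLa_C r J e D B := by rw [hc]; exact hCc i z hz
      have hch : Hm ζ Φ i c := by rw [hc]; exact cmp_hm hd i z
      rw [← hc]
      -- the space `B + c D`
      obtain ⟨E, hE⟩ : ∃ E, E = B ⊔ D.map (LinearMap.mulLeft O c) := ⟨_, rfl⟩
      have hBE : B ≤ E := by rw [hE]; exact le_sup_left
      have hcE : ∀ v ∈ D, c * v ∈ E := by
        intro v hv
        rw [hE]
        exact Submodule.mem_sup_right ⟨v, hv, rfl⟩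
      have hEind : ∀ T : Submodule O A, B ≤ T → (∀ v ∈ D, c * v ∈ T) → E ≤ T := by
        intro T h1 h2
        rw [hE]
        refine sup_le h1 ?_
        rintro _ ⟨v, hv, rfl⟩
        exact h2 v hv
      have hEg : ∀ g, ∀ x ∈ E, r g * x ∈ E := by
        intro g
        refine hEind (E.comap (LinearMap.mulLeft O (r g))) ?_ ?_
        · intro x hx
          exact hBE (hL.sB.g g x hx)
        · intro v hv
          rw [Submodule.mem_comap, LinearMap.mulLeft_apply]
          have h1 : r g * (c * v) = c * (r g * v) - (c * r g - r g * c) * v := by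
            noncomm_ring
          rw [h1]
          exact Submodule.sub_mem _ (hcE _ (hL.sD.g g v hv)) (hBE (hcm.2.2 g v hv))
      have hEp : ∀ x ∈ E, Φ * x ∈ E := by
        refine hEind (E.comap (LinearMap.mulLeft O Φ)) ?_ ?_
        · intro x hx
          exact hBE (hL.sB.p x hx)
        · intro v hv
          rw [Submodule.mem_comap, LinearMap.mulLeft_apply]
          unfold Hm at hch
          rw [← mul_assoc, hch, smul_mul_assoc, mul_assoc]
          exact Submodule.smul_mem _ _ (hcE _ (hL.sD.p v hv))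
      have hEl : ∀ w ∈ J, ∀ x ∈ E, w * x ∈ E := by
        intro w hw
        refine hEind (E.comap (LinearMap.mulLeft O w)) ?_ ?_
        · intro x hx
          exact hBE (hL.lB w hw x hx)
        · intro v hv
          rw [Submodule.mem_comap, LinearMap.mulLeft_apply]
          have h1 : w * (c * v) = c * (w * v) - (c * w - w * c) * v := by
            noncomm_ring
          rw [h1]
          exact Submodule.sub_mem _ (hcE _ (hL.lD w hw v hv)) (hBE (hcm.2.1 w hw v hv))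
      have hsupp : ∀ j : ℕ, (j : ZMod n) ∉ S ∩ {x | x - (i : ZMod n) ∈ S} → ∀ x ∈ E,
          ide n ζ Φ j * x ∈ B := by
        intro j hj
        refine hEind (B.comap (LinearMap.mulLeft O (ide n ζ Φ j))) ?_ ?_
        · intro x hx
          exact ide_stab hL.sB.p j x hx
        · intro v hv
          rw [Submodule.mem_comap, LinearMap.mulLeft_apply]
          by_cases hjS : (j : ZMod n) ∈ S
          · have h1 : (j : ZMod n) - (i : ZMod n) ∉ S := fun hcon => hj ⟨hjS, hcon⟩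
            have h2 : ((j + (n - 1) * i : ℕ) : ZMod n) = (j : ZMod n) - (i : ZMod n) := by
              have h3 : ((n - 1) * i + i : ℕ) = n * i := pred_mul hn i
              have h4 : (((n - 1) * i + i : ℕ) : ZMod n) = 0 := by
                rw [h3, Nat.cast_mul, ZMod.natCast_self, zero_mul]
              rw [Nat.cast_add] at h4
              rw [Nat.cast_add, sub_eq_add_neg]
              congr 1
              exact eq_neg_of_add_eq_zero_left h4
            rw [← h2] at h1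
            have h5 := hch.ide hd (j + (n - 1) * i)
            rw [hS _ h1, mul_zero] at h5
            have h6 : ide n ζ Φ (j + (n - 1) * i + i) = ide n ζ Φ j := by
              apply ide_congr hd
              have h3 : ((n - 1) * i + i : ℕ) = n * i := pred_mul hn i
              rw [add_assoc, h3, Nat.add_mul_mod_self_left]
            rw [h6] at h5
            rw [← mul_assoc, ← h5, zero_mul]
            exact Submodule.zero_mem _
          · rw [hS _ hjS, zero_mul]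
            exact Submodule.zero_mem _
      have hTn : Tn n s (S ∩ {x | x - (i : ZMod n) ∈ S}) :=
        hT _ (HLa_card hn hSk P hP _ hi)
      have htriv := relD hTn hG h 0 B E hBE (fun g _ x hx => hEg g x hx)
        (fun g _ x hx => hL.sB.g g x hx) hEp hL.sB.p hsupp
      rw [zero_add] at htriv
      have hv' : c * v ∈ E := hcE v hv
      have h1 : (r g * y * r g⁻¹ - y) * (c * v) =
          r g * (y * ((r g⁻¹ - 1) * (c * v))) + (r g - 1) * (y * (c * v)) := by
        noncomm_ring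
      rw [h1]
      refine Submodule.add_mem _ (hL.sB.g g _ (hL.lB y hy _ (htriv g⁻¹ ?_ _ hv')))
        (htriv g hg _ (hEl y hy _ hv'))
      exact (derG s (⊤ : Subgroup G)).inv_mem hg

end Pool.Agent.FT
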