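import Pool.Agent.FT.Base

/-!
# HLc: the count in the Heisenberg lemma (pure combinatorics in `ZMod n`)

`S` is periodic under the subgroup `P`. `E` is a set of nonzero elements. A list `l₁` (elements of `E`) and a list `l₂`
(elements `α` with `α, -α ∈ E`, `2α ∉ P`), all outside `P` and pairwise `≢ ± ` modulo `P`, always admit a `t ∈ S` with
`t + α ∈ S` or `t - α ∈ S` (`α ∈ l₁`), `t ± α ∈ S` (`α ∈ l₂`). Then `|E| + 1 ≤ |S|`.

PROOF. Choose `l₂` of maximal length among the lists satisfying its conditions (with `l₁ = []`); then `l₁` of maximal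
length for this `l₂` (lengths are bounded: pairwise different elements of the finite type `ZMod n`, `n > 0`; induct or use
`Nat.find`/strong induction on `n - length`). Take `t`. By maximality every `β ∈ E`, `β ∉ P`, is congruent to `± α` modulo `P`
for some `α` in `l₁ ++ l₂`, so `t + β ∈ S` or `t - β ∈ S` (periodicity). If moreover `-β ∈ E` and `2β ∉ P` then
`β ≡ ± α` with `α ∈ l₂` (maximality of `l₂`), so `t + β ∈ S` and `t - β ∈ S`. For `β ∈ P`: `t + β ∈ S`. Define
`σ β = t + β` if `t + β ∈ S`, else `t - β`, for `β ∈ insert 0 E`; `σ β ∈ S`. INJECTIVE: `σ β = σ γ`, `β ≠ γ`: one sign is `+` and one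
is `-`, say `t + β = t - γ`, `t + γ ∉ S`; so `β = -γ`, both are in `E` (`0 ≠`: `γ = 0` has sign `+`, and `β = 0` gives `γ = 0`), `γ ∉ P`;
if `2γ ∉ P` then `t + γ ∈ S` by the above, a contradiction; if `2γ ∈ P` then `t + γ = (t + β) + 2γ ∈ S` by periodicity, a
contradiction. So `(insert 0 E).ncard ≤ S.ncard` (`Set.ncard_le_ncard_of_injOn`; all sets are finite as `n > 0`).
-/

set_option autoImplicit false

namespace Pool.Agent.FT

/-- a maximal list for a bounded predicate -/
private theorem hlc_max {A : Type} [Finite A] (N : ℕ) (Q : List A → Prop) (h0 : Q [])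
    (hb : ∀ l, Q l → l.length ≤ N) : ∃ l, Q l ∧ ∀ l', Q l' → l'.length ≤ l.length := by
  have hfin : {l : List A | Q l}.Finite :=
    (List.finite_length_le A N).subset fun l hl => hb l hl
  obtain ⟨l, hl, hm⟩ := Set.exists_max_image {l : List A | Q l} List.length hfin ⟨[], h0⟩
  exact ⟨l, hl, fun l' hl' => hm l' hl'⟩

theorem hl_count (n : ℕ) (hn : 0 < n) (S : Set (ZMod n)) (P : AddSubgroup (ZMod n))
    (hP : ∀ p ∈ P, ∀ x ∈ S, x + p ∈ S) (E : Set (ZMod n)) (h0 : (0 : ZMod n) ∉ E)
    (hE : ∀ l₁ l₂ : List (ZMod n), (∀ α ∈ l₁, α ∈ E ∧ α ∉ P) →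
      (∀ α ∈ l₂, α ∈ E ∧ -α ∈ E ∧ α ∉ P ∧ α + α ∉ P) →
      (l₁ ++ l₂).Pairwise (fun α β => α - β ∉ P ∧ α + β ∉ P) →
      ∃ t : ZMod n, t ∈ S ∧ (∀ α ∈ l₁, t + α ∈ S ∨ t - α ∈ S) ∧
        ∀ α ∈ l₂, t + α ∈ S ∧ t - α ∈ S) :
    E.ncard + 1 ≤ S.ncard := by
  classical
  haveI : NeZero n := ⟨hn.ne'⟩
  haveI : Finite (ZMod n) := inferInstance
  have hbound : ∀ l : List (ZMod n), l.Pairwise (fun α β => α - β ∉ P ∧ α + β ∉ P) →
      l.length ≤ n := by
    intro l hl
    have hnd : l.Nodup := by
      refine hl.imp ?_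
      rintro a b ⟨h1, -⟩ rfl
      exact h1 (by rw [sub_self]; exact P.zero_mem)
    have h := hnd.length_le_card
    rwa [ZMod.card] at h
  -- the maximal `l₂`
  obtain ⟨l₂, ⟨h2a, h2b⟩, h2m⟩ := hlc_max n
    (fun l₂ : List (ZMod n) => (∀ α ∈ l₂, α ∈ E ∧ -α ∈ E ∧ α ∉ P ∧ α + α ∉ P) ∧
      l₂.Pairwise (fun α β => α - β ∉ P ∧ α + β ∉ P))
    ⟨by simp, List.Pairwise.nil⟩ (fun l hl => hbound l hl.2)
  -- the maximal `l₁`
  obtain ⟨l₁, ⟨h1a, h1b⟩, h1m⟩ := hlc_max n
    (fun l₁ : List (ZMod n) => (∀ α ∈ l₁, α ∈ E ∧ α ∉ P) ∧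
      (l₁ ++ l₂).Pairwise (fun α β => α - β ∉ P ∧ α + β ∉ P))
    ⟨by simp, by simpa using h2b⟩
    (fun l hl => le_trans (by rw [List.length_append]; omega) (hbound _ hl.2))
  obtain ⟨t, htS, ht1, ht2⟩ := hE l₁ l₂ h1a h2a h1b
  -- periodicity in both directions
  have per : ∀ x y : ZMod n, x ∈ S → y - x ∈ P → y ∈ S := by
    intro x y hx hxy
    have := hP _ hxy x hx
    simpa using this
  -- elements of `E` outside `P` are represented
  have rep1 : ∀ β ∈ E, β ∉ P → ∃ α ∈ l₁ ++ l₂, β - α ∈ P ∨ β + α ∈ P := by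
    intro β hβ hβP
    by_contra hcon
    push Not at hcon
    have := h1m (β :: l₁) ⟨by
      intro α hα
      rcases List.mem_cons.1 hα with rfl | hα
      · exact ⟨hβ, hβP⟩
      · exact h1a α hα, by
      rw [List.cons_append, List.pairwise_cons]
      exact ⟨fun α hα => hcon α hα, h1b⟩⟩
    simp at this
  have rep2 : ∀ β ∈ E, -β ∈ E → β ∉ P → β + β ∉ P → ∃ α ∈ l₂, β - α ∈ P ∨ β + α ∈ P := by
    intro β hβ hβ' hβP hβ2
    by_contra hcon
    push Not at hcon
    have := h2m (β :: l₂) ⟨by
      intro α hα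
      rcases List.mem_cons.1 hα with rfl | hα
      · exact ⟨hβ, hβ', hβP, hβ2⟩
      · exact h2a α hα, by
      rw [List.pairwise_cons]
      exact ⟨fun α hα => hcon α hα, h2b⟩⟩
    simp at this
  -- transfer along the congruences
  have tr1 : ∀ α β : ZMod n, (β - α ∈ P ∨ β + α ∈ P) → (t + α ∈ S ∨ t - α ∈ S) →
      (t + β ∈ S ∨ t - β ∈ S) := by
    intro α β h hα
    rcases h with h | h
    · rcases hα with hα | hα
      · left
        exact per _ _ hα (by have : t + β - (t + α) = β - α := by abel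
                             rwa [this])
      · right
        exact per _ _ hα (by have : t - β - (t - α) = -(β - α) := by abel
                             rw [this]; exact P.neg_mem h)
    · rcases hα with hα | hα
      · right
        exact per _ _ hα (by have : t - β - (t + α) = -(β + α) := by abel
                             rw [this]; exact P.neg_mem h)
      · left
        exact per _ _ hα (by have : t + β - (t - α) = β + α := by abel
                             rwa [this])
  have tr2 : ∀ α β : ZMod n, (β - α ∈ P ∨ β + α ∈ P) → (t + α ∈ S ∧ t - α ∈ S) →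
      (t + β ∈ S ∧ t - β ∈ S) := by
    intro α β h hα
    rcases h with h | h
    · exact ⟨per _ _ hα.1 (by have : t + β - (t + α) = β - α := by abel
                              rwa [this]),
        per _ _ hα.2 (by have : t - β - (t - α) = -(β - α) := by abel
                         rw [this]; exact P.neg_mem h)⟩
    · exact ⟨per _ _ hα.2 (by have : t + β - (t - α) = β + α := by abel
                              rwa [this]),
        per _ _ hα.1 (by have : t - β - (t + α) = -(β + α) := by abel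
                         rw [this]; exact P.neg_mem h)⟩
  have key1 : ∀ β ∈ E, β ∉ P → (t + β ∈ S ∨ t - β ∈ S) := by
    intro β hβ hβP
    obtain ⟨α, hα, h⟩ := rep1 β hβ hβP
    refine tr1 α β h ?_
    rcases List.mem_append.1 hα with hα | hα
    · exact ht1 α hα
    · exact Or.inl (ht2 α hα).1
  have key2 : ∀ β ∈ E, -β ∈ E → β ∉ P → β + β ∉ P → (t + β ∈ S ∧ t - β ∈ S) := by
    intro β hβ hβ' hβP hβ2
    obtain ⟨α, hα, h⟩ := rep2 β hβ hβ' hβP hβ2
    exact tr2 α β h (ht2 α hα)
  have key0 : ∀ β ∈ P, t + β ∈ S := fun β hβ => hP β hβ t htS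
  -- the injection
  let σ : ZMod n → ZMod n := fun β => if t + β ∈ S then t + β else t - β
  have hσp : ∀ β, t + β ∈ S → σ β = t + β := fun β h => if_pos h
  have hσm : ∀ β, t + β ∉ S → σ β = t - β := fun β h => if_neg h
  have hmem : ∀ β ∈ insert (0 : ZMod n) E, σ β ∈ S := by
    intro β hβ
    by_cases h : t + β ∈ S
    · rw [hσp β h]; exact h
    · rw [hσm β h]
      have hβP : β ∉ P := fun hp => h (key0 β hp)
      rcases Set.mem_insert_iff.1 hβ with rfl | hβE
      · exact absurd P.zero_mem hβP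
      · exact (key1 β hβE hβP).resolve_left h
  -- the mixed case is impossible
  have mixed : ∀ β ∈ insert (0 : ZMod n) E, ∀ γ ∈ insert (0 : ZMod n) E, t + β ∈ S →
      t + γ ∉ S → t + β ≠ t - γ := by
    intro β hβ γ hγ hβS hγS heq
    have hγP : γ ∉ P := fun hp => hγS (key0 γ hp)
    have hγE : γ ∈ E := by
      rcases Set.mem_insert_iff.1 hγ with rfl | h
      · exact absurd P.zero_mem hγP
      · exact h
    have hβγ : β = -γ := by
      have : t + β = t + -γ := by rw [heq, sub_eq_add_neg]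
      exact add_left_cancel this
    have hβE : -γ ∈ E := by
      rcases Set.mem_insert_iff.1 hβ with h | h
      · exfalso
        rw [h] at hβγ
        have : γ = 0 := by rw [eq_comm, neg_eq_zero] at hβγ; exact hβγ
        exact hγP (this ▸ P.zero_mem)
      · rwa [hβγ] at h
    by_cases h2 : γ + γ ∈ P
    · refine hγS (per _ _ hβS ?_)
      have : t + γ - (t + β) = γ + γ := by rw [hβγ]; abel
      rwa [this]
    · exact hγS (key2 γ hγE hβE hγP h2).1
  have hinj : Set.InjOn σ (insert (0 : ZMod n) E) := by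
    intro β hβ γ hγ h
    by_cases h1 : t + β ∈ S
    · by_cases h2 : t + γ ∈ S
      · rw [hσp β h1, hσp γ h2] at h
        exact add_left_cancel h
      · rw [hσp β h1, hσm γ h2] at h
        exact absurd h (mixed β hβ γ hγ h1 h2)
    · by_cases h2 : t + γ ∈ S
      · rw [hσm β h1, hσp γ h2] at h
        exact absurd h.symm (mixed γ hγ β hβ h2 h1)
      · rw [hσm β h1, hσm γ h2] at h
        exact sub_right_injective h
  have hcard : (insert (0 : ZMod n) E).ncard = E.ncard + 1 :=
    Set.ncard_insert_of_notMem h0 (Set.toFinite E)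
  rw [← hcard]
  exact Set.ncard_le_ncard_of_injOn σ hmem hinj (Set.toFinite S)

end Pool.Agent.FT
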