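import Pool.Agent.FT.Base

/-!
# HLw: words in the Heisenberg lemma

`e` is a space of operators on `D / B` whose commutators are central (commute with `e` on `D / B`) and have, on `D / B`,
only components of degree in `P - 0`. `Zd e α` is the span of the `[x, y]`, `x ∈ e` homogeneous of degree `α`, `y ∈ e`. If
the product of the `Zd α` (`α ∈ l₁`) and of the `Zd α * Zd (-α)` (`α ∈ l₂`) is not `0` on `D / B`, then there is `t ∈ S` with
`t ± α ∈ S` for one sign (`α ∈ l₁`) or for both signs (`α ∈ l₂`).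

PROOF. Throughout `≡` means modulo `B` after applying to elements of `D`. Let `z(x,y) = x y - y x`.
(0) For homogeneous `x, y ∈ e` of degrees `a, b`: `z(x,y) v ∈ B` (`v ∈ D`) unless `a + b ∈ P` and `a + b ≠ 0` (`hdeg`; `z` is
homogeneous of degree `a + b`). So letters of `e` of degrees `± α + P`, `± β + P` with `α ≢ ± β` commute on `D / B`.
(1) The product is a span: some product of generators applied to some `v ∈ D` is not in `B`; `v` may be taken homogeneous
(`v = ide i * v`), and in each generator `z(x,y)` also `y` homogeneous (`y = sum of cmp`). For `α ∈ l₁`: `z(x,y)` with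
`deg x = α`, `deg y ∈ -α + P`. For `α ∈ l₂`: `z(x₁,y₁) z(y₂,x₂)` with `deg x₁ = α`, `deg y₁ ∈ -α + P`, `deg y₂ = -α`,
`deg x₂ ∈ α + P`; `z(x₁,y₂)` has degree `0`, so it kills `D / B`, and
`[[x₁ x₂, y₁], y₂] ≡ z(x₁,y₁) z(x₂,y₂) + z(x₂,y₁) z(x₁,y₂) ≡ z(x₁,y₁) z(x₂,y₂)` (the `z` are central).
(2) Expand: `z(x,y) = x y - y x` and `[[x₁x₂,y₁],y₂] = x₁x₂y₁y₂ - y₁x₁x₂y₂ - y₂x₁x₂y₁ + y₂y₁x₁x₂`. So there are words `w_α`
(one for each `α` in `l₁ ++ l₂`; two or four letters) with `w_1 w_2 .. w_m v ∉ B` (the left operator is applied last).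
(3) SUFFIXES. Let `w_j = p_j t_j` be any decompositions. As the letters of different words commute on `D / B`,
`w_1 .. w_m v ≡ (p_1 .. p_m)(t_1 .. t_m) v`, so `t_1 .. t_m v ∉ B`; this is homogeneous of degree `i + sum of deg t_j`, hence
`i + sum of deg t_j ∈ S`. Formulate this as a lemma on a list of pairs of lists of homogeneous letters.
(4) `t :=` `i + sum over α ∈ l₂ of the degree of the middle suffix`: for the four words of `α ∈ l₂` (suffixes, degrees modulo `P`)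
`x₁x₂y₁y₂`: `0, -α, -2α, -α, 0`, middle `y₂`; `y₁x₁x₂y₂`: `0, -α, 0, α, 0`, middle the empty suffix; `y₂x₁x₂y₁`: the same;
`y₂y₁x₁x₂`: `0, α, 2α, α, 0`, middle `x₂`. In each case there are suffixes of degree `middle + α` and `middle - α` (mod `P`).
(3) with all `t_j` middle (empty for `l₁`): `t ∈ S`. With `t_j` changed for one `α ∈ l₂`: `t + α, t - α ∈ S`. For `α ∈ l₁`: the words
`x y`, `y x` have a suffix of one letter: `t - α ∈ S` or `t + α ∈ S`. (`S` is `P`-periodic: `hP`.) QED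
-/

set_option autoImplicit false

namespace Pool.Agent.FT

open Pool.Agent.LgP Pool.Agent.ThR

/-- span of the `[x, y]`, `x ∈ e` homogeneous of degree `α`, `y ∈ e` -/
def Zd {O A : Type} [CommRing O] [Ring A] [Algebra O A] {n : ℕ} (ζ : O) (Φ : A)
    (e : Submodule O A) (α : ZMod n) : Submodule O A :=
  Submodule.span O {z | ∃ x ∈ hp ζ Φ e α.val, ∃ y ∈ e, z = x * y - y * x}

section HLw

variable {O A : Type} [CommRing O] [Ring A] [Algebra O A] {n : ℕ} {ζ : O} {Φ Ψ : A}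

theorem HLw_cmp_self (h : Dt n ζ Φ Ψ) {d : ℕ} {a : A} (ha : Hm ζ Φ d a) :
    cmp n ζ Φ Ψ d a = a := by
  have hn := h.prim.pos
  have h1 : ∀ j : ℕ, ζ ^ ((n - 1) * d * j) • (Φ ^ j * a * Ψ ^ j) = a := by
    intro j
    have e1 : Φ ^ j * a = ζ ^ (d * j) • (a * Φ ^ j) := by
      induction j with
      | zero => simp
      | succ j ih =>
        unfold Hm at ha
        rw [pow_succ', mul_assoc, ih, mul_smul_comm, ← mul_assoc, ha, smul_mul_assoc, smul_smul,
          mul_assoc, ← pow_add, ← pow_succ']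
        congr 2
    rw [e1, smul_mul_assoc, mul_assoc a (Φ ^ j) (Ψ ^ j), h.pow_pq, mul_one, smul_smul, ← pow_add]
    have e2 : (n - 1) * d * j + d * j = n * (d * j) := by
      have := pred_mul hn (d * j)
      calc (n - 1) * d * j + d * j = (n - 1) * (d * j) + d * j := by ring
        _ = _ := this
    rw [e2, pow_mul, h.prim.pow, one_pow, one_smul]
  unfold ThR.cmp
  simp only [h1]
  rw [Finset.sum_const, Finset.card_range, ← Nat.cast_smul_eq_nsmul O]
  exact zinv h.prim a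

/-- letters of class `± α` -/
private def HLw_E (ζ : O) (Φ : A) (P : AddSubgroup (ZMod n)) (e : Submodule O A) (α : ZMod n) :
    Set A :=
  {x | x ∈ e ∧ ∃ d : ℕ, Hm ζ Φ d x ∧ ((d : ZMod n) - α ∈ P ∨ (d : ZMod n) + α ∈ P)}

/-- words of class `± α` -/
private def HLw_W (ζ : O) (Φ : A) (P : AddSubgroup (ZMod n)) (e : Submodule O A) (α : ZMod n) :
    Submonoid A := Submonoid.closure (HLw_E ζ Φ P e α)

/-- `w` has a suffix of degree `δ` modulo `P` -/
private def HLw_Sx (ζ : O) (Φ : A) (P : AddSubgroup (ZMod n)) (e : Submodule O A) (α : ZMod n)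
    (w : A) (δ : ZMod n) : Prop :=
  ∃ p ∈ HLw_W ζ Φ P e α, ∃ t ∈ HLw_W ζ Φ P e α, ∃ d : ℕ, w = p * t ∧ Hm ζ Φ d t ∧
    (d : ZMod n) - δ ∈ P

/-- the words of a block -/
private def HLw_G (ζ : O) (Φ : A) (P : AddSubgroup (ZMod n)) (e : Submodule O A)
    (κ : ZMod n × Bool) (w : A) (m : ZMod n) : Prop :=
  HLw_Sx ζ Φ P e κ.1 w m ∧
    (κ.2 = false → HLw_Sx ζ Φ P e κ.1 w (m + κ.1) ∨ HLw_Sx ζ Φ P e κ.1 w (m - κ.1)) ∧
    (κ.2 = true → HLw_Sx ζ Φ P e κ.1 w (m + κ.1) ∧ HLw_Sx ζ Φ P e κ.1 w (m - κ.1))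

/-- the span of the words of a block -/
private def HLw_V (ζ : O) (Φ : A) (P : AddSubgroup (ZMod n)) (e : Submodule O A)
    (κ : ZMod n × Bool) : Submodule O A :=
  Submodule.span O {w | ∃ m, HLw_G ζ Φ P e κ w m}

private theorem HLw_word_stab {P : AddSubgroup (ZMod n)} {e M : Submodule O A}
    (hM : ∀ x ∈ e, ∀ v ∈ M, x * v ∈ M) {α : ZMod n} {w : A} (hw : w ∈ HLw_W ζ Φ P e α) :
    ∀ v ∈ M, w * v ∈ M := by
  unfold HLw_W at hw
  induction hw using Submonoid.closure_induction with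
  | mem x hx => exact fun v hv => hM x hx.1 v hv
  | one => intro v hv; rwa [one_mul]
  | mul x y _ _ h1 h2 => intro v hv; rw [mul_assoc]; exact h1 _ (h2 v hv)

private theorem HLw_comm {P : AddSubgroup (ZMod n)} {e D B : Submodule O A}
    (hD : ∀ x ∈ e, ∀ v ∈ D, x * v ∈ D) (hB : ∀ x ∈ e, ∀ v ∈ B, x * v ∈ B) {α β : ZMod n}
    (hc : ∀ x ∈ HLw_E ζ Φ P e α, ∀ y ∈ HLw_E ζ Φ P e β, ∀ v ∈ D, (x * y - y * x) * v ∈ B) :
    ∀ w ∈ HLw_W ζ Φ P e α, ∀ w' ∈ HLw_W ζ Φ P e β, ∀ v ∈ D, (w * w' - w' * w) * v ∈ B := by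
  have h1 : ∀ x ∈ HLw_E ζ Φ P e α, ∀ w' ∈ HLw_W ζ Φ P e β, ∀ v ∈ D,
      (x * w' - w' * x) * v ∈ B := by
    intro x hx w' hw'
    unfold HLw_W at hw'
    induction hw' using Submonoid.closure_induction with
    | mem y hy => exact hc x hx y hy
    | one => intro v _; rw [mul_one, one_mul, sub_self, zero_mul]; exact B.zero_mem
    | mul y z hy hz h1 h2 =>
      intro v hv
      have e1 : (x * (y * z) - y * z * x) * v = (x * y - y * x) * (z * v) +
          y * ((x * z - z * x) * v) := by noncomm_ring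
      rw [e1]
      exact B.add_mem (h1 _ (HLw_word_stab hD hz v hv)) (HLw_word_stab hB hy _ (h2 v hv))
  intro w hw
  unfold HLw_W at hw
  induction hw using Submonoid.closure_induction with
  | mem x hx => exact h1 x hx
  | one => intro w' _ v _; rw [mul_one, one_mul, sub_self, zero_mul]; exact B.zero_mem
  | mul y z hy hz h2 h3 =>
    intro w' hw' v hv
    have e1 : (y * z * w' - w' * (y * z)) * v = y * ((z * w' - w' * z) * v) +
        (y * w' - w' * y) * (z * v) := by noncomm_ring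
    rw [e1]
    exact B.add_mem (HLw_word_stab hB hy _ (h3 w' hw' v hv))
      (h2 w' hw' _ (HLw_word_stab hD hz v hv))

/-- prefixes and suffixes -/
private theorem HLw_pt {P : AddSubgroup (ZMod n)} {e D B : Submodule O A}
    (hD : ∀ x ∈ e, ∀ v ∈ D, x * v ∈ D) (hB : ∀ x ∈ e, ∀ v ∈ B, x * v ∈ B)
    (hcc : ∀ α β : ZMod n, α - β ∉ P → α + β ∉ P → ∀ w ∈ HLw_W ζ Φ P e α,
      ∀ w' ∈ HLw_W ζ Φ P e β, ∀ v ∈ D, (w * w' - w' * w) * v ∈ B)
    (L : List (ZMod n × A × ZMod n)) (hL : ∀ x ∈ L, HLw_Sx ζ Φ P e x.1 x.2.1 x.2.2)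
    (hpw : (L.map Prod.fst).Pairwise (fun α β => α - β ∉ P ∧ α + β ∉ P)) :
    ∃ (p t : A) (d : ℕ), (∀ v ∈ D, (L.map fun x => x.2.1).prod * v - p * (t * v) ∈ B) ∧
      (∀ v ∈ D, p * v ∈ D) ∧ (∀ v ∈ B, p * v ∈ B) ∧ (∀ v ∈ D, t * v ∈ D) ∧
      Hm ζ Φ d t ∧ (d : ZMod n) - (L.map fun x => x.2.2).sum ∈ P ∧
      ∀ β : ZMod n, (∀ x ∈ L, β - x.1 ∉ P ∧ β + x.1 ∉ P) → ∀ w ∈ HLw_W ζ Φ P e β, ∀ v ∈ D,
        (w * p - p * w) * v ∈ B := by
  induction L with
  | nil =>
    refine ⟨1, 1, 0, ?_, ?_, ?_, ?_, ?_, ?_, ?_⟩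
    · intro v _
      simp
    · intro v hv; rwa [one_mul]
    · intro v hv; rwa [one_mul]
    · intro v hv; rwa [one_mul]
    · unfold Hm; simp
    · simp
    · intro β _ w _ v _
      rw [mul_one, one_mul, sub_self, zero_mul]
      exact B.zero_mem
  | cons a L ih =>
    rw [List.map_cons, List.pairwise_cons] at hpw
    obtain ⟨p, t, d, h1, h2, h3, h4, h5, h6, h7⟩ :=
      ih (fun x hx => hL x (List.mem_cons_of_mem _ hx)) hpw.2
    obtain ⟨p0, hp0, t0, ht0, d0, hw, hd0, hd0'⟩ := hL a List.mem_cons_self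
    have ha : ∀ x ∈ L, a.1 - x.1 ∉ P ∧ a.1 + x.1 ∉ P := fun x hx =>
      hpw.1 _ (List.mem_map_of_mem hx)
    refine ⟨p0 * p, t0 * t, d0 + d, ?_, ?_, ?_, ?_, hd0.mul h5, ?_, ?_⟩
    · intro v hv
      rw [List.map_cons, List.prod_cons, hw]
      obtain ⟨W, hW⟩ : ∃ W, W = (L.map fun x => x.2.1).prod := ⟨_, rfl⟩
      rw [← hW] at h1 ⊢
      have e1 : p0 * t0 * W * v - p0 * p * (t0 * t * v) =
          p0 * (t0 * (W * v - p * (t * v))) + p0 * ((t0 * p - p * t0) * (t * v)) := by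
        noncomm_ring
      rw [e1]
      exact B.add_mem (HLw_word_stab hB hp0 _ (HLw_word_stab hB ht0 _ (h1 v hv)))
        (HLw_word_stab hB hp0 _ (h7 a.1 ha t0 ht0 _ (h4 v hv)))
    · intro v hv; rw [mul_assoc]; exact HLw_word_stab hD hp0 _ (h2 v hv)
    · intro v hv; rw [mul_assoc]; exact HLw_word_stab hB hp0 _ (h3 v hv)
    · intro v hv; rw [mul_assoc]; exact HLw_word_stab hD ht0 _ (h4 v hv)
    · rw [List.map_cons, List.sum_cons]
      have e1 : ((d0 + d : ℕ) : ZMod n) - (a.2.2 + (L.map fun x => x.2.2).sum) =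
          ((d0 : ZMod n) - a.2.2) + ((d : ZMod n) - (L.map fun x => x.2.2).sum) := by
        push_cast
        ring
      rw [e1]
      exact P.add_mem hd0' h6
    · intro β hβ w hw' v hv
      have h8 := hβ a List.mem_cons_self
      have e1 : (w * (p0 * p) - p0 * p * w) * v = (w * p0 - p0 * w) * (p * v) +
          p0 * ((w * p - p * w) * v) := by noncomm_ring
      rw [e1]
      refine B.add_mem (hcc β a.1 h8.1 h8.2 w hw' p0 hp0 _ (h2 v hv)) ?_
      exact HLw_word_stab hB hp0 _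
        (h7 β (fun x hx => hβ x (List.mem_cons_of_mem _ hx)) w hw' v hv)

private theorem HLw_suf (h : Dt n ζ Φ Ψ) {S : Set (ZMod n)} (hS : Sup n ζ Φ S)
    {P : AddSubgroup (ZMod n)} (hP : ∀ p ∈ P, ∀ x ∈ S, x + p ∈ S) {e D B : Submodule O A}
    (hD : ∀ x ∈ e, ∀ v ∈ D, x * v ∈ D) (hB : ∀ x ∈ e, ∀ v ∈ B, x * v ∈ B)
    (hcc : ∀ α β : ZMod n, α - β ∉ P → α + β ∉ P → ∀ w ∈ HLw_W ζ Φ P e α,
      ∀ w' ∈ HLw_W ζ Φ P e β, ∀ v ∈ D, (w * w' - w' * w) * v ∈ B)
    (L : List (ZMod n × A × ZMod n)) (hL : ∀ x ∈ L, HLw_Sx ζ Φ P e x.1 x.2.1 x.2.2)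
    (hpw : (L.map Prod.fst).Pairwise (fun α β => α - β ∉ P ∧ α + β ∉ P)) (i : ℕ) (v : A)
    (hv : ide n ζ Φ i * v ∈ D) (hne : (L.map fun x => x.2.1).prod * (ide n ζ Φ i * v) ∉ B) :
    (i : ZMod n) + (L.map fun x => x.2.2).sum ∈ S := by
  obtain ⟨p, t, d, h1, h2, h3, h4, h5, h6, h7⟩ := HLw_pt hD hB hcc L hL hpw
  have h8 : t * (ide n ζ Φ i * v) ≠ 0 := by
    intro h0
    apply hne
    have := h1 _ hv
    rwa [h0, mul_zero, sub_zero] at this
  have h9 : ((i + d : ℕ) : ZMod n) ∈ S := by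
    by_contra hcon
    apply h8
    rw [← mul_assoc, h5.ide h, hS _ hcon, zero_mul, zero_mul]
  have e1 : (i : ZMod n) + (L.map fun x => x.2.2).sum =
      ((i + d : ℕ) : ZMod n) + -((d : ZMod n) - (L.map fun x => x.2.2).sum) := by
    push_cast
    ring
  rw [e1]
  exact hP _ (P.neg_mem h6) _ h9

/-- extraction of words -/
private theorem HLw_extract {K M : Type} (Q : K → A → M → Prop) (D : Submodule O A)
    (Ks : List K) : ∀ B : Submodule O A,
    ¬ ((Ks.map fun κ => Submodule.span O {w | ∃ m, Q κ w m}).prod * D ≤ B) →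
    ∃ L : List (K × A × M), L.map Prod.fst = Ks ∧ (∀ x ∈ L, Q x.1 x.2.1 x.2.2) ∧
      ∃ v ∈ D, (L.map fun x => x.2.1).prod * v ∉ B := by
  induction Ks with
  | nil =>
    intro B hne
    rw [List.map_nil, List.prod_nil, one_mul] at hne
    obtain ⟨v, hv, hvB⟩ := SetLike.not_le_iff_exists.mp hne
    exact ⟨[], rfl, by simp, v, hv, by simpa using hvB⟩
  | cons κ Ks ih =>
    intro B hne
    rw [List.map_cons, List.prod_cons, mul_assoc] at hne
    have h1 : ∃ w m, Q κ w m ∧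
        ¬ ((Ks.map fun κ => Submodule.span O {w | ∃ m, Q κ w m}).prod * D ≤
          B.comap (LinearMap.mulLeft O w)) := by
      by_contra hcon
      push Not at hcon
      apply hne
      rw [Submodule.mul_le]
      intro a ha y hy
      induction ha using Submodule.span_induction with
      | mem w hw =>
        obtain ⟨m, hm⟩ := hw
        exact hcon w m hm hy
      | zero => rw [zero_mul]; exact B.zero_mem
      | add a b _ _ h1 h2 => rw [add_mul]; exact B.add_mem h1 h2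
      | smul c a _ h1 => rw [smul_mul_assoc]; exact B.smul_mem _ h1
    obtain ⟨w, m, hw, h2⟩ := h1
    obtain ⟨L, hL1, hL2, v, hv, hvB⟩ := ih _ h2
    refine ⟨(κ, w, m) :: L, by rw [List.map_cons, hL1], ?_, v, hv, ?_⟩
    · intro x hx
      rcases List.mem_cons.mp hx with h3 | h3
      · rw [h3]; exact hw
      · exact hL2 x h3
    · rw [List.map_cons, List.prod_cons, mul_assoc]
      exact hvB

/-- replacing operator spaces -/
private theorem HLw_repl {K : Type} (X Y : K → Submodule O A) {D B : Submodule O A} (hBD : B ≤ D)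
    (Ks : List K)
    (hXB : ∀ κ ∈ Ks, ∀ x ∈ X κ, ∀ v ∈ B, x * v ∈ B)
    (hYD : ∀ κ ∈ Ks, ∀ x ∈ Y κ, ∀ v ∈ D, x * v ∈ D)
    (hXY : ∀ κ ∈ Ks, ∀ x ∈ X κ, ∃ y ∈ Y κ, ∀ v ∈ D, (x - y) * v ∈ B) (M N : Submodule O A)
    (hMN : M ≤ N ⊔ B) (hN : N ≤ D) :
    (Ks.map X).prod * M ≤ ((Ks.map Y).prod * N) ⊔ B ∧ (Ks.map Y).prod * N ≤ D := by
  induction Ks with
  | nil => simpa using ⟨hMN, hN⟩
  | cons κ Ks ih =>
    obtain ⟨h1, h2⟩ := ih (fun κ hκ => hXB κ (List.mem_cons_of_mem _ hκ))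
      (fun κ hκ => hYD κ (List.mem_cons_of_mem _ hκ))
      (fun κ hκ => hXY κ (List.mem_cons_of_mem _ hκ))
    rw [List.map_cons, List.prod_cons, mul_assoc, List.map_cons, List.prod_cons, mul_assoc]
    constructor
    · rw [Submodule.mul_le]
      intro x hx z hz
      obtain ⟨a, ha, b, hb, rfl⟩ := Submodule.mem_sup.mp (h1 hz)
      obtain ⟨y, hy, hxy⟩ := hXY κ List.mem_cons_self x hx
      have e1 : x * (a + b) = y * a + ((x - y) * a + x * b) := by noncomm_ring
      rw [e1]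
      refine Submodule.add_mem _ (Submodule.mem_sup_left (Submodule.mul_mem_mul hy ha)) ?_
      exact Submodule.mem_sup_right (B.add_mem (hxy a (h2 ha))
        (hXB κ List.mem_cons_self x hx b hb))
    · rw [Submodule.mul_le]
      intro y hy z hz
      exact hYD κ List.mem_cons_self y hy z (h2 hz)

end HLw

theorem hl_words {O A : Type} [CommRing O] [Ring A] [Algebra O A] {n : ℕ} {ζ : O} {Φ Ψ : A}
    (h : Dt n ζ Φ Ψ) (S : Set (ZMod n)) (hS : Sup n ζ Φ S) (P : AddSubgroup (ZMod n))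
    (hP : ∀ p ∈ P, ∀ x ∈ S, x + p ∈ S) (e D B : Submodule O A)
    (hep : ∀ x ∈ e, Φ * x * Ψ ∈ e) (hDp : ∀ x ∈ D, Φ * x ∈ D) (hBp : ∀ x ∈ B, Φ * x ∈ B)
    (hBD : B ≤ D) (hD : ∀ x ∈ e, ∀ v ∈ D, x * v ∈ D) (hB : ∀ x ∈ e, ∀ v ∈ B, x * v ∈ B)
    (hcen : ∀ x ∈ e, ∀ y ∈ e, ∀ z ∈ e, ∀ v ∈ D,
      ((x * y - y * x) * z - z * (x * y - y * x)) * v ∈ B)
    (hdeg : ∀ i : ℕ, ((i : ZMod n) ∉ P ∨ (i : ZMod n) = 0) → ∀ x ∈ e, ∀ y ∈ e, ∀ v ∈ D,
      cmp n ζ Φ Ψ i (x * y - y * x) * v ∈ B)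
    (l₁ l₂ : List (ZMod n)) (h₁ : ∀ α ∈ l₁, α ∉ P) (h₂ : ∀ α ∈ l₂, α ∉ P ∧ α + α ∉ P)
    (hpw : (l₁ ++ l₂).Pairwise (fun α β => α - β ∉ P ∧ α + β ∉ P))
    (hne : ¬ ((l₁.map (Zd ζ Φ e)).prod * ((l₂.map fun α => Zd ζ Φ e α * Zd ζ Φ e (-α)).prod * D)
      ≤ B)) :
    ∃ t : ZMod n, t ∈ S ∧ (∀ α ∈ l₁, t + α ∈ S ∨ t - α ∈ S) ∧
      ∀ α ∈ l₂, t + α ∈ S ∧ t - α ∈ S := by
  have hn := h.prim.pos
  have : NeZero n := ⟨hn.ne'⟩
  -- the commutator of homogeneous letters
  have hkill : ∀ (a b : ℕ) (x y : A), x ∈ e → y ∈ e → Hm ζ Φ a x → Hm ζ Φ b y →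
      (((a : ZMod n) + (b : ZMod n) ∉ P) ∨ ((a : ZMod n) + (b : ZMod n) = 0)) → ∀ v ∈ D,
      (x * y - y * x) * v ∈ B := by
    intro a b x y hx hy hxa hyb hab v hv
    have h1 : Hm ζ Φ (a + b) (x * y - y * x) := by
      have h2 := hxa.mul hyb
      have h3 := hyb.mul hxa
      rw [add_comm b a] at h3
      unfold Hm at h2 h3 ⊢
      rw [mul_sub, h2, h3, sub_mul, smul_sub]
    have h2 := hdeg (a + b) (by push_cast; exact hab) x hx y hy v hv
    rwa [HLw_cmp_self h h1] at h2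
  have hcE : ∀ α β : ZMod n, α - β ∉ P → α + β ∉ P → ∀ x ∈ HLw_E ζ Φ P e α,
      ∀ y ∈ HLw_E ζ Φ P e β, ∀ v ∈ D, (x * y - y * x) * v ∈ B := by
    rintro α β hm hp x ⟨hx, a, hxa, ha⟩ y ⟨hy, b, hyb, hb⟩ v hv
    refine hkill a b x y hx hy hxa hyb (Or.inl ?_) v hv
    intro hab
    rcases ha with ha | ha <;> rcases hb with hb | hb
    · apply hp
      have := P.sub_mem hab (P.add_mem ha hb)
      have e1 : (a : ZMod n) + b - ((a : ZMod n) - α + ((b : ZMod n) - β)) = α + β := by ring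
      rwa [e1] at this
    · apply hm
      have := P.sub_mem hab (P.add_mem ha hb)
      have e1 : (a : ZMod n) + b - ((a : ZMod n) - α + ((b : ZMod n) + β)) = α - β := by ring
      rwa [e1] at this
    · apply hm
      have := P.neg_mem (P.sub_mem hab (P.add_mem ha hb))
      have e1 : -((a : ZMod n) + b - ((a : ZMod n) + α + ((b : ZMod n) - β))) = α - β := by ring
      rwa [e1] at this
    · apply hp
      have := P.neg_mem (P.sub_mem hab (P.add_mem ha hb))
      have e1 : -((a : ZMod n) + b - ((a : ZMod n) + α + ((b : ZMod n) + β))) = α + β := by ring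
      rwa [e1] at this
  have hcc : ∀ α β : ZMod n, α - β ∉ P → α + β ∉ P → ∀ w ∈ HLw_W ζ Φ P e α,
      ∀ w' ∈ HLw_W ζ Φ P e β, ∀ v ∈ D, (w * w' - w' * w) * v ∈ B :=
    fun α β hm hp => HLw_comm hD hB (hcE α β hm hp)
  -- letters
  have hbr : ∀ x ∈ e, ∀ y ∈ e, ∀ v ∈ D, (x * y - y * x) * v ∈ D := by
    intro x hx y hy v hv
    rw [sub_mul, mul_assoc, mul_assoc]
    exact D.sub_mem (hD x hx _ (hD y hy v hv)) (hD y hy _ (hD x hx v hv))
  have hbrB : ∀ x ∈ e, ∀ y ∈ e, ∀ v ∈ B, (x * y - y * x) * v ∈ B := by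
    intro x hx y hy v hv
    rw [sub_mul, mul_assoc, mul_assoc]
    exact B.sub_mem (hB x hx _ (hB y hy v hv)) (hB y hy _ (hB x hx v hv))
  have hZB : ∀ α : ZMod n, ∀ z ∈ Zd ζ Φ e α, ∀ v ∈ B, z * v ∈ B := by
    intro α z hz v hv
    unfold Zd at hz
    induction hz using Submodule.span_induction with
    | mem z hz =>
      obtain ⟨x, hx, y, hy, rfl⟩ := hz
      exact hbrB x hx.1 y hy v hv
    | zero => rw [zero_mul]; exact B.zero_mem
    | add a b _ _ h1 h2 => rw [add_mul]; exact B.add_mem h1 h2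
    | smul c a _ h1 => rw [smul_mul_assoc]; exact B.smul_mem _ h1
  have hZD : ∀ α : ZMod n, ∀ z ∈ Zd ζ Φ e α, ∀ v ∈ D, z * v ∈ D := by
    intro α z hz v hv
    unfold Zd at hz
    induction hz using Submodule.span_induction with
    | mem z hz =>
      obtain ⟨x, hx, y, hy, rfl⟩ := hz
      exact hbr x hx.1 y hy v hv
    | zero => rw [zero_mul]; exact D.zero_mem
    | add a b _ _ h1 h2 => rw [add_mul]; exact D.add_mem h1 h2
    | smul c a _ h1 => rw [smul_mul_assoc]; exact D.smul_mem _ h1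
  have hcast : ∀ α : ZMod n, ((α.val : ℕ) : ZMod n) = α := fun α => ZMod.natCast_zmod_val α
  -- every commutator is a sum of commutators of letters with degrees adding up to `P - 0`
  have hred : ∀ (α : ZMod n) (x : A), x ∈ hp ζ Φ e α.val → ∀ y ∈ e,
      ∃ T : Finset ℕ, (∀ b ∈ T, α + (b : ZMod n) ∈ P) ∧ ∀ v ∈ D,
        ((x * y - y * x) - ∑ b ∈ T, (x * cmp n ζ Φ Ψ b y - cmp n ζ Φ Ψ b y * x)) * v ∈ B := by
    intro α x hx y hy
    classical
    refine ⟨(Finset.range n).filter fun b : ℕ => α + (b : ZMod n) ∈ P, ?_, ?_⟩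
    · intro b hb
      exact (Finset.mem_filter.mp hb).2
    · intro v hv
      have e1 : x * y - y * x = ∑ b ∈ Finset.range n,
          (x * cmp n ζ Φ Ψ b y - cmp n ζ Φ Ψ b y * x) := by
        rw [Finset.sum_sub_distrib, ← Finset.mul_sum, ← Finset.sum_mul, cmp_sum h]
      rw [e1, ← Finset.sum_filter_add_sum_filter_not (Finset.range n)
        (fun b : ℕ => α + (b : ZMod n) ∈ P), add_sub_cancel_left, Finset.sum_mul]
      refine B.sum_mem fun b hb => ?_
      have hb' := (Finset.mem_filter.mp hb).2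
      refine hkill α.val b x _ hx.1 (cmp_mem e hep hy b) hx.2 (cmp_hm h b y) (Or.inl ?_) v hv
      rw [hcast]
      exact hb'
  have hEx : ∀ (α : ZMod n) (x : A), x ∈ hp ζ Φ e α.val → x ∈ HLw_W ζ Φ P e α := by
    intro α x hx
    refine Submonoid.subset_closure ⟨hx.1, α.val, hx.2, Or.inl ?_⟩
    rw [hcast, sub_self]
    exact P.zero_mem
  have hEx' : ∀ (α : ZMod n) (x : A), x ∈ hp ζ Φ e (-α).val → x ∈ HLw_W ζ Φ P e α := by
    intro α x hx
    refine Submonoid.subset_closure ⟨hx.1, (-α).val, hx.2, Or.inr ?_⟩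
    rw [hcast, neg_add_cancel]
    exact P.zero_mem
  have hEy : ∀ (α : ZMod n) (y : A), y ∈ e → ∀ b : ℕ, α + (b : ZMod n) ∈ P →
      cmp n ζ Φ Ψ b y ∈ HLw_W ζ Φ P e α := by
    intro α y hy b hb
    refine Submonoid.subset_closure ⟨cmp_mem e hep hy b, b, cmp_hm h b y, Or.inr ?_⟩
    rwa [add_comm]
  have hEy' : ∀ (α : ZMod n) (y : A), y ∈ e → ∀ b : ℕ, -α + (b : ZMod n) ∈ P →
      cmp n ζ Φ Ψ b y ∈ HLw_W ζ Φ P e α := by
    intro α y hy b hb
    refine Submonoid.subset_closure ⟨cmp_mem e hep hy b, b, cmp_hm h b y, Or.inl ?_⟩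
    have e1 : (b : ZMod n) - α = -α + b := by ring
    rwa [e1]
  have hm1 : ∀ {u : A}, Hm ζ Φ 0 (1 : A) := by
    intro _
    unfold Hm
    simp
  -- blocks with one commutator
  have hXY1 : ∀ α : ZMod n, ∀ z ∈ Zd ζ Φ e α, ∃ z' ∈ HLw_V ζ Φ P e (α, false), ∀ v ∈ D,
      (z - z') * v ∈ B := by
    intro α z hz
    unfold Zd at hz
    induction hz using Submodule.span_induction with
    | mem z hz =>
      obtain ⟨x, hx, y, hy, rfl⟩ := hz
      obtain ⟨T, hT, hTv⟩ := hred α x hx y hy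
      refine ⟨_, ?_, hTv⟩
      refine Submodule.sum_mem _ fun b hb => ?_
      have hb' := hT b hb
      have hX := hEx α x hx
      have hY := hEy α y hy b hb'
      have hYm := cmp_hm h b y
      refine Submodule.sub_mem _ (Submodule.subset_span ⟨0, ?_⟩) (Submodule.subset_span ⟨0, ?_⟩)
      · refine ⟨⟨_, Submonoid.mul_mem _ hX hY, 1, Submonoid.one_mem _, 0, (mul_one _).symm,
          hm1 (u := 1), by simp⟩, ?_, fun h0 => absurd h0 (by simp)⟩
        intro _
        right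
        refine ⟨x, hX, _, hY, b, rfl, hYm, ?_⟩
        have e1 : (b : ZMod n) - (0 - α) = α + b := by ring
        rw [e1]
        exact hb'
      · refine ⟨⟨_, Submonoid.mul_mem _ hY hX, 1, Submonoid.one_mem _, 0, (mul_one _).symm,
          hm1 (u := 1), by simp⟩, ?_, fun h0 => absurd h0 (by simp)⟩
        intro _
        left
        refine ⟨_, hY, x, hX, α.val, rfl, hx.2, ?_⟩
        have e1 : ((α.val : ℕ) : ZMod n) - (0 + α) = 0 := by rw [hcast]; ring
        simp only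
        rw [e1]
        exact P.zero_mem
    | zero => exact ⟨0, Submodule.zero_mem _, fun v _ => by rw [sub_zero, zero_mul]; exact B.zero_mem⟩
    | add a b _ _ h1 h2 =>
      obtain ⟨a', ha', hav⟩ := h1
      obtain ⟨b', hb', hbv⟩ := h2
      refine ⟨a' + b', Submodule.add_mem _ ha' hb', fun v hv => ?_⟩
      have e1 : (a + b - (a' + b')) * v = (a - a') * v + (b - b') * v := by noncomm_ring
      rw [e1]
      exact B.add_mem (hav v hv) (hbv v hv)
    | smul c a _ h1 =>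
      obtain ⟨a', ha', hav⟩ := h1
      refine ⟨c • a', Submodule.smul_mem _ _ ha', fun v hv => ?_⟩
      rw [← smul_sub, smul_mul_assoc]
      exact B.smul_mem _ (hav v hv)
  -- four letters
  have hfour : ∀ (α : ZMod n) (x1 y1 y2 x2 : A) (b c : ℕ), x1 ∈ hp ζ Φ e α.val →
      y2 ∈ hp ζ Φ e (-α).val → y1 ∈ hp ζ Φ e b → x2 ∈ hp ζ Φ e c → α + (b : ZMod n) ∈ P →
      -α + (c : ZMod n) ∈ P → ∃ z' ∈ HLw_V ζ Φ P e (α, true), ∀ v ∈ D,
        ((x1 * y1 - y1 * x1) * (y2 * x2 - x2 * y2) - z') * v ∈ B := by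
    intro α x1 y1 y2 x2 b c hx1 hy2 hy1 hx2 hb hc
    have hX1 := hEx α x1 hx1
    have hY2 := hEx' α y2 hy2
    have hY1 : y1 ∈ HLw_W ζ Φ P e α := Submonoid.subset_closure
      ⟨hy1.1, b, hy1.2, Or.inr (by rwa [add_comm])⟩
    have hX2 : x2 ∈ HLw_W ζ Φ P e α := Submonoid.subset_closure
      ⟨hx2.1, c, hx2.2, Or.inl (by
        have e1 : (c : ZMod n) - α = -α + c := by ring
        rwa [e1])⟩
    have hcα : (c : ZMod n) - α ∈ P := by
      have e1 : (c : ZMod n) - α = -α + c := by ring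
      rwa [e1]
    have m2 : ∀ {a b : A}, a ∈ HLw_W ζ Φ P e α → b ∈ HLw_W ζ Φ P e α →
        a * b ∈ HLw_W ζ Φ P e α := fun ha hb => Submonoid.mul_mem _ ha hb
    refine ⟨-(x1 * x2 * y1 * y2) + y1 * x1 * x2 * y2 + y2 * x1 * x2 * y1 -
      y2 * y1 * x1 * x2, ?_, ?_⟩
    · refine Submodule.sub_mem _ (Submodule.add_mem _ (Submodule.add_mem _
        (Submodule.neg_mem _ (Submodule.subset_span ⟨-α, ?_⟩)) (Submodule.subset_span ⟨0, ?_⟩))
        (Submodule.subset_span ⟨0, ?_⟩)) (Submodule.subset_span ⟨α, ?_⟩)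
      · -- x1 x2 y1 y2
        refine ⟨⟨x1 * x2 * y1, m2 (m2 hX1 hX2) hY1, y2, hY2, (-α).val, rfl, hy2.2, ?_⟩,
          fun h0 => absurd h0 (by simp), fun _ => ⟨?_, ?_⟩⟩
        · rw [hcast, sub_self]; exact P.zero_mem
        · refine ⟨_, m2 (m2 (m2 hX1 hX2) hY1) hY2, 1, Submonoid.one_mem _, 0,
            (mul_one _).symm, hm1 (u := 1), ?_⟩
          simp
        · refine ⟨x1 * x2, m2 hX1 hX2, y1 * y2, m2 hY1 hY2, b + (-α).val, ?_,
            hy1.2.mul hy2.2, ?_⟩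
          · simp only [mul_assoc]
          · have e1 : ((b + (-α).val : ℕ) : ZMod n) - (-α - α) = α + b := by
              push_cast
              rw [hcast]
              ring
            simp only
            rw [e1]
            exact hb
      · -- y1 x1 x2 y2
        refine ⟨⟨_, m2 (m2 (m2 hY1 hX1) hX2) hY2, 1, Submonoid.one_mem _, 0,
            (mul_one _).symm, hm1 (u := 1), by simp⟩,
          fun h0 => absurd h0 (by simp), fun _ => ⟨?_, ?_⟩⟩
        · refine ⟨y1, hY1, x1 * x2 * y2, m2 (m2 hX1 hX2) hY2, α.val + c + (-α).val, ?_,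
            (hx1.2.mul hx2.2).mul hy2.2, ?_⟩
          · simp only [mul_assoc]
          · have e1 : ((α.val + c + (-α).val : ℕ) : ZMod n) - (0 + α) = (c : ZMod n) - α := by
              push_cast
              rw [hcast, hcast]
              ring
            simp only
            rw [e1]
            exact hcα
        · refine ⟨y1 * x1 * x2, m2 (m2 hY1 hX1) hX2, y2, hY2, (-α).val, rfl, hy2.2, ?_⟩
          have e1 : (((-α).val : ℕ) : ZMod n) - (0 - α) = 0 := by
            rw [hcast]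
            ring
          simp only
          rw [e1]
          exact P.zero_mem
      · -- y2 x1 x2 y1
        refine ⟨⟨_, m2 (m2 (m2 hY2 hX1) hX2) hY1, 1, Submonoid.one_mem _, 0,
            (mul_one _).symm, hm1 (u := 1), by simp⟩,
          fun h0 => absurd h0 (by simp), fun _ => ⟨?_, ?_⟩⟩
        · refine ⟨y2, hY2, x1 * x2 * y1, m2 (m2 hX1 hX2) hY1, α.val + c + b, ?_,
            (hx1.2.mul hx2.2).mul hy1.2, ?_⟩
          · simp only [mul_assoc]
          · have e1 : ((α.val + c + b : ℕ) : ZMod n) - (0 + α) =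
                ((c : ZMod n) - α) + (α + (b : ZMod n)) := by
              push_cast
              rw [hcast]
              ring
            simp only
            rw [e1]
            exact P.add_mem hcα hb
        · refine ⟨y2 * x1 * x2, m2 (m2 hY2 hX1) hX2, y1, hY1, b, rfl, hy1.2, ?_⟩
          have e1 : (b : ZMod n) - (0 - α) = α + b := by ring
          simp only
          rw [e1]
          exact hb
      · -- y2 y1 x1 x2
        refine ⟨⟨y2 * y1 * x1, m2 (m2 hY2 hY1) hX1, x2, hX2, c, rfl, hx2.2, hcα⟩,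
          fun h0 => absurd h0 (by simp), fun _ => ⟨?_, ?_⟩⟩
        · refine ⟨y2 * y1, m2 hY2 hY1, x1 * x2, m2 hX1 hX2, α.val + c, ?_,
            hx1.2.mul hx2.2, ?_⟩
          · simp only [mul_assoc]
          · have e1 : ((α.val + c : ℕ) : ZMod n) - (α + α) = (c : ZMod n) - α := by
              push_cast
              rw [hcast]
              ring
            simp only
            rw [e1]
            exact hcα
        · refine ⟨_, m2 (m2 (m2 hY2 hY1) hX1) hX2, 1, Submonoid.one_mem _, 0,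
            (mul_one _).symm, hm1 (u := 1), ?_⟩
          simp
    · intro v hv
      have e1 : ((x1 * y1 - y1 * x1) * (y2 * x2 - x2 * y2) -
          (-(x1 * x2 * y1 * y2) + y1 * x1 * x2 * y2 + y2 * x1 * x2 * y1 -
            y2 * y1 * x1 * x2)) * v =
          x1 * (((x2 * y1 - y1 * x2) * y2 - y2 * (x2 * y1 - y1 * x2)) * v) +
          (x1 * y2 - y2 * x1) * ((x2 * y1 - y1 * x2) * v) +
          ((x1 * y1 - y1 * x1) * y2 - y2 * (x1 * y1 - y1 * x1)) * (x2 * v) := by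
        noncomm_ring
      rw [e1]
      refine B.add_mem (B.add_mem ?_ ?_) ?_
      · exact hB x1 hx1.1 _ (hcen x2 hx2.1 y1 hy1.1 y2 hy2.1 v hv)
      · refine hkill α.val (-α).val x1 y2 hx1.1 hy2.1 hx1.2 hy2.2 (Or.inr ?_) _
          (hbr x2 hx2.1 y1 hy1.1 v hv)
        rw [hcast, hcast, add_neg_cancel]
      · exact hcen x1 hx1.1 y1 hy1.1 y2 hy2.1 _ (hD x2 hx2.1 v hv)
  -- blocks with two commutators
  have hXY2 : ∀ α : ZMod n, ∀ z ∈ Zd ζ Φ e α * Zd ζ Φ e (-α),
      ∃ z' ∈ HLw_V ζ Φ P e (α, true), ∀ v ∈ D, (z - z') * v ∈ B := by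
    intro α z hz
    have hadd : ∀ a b : A, (∃ z' ∈ HLw_V ζ Φ P e (α, true), ∀ v ∈ D, (a - z') * v ∈ B) →
        (∃ z' ∈ HLw_V ζ Φ P e (α, true), ∀ v ∈ D, (b - z') * v ∈ B) →
        ∃ z' ∈ HLw_V ζ Φ P e (α, true), ∀ v ∈ D, (a + b - z') * v ∈ B := by
      rintro a b ⟨a', ha', hav⟩ ⟨b', hb', hbv⟩
      refine ⟨a' + b', Submodule.add_mem _ ha' hb', fun v hv => ?_⟩
      have e1 : (a + b - (a' + b')) * v = (a - a') * v + (b - b') * v := by noncomm_ring
      rw [e1]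
      exact B.add_mem (hav v hv) (hbv v hv)
    have hsmul : ∀ (c : O) (a : A), (∃ z' ∈ HLw_V ζ Φ P e (α, true), ∀ v ∈ D,
        (a - z') * v ∈ B) → ∃ z' ∈ HLw_V ζ Φ P e (α, true), ∀ v ∈ D, (c • a - z') * v ∈ B := by
      rintro c a ⟨a', ha', hav⟩
      refine ⟨c • a', Submodule.smul_mem _ _ ha', fun v hv => ?_⟩
      rw [← smul_sub, smul_mul_assoc]
      exact B.smul_mem _ (hav v hv)
    have hzero : ∃ z' ∈ HLw_V ζ Φ P e (α, true), ∀ v ∈ D, ((0 : A) - z') * v ∈ B :=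
      ⟨0, Submodule.zero_mem _, fun v _ => by rw [sub_zero, zero_mul]; exact B.zero_mem⟩
    -- generators
    have hgen : ∀ x1 ∈ hp ζ Φ e α.val, ∀ y1 ∈ e, ∀ y2 ∈ hp ζ Φ e (-α).val, ∀ x2 ∈ e,
        ∃ z' ∈ HLw_V ζ Φ P e (α, true), ∀ v ∈ D,
          ((x1 * y1 - y1 * x1) * (y2 * x2 - x2 * y2) - z') * v ∈ B := by
      intro x1 hx1 y1 hy1 y2 hy2 x2 hx2
      obtain ⟨T, hT, hTv⟩ := hred α x1 hx1 y1 hy1
      obtain ⟨U, hU, hUv⟩ := hred (-α) y2 hy2 x2 hx2
      have h1 : ∀ b ∈ T, ∀ c ∈ U, ∃ z' ∈ HLw_V ζ Φ P e (α, true), ∀ v ∈ D,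
          ((x1 * cmp n ζ Φ Ψ b y1 - cmp n ζ Φ Ψ b y1 * x1) *
            (y2 * cmp n ζ Φ Ψ c x2 - cmp n ζ Φ Ψ c x2 * y2) - z') * v ∈ B := fun b hb c hc =>
        hfour α x1 _ y2 _ b c hx1 hy2 ⟨cmp_mem e hep hy1 b, cmp_hm h b y1⟩
          ⟨cmp_mem e hep hx2 c, cmp_hm h c x2⟩ (hT b hb) (hU c hc)
      have h2 : ∃ z' ∈ HLw_V ζ Φ P e (α, true), ∀ v ∈ D,
          ((∑ b ∈ T, (x1 * cmp n ζ Φ Ψ b y1 - cmp n ζ Φ Ψ b y1 * x1)) *
            (∑ c ∈ U, (y2 * cmp n ζ Φ Ψ c x2 - cmp n ζ Φ Ψ c x2 * y2)) - z') * v ∈ B := by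
        rw [Finset.sum_mul_sum]
        refine Finset.sum_induction _ (fun a => ∃ z' ∈ HLw_V ζ Φ P e (α, true), ∀ v ∈ D,
          (a - z') * v ∈ B) hadd hzero fun b hb => ?_
        exact Finset.sum_induction _ (fun a => ∃ z' ∈ HLw_V ζ Φ P e (α, true), ∀ v ∈ D,
          (a - z') * v ∈ B) hadd hzero fun c hc => h1 b hb c hc
      obtain ⟨z', hz', hv'⟩ := h2
      refine ⟨z', hz', fun v hv => ?_⟩
      obtain ⟨Z1, hZ1⟩ : ∃ Z1, Z1 = ∑ b ∈ T, (x1 * cmp n ζ Φ Ψ b y1 - cmp n ζ Φ Ψ b y1 * x1) :=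
        ⟨_, rfl⟩
      obtain ⟨Z2, hZ2⟩ : ∃ Z2, Z2 = ∑ c ∈ U, (y2 * cmp n ζ Φ Ψ c x2 - cmp n ζ Φ Ψ c x2 * y2) :=
        ⟨_, rfl⟩
      rw [← hZ1] at hTv hv'
      rw [← hZ2] at hUv hv'
      have e1 : ((x1 * y1 - y1 * x1) * (y2 * x2 - x2 * y2) - z') * v =
          (x1 * y1 - y1 * x1) * (((y2 * x2 - x2 * y2) - Z2) * v) +
          ((x1 * y1 - y1 * x1) - Z1) * (Z2 * v) + (Z1 * Z2 - z') * v := by noncomm_ring
      rw [e1]
      refine B.add_mem (B.add_mem (hbrB x1 hx1.1 y1 hy1 _ (hUv v hv)) ?_) (hv' v hv)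
      refine hTv _ ?_
      rw [hZ2, Finset.sum_mul]
      exact D.sum_mem fun c _ => hbr y2 hy2.1 _ (cmp_mem e hep hx2 c) v hv
    have hz2 : ∀ z1 ∈ Zd ζ Φ e α, ∀ z2 ∈ Zd ζ Φ e (-α),
        ∃ z' ∈ HLw_V ζ Φ P e (α, true), ∀ v ∈ D, (z1 * z2 - z') * v ∈ B := by
      intro z1 hz1
      unfold Zd at hz1
      induction hz1 using Submodule.span_induction with
      | mem z1 hz1 =>
        obtain ⟨x1, hx1, y1, hy1, rfl⟩ := hz1
        intro z2 hz2
        unfold Zd at hz2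
        induction hz2 using Submodule.span_induction with
        | mem z2 hz2 =>
          obtain ⟨y2, hy2, x2, hx2, rfl⟩ := hz2
          exact hgen x1 hx1 y1 hy1 y2 hy2 x2 hx2
        | zero => rw [mul_zero]; exact hzero
        | add a b _ _ h1 h2 => rw [mul_add]; exact hadd _ _ h1 h2
        | smul c a _ h1 => rw [mul_smul_comm]; exact hsmul c _ h1
      | zero => intro z2 _; rw [zero_mul]; exact hzero
      | add a b _ _ h1 h2 => intro z2 hz2; rw [add_mul]; exact hadd _ _ (h1 z2 hz2) (h2 z2 hz2)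
      | smul c a _ h1 => intro z2 hz2; rw [smul_mul_assoc]; exact hsmul c _ (h1 z2 hz2)
    induction hz using Submodule.mul_induction_on' with
    | mem_mul_mem z1 hz1 z2 hz2' => exact hz2 z1 hz1 z2 hz2'
    | add a _ b _ h1 h2 => exact hadd _ _ h1 h2
  -- words stabilise `D`
  have hVD : ∀ κ : ZMod n × Bool, ∀ w ∈ HLw_V ζ Φ P e κ, ∀ v ∈ D, w * v ∈ D := by
    intro κ w hw v hv
    unfold HLw_V at hw
    induction hw using Submodule.span_induction with
    | mem w hw =>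
      obtain ⟨m, ⟨p, hp, t, ht, d, rfl, _, _⟩, _⟩ := hw
      rw [mul_assoc]
      exact HLw_word_stab hD hp _ (HLw_word_stab hD ht v hv)
    | zero => rw [zero_mul]; exact D.zero_mem
    | add a b _ _ h1 h2 => rw [add_mul]; exact D.add_mem h1 h2
    | smul c a _ h1 => rw [smul_mul_assoc]; exact D.smul_mem _ h1
  -- pass to words
  obtain ⟨Ks, hKs⟩ : ∃ Ks : List (ZMod n × Bool),
      Ks = l₁.map (fun α => (α, false)) ++ l₂.map (fun α => (α, true)) := ⟨_, rfl⟩
  have hne2 : ¬ ((Ks.map fun κ => Submodule.span O {w | ∃ m, HLw_G ζ Φ P e κ w m}).prod * D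
      ≤ B) := by
    intro hcon
    apply hne
    obtain ⟨h1, h2⟩ := HLw_repl (fun α => Zd ζ Φ e α * Zd ζ Φ e (-α))
      (fun α => HLw_V ζ Φ P e (α, true)) hBD l₂
      (fun α _ x hx v hv => by
        induction hx using Submodule.mul_induction_on' with
        | mem_mul_mem a ha b hb => rw [mul_assoc]; exact hZB _ a ha _ (hZB _ b hb v hv)
        | add a _ b _ h1 h2 => rw [add_mul]; exact B.add_mem h1 h2)
      (fun α _ x hx => hVD _ x hx) (fun α _ x hx => hXY2 α x hx) D D le_sup_left le_rfl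
    obtain ⟨h3, h4⟩ := HLw_repl (fun α => Zd ζ Φ e α)
      (fun α => HLw_V ζ Φ P e (α, false)) hBD l₁
      (fun α _ x hx => hZB α x hx)
      (fun α _ x hx => hVD _ x hx) (fun α _ x hx => hXY1 α x hx) _ _ h1 h2
    refine h3.trans (sup_le ?_ le_rfl)
    refine le_trans (le_of_eq ?_) hcon
    rw [hKs, List.map_append, List.prod_append, List.map_map, List.map_map, mul_assoc]
    rfl
  obtain ⟨L, hL1, hL2, v, hv, hvB⟩ := HLw_extract (HLw_G ζ Φ P e) D Ks B hne2
  -- homogeneous vector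
  obtain ⟨i, hi⟩ : ∃ i, (L.map fun x => x.2.1).prod * (ide n ζ Φ i * v) ∉ B := by
    by_contra hcon
    push Not at hcon
    apply hvB
    rw [ide_dec h v, Finset.mul_sum]
    exact B.sum_mem fun i _ => hcon i
  have hiD : ide n ζ Φ i * v ∈ D := ide_stab hDp i v hv
  have hpwL : (L.map fun x => x.1.1).Pairwise (fun α β => α - β ∉ P ∧ α + β ∉ P) := by
    have e1 : (L.map fun x => x.1.1) = l₁ ++ l₂ := by
      have : (L.map fun x => x.1.1) = (L.map Prod.fst).map Prod.fst := by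
        rw [List.map_map]; rfl
      rw [this, hL1, hKs, List.map_append, List.map_map, List.map_map]
      simp [Function.comp_def]
    rw [e1]
    exact hpw
  -- the conclusion for general suffixes
  have hgenl : ∀ L' : List (ZMod n × A × ZMod n),
      L'.map (fun x => (x.1, x.2.1)) = L.map (fun x => (x.1.1, x.2.1)) →
      (∀ x ∈ L', HLw_Sx ζ Φ P e x.1 x.2.1 x.2.2) →
      (i : ZMod n) + (L'.map fun x => x.2.2).sum ∈ S := by
    intro L' hL' hSx
    refine HLw_suf h hS hP hD hB hcc L' hSx ?_ i v hiD ?_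
    · have e1 : L'.map Prod.fst = L.map fun x => x.1.1 := by
        have := congrArg (List.map Prod.fst) hL'
        rw [List.map_map, List.map_map] at this
        exact this
      rw [e1]
      exact hpwL
    · have e1 : (L'.map fun x => x.2.1) = L.map fun x => x.2.1 := by
        have := congrArg (List.map Prod.snd) hL'
        rw [List.map_map, List.map_map] at this
        exact this
      rw [e1]
      exact hi
  obtain ⟨t, ht⟩ : ∃ t, t = (i : ZMod n) + (L.map fun x => x.2.2).sum := ⟨_, rfl⟩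
  have htS : t ∈ S := by
    have := hgenl (L.map fun x => (x.1.1, x.2.1, x.2.2)) (by rw [List.map_map]; rfl) (by
      intro x hx
      obtain ⟨y, hy, rfl⟩ := List.mem_map.mp hx
      exact (hL2 y hy).1)
    rw [List.map_map] at this
    rw [ht]
    exact this
  -- changing one suffix
  have hchange : ∀ x ∈ L, ∀ δ : ZMod n, HLw_Sx ζ Φ P e x.1.1 x.2.1 δ →
      t - x.2.2 + δ ∈ S := by
    intro x hx δ hδ
    obtain ⟨L1, L2, hL12⟩ := List.append_of_mem hx
    have := hgenl ((L1.map fun x => (x.1.1, x.2.1, x.2.2)) ++ (x.1.1, x.2.1, δ) ::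
      (L2.map fun x => (x.1.1, x.2.1, x.2.2))) (by
        rw [hL12, List.map_append, List.map_append, List.map_cons, List.map_cons, List.map_map,
          List.map_map]
        rfl) (by
        intro y hy
        rcases List.mem_append.mp hy with h3 | h3
        · obtain ⟨z, hz, rfl⟩ := List.mem_map.mp h3
          exact (hL2 z (by rw [hL12]; exact List.mem_append_left _ hz)).1
        · rcases List.mem_cons.mp h3 with h4 | h4
          · rw [h4]; exact hδ
          · obtain ⟨z, hz, rfl⟩ := List.mem_map.mp h4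
            exact (hL2 z (by
              rw [hL12]; exact List.mem_append_right _ (List.mem_cons_of_mem _ hz))).1)
    have e1 : (((L1.map fun x => (x.1.1, x.2.1, x.2.2)) ++ (x.1.1, x.2.1, δ) ::
      (L2.map fun x => (x.1.1, x.2.1, x.2.2))).map fun x => x.2.2).sum =
        (L.map fun x => x.2.2).sum - x.2.2 + δ := by
      rw [hL12, List.map_append, List.map_append, List.map_cons, List.map_cons, List.map_map,
        List.map_map, List.sum_append, List.sum_append, List.sum_cons, List.sum_cons]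
      simp only [Function.comp_def]
      ring
    rw [e1] at this
    have e2 : t - x.2.2 + δ = (i : ZMod n) + ((L.map fun x => x.2.2).sum - x.2.2 + δ) := by
      rw [ht]; ring
    rw [e2]
    exact this
  refine ⟨t, htS, ?_, ?_⟩
  · intro α hα
    have h1 : (α, false) ∈ L.map Prod.fst := by
      rw [hL1, hKs]
      exact List.mem_append_left _ (List.mem_map_of_mem hα)
    obtain ⟨x, hx, hxα⟩ := List.mem_map.mp h1
    have h2 := (hL2 x hx).2.1 (by rw [hxα])
    have h3 : x.1.1 = α := by rw [hxα]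
    rcases h2 with h2 | h2
    · left
      have h4 := hchange x hx _ h2
      have e1 : t - x.2.2 + (x.2.2 + x.1.1) = t + α := by rw [h3]; ring
      rwa [e1] at h4
    · right
      have h4 := hchange x hx _ h2
      have e1 : t - x.2.2 + (x.2.2 - x.1.1) = t - α := by rw [h3]; ring
      rwa [e1] at h4
  · intro α hα
    have h1 : (α, true) ∈ L.map Prod.fst := by
      rw [hL1, hKs]
      exact List.mem_append_right _ (List.mem_map_of_mem hα)
    obtain ⟨x, hx, hxα⟩ := List.mem_map.mp h1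
    have h2 := (hL2 x hx).2.2 (by rw [hxα])
    have h3 : x.1.1 = α := by rw [hxα]
    constructor
    · have h4 := hchange x hx _ h2.1
      have e1 : t - x.2.2 + (x.2.2 + x.1.1) = t + α := by rw [h3]; ring
      rwa [e1] at h4
    · have h4 := hchange x hx _ h2.2
      have e1 : t - x.2.2 + (x.2.2 - x.1.1) = t - α := by rw [h3]; ring
      rwa [e1] at h4

end Pool.Agent.FT
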