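import Pool.Agent.FT.ML
import Pool.Agent.FT.HLa
import Pool.Agent.FT.HLc
import Pool.Agent.FT.HLw

/-!
# HLs: the Heisenberg lemma

`e ≤ J` are spaces of operators on `D / B`, stable under conjugation with the group and `Φ`, `[J, e] ≤ e`, `J` has no
degree `0`. The commutators `[e, e]` commute with `J` and with the group on `D / B`. Then `D / B` has a chain of
`n + 1` layers (stable under the group, `Φ`, `J`) on which `[e, [e, N]] = 0`, `N = derG s ⊤`. Written as an induction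
principle as in `ML.lean` (`M = n + 1`; supports with `≤ k` elements are known, `S.ncard ≤ k + 1`, `S ≠ univ`).

PROOF. `n > 0` (`GRep.prim.pos`). `P := {f | ∀ x, x ∈ S ↔ x + f ∈ S}` (an `AddSubgroup`; the stabiliser of `S`). `c1 := span of
the [x, y]`, `x, y ∈ e` (`c1 ≤ e` since `e ≤ J`, `[J,e] ≤ e`). All `z ∈ c1` and their components `cmp i z` (again in `c1`, since `Φ c1 Ψ ≤ c1`:
`cmp_mem`) commute with `J` and with the group on `D / B`, and `cmp i z = 0` for `(i : ZMod n) = 0` (`Tr0`, `cmp_zero`).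
(1) FIRST LAYER. `D1 := B ⊔ sup over i with (i : ZMod n) ∉ P of (hp c1 i) * D`. `(D, D1)` and `(D1, B)` are `Lay`. On `(D1, B)` one has
`[e, [J,N]] = 0`: for `z ∈ hp c1 i`, `i ∉ P`, `D_z := B ⊔ z D` is stable under the group, `Φ` and `J`; by `relD` (`t = 0`) with the support
`S ∩ (S + i)` (which is not `S` as `i ∉ P`, so it has `≤ k` elements) `(r g - 1) D_z ≤ B` for `g ∈ N`, hence for `y ∈ J`, `v ∈ D_z`:
`(r g y r g⁻¹ - y) v = r g y (r g⁻¹ - 1) v + (r g - 1) y v ∈ B`. So the hypothesis applies to `(D1, B)`: `X^m D1 ≤ B`.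
(2) On `(D, D1)`: `cmp i z * v ∈ D1` for all `z ∈ c1`, `v ∈ D`, `(i : ZMod n) ∉ P` or `= 0`. Put `Z α := Zd ζ Φ e α` (`≤ c1`). For a finite
set `E` of elements of `ZMod n - 0` let `Q E := (product of the Z α, α ∈ E) * D ⊔ D1` (order irrelevant: the `Z α` are central).
CLAIM: `¬ Q E ≤ D1` implies `E.card + 1 ≤ S.ncard`. By `hl_count` for the set `E`: for lists `l₁`, `l₂` as there, the product over
`l₁` of `Z α` times the product over `l₂` of `Z α * Z (-α)` does not kill `D / D1`, because all these factors occur in `Q E` (the `2 |l₂| + |l₁|`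
elements `α`, `-α` are different: pairwise incongruent, `2α ∉ P`), and the remaining factors map `D` into `D`; then `hl_words` for `(D, D1)`.
(3) LAYERS `U j := D1 ⊔ sup over E with j ≤ E.card of Q E`, `U 0 = D`, `U (n+1) ≤ D1` (even `U n ≤ D1`), all `Lay`. On `U j / U (j+1)`:
for `E.card = j`, `¬ Q E ≤ D1`: `j ≤ k`; `Ann := {x ∈ e | ∀ y ∈ e, [x, y] * Q E ≤ U (j+1)}` is stable under conjugation and `Φ` and contains
`hp e α.val` for `α ∉ E` (`[x,y] Q E ≤ Q (E + α) ⊔ D1`); so `cmp i x ∈ Ann` for `x ∈ e`, `i ∉ E`, and `relT` (`t = 0`, support `E`) gives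
`r g x r g⁻¹ - x ∈ Ann` for `g ∈ N`, so `[e, [e, N]] U j ≤ U (j+1)`. The hypothesis gives `X^m * U j ≤ U (j+1)` for `j < n`, so
`X^(m n) D ≤ D1` and `X^(m (n+1)) D ≤ B`. (`E.card = 0` etc. need no special treatment; for `E.card = j` with `Q E ≤ D1` nothing to show.)
-/

set_option autoImplicit false

namespace Pool.Agent.FT

open Pool.Agent.LgP Pool.Agent.ThR

section hls

variable {O A G : Type} [CommRing O] [Ring A] [Algebra O A] [Group G]

/-- the product of the `Zd α`, `α ∈ l` -/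
def HLs_P {n : ℕ} (ζ : O) (Φ : A) (e : Submodule O A) (l : List (ZMod n)) : Submodule O A :=
  (l.map (Zd ζ Φ e)).prod

/-- the layers -/
noncomputable def HLs_U (n : ℕ) (ζ : O) (Φ : A) (e D B : Submodule O A) (k : ℕ) :
    Submodule O A :=
  B ⊔ ⨆ E : {E : Finset (ZMod n) // (0 : ZMod n) ∉ E ∧ k ≤ E.card},
    (HLs_P ζ Φ e E.1.toList * D ⊔ B)

/-- the data of the Heisenberg lemma -/
structure HLs_Op (n : ℕ) (r : G →* A) (Φ Ψ : A) (J e D B : Submodule O A) : Prop where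
  le : B ≤ D
  sD : ML_St r Φ ⊤ J D
  sB : ML_St r Φ ⊤ J B
  ec : Cj r Φ Ψ e
  eJ : e ≤ J
  Je : ∀ y ∈ J, ∀ x ∈ e, y * x - x * y ∈ e
  tr : Tr0 n Φ Ψ J
  cJ : ∀ x ∈ e, ∀ y ∈ e, ∀ z ∈ J, ∀ v ∈ D,
      ((x * y - y * x) * z - z * (x * y - y * x)) * v ∈ B
  cG : ∀ x ∈ e, ∀ y ∈ e, ∀ g, ∀ v ∈ D, ((x * y - y * x) * r g - r g * (x * y - y * x)) * v ∈ B

variable {n : ℕ} {ζ : O} {Φ Ψ : A} {r : G →* A} {J e D B : Submodule O A}

theorem HLs_P_nil : HLs_P ζ Φ e ([] : List (ZMod n)) = 1 := rfl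

theorem HLs_P_cons (α : ZMod n) (l : List (ZMod n)) :
    HLs_P ζ Φ e (α :: l) = Zd ζ Φ e α * HLs_P ζ Φ e l := by
  unfold HLs_P
  rw [List.map_cons, List.prod_cons]

theorem HLs_P_append (l l' : List (ZMod n)) :
    HLs_P ζ Φ e (l ++ l') = HLs_P ζ Φ e l * HLs_P ζ Φ e l' := by
  unfold HLs_P
  rw [List.map_append, List.prod_append]

theorem HLs_Zd_le {T : Submodule O A} (α : ZMod n)
    (h : ∀ x ∈ hp ζ Φ e α.val, ∀ y ∈ e, x * y - y * x ∈ T) : Zd ζ Φ e α ≤ T := by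
  unfold Zd
  refine Submodule.span_le.2 ?_
  rintro _ ⟨x, hx, y, hy, rfl⟩
  exact h x hx y hy

theorem HLs_mem {α : ZMod n} {x y : A} (hx : x ∈ hp ζ Φ e α.val) (hy : y ∈ e) :
    x * y - y * x ∈ Zd ζ Φ e α := Submodule.subset_span ⟨x, hx, y, hy, rfl⟩

theorem HLs_Op.Zd_e (h : HLs_Op n r Φ Ψ J e D B) (α : ZMod n) : Zd ζ Φ e α ≤ e :=
  HLs_Zd_le α fun x hx y hy => h.Je x (h.eJ hx.1) y hy

/-- the elements of `Zd` are central -/
theorem HLs_Op.cen (h : HLs_Op n r Φ Ψ J e D B) (α : ZMod n) {z : A} (hz : z ∈ Zd ζ Φ e α)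
    {w : A} (hw : w ∈ J) {v : A} (hv : v ∈ D) : (z * w - w * z) * v ∈ B := by
  unfold Zd at hz
  induction hz using Submodule.span_induction with
  | mem z hz =>
    obtain ⟨x, hx, y, hy, rfl⟩ := hz
    exact h.cJ x hx.1 y hy w hw v hv
  | zero => rw [zero_mul, mul_zero, sub_self, zero_mul]; exact Submodule.zero_mem _
  | add a b _ _ h1 h2 =>
    have e1 : ((a + b) * w - w * (a + b)) * v = (a * w - w * a) * v + (b * w - w * b) * v := by
      noncomm_ring
    rw [e1]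
    exact Submodule.add_mem _ h1 h2
  | smul o a _ h1 =>
    have e1 : (o • a * w - w * o • a) * v = o • ((a * w - w * a) * v) := by
      rw [smul_mul_assoc, mul_smul_comm, ← smul_sub, smul_mul_assoc]
    rw [e1]
    exact Submodule.smul_mem _ _ h1

theorem HLs_Op.cenG (h : HLs_Op n r Φ Ψ J e D B) (α : ZMod n) {z : A} (hz : z ∈ Zd ζ Φ e α)
    (g : G) {v : A} (hv : v ∈ D) : (z * r g - r g * z) * v ∈ B := by
  unfold Zd at hz
  induction hz using Submodule.span_induction with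
  | mem z hz =>
    obtain ⟨x, hx, y, hy, rfl⟩ := hz
    exact h.cG x hx.1 y hy g v hv
  | zero => rw [zero_mul, mul_zero, sub_self, zero_mul]; exact Submodule.zero_mem _
  | add a b _ _ h1 h2 =>
    have e1 : ((a + b) * r g - r g * (a + b)) * v =
        (a * r g - r g * a) * v + (b * r g - r g * b) * v := by
      noncomm_ring
    rw [e1]
    exact Submodule.add_mem _ h1 h2
  | smul o a _ h1 =>
    have e1 : (o • a * r g - r g * o • a) * v = o • ((a * r g - r g * a) * v) := by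
      rw [smul_mul_assoc, mul_smul_comm, ← smul_sub, smul_mul_assoc]
    rw [e1]
    exact Submodule.smul_mem _ _ h1

theorem HLs_Op.Zd_phi (h : HLs_Op n r Φ Ψ J e D B) (hd : Dt n ζ Φ Ψ) (α : ZMod n) {z : A}
    (hz : z ∈ Zd ζ Φ e α) : Φ * z * Ψ ∈ Zd ζ Φ e α := by
  have h1 : Zd ζ Φ e α ≤ (Zd ζ Φ e α).comap
      ((LinearMap.mulLeft O Φ).comp (LinearMap.mulRight O Ψ)) := by
    refine HLs_Zd_le α fun x hx y hy => ?_
    rw [Submodule.mem_comap, LinearMap.comp_apply, LinearMap.mulRight_apply,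
      LinearMap.mulLeft_apply]
    have e1 : Φ * ((x * y - y * x) * Ψ) =
        (Φ * x * Ψ) * (Φ * y * Ψ) - (Φ * y * Ψ) * (Φ * x * Ψ) := by
      have e2 : ∀ a b : A, (Φ * a * Ψ) * (Φ * b * Ψ) = Φ * (a * b * Ψ) := by
        intro a b
        calc (Φ * a * Ψ) * (Φ * b * Ψ) = Φ * a * (Ψ * Φ) * b * Ψ := by simp only [mul_assoc]
          _ = Φ * (a * b * Ψ) := by rw [hd.qp, mul_one]; simp only [mul_assoc]
      rw [e2, e2, ← mul_sub, ← sub_mul]
    rw [e1]
    refine HLs_mem ⟨h.ec.p x hx.1, ?_⟩ (h.ec.p y hy)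
    have hx2 := hx.2
    unfold Hm at hx2 ⊢
    rw [hx2, smul_mul_assoc, mul_assoc x, hd.pq, mul_one, mul_smul_comm, smul_mul_assoc, hx2]
  have h2 := h1 hz
  rw [Submodule.mem_comap, LinearMap.comp_apply, LinearMap.mulRight_apply,
    LinearMap.mulLeft_apply, ← mul_assoc] at h2
  exact h2

theorem HLs_Op.Zd_act (h : HLs_Op n r Φ Ψ J e D B) {X : Submodule O A}
    (hX : ∀ a ∈ J, ∀ x ∈ X, a * x ∈ X) (α : ZMod n) : Zd ζ Φ e α * X ≤ X :=
  Submodule.mul_le.2 fun a ha x hx => hX a (h.eJ (h.Zd_e α ha)) x hx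

/-- `Zd α * X ⊔ B` is stable -/
theorem HLs_Op.st (h : HLs_Op n r Φ Ψ J e D B) (hd : Dt n ζ Φ Ψ) {X : Submodule O A}
    (hX : ML_St r Φ ⊤ J X) (hXD : X ≤ D) (α : ZMod n) :
    ML_St r Φ ⊤ J (Zd ζ Φ e α * X ⊔ B) := by
  refine ⟨?_, ?_, ?_⟩
  · intro g hg x hx
    obtain ⟨a, ha, b, hb, rfl⟩ := Submodule.mem_sup.1 hx
    rw [mul_add]
    refine Submodule.add_mem _ ?_ (Submodule.mem_sup_right (h.sB.g g hg b hb))
    refine Submodule.mul_induction_on ha ?_ ?_
    · intro z hz v hv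
      have e1 : r g * (z * v) = z * (r g * v) - (z * r g - r g * z) * v := by noncomm_ring
      rw [e1]
      exact Submodule.sub_mem _ (Submodule.mem_sup_left
        (Submodule.mul_mem_mul hz (hX.g g hg v hv)))
        (Submodule.mem_sup_right (h.cenG α hz g (hXD hv)))
    · intro u v hu hv
      rw [mul_add]
      exact Submodule.add_mem _ hu hv
  · intro x hx
    obtain ⟨a, ha, b, hb, rfl⟩ := Submodule.mem_sup.1 hx
    rw [mul_add]
    refine Submodule.add_mem _ ?_ (Submodule.mem_sup_right (h.sB.p b hb))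
    refine Submodule.mul_induction_on ha ?_ ?_
    · intro z hz v hv
      have e1 : Φ * (z * v) = (Φ * z * Ψ) * (Φ * v) := by
        calc Φ * (z * v) = Φ * z * 1 * v := by simp only [mul_assoc, one_mul]
          _ = Φ * z * (Ψ * Φ) * v := by rw [hd.qp]
          _ = _ := by simp only [mul_assoc]
      rw [e1]
      exact Submodule.mem_sup_left (Submodule.mul_mem_mul (h.Zd_phi hd α hz) (hX.p v hv))
    · intro u v hu hv
      rw [mul_add]
      exact Submodule.add_mem _ hu hv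
  · intro w hw x hx
    obtain ⟨a, ha, b, hb, rfl⟩ := Submodule.mem_sup.1 hx
    rw [mul_add]
    refine Submodule.add_mem _ ?_ (Submodule.mem_sup_right (h.sB.l w hw b hb))
    refine Submodule.mul_induction_on ha ?_ ?_
    · intro z hz v hv
      have e1 : w * (z * v) = z * (w * v) - (z * w - w * z) * v := by noncomm_ring
      rw [e1]
      exact Submodule.sub_mem _ (Submodule.mem_sup_left
        (Submodule.mul_mem_mul hz (hX.l w hw v hv)))
        (Submodule.mem_sup_right (h.cen α hz hw (hXD hv)))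
    · intro u v hu hv
      rw [mul_add]
      exact Submodule.add_mem _ hu hv

theorem HLs_Op.cons (h : HLs_Op n r Φ Ψ J e D B) (α : ZMod n) (l : List (ZMod n)) :
    HLs_P ζ Φ e (α :: l) * D ⊔ B = Zd ζ Φ e α * (HLs_P ζ Φ e l * D ⊔ B) ⊔ B := by
  rw [HLs_P_cons, mul_assoc, Submodule.mul_sup, sup_assoc]
  congr 1
  exact (sup_eq_right.2 (h.Zd_act h.sB.l α)).symm

theorem HLs_Op.P_act (h : HLs_Op n r Φ Ψ J e D B) {X : Submodule O A}
    (hX : ∀ a ∈ J, ∀ x ∈ X, a * x ∈ X) (l : List (ZMod n)) : HLs_P ζ Φ e l * X ≤ X := by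
  induction l with
  | nil => rw [HLs_P_nil, one_mul]
  | cons α l ih =>
    rw [HLs_P_cons, mul_assoc]
    exact (mul_le_mul' le_rfl ih).trans (h.Zd_act hX α)

theorem HLs_Op.P_le (h : HLs_Op n r Φ Ψ J e D B) (l : List (ZMod n)) :
    HLs_P ζ Φ e l * D ⊔ B ≤ D := sup_le (h.P_act h.sD.l l) h.le

theorem HLs_Op.P_st (h : HLs_Op n r Φ Ψ J e D B) (hd : Dt n ζ Φ Ψ) (l : List (ZMod n)) :
    ML_St r Φ ⊤ J (HLs_P ζ Φ e l * D ⊔ B) := by
  induction l with
  | nil =>
    rw [HLs_P_nil, one_mul, sup_eq_left.2 h.le]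
    exact h.sD
  | cons α l ih =>
    rw [h.cons]
    exact h.st hd ih (h.P_le l) α

/-- permutations -/
theorem HLs_Op.perm (h : HLs_Op n r Φ Ψ J e D B) {l l' : List (ZMod n)} (hl : l.Perm l') :
    HLs_P ζ Φ e l * D ≤ HLs_P ζ Φ e l' * D ⊔ B := by
  induction hl with
  | nil => exact le_sup_left
  | cons α _ ih =>
    rw [HLs_P_cons, HLs_P_cons, mul_assoc, mul_assoc]
    refine Submodule.mul_le.2 fun a ha x hx => ?_
    obtain ⟨y, hy, b, hb, rfl⟩ := Submodule.mem_sup.1 (ih hx)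
    rw [mul_add]
    exact Submodule.add_mem_sup (Submodule.mul_mem_mul ha hy)
      (h.sB.l a (h.eJ (h.Zd_e _ ha)) b hb)
  | swap α β l =>
    rw [HLs_P_cons, HLs_P_cons, HLs_P_cons, HLs_P_cons, mul_assoc, mul_assoc, mul_assoc,
      mul_assoc]
    refine Submodule.mul_le.2 fun u hu x hx => ?_
    refine Submodule.mul_induction_on hx ?_ ?_
    · intro w hw y hy
      have hyD : y ∈ D := h.P_act h.sD.l l hy
      have e1 : u * (w * y) = w * (u * y) + (u * w - w * u) * y := by noncomm_ring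
      rw [e1]
      refine Submodule.add_mem_sup (Submodule.mul_mem_mul hw (Submodule.mul_mem_mul hu hy)) ?_
      exact h.cen _ hu (h.eJ (h.Zd_e _ hw)) hyD
    · intro x y hx hy
      rw [mul_add]
      exact Submodule.add_mem _ hx hy
  | trans _ _ ih1 ih2 => exact ih1.trans (sup_le ih2 le_sup_right)

theorem HLs_flat (l : List (ZMod n)) :
    HLs_P ζ Φ e (l.flatMap fun α => [α, -α]) =
      (l.map fun α => Zd ζ Φ e α * Zd ζ Φ e (-α)).prod := by
  induction l with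
  | nil => rfl
  | cons α l ih =>
    rw [List.flatMap_cons, HLs_P_append, ih, List.map_cons, List.prod_cons, HLs_P_cons,
      HLs_P_cons, HLs_P_nil, mul_one]

/-- the product over the lists of `hl_words` is alive -/
theorem HLs_Op.alive (h : HLs_Op n r Φ Ψ J e D B) (E : Finset (ZMod n))
    (hE : ¬ HLs_P ζ Φ e E.toList * D ≤ B) (l₁ l₂ : List (ZMod n))
    (h₁ : ∀ α ∈ l₁, α ∈ E) (h₂ : ∀ α ∈ l₂, α ∈ E ∧ -α ∈ E ∧ α + α ≠ 0)
    (hp : (l₁ ++ l₂).Pairwise (fun α β => α - β ≠ 0 ∧ α + β ≠ 0)) :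
    ¬ ((l₁.map (Zd ζ Φ e)).prod * ((l₂.map fun α => Zd ζ Φ e α * Zd ζ Φ e (-α)).prod * D)
      ≤ B) := by
  intro hcon
  rw [← HLs_flat, ← mul_assoc] at hcon
  have hcon' : HLs_P ζ Φ e (l₁ ++ l₂.flatMap fun α => [α, -α]) * D ≤ B := by
    rw [HLs_P_append]
    exact hcon
  obtain ⟨L, hL⟩ : ∃ L, L = l₁ ++ l₂.flatMap fun α => [α, -α] := ⟨_, rfl⟩
  rw [← hL] at hcon'
  rw [List.pairwise_append] at hp
  obtain ⟨hp1, hp2, hp12⟩ := hp
  have hnd : L.Nodup := by
    rw [hL, List.nodup_append']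
    refine ⟨?_, ?_, ?_⟩
    · exact hp1.imp fun {a b} hab => sub_ne_zero.1 hab.1
    · rw [List.nodup_flatMap]
      refine ⟨?_, ?_⟩
      · intro α hα
        rw [List.nodup_cons]
        refine ⟨?_, List.nodup_singleton _⟩
        rw [List.mem_singleton]
        intro h3
        exact (h₂ α hα).2.2 (by nth_rewrite 1 [h3]; exact neg_add_cancel α)
      · refine hp2.imp fun {a b} hab => ?_
        have hab1 := sub_ne_zero.1 hab.1
        have hab2 : a ≠ -b := fun h3 => hab.2 (by rw [h3]; exact neg_add_cancel b)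
        intro x hx hx'
        rw [List.mem_cons, List.mem_singleton] at hx hx'
        rcases hx with rfl | rfl
        · rcases hx' with h3 | h3
          · exact hab1 h3
          · exact hab2 h3
        · rcases hx' with h3 | h3
          · exact hab2 (by rw [← h3, neg_neg])
          · exact hab1 (neg_injective h3)
    · intro x hx hx'
      rw [List.mem_flatMap] at hx'
      obtain ⟨β, hβ, hxβ⟩ := hx'
      have h3 := hp12 x hx β hβ
      rw [List.mem_cons, List.mem_singleton] at hxβ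
      rcases hxβ with rfl | rfl
      · exact h3.1 (sub_self _)
      · exact h3.2 (neg_add_cancel β)
  have hsub : L ⊆ E.toList := by
    intro x hx
    rw [Finset.mem_toList]
    rw [hL, List.mem_append, List.mem_flatMap] at hx
    rcases hx with hx | ⟨β, hβ, hxβ⟩
    · exact h₁ x hx
    · rw [List.mem_cons, List.mem_singleton] at hxβ
      rcases hxβ with rfl | rfl
      · exact (h₂ _ hβ).1
      · exact (h₂ _ hβ).2.1
  obtain ⟨L', hLL', hsl⟩ := List.subperm_of_subset hnd hsub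
  obtain ⟨R, hR⟩ := hsl.exists_perm_append
  have hper : E.toList.Perm (R ++ L) :=
    hR.trans (List.perm_append_comm.trans (hLL'.append_left R))
  refine hE ((h.perm hper).trans (sup_le ?_ le_rfl))
  rw [HLs_P_append, mul_assoc]
  exact (mul_le_mul' le_rfl hcon').trans (h.P_act h.sB.l R)

/-- alive sets of degrees are small -/
theorem HLs_Op.card (h : HLs_Op n r Φ Ψ J e D B) (hd : Dt n ζ Φ Ψ) {S : Set (ZMod n)}
    (hS : Sup n ζ Φ S) (P : AddSubgroup (ZMod n)) (hP : ∀ f, f ∈ P ↔ ∀ x, x ∈ S ↔ x + f ∈ S)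
    (hdeg : ∀ i : ℕ, ((i : ZMod n) ∉ P ∨ (i : ZMod n) = 0) → ∀ x ∈ e, ∀ y ∈ e, ∀ v ∈ D,
      cmp n ζ Φ Ψ i (x * y - y * x) * v ∈ B) (E : Finset (ZMod n)) (h0 : (0 : ZMod n) ∉ E)
    (hE : ¬ HLs_P ζ Φ e E.toList * D ≤ B) : E.card + 1 ≤ S.ncard := by
  have hP' : ∀ p ∈ P, ∀ x ∈ S, x + p ∈ S := fun p hp x hx => ((hP p).1 hp x).1 hx
  have h1 := hl_count n hd.prim.pos S P hP' (E : Set (ZMod n)) h0 ?_
  · rwa [Set.ncard_coe_finset] at h1
  · intro l₁ l₂ h₁ h₂ hpw
    refine hl_words hd S hS P hP' e D B h.ec.p h.sD.p h.sB.p h.le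
      (fun x hx v hv => h.sD.l x (h.eJ hx) v hv) (fun x hx v hv => h.sB.l x (h.eJ hx) v hv)
      (fun x hx y hy z hz v hv => h.cJ x hx y hy z (h.eJ hz) v hv) hdeg l₁ l₂
      (fun α hα => (h₁ α hα).2) (fun α hα => ⟨(h₂ α hα).2.2.1, (h₂ α hα).2.2.2⟩) hpw ?_
    refine h.alive E hE l₁ l₂ (fun α hα => (h₁ α hα).1) ?_ ?_
    · intro α hα
      refine ⟨(h₂ α hα).1, (h₂ α hα).2.1, fun h3 => (h₂ α hα).2.2.2 ?_⟩
      rw [h3]
      exact P.zero_mem
    · refine hpw.imp fun {a b} hab => ⟨fun h3 => hab.1 ?_, fun h3 => hab.2 ?_⟩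
      · rw [h3]
        exact P.zero_mem
      · rw [h3]
        exact P.zero_mem

theorem HLs_Op.U_st (h : HLs_Op n r Φ Ψ J e D B) (hd : Dt n ζ Φ Ψ) (k : ℕ) :
    ML_St r Φ ⊤ J (HLs_U n ζ Φ e D B k) :=
  h.sB.sup (ML_St.iSup fun _ => h.P_st hd _)

theorem HLs_U_le {E : Finset (ZMod n)} {k : ℕ} (hE : (0 : ZMod n) ∉ E) (hk : k ≤ E.card) :
    HLs_P ζ Φ e E.toList * D ⊔ B ≤ HLs_U n ζ Φ e D B k :=
  le_sup_of_le_right (le_iSup (fun E : {E : Finset (ZMod n) // (0 : ZMod n) ∉ E ∧ k ≤ E.card} =>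
    (HLs_P ζ Φ e E.1.toList * D ⊔ B)) ⟨E, hE, hk⟩)

theorem HLs_Op.U_zero (h : HLs_Op n r Φ Ψ J e D B) : HLs_U n ζ Φ e D B 0 = D := by
  apply le_antisymm
  · exact sup_le h.le (iSup_le fun _ => h.P_le _)
  · have h1 := HLs_U_le (ζ := ζ) (Φ := Φ) (e := e) (D := D)
      (B := B) (E := ∅) (k := 0) (Finset.notMem_empty (0 : ZMod n)) (Nat.zero_le _)
    rw [Finset.toList_empty, HLs_P_nil, one_mul] at h1
    exact le_sup_left.trans h1

theorem HLs_U_succ (k : ℕ) : HLs_U n ζ Φ e D B (k + 1) ≤ HLs_U n ζ Φ e D B k :=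
  sup_le le_sup_left (iSup_le fun E => HLs_U_le E.2.1 ((Nat.le_succ k).trans E.2.2))

theorem HLs_U_top (hn : 0 < n) : HLs_U n ζ Φ e D B n ≤ B := by
  have : NeZero n := ⟨by omega⟩
  refine sup_le le_rfl (iSup_le fun E => ?_)
  have h1 : E.1.card < (Finset.univ : Finset (ZMod n)).card :=
    Finset.card_lt_card (Finset.ssubset_univ_iff.2 fun h3 => E.2.1 (h3 ▸ Finset.mem_univ _))
  have h2 := E.2.2
  rw [Finset.card_univ, ZMod.card] at h1
  omega

/-- `[e, [e, N]]` is trivial on every layer -/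
theorem HLs_Op.layer {φ : G →* G} {s m : ℕ} (hT : TT n s m) (hG : Ph n G φ)
    (hr : GRep n φ ζ Φ Ψ r) {S : Set (ZMod n)} (hS : Sup n ζ Φ S) (hm : S.ncard ≤ m + 1)
    (P : AddSubgroup (ZMod n)) (hP : ∀ f, f ∈ P ↔ ∀ x, x ∈ S ↔ x + f ∈ S)
    (h : HLs_Op n r Φ Ψ J e D B)
    (hdeg : ∀ i : ℕ, ((i : ZMod n) ∉ P ∨ (i : ZMod n) = 0) → ∀ x ∈ e, ∀ y ∈ e, ∀ v ∈ D,
      cmp n ζ Φ Ψ i (x * y - y * x) * v ∈ B) (k : ℕ) :
    ∀ g ∈ derG s (⊤ : Subgroup G), ∀ x ∈ e, ∀ y ∈ e, ∀ v ∈ HLs_U n ζ Φ e D B k,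
      (x * (r g * y * r g⁻¹ - y) - (r g * y * r g⁻¹ - y) * x) * v ∈
        HLs_U n ζ Φ e D B (k + 1) := by
  have hd := hr.dt
  have hn := hd.prim.pos
  obtain ⟨U, hU⟩ : ∃ U, U = HLs_U n ζ Φ e D B (k + 1) := ⟨_, rfl⟩
  have hUst : ML_St r Φ ⊤ J U := by rw [hU]; exact h.U_st hd _
  have hBU : B ≤ U := by rw [hU]; exact le_sup_left
  intro g hg x hx y hy v hv
  rw [← hU]
  obtain ⟨w, hw⟩ : ∃ w, w = r g * y * r g⁻¹ - y := ⟨_, rfl⟩
  rw [← hw]
  have hwe : w ∈ e := by rw [hw]; exact Submodule.sub_mem _ (h.ec.g g y hy) hy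
  have hrr : ∀ g : G, r g⁻¹ * r g = 1 := fun g => by rw [← map_mul, inv_mul_cancel, map_one]
  have hrr' : ∀ g : G, r g * r g⁻¹ = 1 := fun g => by rw [← map_mul, mul_inv_cancel, map_one]
  -- the claim for one set `E`
  have key : ∀ E : {E : Finset (ZMod n) // (0 : ZMod n) ∉ E ∧ k ≤ E.card},
      ∀ v ∈ HLs_P ζ Φ e E.1.toList * D ⊔ B, (x * w - w * x) * v ∈ U := by
    rintro ⟨E, hE, hk⟩ v hv
    by_cases hl : HLs_P ζ Φ e E.toList * D ≤ B
    · have hvB : v ∈ B := (sup_le hl le_rfl : HLs_P ζ Φ e E.toList * D ⊔ B ≤ B) hv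
      have e1 : (x * w - w * x) * v = x * (w * v) - w * (x * v) := by noncomm_ring
      rw [e1]
      exact hBU (Submodule.sub_mem _ (h.sB.l x (h.eJ hx) _ (h.sB.l w (h.eJ hwe) v hvB))
        (h.sB.l w (h.eJ hwe) _ (h.sB.l x (h.eJ hx) v hvB)))
    · have hcard := h.card hd hS P hP hdeg E hE hl
      obtain ⟨W, hW⟩ : ∃ W, W = HLs_P ζ Φ e E.toList * D ⊔ B := ⟨_, rfl⟩
      have hWst : ML_St r Φ ⊤ J W := by
        rw [hW]
        exact h.P_st hd _
      rw [← hW] at hv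
      let Ann : Submodule O A :=
        { carrier := {x | x ∈ e ∧ ∀ y ∈ e, ∀ v ∈ W, (x * y - y * x) * v ∈ U}
          add_mem' := by
            rintro a b ⟨ha1, ha2⟩ ⟨hb1, hb2⟩
            refine ⟨Submodule.add_mem _ ha1 hb1, fun y hy z hz => ?_⟩
            have e1 : ((a + b) * y - y * (a + b)) * z =
              (a * y - y * a) * z + (b * y - y * b) * z := by noncomm_ring
            rw [e1]
            exact Submodule.add_mem _ (ha2 y hy z hz) (hb2 y hy z hz)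
          zero_mem' := by
            refine ⟨Submodule.zero_mem _, fun y _ z _ => ?_⟩
            rw [zero_mul, mul_zero, sub_self, zero_mul]
            exact Submodule.zero_mem _
          smul_mem' := by
            rintro o a ⟨ha1, ha2⟩
            refine ⟨Submodule.smul_mem _ _ ha1, fun y hy z hz => ?_⟩
            have e1 : (o • a * y - y * o • a) * z = o • ((a * y - y * a) * z) := by
              rw [smul_mul_assoc, mul_smul_comm, ← smul_sub, smul_mul_assoc]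
            rw [e1]
            exact Submodule.smul_mem _ _ (ha2 y hy z hz) }
      have hAnng : ∀ g : G, ∀ a ∈ Ann, r g * a * r g⁻¹ ∈ Ann := by
        rintro g a ⟨ha1, ha2⟩
        refine ⟨h.ec.g g a ha1, fun y hy z hz => ?_⟩
        have hy' : r g⁻¹ * y * r g ∈ e := by
          have h3 := h.ec.g g⁻¹ y hy
          rwa [inv_inv] at h3
        have e1 : (r g * a * r g⁻¹ * y - y * (r g * a * r g⁻¹)) * z =
            r g * ((a * (r g⁻¹ * y * r g) - (r g⁻¹ * y * r g) * a) * (r g⁻¹ * z)) := by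
          have e2 : r g * ((a * (r g⁻¹ * y * r g) - (r g⁻¹ * y * r g) * a) * (r g⁻¹ * z)) =
              r g * a * r g⁻¹ * y * (r g * r g⁻¹) * z -
                (r g * r g⁻¹) * y * r g * a * r g⁻¹ * z := by noncomm_ring
          rw [e2, hrr', one_mul, mul_one]
          noncomm_ring
        rw [e1]
        exact hUst.g g (Subgroup.mem_top g) _
          (ha2 _ hy' _ (hWst.g g⁻¹ (Subgroup.mem_top _) z hz))
      have hAnnp : ∀ a ∈ Ann, Φ * a * Ψ ∈ Ann := by
        rintro a ⟨ha1, ha2⟩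
        refine ⟨h.ec.p a ha1, fun y hy z hz => ?_⟩
        have hy' : Ψ * y * Φ ∈ e := ML_Cl.psi hd h.ec.p y hy
        have e1 : (Φ * a * Ψ * y - y * (Φ * a * Ψ)) * z =
            Φ * ((a * (Ψ * y * Φ) - (Ψ * y * Φ) * a) * (Ψ * z)) := by
          have e2 : Φ * ((a * (Ψ * y * Φ) - (Ψ * y * Φ) * a) * (Ψ * z)) =
              Φ * a * Ψ * y * (Φ * Ψ) * z - (Φ * Ψ) * y * Φ * a * Ψ * z := by noncomm_ring
          rw [e2, hd.pq, one_mul, mul_one]
          noncomm_ring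
        rw [e1]
        exact hUst.p _ (ha2 _ hy' _ (ML_St.psi hd hWst.p z hz))
      have hS' : ((E : Finset (ZMod n)) : Set (ZMod n)).ncard ≤ m := by
        rw [Set.ncard_coe_finset]
        omega
      have hcmp : ∀ i : ℕ, (i : ZMod n) ∉ ((E : Finset (ZMod n)) : Set (ZMod n)) →
          ∀ a ∈ e, cmp n ζ Φ Ψ i a ∈ Ann := by
        intro i hi a ha
        have hae : cmp n ζ Φ Ψ i a ∈ e := cmp_mem e h.ec.p ha i
        refine ⟨hae, fun y hy z hz => ?_⟩
        by_cases h0 : (i : ZMod n) = 0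
        · have h3 : i % n = 0 % n := by
            have h4 : ((i : ℕ) : ZMod n) = ((0 : ℕ) : ZMod n) := by rw [h0, Nat.cast_zero]
            exact (ZMod.natCast_eq_natCast_iff _ _ _).1 h4
          rw [ML_cmp_congr hd h3 a, cmp_zero, h.tr a (h.eJ ha), smul_zero, zero_mul, mul_zero,
            sub_self, zero_mul]
          exact Submodule.zero_mem _
        · have hin : (i : ZMod n) ∉ E := hi
          have hmem : cmp n ζ Φ Ψ i a ∈ hp ζ Φ e ((i : ZMod n)).val := by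
            refine ⟨hae, (cmp_hm hd i a).congr hd ?_⟩
            rw [ZMod.val_natCast, Nat.mod_mod]
          have h0' : (0 : ZMod n) ∉ insert (i : ZMod n) E := by
            rw [Finset.mem_insert]
            rintro (h4 | h4)
            · exact h0 h4.symm
            · exact hE h4
          have h1 : Zd ζ Φ e (i : ZMod n) * W ≤ U := by
            rw [hW, Submodule.mul_sup]
            refine sup_le ?_ ((h.Zd_act h.sB.l _).trans hBU)
            have h2 := h.perm (ζ := ζ) (Finset.toList_insert hin).symm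
            rw [HLs_P_cons, mul_assoc] at h2
            refine h2.trans ?_
            rw [hU]
            refine HLs_U_le h0' ?_
            rw [Finset.card_insert_of_notMem hin]
            omega
          exact h1 (Submodule.mul_mem_mul (HLs_mem hmem hy) hz)
      have h3 := relT (hT _ hS') hG hr 0 Ann e (fun g _ => h.ec.g g)
        (fun g _ => hAnng g) h.ec.p hAnnp hcmp g (by rwa [zero_add]) y hy
      rw [← hw] at h3
      have e1 : (x * w - w * x) * v = -((w * x - x * w) * v) := by noncomm_ring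
      rw [e1]
      exact Submodule.neg_mem _ (h3.2 x hx v hv)
  unfold HLs_U at hv
  obtain ⟨b, hb, u, hu, rfl⟩ := Submodule.mem_sup.1 hv
  rw [mul_add]
  refine Submodule.add_mem _ ?_ ?_
  · have e1 : (x * w - w * x) * b = x * (w * b) - w * (x * b) := by noncomm_ring
    rw [e1]
    exact hBU (Submodule.sub_mem _ (h.sB.l x (h.eJ hx) _ (h.sB.l w (h.eJ hwe) b hb))
      (h.sB.l w (h.eJ hwe) _ (h.sB.l x (h.eJ hx) b hb)))
  refine Submodule.iSup_induction _ (motive := fun u => (x * w - w * x) * u ∈ U) hu ?_ ?_ ?_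
  · exact fun E y hy => key E y hy
  · rw [mul_zero]
    exact Submodule.zero_mem _
  · intro x y hx hy
    rw [mul_add]
    exact Submodule.add_mem _ hx hy

end hls

/-- the stabiliser of a set of degrees -/
def HLs_stab {n : ℕ} (S : Set (ZMod n)) : AddSubgroup (ZMod n) where
  carrier := {f | ∀ x, x ∈ S ↔ x + f ∈ S}
  add_mem' := by
    intro a b ha hb x
    rw [ha x, hb (x + a), add_assoc]
  zero_mem' := by
    intro x
    rw [add_zero]
  neg_mem' := by
    intro a ha x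
    rw [ha (x + -a), neg_add_cancel_right]

theorem hl (n : ℕ) : ∃ M : ℕ, 0 < M ∧ ∀ (s k : ℕ), TT n s k → ∀ S : Set (ZMod n),
    S.ncard ≤ k + 1 → S ≠ Set.univ → ∀ (G : Type) [Group G] (φ : G →* G), Ph n G φ →
    ∀ (O A : Type) [CommRing O] [Ring A] [Algebra O A] (ζ : O) (Φ Ψ : A) (r : G →* A),
    GRep n φ ζ Φ Ψ r → Sup n ζ Φ S →
    ∀ J e : Submodule O A, Cj r Φ Ψ J → Cj r Φ Ψ e → e ≤ J →
    (∀ y ∈ J, ∀ x ∈ e, y * x - x * y ∈ e) → Tr0 n Φ Ψ J →
    ∀ D B : Submodule O A, Lay r Φ J D B →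
    (∀ x ∈ e, ∀ y ∈ e, ∀ z ∈ J, ∀ v ∈ D,
      ((x * y - y * x) * z - z * (x * y - y * x)) * v ∈ B) →
    (∀ x ∈ e, ∀ y ∈ e, ∀ g, ∀ v ∈ D, ((x * y - y * x) * r g - r g * (x * y - y * x)) * v ∈ B) →
    ∀ (X : Submodule O A) (m : ℕ),
    (∀ D' B' : Submodule O A, D' ≤ D → B ≤ B' → Lay r Φ J D' B' →
      (∀ g ∈ derG s (⊤ : Subgroup G), ∀ x ∈ e, ∀ y ∈ e, ∀ v ∈ D',
        (x * (r g * y * r g⁻¹ - y) - (r g * y * r g⁻¹ - y) * x) * v ∈ B') →
      X ^ m * D' ≤ B') →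
    X ^ (m * M) * D ≤ B := by
  refine ⟨n + 1, Nat.succ_pos n, ?_⟩
  intro s k hT S hSk _ G _ φ hG O A _ _ _ ζ Φ Ψ r h hS J e hJ he heJ hJe h0 D B hL hcJ hcG X m
    hX
  have hn := h.prim.pos
  have hd := h.dt
  obtain ⟨D1, hD1D, hBD1, hL1, hL2, hdeg, htr⟩ := hl_first hT hSk hG h hS (HLs_stab S)
    (fun f => Iff.rfl) J e hJ he heJ hJe h0 D B hL hcJ hcG
  -- the lowest layer
  have hlow : X ^ m * D1 ≤ B := by
    refine hX D1 B hD1D le_rfl hL2 ?_
    intro g hg x hx y hy v hv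
    have h1 := htr g hg y (heJ hy) v hv
    have h2 := htr g hg y (heJ hy) (x * v) (hL2.lD x (heJ hx) v hv)
    have e1 : (x * (r g * y * r g⁻¹ - y) - (r g * y * r g⁻¹ - y) * x) * v =
        x * ((r g * y * r g⁻¹ - y) * v) - (r g * y * r g⁻¹ - y) * (x * v) := by noncomm_ring
    rw [e1]
    exact Submodule.sub_mem _ (hL2.lB x (heJ hx) _ h1) h2
  have st : ∀ {Y : Submodule O A}, Stab r Φ Y → (∀ a ∈ J, ∀ x ∈ Y, a * x ∈ Y) →
      ML_St r Φ ⊤ J Y := fun h1 h2 => ⟨fun g _ => h1.g g, h1.p, h2⟩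
  have hop : HLs_Op n r Φ Ψ J e D D1 :=
    ⟨hD1D, st hL1.sD hL1.lD, st hL1.sB hL1.lB, he, heJ, hJe, h0,
      fun x hx y hy z hz v hv => hBD1 (hcJ x hx y hy z hz v hv),
      fun x hx y hy g v hv => hBD1 (hcG x hx y hy g v hv)⟩
  have hlay := hop.layer hT hG h hS hSk (HLs_stab S) (fun f => Iff.rfl) hdeg
  have hUD : ∀ j, HLs_U n ζ Φ e D D1 j ≤ D := by
    intro j
    induction j with
    | zero => exact hop.U_zero.le
    | succ j ih => exact (HLs_U_succ j).trans ih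
  have hDU : ∀ j, D1 ≤ HLs_U n ζ Φ e D D1 j := fun j => le_sup_left
  have hstep : ∀ j, X ^ m * HLs_U n ζ Φ e D D1 j ≤ HLs_U n ζ Φ e D D1 (j + 1) := by
    intro j
    have s1 := hop.U_st hd j
    have s2 := hop.U_st hd (j + 1)
    refine hX _ _ (hUD j) (hBD1.trans (hDU _)) ?_ (hlay j)
    exact ⟨HLs_U_succ j, ⟨fun g => s1.g g (Subgroup.mem_top g), s1.p⟩,
      ⟨fun g => s2.g g (Subgroup.mem_top g), s2.p⟩, s1.l, s2.l⟩
  have hall : ∀ j, X ^ (m * j) * D ≤ HLs_U n ζ Φ e D D1 j := by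
    intro j
    induction j with
    | zero => rw [mul_zero, pow_zero, one_mul]; exact hop.U_zero.ge
    | succ j ih =>
      have e1 : X ^ (m * (j + 1)) * D = X ^ m * (X ^ (m * j) * D) := by
        rw [← mul_assoc, ← pow_add]
        congr 2
        ring
      rw [e1]
      exact (mul_le_mul' le_rfl ih).trans (hstep j)
  have e1 : X ^ (m * (n + 1)) * D = X ^ m * (X ^ (m * n) * D) := by
    rw [← mul_assoc, ← pow_add]
    congr 2
    ring
  rw [e1]
  exact (mul_le_mul' le_rfl ((hall n).trans (HLs_U_top hn))).trans hlow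

end Pool.Agent.FT
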