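import Pool.Agent.FT.ML
import Pool.Agent.FT.HLs
import Pool.Agent.FT.ClaimAux

/-!
# Claim: Lie algebras of operators of derived length `ρ`

Supports with `≤ k` elements are known (constant `s`), `S.ncard ≤ k + 1`, `S ≠ univ`. `J` is a Lie closed space of operators, stable
under conjugation with the group and `Φ`, without degree `0`, nilpotent on `D / B`, and `derL ρ J` kills `D / B`. Then
`(Xs r J (derG t ⊤))^M * D ≤ B` with `t`, `M` depending on `n, s, k, ρ` only.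

PROOF by induction on `ρ`, for all groups, algebras, layers. `m1`, `m2` = the constants of `ml n`, `hl n`.
`ρ = 0`: `t = 0`, `M = 1` (`Xs r J N ≤ J`).
`ρ = 1`: `ml` with `L = c = J`, `X = Xs r J (derG s ⊤)`, `m = 1`: on the layers `X D' ≤ B'`. `t = s`, `M = m1`.
`ρ ≥ 2`: let `t'`, `M'` be the constants for `ρ - 1`; `t = 2 s + t' + 2`, `M = M' * m1 * m2 * m1`; `X = Xs r J (derG t ⊤)`.
(i) `c := derL (ρ - 1) J` (`≤ J`, stable, an ideal of `J`, commuting on `D / B`). By `ml` (`L = J`, `m = M' * m1 * m2`) it is enough to treat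
layers `(D', B')`, stable under `G`, `Φ`, `J`, on which `c` is trivial for `G1 := derG s ⊤`, i.e. `[c, r g] D' ≤ B'`. For `u ∈ c`, `y ∈ J`, `g ∈ G1`:
`u (r g y r g⁻¹) = r g (u' y) r g⁻¹` with `u' = r g⁻¹ u r g ≡ u`, so `[u, r g y r g⁻¹] ≡ r g [u, y] r g⁻¹ ≡ [u, y]` (`[u,y] ∈ c`): `[u, w] D' ≤ B'` for
`w ∈ Xs r J G1`, hence (Jacobi, `[J, c] ≤ c`) for all `w ∈ J1 := LI J (Xs r J G1)` (`≤ J`, Lie closed, an ideal of `J`, stable under `G`, `Φ`).
(ii) Now the group is `H := ↥G1` with `res φ G1 _`, `r1 := r.comp G1.subtype` (`Ph.sub`; `GRep` restricts as in `relD`), `Lay r1 Φ J1 D' B'`. `e := derL (ρ - 2) J1`,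
`[e, e] ≤ derL (ρ-1) J1 ≤ c` is central for `J1` and trivial for `G1` on `D' / B'`. By `hl` (group `H`, `J = J1`, `m = M' * m1`) it is enough to treat layers
`(D2, B2)` (stable under `H`, `Φ`, `J1`) with `[e, [e, G2]] D2 ≤ B2`, `G2 = derG s G1 = derG (2s) ⊤`.
(iii) `R := {x ∈ e | ∀ y ∈ e, ∀ v ∈ D2, [x, y] v ∈ B2}`: an ideal of `J1`, stable under `H`, `Φ`, commuting on `D2 / B2`. By `ml` (group `H`, `L = J1`, `c = R`,
`m = M'`) it is enough to treat layers `(D3, B3)` on which `R` is trivial for `G2`; as in (i) `[R, w] D3 ≤ B3` for `w ∈ J2 := LI J1 (Xs r1 J1 G2)`.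
`[e, Xs r1 J1 G2] ≤ R`: `[x, r g y r g⁻¹ - y] = (r g [x', y] r g⁻¹ - [x', y]) + [x' - x, y]`, `x' = r g⁻¹ x r g`; both terms are in `R` (`[x',y] ∈ e`, and
`r g u r g⁻¹ - u ∈ R` for `u ∈ e`, `g ∈ G2` by (ii)). Hence `[e, J2] ≤ R` (the `w ∈ J1` with `[e, w] ≤ R` are closed under `[J1, ·]`).
(iv) `derL (ρ - 1) J2 * D3 ≤ B3`: it is spanned by `[a, b]`, `a, b ∈ derL (ρ - 2) J2`. `a ∈ e`. If `ρ ≥ 3`, `b` is a sum of `[u, w]`, `u, w ∈ J2` and
`[a, [u, w]] = [[a,u], w] - [[a,w], u] ∈ [R, J2]`. If `ρ = 2`: `J2 ≤ R` (`e = J1`: `Xs r1 J1 G2 ≤ R` by (ii), `R` is an ideal), so `[a,b] ∈ [R, J2]`.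
(v) Induction for `H`, `J2`, `(D3, B3)`: `(Xs r1 J2 (derG t' ⊤))^M' * D3 ≤ B3`. And `X ≤ Xs r1 J2 (derG t' ⊤)`: with `[U, N]` for `Xs r U N`:
`[U, ⁅N,N⁆] ≤ [[U,N],N]` (`r ⁅g,h⁆ - 1 = r(g⁻¹h⁻¹)..`: `Ad(ghg⁻¹h⁻¹) - 1 = ((Ad g - 1)(Ad h - 1) - (Ad h - 1)(Ad g - 1)) Ad(g⁻¹) Ad(h⁻¹)`, `U`, `N` stable), so
`[J, derG (2s+t'+2) ⊤] ≤ [[J, derG (2s+t'+1) ⊤], derG (2s+t'+1) ⊤] ≤ [J1, derG (2s+t'+1) ⊤] ≤ [[J1, derG (2s+t') ⊤], derG (2s+t') ⊤] ≤ [J2, derG (2s+t') ⊤]`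
(`derG (2s+t') ⊤ ≤ derG (s + t') ⊤ = derG t' G1`). SUGGESTED SPLIT: auxiliary lemmas (derL of Lie closed, stable submodules; `Xs` of commutators; centraliser
steps (i), (iii); restriction of `GRep`, `Cj`, `Tr0`, `Lay` to `H`) in a file `ClaimAux.lean`, the induction here. The private lemmas `Cr_der_*` of
`ThR/Cr.lean` may be copied.
-/

set_option autoImplicit false

namespace Pool.Agent.FT

open Pool.Agent.LgP Pool.Agent.ThR

section

variable {O A G : Type} [CommRing O] [Ring A] [Algebra O A] [Group G]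

private theorem Claim_Xs_mul {r : G →* A} {U D B : Submodule O A} {N : Subgroup G}
    (h : ∀ g ∈ N, ∀ x ∈ U, ∀ v ∈ D, (r g * x * r g⁻¹ - x) * v ∈ B) : Xs r U N * D ≤ B := by
  refine Submodule.mul_le.2 fun w hw v hv => ?_
  have h1 : Xs r U N ≤ B.comap (LinearMap.mulRight O v) := by
    refine Submodule.span_le.2 ?_
    rintro _ ⟨x, hx, g, hg, rfl⟩
    exact h g hg x hx v hv
  exact h1 hw

private theorem Claim_rg (r : G →* A) (g : G) (v : A) : r g⁻¹ * (r g * v) = v := by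
  rw [← mul_assoc, ← map_mul, inv_mul_cancel, map_one, one_mul]

end

theorem claim (n s k : ℕ) (hT : TT n s k) (ρ : ℕ) : ∃ t M : ℕ, 0 < M ∧ ∀ S : Set (ZMod n),
    S.ncard ≤ k + 1 → S ≠ Set.univ → ∀ (G : Type) [Group G] (φ : G →* G), Ph n G φ →
    ∀ (O A : Type) [CommRing O] [Ring A] [Algebra O A] (ζ : O) (Φ Ψ : A) (r : G →* A),
    GRep n φ ζ Φ Ψ r → Sup n ζ Φ S →
    ∀ J : Submodule O A, IsLie J → Cj r Φ Ψ J → Tr0 n Φ Ψ J →
    ∀ D B : Submodule O A, Lay r Φ J D B → (∃ m : ℕ, J ^ m * D ≤ B) → derL ρ J * D ≤ B →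
    (Xs r J (derG t (⊤ : Subgroup G))) ^ M * D ≤ B := by
  obtain ⟨m1, hm1, hml⟩ := ml n
  obtain ⟨m2, hm2, hhl⟩ := hl n
  induction ρ with
  | zero =>
    refine ⟨0, 1, one_pos, ?_⟩
    intro S hSk hSu G _ φ hG O A _ _ _ ζ Φ Ψ r h hsup J hJ hJc hJ0 D B hlay hnil hder
    rw [pow_one]
    exact le_trans (mul_le_mul' (CA_Xs_le hJc _) le_rfl) hder
  | succ ρ ih =>
    cases ρ with
    | zero =>
      refine ⟨s, m1, hm1, ?_⟩
      intro S hSk hSu G _ φ hG O A _ _ _ ζ Φ Ψ r h hsup J hJ hJc hJ0 D B hlay hnil hder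
      have h1 := hml s k hT S hSk G φ hG O A ζ Φ Ψ r h hsup J J hJc hJc le_rfl hJ hJ0 D B hlay
        (fun x hx y hy v hv => hder (Submodule.mul_mem_mul (CA_derL_br 0 x hx y hy) hv)) hnil
        (Xs r J (derG s (⊤ : Subgroup G))) 1 (fun D' B' _ _ _ htr => by
          rw [pow_one]
          exact Claim_Xs_mul htr)
      rw [one_mul] at h1
      exact h1
    | succ ρ =>
      obtain ⟨t', M', hM', ih⟩ := ih
      refine ⟨2 * s + t' + 2, M' * m1 * m2 * m1, by positivity, ?_⟩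
      intro S hSk hSu G _ φ hG O A _ _ _ ζ Φ Ψ r h hsup J hJ hJc hJ0 D B hlay hnil hder
      have hc1 : derL (ρ + 1) J ≤ J := CA_derL_le hJ _
      refine hml s k hT S hSk G φ hG O A ζ Φ Ψ r h hsup J (derL (ρ + 1) J) hJc
        (CA_derL_cj h hJc _) hc1 (CA_derL_ideal hJ _) (CA_Tr0_mono hc1 hJ0) D B hlay
        (fun x hx y hy v hv => hder (Submodule.mul_mem_mul (CA_derL_br _ x hx y hy) hv)) hnil
        _ (M' * m1 * m2) ?_
      intro D' B' hD' hB' hlay' htriv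
      have hXJ : Xs r J (derG s (⊤ : Subgroup G)) ≤ J := CA_Xs_le hJc _
      have hJ1 : LI J (Xs r J (derG s (⊤ : Subgroup G))) ≤ J := CA_LI_sub hJ hXJ
      have hJ1l : IsLie (LI J (Xs r J (derG s (⊤ : Subgroup G)))) := CA_LI_lie hJ hXJ
      have hJ1c : Cj r Φ Ψ (LI J (Xs r J (derG s (⊤ : Subgroup G)))) :=
        CA_LI_cj h hJc (CA_Xs_cj h hJc (derG_top_normal s) (derG_top_phi φ s))
      have hcent := CA_cent hJc (CA_derL_cj h hJc (ρ + 1)) (CA_derL_ideal hJ (ρ + 1)) hlay'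
        (derG s (⊤ : Subgroup G)) htriv
      have hstep5 := CA_step5 h hJ hJc s t'
      revert hJ1 hJ1l hJ1c hcent hstep5
      generalize LI J (Xs r J (derG s (⊤ : Subgroup G))) = J1
      intro hJ1 hJ1l hJ1c hcent hstep5
      have hG1 : Ph n (derG s (⊤ : Subgroup G)) (res φ _ (derG_top_phi φ s)) := hG.sub _ _
      have h1 : GRep n (res φ (derG s (⊤ : Subgroup G)) (derG_top_phi φ s)) ζ Φ Ψ
          (r.comp (derG s (⊤ : Subgroup G)).subtype) := CA_res_grep h _ _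
      have hl1 : Lay (r.comp (derG s (⊤ : Subgroup G)).subtype) Φ J1 D' B' :=
        CA_res_lay hlay' hJ1 _
      have hc11 : Cj (r.comp (derG s (⊤ : Subgroup G)).subtype) Φ Ψ J1 := CA_res_cj hJ1c _
      have hec := CA_derL_cj h1 hc11 ρ
      have heJ := CA_derL_ideal hJ1l ρ
      refine hhl s k hT S hSk hSu _ _ hG1 O A ζ Φ Ψ _ h1 hsup J1 (derL ρ J1) hc11 hec
        (CA_derL_le hJ1l ρ) heJ (CA_Tr0_mono hJ1 hJ0) D' B' hl1 ?_ ?_ _ (M' * m1) ?_
      · intro x hx y hy z hz v hv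
        exact hcent _ (CA_derL_mono hJ1 (ρ + 1) (CA_derL_br ρ x hx y hy)) z hz v hv
      · intro x hx y hy g v hv
        have h2 := htriv g g.2 _ (CA_derL_mono hJ1 (ρ + 1) (CA_derL_br ρ x hx y hy))
          (r g * v) (hlay'.sD.g g v hv)
        have h3 : (r (g : G) * (x * y - y * x) * r (g : G)⁻¹ - (x * y - y * x)) * (r g * v) =
            -(((x * y - y * x) * r g - r g * (x * y - y * x)) * v) := by
          rw [sub_mul, mul_assoc _ (r (g : G)⁻¹), Claim_rg]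
          noncomm_ring
        rw [h3] at h2
        exact neg_mem_iff.1 h2
      intro D2 B2 hD2 hB2 hlay2 htr2
      have hRi := CA_RR_ideal heJ hlay2
      have hRc := CA_RR_cj h1 hec hlay2
      have hRJ : RR (derL ρ J1) D2 B2 ≤ J1 := (RR_le _ _ _).trans (CA_derL_le hJ1l ρ)
      have hadR : ∀ g ∈ derG s (⊤ : Subgroup (derG s (⊤ : Subgroup G))), ∀ y ∈ derL ρ J1,
          (r.comp (derG s (⊤ : Subgroup G)).subtype) g * y *
            (r.comp (derG s (⊤ : Subgroup G)).subtype) g⁻¹ - y ∈ RR (derL ρ J1) D2 B2 := by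
        intro g hg y hy
        refine ⟨Submodule.sub_mem _ (hec.g g y hy) hy, fun x hx v hv => ?_⟩
        have h2 := Submodule.neg_mem _ (htr2 g hg x hx y hy v hv)
        rw [← neg_mul, neg_sub] at h2
        exact h2
      refine hml s k hT S hSk _ _ hG1 O A ζ Φ Ψ _ h1 hsup J1 (RR (derL ρ J1) D2 B2) hc11 hRc hRJ
        hRi (CA_Tr0_mono (hRJ.trans hJ1) hJ0) D2 B2 hlay2 (RR_cm _ _ _) ?_ _ M' ?_
      · obtain ⟨m, hm⟩ := hnil
        exact ⟨m, (mul_le_mul' (pow_le_pow_left' hJ1 m) (hD2.trans hD')).trans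
          (hm.trans (hB'.trans hB2))⟩
      intro D3 B3 hD3 hB3 hlay3 htr3
      have hR2 := CA_cent hc11 hRc hRi hlay3 _ htr3
      have heR := CA_eR hc11 hec heJ hRi _ hadR
      have hJ21 := CA_LI_sub hJ1l
        (CA_Xs_le hc11 (derG s (⊤ : Subgroup (derG s (⊤ : Subgroup G)))))
      have hJ2l := CA_LI_lie hJ1l
        (CA_Xs_le hc11 (derG s (⊤ : Subgroup (derG s (⊤ : Subgroup G)))))
      have hJ2c := CA_LI_cj h1 hc11 (CA_Xs_cj h1 hc11
        (derG_top_normal (G := derG s (⊤ : Subgroup G)) s)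
        (derG_top_phi (res φ (derG s (⊤ : Subgroup G)) (derG_top_phi φ s)) s))
      have h0 : ρ = 0 → LI J1 (Xs (r.comp (derG s (⊤ : Subgroup G)).subtype) J1
          (derG s (⊤ : Subgroup (derG s (⊤ : Subgroup G))))) ≤ RR (derL ρ J1) D2 B2 := by
        rintro rfl
        refine LI_le (Submodule.span_le.2 ?_) hRi
        rintro _ ⟨x, hx, g, hg, rfl⟩
        exact hadR g hg x hx
      have hder2 := CA_step4 ρ hJ21 hJ2l heR hR2 h0
      refine le_trans (mul_le_mul' (pow_le_pow_left' hstep5 M') le_rfl) ?_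
      refine ih S hSk hSu _ _ hG1 O A ζ Φ Ψ _ h1 hsup _ hJ2l hJ2c
        (CA_Tr0_mono (hJ21.trans hJ1) hJ0) D3 B3
        ⟨hlay3.le, hlay3.sD, hlay3.sB, fun a ha => hlay3.lD a (hJ21 ha),
          fun a ha => hlay3.lB a (hJ21 ha)⟩ ?_ hder2
      obtain ⟨m, hm⟩ := hnil
      exact ⟨m, (mul_le_mul' (pow_le_pow_left' (hJ21.trans hJ1) m)
        (hD3.trans (hD2.trans hD'))).trans (hm.trans (hB'.trans (hB2.trans hB3)))⟩

end Pool.Agent.FT
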