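import Pool.Agent.FT.Base

/-!
# Loss

`S.ncard ≤ k + 1`, supports with `≤ k` elements are known with constant `s`. `b` is such that `b f = 0` (in `ZMod n`) iff `f` is a period of `S`.
`Q, N, N', R` are normal invariant subgroups with `R ≤ Q`, `⁅Q, N'⁆ ≤ R`, `Q ≤ derG s N'`, `N ≤ ⟨x⁻¹ φ^b(x)⟩`. Then for every stable layer
`(D, B)` with `ag R * D ≤ B`: `ag Q * (ag ⁅Q, N⁆ * D) ≤ B`.

PROOF. (1) `Lin := span {r k | k ∈ Q}`. For `x ∈ Lin` and `g ∈ N'`: `(r g x r g⁻¹ - x) D ≤ B`, because `r (g k g⁻¹) - r k = (r ⁅g,k⁆ - 1) r k`,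
`⁅g,k⁆ ∈ R` (`⁅Q,N'⁆ ≤ R`), `r k D ≤ D`, `ag R * D ≤ B`. (2) For `x ∈ Lin` homogeneous of degree `f`, `f` not a period of `S`: `D_x := B ⊔ x D` is stable under `N'` (by (1)
`r g x v = x (r g v) + element of B`) and `Φ` (`Φ x = ζ^f x Φ`), and the degrees of `D_x / B` lie in `S ∩ (S + f)`, which has `≤ k` elements
(it is contained in `S` and different from `S`; `S` finite). `N'` with `res φ N' _` is `Ph n`, `r` restricted to `N'` is a `GRep`, so by `ThR.rel` (for the group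
`↥N'`, `TT n s k`) `(r g - 1) D_x ≤ B` for `g ∈ derG s N'` (`derG_sub`), in particular for `g ∈ Q`: `(r g - 1) x D ≤ B`: `ag Q * (x D) ≤ B`.
(3) For `q ∈ Q`: `r (φ^b q) - r q = Φ^b (r q) Ψ^b - r q = sum over i < n of (ζ^(b i) - 1) cmp i (r q)` (`cmp_sum`, `cmp_hm`; `cmp i (r q) ∈ Lin` by `cmp_mem`);
the terms with `i` a period vanish (`ζ^(b i) = 1` as `n ∣ b i`). So `ag Q * ((r (φ^b q) - r q) D) ≤ B`.
(4) `U := {u : G | ∀ q ∈ Q, ∀ w ∈ ag Q, ∀ v ∈ D, w * ((r (u q u⁻¹) - r q) * v) ∈ B}` is a subgroup (`r (u u' q u'⁻¹ u⁻¹) - r q = (r (u q' u⁻¹) - r q') + (r q' - r q)`,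
`q' = u' q u'⁻¹ ∈ Q`). It contains `x⁻¹ φ^b(x)`: conjugation with `x⁻¹ φ^b(x)` is `q ↦ x⁻¹ φ^b( x φ^{-b}(q) x⁻¹ ) x`: with `p = φ^{-b}(q)` (`φ` is bijective on `Q`, `φ^[n] = id`),
`r (x⁻¹ φ^b(x p x⁻¹) x) - r (φ^b p) = r x⁻¹ (r (φ^b (x p x⁻¹)) - r (x p x⁻¹)) r x + (r p - r (φ^b p))`, and `w r x⁻¹ = r x⁻¹ (r x w r x⁻¹)`, `r x w r x⁻¹ ∈ ag Q`, `r x v ∈ D`: both
terms are fine by (3). Hence `N ≤ U`.
(5) `{y : G | y ∈ Q ∧ ∀ w ∈ ag Q, ∀ v ∈ D, w * ((r y - 1) * v) ∈ B}` is a subgroup (`r (y y') - 1 = (r y - 1) r y' + (r y' - 1)`; inverse: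
`r y⁻¹ - 1 = -(r y - 1) r y⁻¹`) and contains `⁅q, u⁆ = q u q⁻¹ u⁻¹` for `q ∈ Q`, `u ∈ N`: `r ⁅q,u⁆ - 1 = (r q - r (u q u⁻¹)) r (u q⁻¹ u⁻¹)`, `r (u q⁻¹ u⁻¹) v ∈ D`. So it contains `⁅Q, N⁆`;
`ag ⁅Q, N⁆` is spanned by the `r y - 1`. QED
-/

set_option autoImplicit false

open scoped commutatorElement

namespace Pool.Agent.FT

open Pool.Agent.LgP Pool.Agent.ThR

variable {O A G : Type} [CommRing O] [Ring A] [Algebra O A] [Group G]

private theorem Loss_inv (r : G →* A) (g : G) : r g⁻¹ * r g = 1 := by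
  rw [← map_mul, inv_mul_cancel, map_one]

private theorem Loss_inv' (r : G →* A) (g : G) : r g * r g⁻¹ = 1 := by
  rw [← map_mul, mul_inv_cancel, map_one]

/-- the span of the `r k`, `k ∈ Q` -/
private def Loss_L (O : Type) {A G : Type} [CommRing O] [Ring A] [Algebra O A] [Group G]
    (r : G →* A) (Q : Subgroup G) : Submodule O A :=
  Submodule.span O {a | ∃ k ∈ Q, a = r k}

private theorem Loss_ag {r : G →* A} {R : Subgroup G} {D B : Submodule O A}
    (hR : ag O r R * D ≤ B) {c : G} (hc : c ∈ R) {v : A} (hv : v ∈ D) : (r c - 1) * v ∈ B :=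
  hR (Submodule.mul_mem_mul (Submodule.subset_span ⟨c, hc, rfl⟩) hv)

/-- to check `w * y ∈ B` for `w ∈ ag O r Q` it is enough to check the generators -/
private theorem Loss_gen {r : G →* A} {Q : Subgroup G} {B : Submodule O A} {y : A}
    (h : ∀ q ∈ Q, (r q - 1) * y ∈ B) : ∀ w ∈ ag O r Q, w * y ∈ B := by
  intro w hw
  unfold ag at hw
  refine Submodule.span_induction (p := fun w _ => w * y ∈ B) ?_ ?_ ?_ ?_ hw
  · rintro _ ⟨q, hq, rfl⟩
    exact h q hq
  · rw [zero_mul]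
    exact B.zero_mem
  · intro a b _ _ ha hb
    rw [add_mul]
    exact B.add_mem ha hb
  · intro c a _ ha
    rw [smul_mul_assoc]
    exact B.smul_mem _ ha

/-- (1) -/
private theorem Loss_one {n : ℕ} {φ : G →* G} {ζ : O} {Φ Ψ : A} {r : G →* A}
    (_h : GRep n φ ζ Φ Ψ r) {Q N' R : Subgroup G} (hQN' : ⁅Q, N'⁆ ≤ R)
    {D B : Submodule O A} (hD : Stab r Φ D) (hR : ag O r R * D ≤ B)
    {g : G} (hg : g ∈ N') {x : A} (hx : x ∈ Loss_L O r Q) {v : A} (hv : v ∈ D) :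
    (r g * x * r g⁻¹ - x) * v ∈ B := by
  unfold Loss_L at hx
  refine Submodule.span_induction (p := fun x _ => (r g * x * r g⁻¹ - x) * v ∈ B) ?_ ?_ ?_ ?_ hx
  · rintro _ ⟨k, hk, rfl⟩
    have h1 : ⁅g, k⁆ ∈ R := by
      apply hQN'
      rw [Subgroup.commutator_comm]
      exact Subgroup.commutator_mem_commutator hg hk
    have h2 : (r g * r k * r g⁻¹ - r k) * v = (r ⁅g, k⁆ - 1) * (r k * v) := by
      have h3 : r g * r k * r g⁻¹ = r ⁅g, k⁆ * r k := by
        rw [← map_mul, ← map_mul, ← map_mul]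
        congr 1
        rw [commutatorElement_def]
        group
      rw [h3, sub_mul, sub_mul, one_mul, mul_assoc]
    rw [h2]
    exact Loss_ag hR h1 (hD.g _ _ hv)
  · rw [mul_zero, zero_mul, sub_zero, zero_mul]
    exact B.zero_mem
  · intro a b _ _ ha hb
    have e : (r g * (a + b) * r g⁻¹ - (a + b)) * v =
        (r g * a * r g⁻¹ - a) * v + (r g * b * r g⁻¹ - b) * v := by noncomm_ring
    rw [e]
    exact B.add_mem ha hb
  · intro c a _ ha
    have e : (r g * (c • a) * r g⁻¹ - c • a) * v = c • ((r g * a * r g⁻¹ - a) * v) := by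
      rw [mul_smul_comm, smul_mul_assoc, ← smul_sub, smul_mul_assoc]
    rw [e]
    exact B.smul_mem _ ha

/-- (2) -/
private theorem Loss_two {n s k : ℕ} (hT : TT n s k) {S : Set (ZMod n)} (hk : S.ncard ≤ k + 1)
    {φ : G →* G} (hG : Ph n G φ) {ζ : O} {Φ Ψ : A} {r : G →* A} (h : GRep n φ ζ Φ Ψ r)
    (hS : Sup n ζ Φ S) {Q N' R : Subgroup G} (hN'φ : ∀ g ∈ N', φ g ∈ N')
    (hQN' : ⁅Q, N'⁆ ≤ R) (hQd : Q ≤ derG s N')
    {D B : Submodule O A} (hD : Stab r Φ D) (hB : Stab r Φ B)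
    (hR : ag O r R * D ≤ B) {x : A} (hx : x ∈ Loss_L O r Q) {f : ℕ} (hf : Hm ζ Φ f x)
    (hnp : ¬ ∀ y : ZMod n, y ∈ S ↔ y + (f : ZMod n) ∈ S) {q : G} (hq : q ∈ Q) {v : A}
    (hv : v ∈ D) : (r q - 1) * (x * v) ∈ B := by
  have hd := h.dt
  have hn : NeZero n := ⟨hG.pos.ne'⟩
  set S' : Set (ZMod n) := {y | y ∈ S ∧ y - (f : ZMod n) ∈ S} with hS'
  have hcard : S'.ncard ≤ k := by
    have h1 : S' ⊆ S := fun y hy => hy.1
    have h2 : S' ≠ S := by
      intro h3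
      apply hnp
      have h4 : ∀ y ∈ S, y - (f : ZMod n) ∈ S := by
        intro y hy
        rw [← h3] at hy
        exact hy.2
      have h5 : (fun y : ZMod n => y - (f : ZMod n)) '' S ⊆ S := by
        rintro _ ⟨y, hy, rfl⟩
        exact h4 y hy
      have h6 : (fun y : ZMod n => y - (f : ZMod n)) '' S = S := by
        apply Set.eq_of_subset_of_ncard_le h5
        rw [Set.ncard_image_of_injective _ (sub_left_injective)]
      intro y
      constructor
      · intro hy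
        rw [← h6] at hy
        obtain ⟨z, hz, hzy⟩ := hy
        have h7 : y + (f : ZMod n) = z := by rw [← hzy]; ring
        rw [h7]
        exact hz
      · intro hy
        have h7 := h4 _ hy
        rwa [add_sub_cancel_right] at h7
    have h3 : S'.ncard < S.ncard := Set.ncard_lt_ncard (h1.ssubset_of_ne h2)
    omega
  have htr := hT S' hcard (N' : Type) (res φ N' hN'φ) (hG.sub N' hN'φ)
  let ρ : N' →* A := r.comp N'.subtype
  have hrep : GRep n (res φ N' hN'φ) ζ Φ Ψ ρ := by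
    refine ⟨h.prim, h.pq, h.qp, h.pow, fun g => h.eq g, ?_⟩
    obtain ⟨K, hK⟩ := h.nil
    refine ⟨K, ?_⟩
    rw [eq_bot_iff, ← hK]
    refine pow_le_pow_left' ?_ K
    unfold aug
    refine Submodule.span_mono ?_
    rintro _ ⟨g, rfl⟩
    exact ⟨(g : G), rfl⟩
  set X : Submodule O A := D.map (LinearMap.mulLeft O x) ⊔ B with hX
  have hXe : ∀ y ∈ X, ∃ v ∈ D, ∃ w ∈ B, y = x * v + w := by
    intro y hy
    obtain ⟨a, ha, w, hw, rfl⟩ := Submodule.mem_sup.1 hy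
    obtain ⟨v, hv, rfl⟩ := ha
    exact ⟨v, hv, w, hw, rfl⟩
  have hXi : ∀ v ∈ D, ∀ w ∈ B, x * v + w ∈ X := by
    intro v hv w hw
    exact Submodule.add_mem_sup ⟨v, hv, rfl⟩ hw
  have hXs : Stab ρ Φ X := by
    constructor
    · intro g y hy
      obtain ⟨v, hv, w, hw, rfl⟩ := hXe y hy
      have h1 := Loss_one h hQN' hD hR g.2 hx (hD.g g v hv)
      have e : ρ g * (x * v + w) = x * (r g * v) +
          ((r (g : G) * x * r (g : G)⁻¹ - x) * (r g * v) + r g * w) := by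
        have e1 : r (g : G) * x * r (g : G)⁻¹ * (r g * v) = r g * x * v := by
          rw [mul_assoc (r (g : G) * x), ← mul_assoc (r (g : G)⁻¹), Loss_inv, one_mul]
        rw [sub_mul, e1]
        change r (g : G) * (x * v + w) = _
        noncomm_ring
      rw [e]
      exact hXi _ (hD.g g v hv) _ (B.add_mem h1 (hB.g g w hw))
    · intro y hy
      obtain ⟨v, hv, w, hw, rfl⟩ := hXe y hy
      have e : Φ * (x * v + w) = x * (ζ ^ f • (Φ * v)) + Φ * w := by
        rw [mul_add, ← mul_assoc, hf, smul_mul_assoc, mul_smul_comm, mul_assoc]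
      rw [e]
      exact hXi _ (D.smul_mem _ (hD.p v hv)) _ (hB.p w hw)
  have hXd : ∀ i : ℕ, (i : ZMod n) ∉ S' → ∀ y ∈ X, ide n ζ Φ i * y ∈ B := by
    intro i hi y hy
    obtain ⟨v, hv, w, hw, rfl⟩ := hXe y hy
    rw [mul_add]
    refine B.add_mem ?_ (ide_stab hB.p i w hw)
    by_cases h1 : (i : ZMod n) ∈ S
    · have h2 : (i : ZMod n) - (f : ZMod n) ∉ S := fun h3 => hi ⟨h1, h3⟩
      set j : ℕ := ((i : ZMod n) - (f : ZMod n)).val with hj
      have h3 : (j : ZMod n) = (i : ZMod n) - (f : ZMod n) := by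
        rw [hj, ZMod.natCast_zmod_val]
      have h4 : ide n ζ Φ j = 0 := hS j (by rw [h3]; exact h2)
      have h5 : (j + f) % n = i % n := by
        have h6 : ((j + f : ℕ) : ZMod n) = (i : ZMod n) := by
          push_cast
          rw [h3]
          ring
        exact (ZMod.natCast_eq_natCast_iff' _ _ _).1 h6
      have h6 : ide n ζ Φ i * x = 0 := by
        rw [← ide_congr hd h5, ← hf.ide hd j, h4, mul_zero]
      rw [← mul_assoc, h6, zero_mul]
      exact B.zero_mem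
    · rw [hS i h1, zero_mul]
      exact B.zero_mem
  have key := rel n (res φ N' hN'φ) S' (derG s (⊤ : Subgroup N')) htr ζ Φ Ψ ρ hrep B X
    le_sup_right hXs ⟨fun g y hy => hB.g g y hy, hB.p⟩ hXd
  have hq' : q ∈ (derG s (⊤ : Subgroup N')).map N'.subtype := by
    rw [derG_sub]
    exact hQd hq
  obtain ⟨q', hq', rfl⟩ := hq'
  have h1 := key q' hq' (x * v) (by
    have := hXi v hv 0 B.zero_mem
    rwa [add_zero] at this)
  exact h1

/-- (3) -/
private theorem Loss_three {n s k : ℕ} (hT : TT n s k) {S : Set (ZMod n)} (hk : S.ncard ≤ k + 1)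
    {b : ℕ} (hb : ∀ f : ZMod n, (b : ZMod n) * f = 0 ↔ ∀ x, x ∈ S ↔ x + f ∈ S)
    {φ : G →* G} (hG : Ph n G φ) {ζ : O} {Φ Ψ : A} {r : G →* A} (h : GRep n φ ζ Φ Ψ r)
    (hS : Sup n ζ Φ S) {Q N' R : Subgroup G} (hQφ : ∀ g ∈ Q, φ g ∈ Q)
    (hN'φ : ∀ g ∈ N', φ g ∈ N')
    (hQN' : ⁅Q, N'⁆ ≤ R) (hQd : Q ≤ derG s N')
    {D B : Submodule O A} (hD : Stab r Φ D) (hB : Stab r Φ B)
    (hR : ag O r R * D ≤ B) {q : G} (hq : q ∈ Q) {w : A} (hw : w ∈ ag O r Q) {v : A}
    (hv : v ∈ D) : w * ((r ((⇑φ)^[b] q) - r q) * v) ∈ B := by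
  have hd := h.dt
  refine Loss_gen ?_ w hw
  intro p hp
  have hLφ : ∀ a ∈ Loss_L O r Q, Φ * a * Ψ ∈ Loss_L O r Q := by
    intro a ha
    unfold Loss_L at ha
    refine Submodule.span_induction (p := fun a _ => Φ * a * Ψ ∈ Loss_L O r Q) ?_ ?_ ?_ ?_ ha
    · rintro _ ⟨k, hk, rfl⟩
      rw [h.eq]
      exact Submodule.subset_span ⟨_, hQφ k hk, rfl⟩
    · rw [mul_zero, zero_mul]
      exact Submodule.zero_mem _
    · intro a b _ _ ha hb
      rw [mul_add, add_mul]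
      exact Submodule.add_mem _ ha hb
    · intro c a _ ha
      rw [mul_smul_comm, smul_mul_assoc]
      exact Submodule.smul_mem _ _ ha
  have hqL : r q ∈ Loss_L O r Q := Submodule.subset_span ⟨q, hq, rfl⟩
  have hpow : ∀ (j : ℕ) (i : ℕ) (a : A), Hm ζ Φ i a → Φ ^ j * a * Ψ ^ j = ζ ^ (i * j) • a := by
    intro j i a ha
    induction j with
    | zero => simp
    | succ j ih =>
      have e : Φ ^ (j + 1) * a * Ψ ^ (j + 1) = Φ * (Φ ^ j * a * Ψ ^ j) * Ψ := by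
        rw [pow_succ', pow_succ]
        simp only [mul_assoc]
      rw [e, ih, mul_smul_comm, smul_mul_assoc, ha, smul_mul_assoc, smul_smul, mul_assoc, hd.pq,
        mul_one, ← pow_add]
      congr 2
  have hφr : r ((⇑φ)^[b] q) = Φ ^ b * r q * Ψ ^ b := by
    clear hb
    induction b with
    | zero => simp
    | succ b ih =>
      rw [Function.iterate_succ_apply', ← h.eq, ih, pow_succ', pow_succ]
      simp only [mul_assoc]
  have hdec : r ((⇑φ)^[b] q) - r q = ∑ i ∈ Finset.range n, (ζ ^ (i * b) - 1) •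
      cmp n ζ Φ Ψ i (r q) := by
    have h1 : r q = ∑ i ∈ Finset.range n, cmp n ζ Φ Ψ i (r q) := (cmp_sum hd _).symm
    have h2 : Φ ^ b * r q * Ψ ^ b = ∑ i ∈ Finset.range n, ζ ^ (i * b) • cmp n ζ Φ Ψ i (r q) := by
      conv_lhs => rw [h1]
      rw [Finset.mul_sum, Finset.sum_mul]
      exact Finset.sum_congr rfl fun i _ => hpow b i _ (cmp_hm hd i _)
    rw [hφr, h2]
    calc ∑ i ∈ Finset.range n, ζ ^ (i * b) • cmp n ζ Φ Ψ i (r q) - r q
        = ∑ i ∈ Finset.range n, ζ ^ (i * b) • cmp n ζ Φ Ψ i (r q) -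
          ∑ i ∈ Finset.range n, cmp n ζ Φ Ψ i (r q) := by rw [cmp_sum hd]
      _ = ∑ i ∈ Finset.range n, (ζ ^ (i * b) - 1) • cmp n ζ Φ Ψ i (r q) := by
          rw [← Finset.sum_sub_distrib]
          refine Finset.sum_congr rfl fun i _ => ?_
          rw [sub_smul, one_smul]
  rw [hdec, Finset.sum_mul, Finset.mul_sum]
  refine B.sum_mem fun i _ => ?_
  rw [smul_mul_assoc, mul_smul_comm]
  by_cases h1 : (b : ZMod n) * (i : ZMod n) = 0
  · have h2 : n ∣ b * i := by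
      rw [← Nat.cast_mul] at h1
      exact (ZMod.natCast_eq_zero_iff _ _).1 h1
    obtain ⟨c, hc⟩ := h2
    have h3 : ζ ^ (i * b) = 1 := by
      rw [mul_comm, hc, pow_mul, h.prim.pow, one_pow]
    rw [h3, sub_self, zero_smul]
    exact B.zero_mem
  · refine B.smul_mem _ ?_
    refine Loss_two hT hk hG h hS hN'φ hQN' hQd hD hB hR (cmp_mem _ hLφ hqL i) (cmp_hm hd i _)
      ?_ hp hv
    intro h2
    exact h1 ((hb _).2 h2)

theorem loss (n s k : ℕ) (hT : TT n s k) (S : Set (ZMod n)) (hk : S.ncard ≤ k + 1) (b : ℕ)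
    (hb : ∀ f : ZMod n, (b : ZMod n) * f = 0 ↔ ∀ x, x ∈ S ↔ x + f ∈ S)
    (G : Type) [Group G] (φ : G →* G) (hG : Ph n G φ) (O A : Type) [CommRing O] [Ring A]
    [Algebra O A] (ζ : O) (Φ Ψ : A) (r : G →* A) (h : GRep n φ ζ Φ Ψ r) (hS : Sup n ζ Φ S)
    (Q N N' R : Subgroup G) (hQn : Q.Normal) (hNn : N.Normal) (hN'n : N'.Normal) (hRn : R.Normal)
    (hQφ : ∀ g ∈ Q, φ g ∈ Q) (hNφ : ∀ g ∈ N, φ g ∈ N) (hN'φ : ∀ g ∈ N', φ g ∈ N')
    (hRφ : ∀ g ∈ R, φ g ∈ R) (hRQ : R ≤ Q) (hQN' : ⁅Q, N'⁆ ≤ R) (hQd : Q ≤ derG s N')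
    (hNb : N ≤ Subgroup.closure {g | ∃ x : G, g = x⁻¹ * (⇑φ)^[b] x})
    (D B : Submodule O A) (hD : Stab r Φ D) (hB : Stab r Φ B) (hBD : B ≤ D)
    (hR : ag O r R * D ≤ B) : ag O r Q * (ag O r ⁅Q, N⁆ * D) ≤ B := by
  have hinv := Loss_inv r
  have hinv' := Loss_inv' r
  -- the space `ag O r Q` is stable under conjugation
  have hagc : ∀ g : G, ∀ w ∈ ag O r Q, r g * w * r g⁻¹ ∈ ag O r Q := by
    intro g w hw
    unfold ag at hw ⊢
    refine Submodule.span_induction (p := fun w _ => r g * w * r g⁻¹ ∈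
      Submodule.span O {a | ∃ k ∈ Q, a = r k - 1}) ?_ ?_ ?_ ?_ hw
    · rintro _ ⟨k, hk, rfl⟩
      refine Submodule.subset_span ⟨g * k * g⁻¹, hQn.conj_mem k hk g, ?_⟩
      rw [mul_sub, sub_mul, mul_one, hinv', ← map_mul, ← map_mul]
    · rw [mul_zero, zero_mul]
      exact Submodule.zero_mem _
    · intro a c _ _ ha hc
      rw [mul_add, add_mul]
      exact Submodule.add_mem _ ha hc
    · intro c a _ ha
      rw [mul_smul_comm, smul_mul_assoc]
      exact Submodule.smul_mem _ _ ha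
  have h3 : ∀ q ∈ Q, ∀ w ∈ ag O r Q, ∀ v ∈ D, w * ((r ((⇑φ)^[b] q) - r q) * v) ∈ B :=
    fun q hq w hw v hv =>
      Loss_three hT hk hb hG h hS hQφ hN'φ hQN' hQd hD hB hR hq hw hv
  have hit : ∀ (H : Subgroup G), (∀ g ∈ H, φ g ∈ H) → ∀ (j : ℕ), ∀ g ∈ H, (⇑φ)^[j] g ∈ H := by
    intro H hH j g hg
    induction j with
    | zero => exact hg
    | succ j ih => rw [Function.iterate_succ_apply']; exact hH _ ih
  have hitm : ∀ (j : ℕ) (x y : G), (⇑φ)^[j] (x * y) = (⇑φ)^[j] x * (⇑φ)^[j] y := by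
    intro j x y
    induction j with
    | zero => rfl
    | succ j ih => rw [Function.iterate_succ_apply', Function.iterate_succ_apply',
        Function.iterate_succ_apply', ih, map_mul]
  have hiti : ∀ (j : ℕ) (x : G), (⇑φ)^[j] x⁻¹ = ((⇑φ)^[j] x)⁻¹ := by
    intro j x
    induction j with
    | zero => rfl
    | succ j ih => rw [Function.iterate_succ_apply', Function.iterate_succ_apply', ih, map_inv]
  -- (4)
  let U : Subgroup G :=
    { carrier := {u | ∀ q ∈ Q, ∀ w ∈ ag O r Q, ∀ v ∈ D,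
        w * ((r (u * q * u⁻¹) - r q) * v) ∈ B}
      mul_mem' := by
        intro u u' hu hu' q hq w hw v hv
        have hq' : u' * q * u'⁻¹ ∈ Q := hQn.conj_mem q hq u'
        have e : r (u * u' * q * (u * u')⁻¹) - r q =
            (r (u * (u' * q * u'⁻¹) * u⁻¹) - r (u' * q * u'⁻¹)) +
              (r (u' * q * u'⁻¹) - r q) := by
          have : u * u' * q * (u * u')⁻¹ = u * (u' * q * u'⁻¹) * u⁻¹ := by group
          rw [this]
          abel
        rw [e, add_mul, mul_add]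
        exact B.add_mem (hu _ hq' w hw v hv) (hu' q hq w hw v hv)
      one_mem' := by
        intro q hq w hw v hv
        rw [one_mul, inv_one, mul_one, sub_self, zero_mul, mul_zero]
        exact B.zero_mem
      inv_mem' := by
        intro u hu q hq w hw v hv
        have hq' : u⁻¹ * q * u⁻¹⁻¹ ∈ Q := hQn.conj_mem q hq u⁻¹
        have h1 := hu _ hq' w hw v hv
        have e : u * (u⁻¹ * q * u⁻¹⁻¹) * u⁻¹ = q := by group
        rw [e] at h1
        have h2 := B.neg_mem h1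
        have e2 : -(w * ((r q - r (u⁻¹ * q * u⁻¹⁻¹)) * v)) =
            w * ((r (u⁻¹ * q * u⁻¹⁻¹) - r q) * v) := by noncomm_ring
        rwa [e2] at h2 }
  have hNU : N ≤ U := by
    refine hNb.trans ?_
    rw [Subgroup.closure_le]
    rintro _ ⟨x, rfl⟩ q hq w hw v hv
    obtain ⟨p, hp, hpq⟩ : ∃ p ∈ Q, (⇑φ)^[b] p = q := by
      have h5 : ∀ j : ℕ, (⇑φ)^[n * j] q = q := by
        intro j
        induction j with
        | zero => rfl
        | succ j ih => rw [Nat.mul_succ, Function.iterate_add_apply, hG.per, ih]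
      refine ⟨(⇑φ)^[n * b - b] q, hit Q hQφ _ q hq, ?_⟩
      rw [← Function.iterate_add_apply]
      have h6 : b + (n * b - b) = n * b := by
        have : b ≤ n * b := Nat.le_mul_of_pos_left b hG.pos
        omega
      rw [h6, h5]
    have e0 : x⁻¹ * (⇑φ)^[b] x * q * (x⁻¹ * (⇑φ)^[b] x)⁻¹ =
        x⁻¹ * (⇑φ)^[b] (x * p * x⁻¹) * x := by
      rw [hitm, hitm, hiti, hpq]
      group
    have e1 : r (x⁻¹ * (⇑φ)^[b] (x * p * x⁻¹) * x) - r q =
        r x⁻¹ * (r ((⇑φ)^[b] (x * p * x⁻¹)) - r (x * p * x⁻¹)) * r x - (r ((⇑φ)^[b] p) - r p) := by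
      rw [mul_sub, sub_mul, ← map_mul, ← map_mul, ← map_mul, ← map_mul, hpq]
      have : x⁻¹ * (x * p * x⁻¹) * x = p := by group
      rw [this]
      abel
    rw [e0, e1, sub_mul, mul_sub]
    refine B.sub_mem ?_ (h3 p hp w hw v hv)
    have h5 := h3 (x * p * x⁻¹) (hQn.conj_mem p hp x) _ (hagc x w hw) (r x * v) (hD.g x v hv)
    have h6 := hB.g x⁻¹ _ h5
    have e2 : r x⁻¹ * (r x * w * r x⁻¹ *
        ((r ((⇑φ)^[b] (x * p * x⁻¹)) - r (x * p * x⁻¹)) * (r x * v))) =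
        w * (r x⁻¹ * (r ((⇑φ)^[b] (x * p * x⁻¹)) - r (x * p * x⁻¹)) * r x * v) := by
      calc _ = (r x⁻¹ * r x) * (w * (r x⁻¹ *
          (r ((⇑φ)^[b] (x * p * x⁻¹)) - r (x * p * x⁻¹)) * r x * v)) := by
            simp only [mul_assoc]
        _ = _ := by rw [hinv, one_mul]
    rwa [e2] at h6
  -- (5)
  let Y : Subgroup G :=
    { carrier := {y | ∀ w ∈ ag O r Q, ∀ v ∈ D, w * ((r y - 1) * v) ∈ B}
      mul_mem' := by
        intro y y' hy hy' w hw v hv
        have e : r (y * y') - 1 = (r y - 1) * r y' + (r y' - 1) := by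
          rw [map_mul]
          noncomm_ring
        rw [e, add_mul, mul_add, mul_assoc]
        exact B.add_mem (hy w hw _ (hD.g _ _ hv)) (hy' w hw v hv)
      one_mem' := by
        intro w hw v hv
        rw [map_one, sub_self, zero_mul, mul_zero]
        exact B.zero_mem
      inv_mem' := by
        intro y hy w hw v hv
        have h1 := B.neg_mem (hy w hw _ (hD.g y⁻¹ v hv))
        have e : -(w * ((r y - 1) * (r y⁻¹ * v))) = w * ((r y⁻¹ - 1) * v) := by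
          have e1 : r y * r y⁻¹ = 1 := hinv' y
          calc _ = w * ((r y⁻¹ - r y * r y⁻¹) * v) := by noncomm_ring
            _ = _ := by rw [e1]
        rwa [e] at h1 }
  have hQY : ⁅Q, N⁆ ≤ Y := by
    rw [Subgroup.commutator_le]
    intro q hq u hu w hw v hv
    have h1 := hNU hu q hq w hw (r (u * q⁻¹ * u⁻¹) * v) (hD.g _ _ hv)
    have h2 := B.neg_mem h1
    have e : -(w * ((r (u * q * u⁻¹) - r q) * (r (u * q⁻¹ * u⁻¹) * v))) =
        w * ((r ⁅q, u⁆ - 1) * v) := by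
      have e1 : r (u * q * u⁻¹) * r (u * q⁻¹ * u⁻¹) = 1 := by
        rw [← map_mul]
        have : u * q * u⁻¹ * (u * q⁻¹ * u⁻¹) = 1 := by group
        rw [this, map_one]
      have e2 : r q * r (u * q⁻¹ * u⁻¹) = r ⁅q, u⁆ := by
        rw [← map_mul, commutatorElement_def]
        congr 1
        group
      calc _ = w * ((r q * r (u * q⁻¹ * u⁻¹) - r (u * q * u⁻¹) * r (u * q⁻¹ * u⁻¹)) * v) := by
            noncomm_ring
        _ = _ := by rw [e1, e2]
    rwa [e] at h2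
  rw [Submodule.mul_le]
  intro w hw y hy
  refine Submodule.mul_induction_on hy ?_ ?_
  · intro a ha v hv
    unfold ag at ha
    refine Submodule.span_induction (p := fun a _ => w * (a * v) ∈ B) ?_ ?_ ?_ ?_ ha
    · rintro _ ⟨c, hc, rfl⟩
      exact hQY hc w hw v hv
    · rw [zero_mul, mul_zero]
      exact B.zero_mem
    · intro a c _ _ ha hc
      rw [add_mul, mul_add]
      exact B.add_mem ha hc
    · intro c a _ ha
      rw [smul_mul_assoc, mul_smul_comm]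
      exact B.smul_mem _ ha
  · intro a c ha hc
    rw [mul_add]
    exact B.add_mem ha hc

end Pool.Agent.FT
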