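import Pool.Agent.FT.Ph

/-!
# Quo: deep derived groups lie in `[G, φ^b]`

Let `b ∣ n`, `0 < b`, and suppose `derG s ⊤ = ⊥` for all `Ph b`. Then `derG s ⊤ ≤ ⟨x⁻¹ φ^b(x)⟩` for all `Ph n`.

PROOF. `Y := closure {x⁻¹ * φ^[b] x}` is normal (`h⁻¹ (x⁻¹ φ^b(x)) h = ((x h)⁻¹ φ^b(x h)) (h⁻¹ φ^b(h))⁻¹`; use `Subgroup.closure` and that
the set of conjugates lies in `Y`, compare the private `Grp_normal`, `Grp_stable` in `OrdS/Grp.lean`) and `φ`-invariant. On `G ⧸ Y` the induced map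
`φ'` has `φ'^[b] = id`, and by `Ph.quot` it satisfies `Ph n`, in particular it is fixed-point-free; `Nat.Coprime b (Nat.card (G ⧸ Y))` as `b ∣ n`.
So `Ph b (G ⧸ Y) φ'`, `derG s ⊤ = ⊥` in `G ⧸ Y`, and by `derG_map'` the image of `derG s ⊤` is trivial, i.e. `derG s ⊤ ≤ Y`.
-/

set_option autoImplicit false

namespace Pool.Agent.FT

open Pool.Agent.LgP Pool.Agent.ThR

private theorem Quo_iter_mul {G : Type} [Group G] (φ : G →* G) (b : ℕ) (x y : G) :
    (⇑φ)^[b] (x * y) = (⇑φ)^[b] x * (⇑φ)^[b] y := by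
  induction b with
  | zero => rfl
  | succ b ih => rw [Function.iterate_succ_apply', Function.iterate_succ_apply',
      Function.iterate_succ_apply', ih, map_mul]

private theorem Quo_iter_inv {G : Type} [Group G] (φ : G →* G) (b : ℕ) (x : G) :
    (⇑φ)^[b] x⁻¹ = ((⇑φ)^[b] x)⁻¹ := by
  induction b with
  | zero => rfl
  | succ b ih => rw [Function.iterate_succ_apply', Function.iterate_succ_apply', ih, map_inv]

private theorem Quo_normal {G : Type} [Group G] (φ : G →* G) (b : ℕ) :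
    (Subgroup.closure {g | ∃ x : G, g = x⁻¹ * (⇑φ)^[b] x}).Normal := by
  refine ⟨?_⟩
  intro x hx g
  induction hx using Subgroup.closure_induction with
  | mem x hx =>
    obtain ⟨x, rfl⟩ := hx
    have e : g * (x⁻¹ * (⇑φ)^[b] x) * g⁻¹ =
        ((x * g⁻¹)⁻¹ * (⇑φ)^[b] (x * g⁻¹)) * (g⁻¹⁻¹ * (⇑φ)^[b] g⁻¹)⁻¹ := by
      rw [Quo_iter_mul, Quo_iter_inv]
      group
    rw [e]
    exact Subgroup.mul_mem _ (Subgroup.subset_closure ⟨_, rfl⟩)
      (Subgroup.inv_mem _ (Subgroup.subset_closure ⟨_, rfl⟩))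
  | one => simp
  | mul x y _ _ h1 h2 =>
    have h3 := Subgroup.mul_mem _ h1 h2
    have h4 : g * x * g⁻¹ * (g * y * g⁻¹) = g * (x * y) * g⁻¹ := by group
    rwa [h4] at h3
  | inv x _ h1 =>
    have h3 := Subgroup.inv_mem _ h1
    have h4 : (g * x * g⁻¹)⁻¹ = g * x⁻¹ * g⁻¹ := by group
    rwa [h4] at h3

private theorem Quo_stable {G : Type} [Group G] (φ : G →* G) (b : ℕ) :
    Subgroup.closure {g | ∃ x : G, g = x⁻¹ * (⇑φ)^[b] x} ≤
      (Subgroup.closure {g | ∃ x : G, g = x⁻¹ * (⇑φ)^[b] x}).comap φ := by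
  rw [Subgroup.closure_le]
  rintro _ ⟨x, rfl⟩
  refine Subgroup.subset_closure ⟨φ x, ?_⟩
  rw [map_mul, map_inv, ← Function.iterate_succ_apply' (⇑φ) b x,
    Function.iterate_succ_apply (⇑φ) b x]

theorem quo (n b s : ℕ) (hb : 0 < b) (hbn : b ∣ n)
    (hQ : ∀ (G : Type) [Group G] (φ : G →* G), Ph b G φ → derG s (⊤ : Subgroup G) = ⊥)
    (G : Type) [Group G] (φ : G →* G) (hG : Ph n G φ) :
    derG s (⊤ : Subgroup G) ≤ Subgroup.closure {g | ∃ x : G, g = x⁻¹ * (⇑φ)^[b] x} := by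
  have hN : (Subgroup.closure {g | ∃ x : G, g = x⁻¹ * (⇑φ)^[b] x}).Normal := Quo_normal φ b
  have hst := Quo_stable φ b
  generalize hY : Subgroup.closure {g | ∃ x : G, g = x⁻¹ * (⇑φ)^[b] x} = Y at hN hst ⊢
  have hq := hG.quot Y hst
  have hPb : Ph b (G ⧸ Y) (QuotientGroup.map Y Y φ hst) := by
    refine ⟨hb, hq.fin, hq.nil, Nat.Coprime.coprime_dvd_left hbn hq.co, ?_, hq.fix⟩
    intro g
    obtain ⟨g, rfl⟩ := QuotientGroup.mk_surjective g
    have h1 := quot_iter φ Y hst b g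
    refine h1.trans ?_
    refine (QuotientGroup.eq.2 ?_).symm
    rw [← hY]
    exact Subgroup.subset_closure ⟨g, rfl⟩
  have h1 := hQ _ _ hPb
  have h2 : (derG s (⊤ : Subgroup G)).map (QuotientGroup.mk' Y) = ⊥ := by
    rw [derG_map', Subgroup.map_top_of_surjective _ (QuotientGroup.mk'_surjective Y), h1]
  intro g hg
  have h3 : QuotientGroup.mk' Y g ∈ (derG s (⊤ : Subgroup G)).map (QuotientGroup.mk' Y) :=
    Subgroup.mem_map_of_mem _ hg
  rw [h2, Subgroup.mem_bot] at h3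
  exact (QuotientGroup.eq_one_iff g).1 h3

end Pool.Agent.FT
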