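import Pool.Agent.FT.Gain
import Pool.Agent.FT.Loss
import Pool.Agent.FT.Quo
import Pool.Agent.ThR.Comb
import Pool.Agent.ThR.Main

/-!
# Close: from supports with `k` elements to supports with `k + 1` elements

PROOF. `n > 1` (`k + 1 < n`). For `S.ncard ≤ k` use `TT.mono`; so `S.ncard = k + 1`, `S` is not empty and not `univ`. `P := {f | ∀ x, x ∈ S ↔ x + f ∈ S}` is an
`AddSubgroup` of `ZMod n`, not `⊤`; `b := Nat.card P` divides `n`, `0 < b < n`, and `b f = 0 ↔ f ∈ P` (`⊇`: Lagrange; the set `{f | b • f = 0}` has at most `b`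
elements because `ZMod n` is cyclic, `IsAddCyclic.card_nsmul_eq_zero_le`, so it equals `P`). CONSTANTS (depend on `n, s, k` only): `s0 :=` sup of the constants
of `hQ` over all proper divisors `b` of `n`; `t, M` from `gain`; `ts := max t s0`; `T ≥ 1` with `2 M^T < (M+1)^T` (e.g. Bernoulli: `T = 2M` gives
`(1+1/M)^T ≥ 1 + T/M = 3 > 2`); `d := T` (`2^T - 1 ≥ T`); `W := 2 M^T`; the result is `s' := ts + d + s + 1 + W`.
For `G`, `φ`, `A`, `r` as in `Triv`: `N := derG ts ⊤`, `N' := derG d N`, `Q := derG s N' = derG (ts + d + s) ⊤` (`ThR.derG_add`), `P_0 := ⁅Q, N⁆`, `P_(j+1) := ⁅P_j, N⁆`,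
`R := P_T`; all normal and `φ`-invariant (`derG_normal`, `derG_top_phi`, ..), `R ≤ Q`.
(1) `⁅Q, lcs N j⁆ ≤ P_j` (`lcs N 0 = N`, `lcs N (j+1) = ⁅lcs N j, N⁆`) for every normal `Q`: three subgroups lemma, induction on `j` for all normal `Q` (compare
`comb_three`, `comb_lcs` in `ThR/Comb.lean`). Hence `⁅Q, N'⁆ ≤ P_T = R` as `N' = derG d N ≤ lcs N (2^d - 1) ≤ lcs N T` (`derG_le_lcs`).
(2) `quo` gives `N ≤ derG s0 ⊤ ≤ closure ..` for this `b`. `loss` with `D = (ag R)^j * ⊤`, `B = (ag R)^(j+1) * ⊤` (stable as `R` is normal and invariant):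
`ag Q * (ag P_0 * D) ≤ B`, so (`ag P_0 ≤ ag Q`) `(ag P_0)^2 * D ≤ B`, and by induction `(ag P_0)^(2 a) * ⊤ ≤ (ag R)^a * ⊤`.
(3) `gain` for `K = P_j`, iterated (`Main_iter`, `Main_chain` in `ThR/Main.lean`, private: copy): `(ag P_(j+1))^(M a) * ⊤ ≤ (ag P_j)^((M+1) a) * ⊤`, so
`(ag R)^(M^T) * ⊤ ≤ (ag P_0)^((M+1)^T) * ⊤`. With (2), `a = M^T`: `(ag P_0)^W * ⊤ ≤ (ag P_0)^((M+1)^T) * ⊤`, `W < (M+1)^T`, and `ag P_0` is nilpotent, so
`(ag P_0)^W = ⊥` (`Main_bot`).
(4) `derG (ts+d+s+1+W) ⊤ = derG (1+W) Q ≤ derG W P_0` (`⁅Q,Q⁆ ≤ ⁅Q,N⁆`), and `r g = 1` for `g ∈ derG W P_0` by `derG_le_lcs`, `ag_lcs` as at the end of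
`thR_good` in `ThR/Main.lean`.
-/

set_option autoImplicit false

open scoped commutatorElement

namespace Pool.Agent.FT

open Pool.Agent.LgP Pool.Agent.ThR

/-- the period subgroup of a proper nonempty subset of `ZMod n` -/
private theorem close_period (n : ℕ) [NeZero n] (S : Set (ZMod n)) (hne : S.Nonempty)
    (hS : S ≠ Set.univ) : ∃ b : ℕ, 0 < b ∧ b ∣ n ∧ b < n ∧
      ∀ f : ZMod n, (b : ZMod n) * f = 0 ↔ ∀ x, x ∈ S ↔ x + f ∈ S := by
  classical
  let P : AddSubgroup (ZMod n) :=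
    { carrier := {f | ∀ x, x ∈ S ↔ x + f ∈ S}
      add_mem' := by
        intro f g hf hg x
        rw [hf x, hg (x + f), add_assoc]
      zero_mem' := by
        intro x
        rw [add_zero]
      neg_mem' := by
        intro f hf x
        have h1 := hf (x + -f)
        rw [neg_add_cancel_right] at h1
        exact h1.symm }
  have hP : ∀ f, f ∈ P ↔ ∀ x, x ∈ S ↔ x + f ∈ S := fun f => Iff.rfl
  have hb0 : 0 < Nat.card P := Nat.card_pos
  have hbn : Nat.card P ∣ n := by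
    have h1 := AddSubgroup.card_addSubgroup_dvd_card P
    rwa [Nat.card_zmod] at h1
  have hn0 : 0 < n := Nat.pos_of_ne_zero (NeZero.ne n)
  have hbl : Nat.card P < n := by
    refine lt_of_le_of_ne (Nat.le_of_dvd hn0 hbn) ?_
    intro h1
    have h2 : P = ⊤ := by
      apply AddSubgroup.eq_top_of_card_eq
      rw [h1, Nat.card_zmod]
    apply hS
    obtain ⟨x, hx⟩ := hne
    rw [Set.eq_univ_iff_forall]
    intro y
    have h3 : y - x ∈ P := h2 ▸ AddSubgroup.mem_top _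
    have h4 := (h3 x).1 hx
    rwa [add_sub_cancel] at h4
  refine ⟨Nat.card P, hb0, hbn, hbl, ?_⟩
  intro f
  rw [← hP f, ← nsmul_eq_mul]
  constructor
  · intro hf
    have h1 : (Finset.univ.filter fun a : ZMod n => a ∈ P) ⊆
        Finset.univ.filter fun a : ZMod n => Nat.card P • a = 0 := by
      intro a ha
      rw [Finset.mem_filter] at ha ⊢
      refine ⟨Finset.mem_univ _, ?_⟩
      have h2 : Nat.card P • (⟨a, ha.2⟩ : P) = 0 := card_nsmul_eq_zero'
      exact congrArg Subtype.val h2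
    have h2 : (Finset.univ.filter fun a : ZMod n => Nat.card P • a = 0).card ≤ Nat.card P :=
      IsAddCyclic.card_nsmul_eq_zero_le hb0
    have h3 : (Finset.univ.filter fun a : ZMod n => a ∈ P).card = Nat.card P := by
      rw [Nat.card_eq_fintype_card, Fintype.card_subtype]
    have h4 := Finset.eq_of_subset_of_card_le h1 (h3 ▸ h2)
    have h5 : f ∈ Finset.univ.filter fun a : ZMod n => Nat.card P • a = 0 :=
      Finset.mem_filter.2 ⟨Finset.mem_univ _, hf⟩
    rw [← h4] at h5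
    exact (Finset.mem_filter.1 h5).2
  · intro hf
    have h2 : Nat.card P • (⟨f, hf⟩ : P) = 0 := card_nsmul_eq_zero'
    exact congrArg Subtype.val h2

/-- `⁅Q, N⁆, ⁅⁅Q, N⁆, N⁆, …` -/
private def chQ {G : Type} [Group G] (N : Subgroup G) (Q : Subgroup G) : ℕ → Subgroup G
  | 0 => ⁅Q, N⁆
  | j + 1 => ⁅chQ N Q j, N⁆

private theorem chQ_shift {G : Type} [Group G] (N Q : Subgroup G) (j : ℕ) :
    chQ N ⁅Q, N⁆ j = chQ N Q (j + 1) := by
  induction j with
  | zero => rfl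
  | succ j ih =>
    show ⁅chQ N ⁅Q, N⁆ j, N⁆ = ⁅chQ N Q (j + 1), N⁆
    rw [ih]

private theorem chQ_normal {G : Type} [Group G] (N Q : Subgroup G) (hN : N.Normal)
    (hQ : Q.Normal) (j : ℕ) : (chQ N Q j).Normal := by
  induction j with
  | zero => exact Subgroup.commutator_normal _ _
  | succ j ih => exact Subgroup.commutator_normal _ _

private theorem close_comm_phi {G : Type} [Group G] (φ : G →* G) {K N : Subgroup G}
    (hK : ∀ g ∈ K, φ g ∈ K) (hN : ∀ g ∈ N, φ g ∈ N) :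
    ∀ g ∈ (⁅K, N⁆ : Subgroup G), φ g ∈ (⁅K, N⁆ : Subgroup G) := by
  have h : (⁅K, N⁆ : Subgroup G) ≤ (⁅K, N⁆ : Subgroup G).comap φ := by
    rw [Subgroup.commutator_le]
    intro g hg k hk
    rw [Subgroup.mem_comap, map_commutatorElement]
    exact Subgroup.commutator_mem_commutator (hK g hg) (hN k hk)
  exact fun g hg => h hg

private theorem chQ_phi {G : Type} [Group G] (φ : G →* G) (N Q : Subgroup G)
    (hN : ∀ g ∈ N, φ g ∈ N) (hQ : ∀ g ∈ Q, φ g ∈ Q) (j : ℕ) :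
    ∀ g ∈ chQ N Q j, φ g ∈ chQ N Q j := by
  induction j with
  | zero => exact close_comm_phi φ hQ hN
  | succ j ih => exact close_comm_phi φ ih hN

private theorem chQ_le {G : Type} [Group G] (N Q : Subgroup G) (hN : N.Normal)
    (hQ : Q.Normal) (j : ℕ) : chQ N Q j ≤ Q := by
  induction j with
  | zero => exact Subgroup.commutator_le_left _ _
  | succ j ih =>
    have := chQ_normal N Q hN hQ j
    exact (Subgroup.commutator_le_left _ _).trans ih

private theorem close_three {G : Type} [Group G] (H₁ H₂ H₃ M : Subgroup G) (hM : M.Normal)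
    (h1 : ⁅⁅H₂, H₃⁆, H₁⁆ ≤ M) (h2 : ⁅⁅H₃, H₁⁆, H₂⁆ ≤ M) : ⁅⁅H₁, H₂⁆, H₃⁆ ≤ M := by
  have key : ∀ A : Subgroup G, A.map (QuotientGroup.mk' M) = ⊥ ↔ A ≤ M := by
    intro A
    rw [Subgroup.map_eq_bot_iff, QuotientGroup.ker_mk']
  rw [← key] at h1 h2 ⊢
  simp only [Subgroup.map_commutator] at h1 h2 ⊢
  exact Subgroup.commutator_commutator_eq_bot_of_rotate h1 h2

private theorem chQ_lcs {G : Type} [Group G] (N : Subgroup G) (hN : N.Normal) (j : ℕ) :
    ∀ Q : Subgroup G, Q.Normal → ⁅Q, lcs N j⁆ ≤ chQ N Q j := by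
  induction j with
  | zero => intro Q _; exact le_rfl
  | succ j ih =>
    intro Q hQ
    show ⁅Q, ⁅lcs N j, N⁆⁆ ≤ chQ N Q (j + 1)
    rw [Subgroup.commutator_comm]
    refine close_three _ _ _ _ (chQ_normal N Q hN hQ _) ?_ ?_
    · rw [Subgroup.commutator_comm N]
      have h := ih ⁅Q, N⁆ (Subgroup.commutator_normal _ _)
      rwa [chQ_shift] at h
    · exact Subgroup.commutator_mono (ih Q hQ) le_rfl

private theorem close_lcs_anti {G : Type} [Group G] (N : Subgroup G) (hN : N.Normal) (a b : ℕ) :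
    lcs N (a + b) ≤ lcs N a := by
  induction b with
  | zero => exact le_rfl
  | succ b ih =>
    have := lcs_normal N hN (a + b)
    show ⁅lcs N (a + b), N⁆ ≤ lcs N a
    exact (Subgroup.commutator_le_left _ _).trans ih

section Alg

variable {O A G : Type} [CommRing O] [Ring A] [Algebra O A] [Group G]

private theorem close_ag_mono (r : G →* A) {K N : Subgroup G} (h : K ≤ N) :
    ag O r K ≤ ag O r N := by
  unfold ag
  refine Submodule.span_mono ?_
  rintro a ⟨k, hk, rfl⟩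
  exact ⟨k, h hk, rfl⟩

private theorem close_ag_le_aug (r : G →* A) (K : Subgroup G) : ag O r K ≤ aug O r := by
  unfold ag aug
  refine Submodule.span_mono ?_
  rintro a ⟨k, hk, rfl⟩
  exact ⟨k, rfl⟩

private theorem close_iter (P Q : Submodule O A)
    (M : ℕ) (h : ∀ i : ℕ, Q ^ M * (P ^ i * ⊤) ≤ P ^ (i + M + 1) * ⊤) (a : ℕ) :
    Q ^ (M * a) * ⊤ ≤ P ^ ((M + 1) * a) * ⊤ := by
  induction a with
  | zero => simp
  | succ a ih =>
    have e1 : Q ^ (M * (a + 1)) * ⊤ = Q ^ M * (Q ^ (M * a) * (⊤ : Submodule O A)) := by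
      rw [← mul_assoc, ← pow_add]
      congr 2
      ring
    have e2 : (M + 1) * (a + 1) = (M + 1) * a + M + 1 := by ring
    rw [e1, e2]
    exact (mul_le_mul_right ih _).trans (h _)

private theorem close_chain (r : G →* A) (N Q : Subgroup G) (M : ℕ)
    (h : ∀ j i : ℕ, (ag O r (chQ N Q (j + 1))) ^ M * ((ag O r (chQ N Q j)) ^ i * ⊤) ≤
      (ag O r (chQ N Q j)) ^ (i + M + 1) * ⊤) (j : ℕ) : ∀ a : ℕ,
    (ag O r (chQ N Q j)) ^ (M ^ j * a) * ⊤ ≤ (ag O r (chQ N Q 0)) ^ ((M + 1) ^ j * a) * ⊤ := by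
  induction j with
  | zero =>
    intro a
    simp
  | succ j ih =>
    intro a
    have h1 := close_iter _ _ M (h j) (M ^ j * a)
    have h2 := ih ((M + 1) * a)
    have e1 : M * (M ^ j * a) = M ^ (j + 1) * a := by ring
    have e2 : (M + 1) * (M ^ j * a) = M ^ j * ((M + 1) * a) := by ring
    have e3 : (M + 1) ^ j * ((M + 1) * a) = (M + 1) ^ (j + 1) * a := by ring
    rw [e1, e2] at h1
    rw [e3] at h2
    exact h1.trans h2

private theorem close_bot (P : Submodule O A)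
    (hP : ∃ K : ℕ, P ^ K = ⊥) (W V : ℕ) (hWV : W < V) (h : P ^ W * ⊤ ≤ P ^ V * ⊤) :
    P ^ W = ⊥ := by
  have hanti : ∀ k j : ℕ, P ^ (k + j) * (⊤ : Submodule O A) ≤ P ^ k * ⊤ := by
    intro k j
    rw [pow_add, mul_assoc]
    exact mul_le_mul_right le_top _
  have h1 : P ^ W * (⊤ : Submodule O A) ≤ P ^ (W + 1) * ⊤ := by
    obtain ⟨j, rfl⟩ := Nat.exists_eq_add_of_lt hWV
    refine h.trans ?_
    have e : W + j + 1 = (W + 1) + j := by ring
    rw [e]
    exact hanti _ _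
  have h2 : ∀ j : ℕ, P ^ W * (⊤ : Submodule O A) ≤ P ^ (W + j) * ⊤ := by
    intro j
    induction j with
    | zero => exact le_rfl
    | succ j ih =>
      refine ih.trans ?_
      have e1 : P ^ (W + j) * (⊤ : Submodule O A) = P ^ j * (P ^ W * ⊤) := by
        rw [← mul_assoc, ← pow_add, add_comm]
      have e2 : P ^ (W + (j + 1)) * (⊤ : Submodule O A) = P ^ j * (P ^ (W + 1) * ⊤) := by
        rw [← mul_assoc, ← pow_add]
        congr 2
        ring
      rw [e1, e2]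
      exact mul_le_mul_right h1 _
  obtain ⟨K, hK⟩ := hP
  have h3 : P ^ W * (⊤ : Submodule O A) ≤ ⊥ := by
    refine (h2 K).trans ?_
    rw [pow_add, hK, Submodule.mul_bot, Submodule.bot_mul]
  rw [eq_bot_iff]
  intro x hx
  have h4 := h3 (Submodule.mul_mem_mul hx (Submodule.mem_top (x := (1 : A))))
  rwa [mul_one] at h4

private theorem close_mem (r : G →* A) {K : Subgroup G} {k : G} (hk : k ∈ K) :
    r k - 1 ∈ ag O r K :=
  Submodule.subset_span ⟨k, hk, rfl⟩

/-- `ag K * D` is stable -/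
private theorem close_stab {n : ℕ} {φ : G →* G} {ζ : O} {Φ Ψ : A} {r : G →* A}
    (h : GRep n φ ζ Φ Ψ r) {K : Subgroup G} (hK : K.Normal) (hKφ : ∀ g ∈ K, φ g ∈ K)
    {D : Submodule O A} (hD : Stab r Φ D) : Stab r Φ (ag O r K * D) := by
  have e1 : ∀ g k, r g * (r k - 1) = (r (g * k * g⁻¹) - 1) * r g := by
    intro g k
    rw [mul_sub, sub_mul, mul_one, one_mul, ← map_mul, ← map_mul, inv_mul_cancel_right]
  have e2 : ∀ k, Φ * (r k - 1) = (r (φ k) - 1) * Φ := by
    intro k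
    have h1 : Φ * r k = r (φ k) * Φ := by
      rw [← h.eq k, mul_assoc, h.qp, mul_one]
    rw [mul_sub, sub_mul, h1, mul_one, one_mul]
  constructor
  · intro g x hx
    induction hx using Submodule.mul_induction_on' with
    | mem_mul_mem a ha y hy =>
      unfold ag at ha
      induction ha using Submodule.span_induction with
      | mem a ha =>
        obtain ⟨k, hk, rfl⟩ := ha
        rw [← mul_assoc, e1, mul_assoc]
        exact Submodule.mul_mem_mul (close_mem r (hK.conj_mem k hk g)) (hD.g g y hy)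
      | zero => rw [zero_mul, mul_zero]; exact Submodule.zero_mem _
      | add a b _ _ h1 h2 => rw [add_mul, mul_add]; exact Submodule.add_mem _ h1 h2
      | smul c a _ h1 =>
        rw [smul_mul_assoc, mul_smul_comm]; exact Submodule.smul_mem _ c h1
    | add x _ y _ h1 h2 => rw [mul_add]; exact Submodule.add_mem _ h1 h2
  · intro x hx
    induction hx using Submodule.mul_induction_on' with
    | mem_mul_mem a ha y hy =>
      unfold ag at ha
      induction ha using Submodule.span_induction with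
      | mem a ha =>
        obtain ⟨k, hk, rfl⟩ := ha
        rw [← mul_assoc, e2, mul_assoc]
        exact Submodule.mul_mem_mul (close_mem r (hKφ k hk)) (hD.p y hy)
      | zero => rw [zero_mul, mul_zero]; exact Submodule.zero_mem _
      | add a b _ _ h1 h2 => rw [add_mul, mul_add]; exact Submodule.add_mem _ h1 h2
      | smul c a _ h1 =>
        rw [smul_mul_assoc, mul_smul_comm]; exact Submodule.smul_mem _ c h1
    | add x _ y _ h1 h2 => rw [mul_add]; exact Submodule.add_mem _ h1 h2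

private theorem close_stab_pow {n : ℕ} {φ : G →* G} {ζ : O} {Φ Ψ : A} {r : G →* A}
    (h : GRep n φ ζ Φ Ψ r) {K : Subgroup G} (hK : K.Normal) (hKφ : ∀ g ∈ K, φ g ∈ K)
    {D : Submodule O A} (hD : Stab r Φ D) (a : ℕ) : Stab r Φ ((ag O r K) ^ a * D) := by
  induction a with
  | zero => rw [pow_zero, one_mul]; exact hD
  | succ a ih =>
    rw [pow_succ', mul_assoc]
    exact close_stab h hK hKφ ih

end Alg

private theorem close_num (M : ℕ) (hM : 0 < M) : 2 * M ^ (2 * M) < (M + 1) ^ (2 * M) := by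
  have hMr : (0 : ℝ) < M := by exact_mod_cast hM
  have h1 := one_add_mul_le_pow (a := (1 : ℝ) / M) (by
    have : (0 : ℝ) < 1 / M := by positivity
    linarith) (2 * M)
  have h2 : (1 : ℝ) + ((2 * M : ℕ) : ℝ) * (1 / M) = 3 := by
    push_cast
    field_simp
    norm_num
  rw [h2] at h1
  have h3 : (1 : ℝ) + 1 / M = (M + 1) / M := by
    field_simp
  rw [h3, div_pow, le_div_iff₀ (by positivity)] at h1
  have h4 : (0 : ℝ) < (M : ℝ) ^ (2 * M) := by positivity
  have h5 : (2 : ℝ) * (M : ℝ) ^ (2 * M) < ((M : ℝ) + 1) ^ (2 * M) := by linarith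
  exact_mod_cast h5

theorem close (n s k : ℕ) (hT : TT n s k) (hk : k + 1 < n)
    (hQ : ∀ b : ℕ, 0 < b → b ∣ n → b < n → ∃ s' : ℕ, ∀ (G : Type) [Group G] (φ : G →* G),
      Ph b G φ → derG s' (⊤ : Subgroup G) = ⊥) :
    ∃ s' : ℕ, TT n s' (k + 1) := by
  have hn0 : 0 < n := by omega
  have : NeZero n := ⟨hn0.ne'⟩
  obtain ⟨t, M, hM, hgain⟩ := gain n s k hT
  have hQ' : ∀ b : ℕ, ∃ s' : ℕ, 0 < b → b ∣ n → b < n → ∀ (G : Type) [Group G] (φ : G →* G),
      Ph b G φ → derG s' (⊤ : Subgroup G) = ⊥ := by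
    intro b
    by_cases hb : 0 < b ∧ b ∣ n ∧ b < n
    · obtain ⟨s', hs'⟩ := hQ b hb.1 hb.2.1 hb.2.2
      exact ⟨s', fun _ _ _ => hs'⟩
    · exact ⟨0, fun h1 h2 h3 => absurd ⟨h1, h2, h3⟩ hb⟩
  choose f hf using hQ'
  obtain ⟨ts, hts⟩ : ∃ ts, ts = max t ((Finset.range n).sup f) := ⟨_, rfl⟩
  obtain ⟨T, hTd⟩ : ∃ T, T = 2 * M := ⟨_, rfl⟩
  obtain ⟨W, hW⟩ : ∃ W, W = 2 * M ^ T := ⟨_, rfl⟩
  have hWlt : W < (M + 1) ^ T := by
    rw [hW, hTd]
    exact close_num M hM
  refine ⟨ts + T + s + 1 + W, ?_⟩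
  intro S hSk
  by_cases hSc : S.ncard ≤ k
  · exact (hT.mono (by omega) le_rfl) S hSc
  have hcard : S.ncard = k + 1 := by omega
  have hne : S.Nonempty := by
    rw [Set.nonempty_iff_ne_empty]
    rintro rfl
    rw [Set.ncard_empty] at hcard
    omega
  have hSu : S ≠ Set.univ := by
    rintro rfl
    rw [Set.ncard_univ, Nat.card_zmod] at hcard
    omega
  obtain ⟨b, hb0, hbn, hbl, hb⟩ := close_period n S hne hSu
  intro G _ φ hG O A _ _ _ ζ Φ Ψ r h hS
  -- the subgroups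
  obtain ⟨N, hN⟩ : ∃ N : Subgroup G, N = derG ts (⊤ : Subgroup G) := ⟨_, rfl⟩
  have hNn : N.Normal := hN ▸ derG_top_normal ts
  have hNφ : ∀ g ∈ N, φ g ∈ N := hN ▸ derG_top_phi φ ts
  obtain ⟨N', hN'⟩ : ∃ N' : Subgroup G, N' = derG T N := ⟨_, rfl⟩
  have hN'n : N'.Normal := hN' ▸ derG_normal T N hNn
  have hN'φ : ∀ g ∈ N', φ g ∈ N' := hN' ▸ derG_inv φ T N hNφ
  obtain ⟨Q, hQe⟩ : ∃ Q : Subgroup G, Q = derG s N' := ⟨_, rfl⟩
  have hQn : Q.Normal := hQe ▸ derG_normal s N' hN'n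
  have hQφ : ∀ g ∈ Q, φ g ∈ Q := hQe ▸ derG_inv φ s N' hN'φ
  have hRn := chQ_normal N Q hNn hQn
  have hRφ := chQ_phi φ N Q hNφ hQφ
  have hQN' : ⁅Q, N'⁆ ≤ chQ N Q T := by
    refine le_trans ?_ (chQ_lcs N hNn T Q hQn)
    refine Subgroup.commutator_mono le_rfl ?_
    rw [hN']
    refine (derG_le_lcs N hNn T).trans ?_
    have e : 2 ^ T - 1 = T + (2 ^ T - 1 - T) := by
      have : T < 2 ^ T := Nat.lt_two_pow_self
      omega
    rw [e]
    exact close_lcs_anti N hNn _ _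
  have hNb : N ≤ Subgroup.closure {g | ∃ x : G, g = x⁻¹ * (⇑φ)^[b] x} := by
    refine le_trans ?_ (quo n b (f b) hb0 hbn (hf b hb0 hbn hbl) G φ hG)
    have h1 : f b ≤ ts := by
      rw [hts]
      exact le_max_of_le_right (Finset.le_sup (f := f) (Finset.mem_range.2 hbl))
    obtain ⟨j, hj⟩ := Nat.exists_eq_add_of_le h1
    rw [hN, hj]
    exact derG_top_le _ _
  -- loss
  have hloss : ∀ j : ℕ, (ag O r (chQ N Q 0)) ^ 2 * ((ag O r (chQ N Q T)) ^ j * ⊤) ≤
      (ag O r (chQ N Q T)) ^ (j + 1) * ⊤ := by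
    intro j
    have hst : ∀ i : ℕ, Stab r Φ ((ag O r (chQ N Q T)) ^ i * ⊤) := fun i =>
      close_stab_pow h (hRn T) (hRφ T)
        ⟨fun _ _ _ => Submodule.mem_top, fun _ _ => Submodule.mem_top⟩ i
    have h1 := loss n s k hT S hSk b hb G φ hG O A ζ Φ Ψ r h hS Q N N' (chQ N Q T) hQn hNn hN'n
      (hRn T) hQφ hNφ hN'φ (hRφ T) (chQ_le N Q hNn hQn T) hQN' (le_of_eq hQe) hNb
      ((ag O r (chQ N Q T)) ^ j * ⊤) ((ag O r (chQ N Q T)) ^ (j + 1) * ⊤) (hst j) (hst (j + 1))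
      (by
        rw [pow_succ, mul_assoc]
        exact mul_le_mul_right le_top _)
      (by rw [pow_succ', mul_assoc])
    refine le_trans ?_ h1
    rw [pow_two, mul_assoc]
    exact mul_le_mul_left (close_ag_mono r (chQ_le N Q hNn hQn 0)) _
  have hloss2 : ∀ a : ℕ, (ag O r (chQ N Q 0)) ^ (2 * a) * (⊤ : Submodule O A) ≤
      (ag O r (chQ N Q T)) ^ a * ⊤ := by
    intro a
    induction a with
    | zero => simp
    | succ a ih =>
      have e1 : (ag O r (chQ N Q 0)) ^ (2 * (a + 1)) * (⊤ : Submodule O A) =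
          (ag O r (chQ N Q 0)) ^ 2 * ((ag O r (chQ N Q 0)) ^ (2 * a) * ⊤) := by
        rw [← mul_assoc, ← pow_add]
        congr 2
        ring
      rw [e1]
      exact (mul_le_mul_right ih _).trans (hloss a)
  -- gain
  have hNt : N ≤ derG t (⊤ : Subgroup G) := by
    obtain ⟨j, hj⟩ := Nat.exists_eq_add_of_le (hts ▸ le_max_left t _ : t ≤ ts)
    rw [hN, hj]
    exact derG_top_le _ _
  have hg : ∀ j i : ℕ, (ag O r (chQ N Q (j + 1))) ^ M * ((ag O r (chQ N Q j)) ^ i * ⊤) ≤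
      (ag O r (chQ N Q j)) ^ (i + M + 1) * ⊤ := fun j i =>
    hgain S hSk hSu G φ hG O A ζ Φ Ψ r h hS (chQ N Q j) N (hRn j) (hRφ j) hNt i
  have hchain := close_chain r N Q M hg T 1
  rw [mul_one, mul_one] at hchain
  have hnil : ∃ K : ℕ, (ag O r (chQ N Q 0)) ^ K = ⊥ := by
    obtain ⟨K, hK⟩ := h.nil
    refine ⟨K, ?_⟩
    rw [eq_bot_iff, ← hK]
    exact pow_le_pow_left' (close_ag_le_aug r _) _
  have hl := hloss2 (M ^ T)
  rw [← hW] at hl
  have hbot := close_bot (ag O r (chQ N Q 0)) hnil W ((M + 1) ^ T) hWlt (hl.trans hchain)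
  -- the end
  have hend : derG (ts + T + s + 1 + W) (⊤ : Subgroup G) ≤ derG W (chQ N Q 0) := by
    have e1 : derG (ts + T + s + 1 + W) (⊤ : Subgroup G) = derG W (⁅Q, Q⁆) := by
      rw [← Pool.Agent.ThR.derG_add (⊤ : Subgroup G) (ts + T + s + 1) W]
      congr 1
      show ⁅derG (ts + T + s) (⊤ : Subgroup G), derG (ts + T + s) (⊤ : Subgroup G)⁆ = ⁅Q, Q⁆
      rw [← Pool.Agent.ThR.derG_add (⊤ : Subgroup G) (ts + T) s,
        ← Pool.Agent.ThR.derG_add (⊤ : Subgroup G) ts T, ← hN, ← hN', ← hQe]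
    rw [e1]
    refine derG_mono W (Subgroup.commutator_mono le_rfl ?_)
    -- `Q ≤ N`
    rw [hQe, hN']
    have hle : ∀ (j : ℕ) (H : Subgroup G), derG j H ≤ H := by
      intro j H
      have h2 := derG_anti 0 j H
      rw [Nat.zero_add] at h2
      exact h2
    exact (hle s _).trans (hle T _)
  intro g hgm
  have h1 := ag_lcs (O := O) r (chQ N Q 0) (2 ^ W - 1) g
    (derG_le_lcs (chQ N Q 0) (hRn 0) W (hend hgm))
  have e : 2 ^ W - 1 + 1 = W + (2 ^ W - W) := by
    have h3 : W < 2 ^ W := Nat.lt_two_pow_self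
    omega
  rw [e, pow_add, hbot, Submodule.bot_mul, Submodule.mem_bot] at h1
  exact sub_eq_zero.mp h1

end Pool.Agent.FT
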