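import Pool.Agent.FT.Ph

/-!
# Conjugation modules

`P ≤ Q` submodules of a graded `G`-algebra `A` stable under `x ↦ r g x r g⁻¹` (`g` in the `φ`-invariant subgroup
`H`) and `x ↦ Φ x Ψ`: the quotient `Q / P` is a graded `H`-module (`conjQ`). `relT`: if all supports in `S` are known
(`Tn n s S`), and the components of degree outside `S` of the elements of `Q` lie in `P`, then
`r g x r g⁻¹ - x ∈ P` for `x ∈ Q` and `g ∈ derG (t + s) ⊤` (only stability under `derG t ⊤` is needed).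
`relD`: the same for left submodules (layers `D / B`).
-/

set_option autoImplicit false

namespace Pool.Agent.FT

open Pool.Agent.LgP Pool.Agent.ThR

section nilp

/-- the filtration -/
private def ConjQ_F {O E : Type} [CommRing O] [Ring E] [Algebra O E] (I : Submodule O E) (k : ℕ) :
    Submodule O E :=
  ⨆ a : ℕ, ⨆ b : ℕ, ⨆ _ : a + b = k, I ^ a * (⊤ * I ^ b)

private lemma ConjQ_mem_F {O E : Type} [CommRing O] [Ring E] [Algebra O E] {I : Submodule O E}
    {a b k : ℕ} (h : a + b = k) {z : E} (hz : z ∈ I ^ a * (⊤ * I ^ b)) : z ∈ ConjQ_F I k :=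
  (le_iSup_of_le a (le_iSup_of_le b (le_iSup_of_le h le_rfl)) :
    I ^ a * (⊤ * I ^ b) ≤ ConjQ_F I k) hz

private lemma ConjQ_F_zero {O E : Type} [CommRing O] [Ring E] [Algebra O E] {I : Submodule O E}
    (z : E) : z ∈ ConjQ_F I 0 := by
  refine ConjQ_mem_F (a := 0) (b := 0) rfl ?_
  rw [pow_zero, one_mul, mul_one]
  exact Submodule.mem_top

private lemma ConjQ_F_bot {O E : Type} [CommRing O] [Ring E] [Algebra O E] {I : Submodule O E}
    {M : ℕ} (hM : I ^ M = ⊥) : ConjQ_F I (2 * M) = ⊥ := by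
  rw [eq_bot_iff]
  refine iSup_le fun a => iSup_le fun b => iSup_le fun h => ?_
  rcases le_or_gt M a with h1 | h1
  · obtain ⟨c, rfl⟩ := Nat.exists_eq_add_of_le h1
    rw [pow_add, hM, Submodule.bot_mul, Submodule.bot_mul]
  · have h2 : M ≤ b := by omega
    obtain ⟨c, rfl⟩ := Nat.exists_eq_add_of_le h2
    rw [pow_add, hM, Submodule.bot_mul, Submodule.mul_bot, Submodule.mul_bot]

private lemma ConjQ_aug_mul {O E X : Type} [CommRing O] [Ring E] [Algebra O E] [Group X]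
    (ρ : X →* E) (h : X) : ∀ i ∈ aug O ρ, i * ρ h ∈ aug O ρ := by
  intro i hi
  unfold aug at hi
  refine Submodule.span_induction (p := fun i _ => i * ρ h ∈ aug O ρ) ?_ ?_ ?_ ?_ hi
  · rintro _ ⟨x, rfl⟩
    have e : (ρ x - 1) * ρ h = (ρ (x * h) - 1) - (ρ h - 1) := by
      rw [map_mul, sub_mul, one_mul]
      abel
    simp only
    rw [e]
    exact Submodule.sub_mem _ (Submodule.subset_span ⟨_, rfl⟩) (Submodule.subset_span ⟨_, rfl⟩)
  · rw [zero_mul]
    exact Submodule.zero_mem _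
  · intro x y _ _ hx hy
    rw [add_mul]
    exact Submodule.add_mem _ hx hy
  · intro r x _ hx
    rw [smul_mul_assoc]
    exact Submodule.smul_mem _ _ hx

private lemma ConjQ_R_mul {O E X : Type} [CommRing O] [Ring E] [Algebra O E] [Group X]
    (ρ : X →* E) (h : X) (b : ℕ) :
    ∀ y ∈ (⊤ * (aug O ρ) ^ b : Submodule O E), y * ρ h ∈ (⊤ * (aug O ρ) ^ b : Submodule O E) := by
  induction b with
  | zero =>
    intro y _
    rw [pow_zero, mul_one]
    exact Submodule.mem_top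
  | succ b ih =>
    intro y hy
    rw [pow_succ, ← mul_assoc] at hy ⊢
    refine Submodule.mul_induction_on hy ?_ ?_
    · intro m hm i hi
      have e : m * i * ρ h = m * (i * ρ h) := mul_assoc _ _ _
      rw [e]
      exact Submodule.mul_mem_mul hm (ConjQ_aug_mul ρ h i hi)
    · intro x y hx hy
      rw [add_mul]
      exact Submodule.add_mem _ hx hy

private lemma ConjQ_conj {O E X : Type} [CommRing O] [Ring E] [Algebra O E] [Group X]
    (ρ : X →* E) (g : X) (k : ℕ) (z : E) (hz : z ∈ ConjQ_F (aug O ρ) k) :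
    ρ g * z * ρ g⁻¹ - z ∈ ConjQ_F (aug O ρ) (k + 1) := by
  set I := aug O ρ with hI
  let c : E →ₗ[O] E :=
    { toFun := fun z => ρ g * z * ρ g⁻¹ - z
      map_add' := fun a b => by
        rw [mul_add, add_mul]
        abel
      map_smul' := fun r a => by
        rw [mul_smul_comm, smul_mul_assoc, smul_sub]
        rfl }
  have key : ConjQ_F I k ≤ (ConjQ_F I (k + 1)).comap c := by
    refine iSup_le fun a => iSup_le fun b => iSup_le fun h => ?_
    rw [Submodule.mul_le]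
    intro x hx y hy
    rw [Submodule.mem_comap]
    have e : c (x * y) = ((ρ g - 1) * x) * (y * ρ g⁻¹) + x * (y * (ρ g⁻¹ - 1)) := by
      change ρ g * (x * y) * ρ g⁻¹ - x * y = _
      noncomm_ring
    rw [e]
    refine Submodule.add_mem _ ?_ ?_
    · refine ConjQ_mem_F (a := a + 1) (b := b) (by omega) ?_
      refine Submodule.mul_mem_mul ?_ (ConjQ_R_mul ρ g⁻¹ b y hy)
      rw [pow_succ']
      exact Submodule.mul_mem_mul (Submodule.subset_span ⟨_, rfl⟩) hx
    · refine ConjQ_mem_F (a := a) (b := b + 1) (by omega) ?_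
      refine Submodule.mul_mem_mul hx ?_
      rw [pow_succ, ← mul_assoc]
      exact Submodule.mul_mem_mul hy (Submodule.subset_span ⟨_, rfl⟩)
  exact key hz

end nilp

section quo

variable {O A : Type} [CommRing O] [Ring A] [Algebra O A]

/-- `x ↦ u x v` on `Q / P` -/
private noncomputable def ConjQ_m (Q P : Submodule O A) (u v : A) (hQ : ∀ x ∈ Q, u * x * v ∈ Q)
    (hP : ∀ x ∈ P, u * x * v ∈ P) : Module.End O (↥Q ⧸ P.submoduleOf Q) :=
  Submodule.mapQ (P.submoduleOf Q) (P.submoduleOf Q)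
    (((LinearMap.mulLeft O u).comp (LinearMap.mulRight O v)).restrict (p := Q) (q := Q)
      (fun x hx => by
        rw [LinearMap.comp_apply, LinearMap.mulRight_apply, LinearMap.mulLeft_apply, ← mul_assoc]
        exact hQ x hx))
    (fun x hx => by
      have h1 : (x : A) ∈ P := hx
      have h2 := hP x h1
      rw [mul_assoc] at h2
      exact h2)

private theorem ConjQ_m_mk (Q P : Submodule O A) (u v : A) (hQ : ∀ x ∈ Q, u * x * v ∈ Q)
    (hP : ∀ x ∈ P, u * x * v ∈ P) (x : Q) :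
    ConjQ_m Q P u v hQ hP (Submodule.Quotient.mk x) =
      Submodule.Quotient.mk (⟨u * x * v, hQ x x.2⟩ : Q) := by
  refine congrArg (Submodule.Quotient.mk (p := P.submoduleOf Q)) (Subtype.ext ?_)
  exact (mul_assoc _ _ _).symm

end quo

variable {O A G : Type} [CommRing O] [Ring A] [Algebra O A] [Group G]

private theorem ConjQ_iter (Φ Ψ : A) (j : ℕ) (x : A) : Φ ^ (j + 1) * x * Ψ ^ (j + 1) =
    Φ * (Φ ^ j * x * Ψ ^ j) * Ψ := by
  rw [pow_succ', pow_succ]
  simp only [mul_assoc]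

/-- the conjugation module -/
theorem conjQ {n : ℕ} {φ : G →* G} {ζ : O} {Φ Ψ : A} {r : G →* A} (h : GRep n φ ζ Φ Ψ r)
    (H : Subgroup G) (hH : ∀ g ∈ H, φ g ∈ H) (Q P : Submodule O A)
    (hQ : ∀ g ∈ H, ∀ x ∈ Q, r g * x * r g⁻¹ ∈ Q) (hP : ∀ g ∈ H, ∀ x ∈ P, r g * x * r g⁻¹ ∈ P)
    (hQp : ∀ x ∈ Q, Φ * x * Ψ ∈ Q) (hPp : ∀ x ∈ P, Φ * x * Ψ ∈ P) :
    ∃ (M : Type) (_ : AddCommGroup M) (_ : Module O M) (mk : ↥Q →ₗ[O] M)
      (Φ' Ψ' : Module.End O M) (r' : H →* Module.End O M),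
      GRep n (res φ H hH) ζ Φ' Ψ' r' ∧ Function.Surjective mk ∧
      (∀ x : Q, mk x = 0 ↔ (x : A) ∈ P) ∧
      (∀ (g : H) (x : Q), r' g (mk x) = mk ⟨r g * x * r (g : G)⁻¹, hQ g g.2 x x.2⟩) ∧
      (∀ x : Q, Φ' (mk x) = mk ⟨Φ * x * Ψ, hQp x x.2⟩) ∧
      (∀ (i : ℕ) (x : Q), ide n ζ Φ' i (mk x) =
        mk ⟨cmp n ζ Φ Ψ i x, cmp_mem Q hQp x.2 i⟩) := by
  have hd := h.dt
  have hΨ : Ψ = Φ ^ (n - 1) := hd.psi
  have hΦ : Φ = Ψ ^ (n - 1) := by
    have h1 : Ψ ^ n = 1 := hd.psi_pow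
    have h2 : n = (n - 1) + 1 := by have := h.prim.pos; omega
    calc Φ = Φ * Ψ ^ n := by rw [h1, mul_one]
      _ = Φ * Ψ ^ ((n - 1) + 1) := by rw [← h2]
      _ = Ψ ^ (n - 1) := by rw [pow_succ', ← mul_assoc, h.pq, one_mul]
  have hback : ∀ T : Submodule O A, (∀ x ∈ T, Φ * x * Ψ ∈ T) → ∀ x ∈ T, Ψ * x * Φ ∈ T := by
    intro T hT x hx
    have h1 := iter_mem T hT hx (n - 1)
    rw [← hΨ] at h1
    rwa [← hΦ] at h1
  let m : Q →ₗ[O] (↥Q ⧸ P.submoduleOf Q) := (P.submoduleOf Q).mkQ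
  let Φ' := ConjQ_m Q P Φ Ψ hQp hPp
  let Ψ' := ConjQ_m Q P Ψ Φ (hback Q hQp) (hback P hPp)
  have hone : ∀ g : G, r g * r g⁻¹ = 1 := fun g => by rw [← map_mul, mul_inv_cancel, map_one]
  have hsur : Function.Surjective m := Submodule.mkQ_surjective _
  have hext : ∀ f g : Module.End O (↥Q ⧸ P.submoduleOf Q), (∀ x, f (m x) = g (m x)) → f = g := by
    intro f g hfg
    apply LinearMap.ext
    intro y
    obtain ⟨x, rfl⟩ := hsur y
    exact hfg x
  let R : H → Module.End O (↥Q ⧸ P.submoduleOf Q) :=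
    fun g => ConjQ_m Q P (r g) (r (g : G)⁻¹) (hQ g g.2) (hP g g.2)
  have hR : ∀ (g : H) (x : Q), R g (m x) = m ⟨r g * x * r (g : G)⁻¹, hQ g g.2 x x.2⟩ :=
    fun g x => ConjQ_m_mk Q P _ _ _ _ x
  let r' : H →* Module.End O (↥Q ⧸ P.submoduleOf Q) :=
    { toFun := R
      map_one' := by
        apply hext
        intro x
        rw [hR, Module.End.one_apply]
        congr 1
        apply Subtype.ext
        simp
      map_mul' := fun a b => by
        apply hext
        intro x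
        rw [Module.End.mul_apply, hR, hR, hR]
        congr 1
        apply Subtype.ext
        simp [mul_assoc, mul_inv_rev] }
  have hmr : ∀ (g : H) (x : Q), r' g (m x) = m ⟨r g * x * r (g : G)⁻¹, hQ g g.2 x x.2⟩ :=
    hR
  have hmΦ : ∀ x : Q, Φ' (m x) = m ⟨Φ * x * Ψ, hQp x x.2⟩ := fun x => ConjQ_m_mk Q P _ _ _ _ x
  have hmΨ : ∀ x : Q, Ψ' (m x) = m ⟨Ψ * x * Φ, hback Q hQp x x.2⟩ :=
    fun x => ConjQ_m_mk Q P _ _ _ _ x
  have hpow : ∀ (j : ℕ) (x : Q), ∃ hx, (Φ' ^ j) (m x) = m ⟨Φ ^ j * x * Ψ ^ j, hx⟩ := by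
    intro j
    induction j with
    | zero =>
      intro x
      refine ⟨by simp, ?_⟩
      rw [pow_zero, Module.End.one_apply]
      congr 1
      exact Subtype.ext (by simp)
    | succ j ih =>
      intro x
      obtain ⟨hx, h1⟩ := ih x
      refine ⟨iter_mem Q hQp x.2 (j + 1), ?_⟩
      rw [pow_succ', Module.End.mul_apply, h1, hmΦ]
      congr 1
      exact Subtype.ext (ConjQ_iter Φ Ψ j x).symm
  refine ⟨↥Q ⧸ P.submoduleOf Q, inferInstance, inferInstance, m, Φ', Ψ', r', ?_, hsur, ?_, hmr,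
    hmΦ, ?_⟩
  · refine ⟨h.prim, ?_, ?_, ?_, ?_, ?_⟩
    · apply hext
      intro x
      rw [Module.End.mul_apply, hmΨ, hmΦ, Module.End.one_apply]
      congr 1
      apply Subtype.ext
      change Φ * (Ψ * x * Φ) * Ψ = x
      calc Φ * (Ψ * (x : A) * Φ) * Ψ = (Φ * Ψ) * x * (Φ * Ψ) := by simp only [mul_assoc]
        _ = x := by rw [h.pq, one_mul, mul_one]
    · apply hext
      intro x
      rw [Module.End.mul_apply, hmΦ, hmΨ, Module.End.one_apply]
      congr 1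
      apply Subtype.ext
      change Ψ * (Φ * x * Ψ) * Φ = x
      calc Ψ * (Φ * (x : A) * Ψ) * Φ = (Ψ * Φ) * x * (Ψ * Φ) := by simp only [mul_assoc]
        _ = x := by rw [h.qp, one_mul, mul_one]
    · apply hext
      intro x
      obtain ⟨hx, h1⟩ := hpow n x
      rw [h1, Module.End.one_apply]
      congr 1
      apply Subtype.ext
      change Φ ^ n * x * Ψ ^ n = x
      rw [h.pow, hd.psi_pow, one_mul, mul_one]
    · intro g
      apply hext
      intro x
      rw [Module.End.mul_apply, Module.End.mul_apply, hmΨ, hmr, hmΦ, hmr]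
      congr 1
      apply Subtype.ext
      change Φ * (r g * (Ψ * x * Φ) * r (g : G)⁻¹) * Ψ = r (φ g) * x * r (φ g)⁻¹
      rw [← map_inv φ, ← h.eq, ← h.eq]
      simp only [mul_assoc]
    · obtain ⟨K, hK⟩ := h.nil
      let ρ : H →* A := r.comp H.subtype
      have hρ : (aug O ρ) ^ K = ⊥ := by
        rw [eq_bot_iff, ← hK]
        refine pow_le_pow_left' ?_ K
        unfold aug
        refine Submodule.span_mono ?_
        rintro _ ⟨g, rfl⟩
        exact ⟨(g : G), rfl⟩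
      refine ⟨2 * K, ?_⟩
      have key : ∀ (k : ℕ), ∀ T ∈ (aug (E := Module.End O (↥Q ⧸ P.submoduleOf Q)) O r') ^ k,
          ∀ x : Q, ∃ y : Q, T (m x) = m y ∧ (y : A) ∈ ConjQ_F (aug O ρ) k := by
        intro k
        induction k with
        | zero =>
          intro T hT x
          rw [pow_zero, Submodule.mem_one] at hT
          obtain ⟨c, rfl⟩ := hT
          exact ⟨c • x, by rw [Module.algebraMap_end_apply, map_smul], ConjQ_F_zero _⟩
        | succ k ih =>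
          intro T hT
          rw [pow_succ'] at hT
          refine Submodule.mul_induction_on hT ?_ ?_
          · intro S hS T' hT' x
            obtain ⟨y, hy1, hy2⟩ := ih T' hT' x
            rw [Module.End.mul_apply, hy1]
            unfold aug at hS
            refine Submodule.span_induction
              (p := fun S _ => ∃ z : Q, S (m y) = m z ∧ (z : A) ∈ ConjQ_F (aug O ρ) (k + 1))
              ?_ ?_ ?_ ?_ hS
            · rintro _ ⟨g, rfl⟩
              refine ⟨⟨r g * y * r (g : G)⁻¹, hQ g g.2 y y.2⟩ - y, ?_, ?_⟩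
              · rw [LinearMap.sub_apply, hmr, map_sub, Module.End.one_apply]
              · exact ConjQ_conj ρ g k _ hy2
            · exact ⟨0, by simp, Submodule.zero_mem _⟩
            · rintro a b _ _ ⟨z, hz1, hz2⟩ ⟨w, hw1, hw2⟩
              exact ⟨z + w, by rw [LinearMap.add_apply, hz1, hw1, map_add],
                Submodule.add_mem _ hz2 hw2⟩
            · rintro c a _ ⟨z, hz1, hz2⟩
              exact ⟨c • z, by rw [LinearMap.smul_apply, hz1, map_smul],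
                Submodule.smul_mem _ c hz2⟩
          · intro a b ha hb x
            obtain ⟨z, hz1, hz2⟩ := ha x
            obtain ⟨w, hw1, hw2⟩ := hb x
            exact ⟨z + w, by rw [LinearMap.add_apply, hz1, hw1, map_add],
              Submodule.add_mem _ hz2 hw2⟩
      rw [eq_bot_iff]
      intro T hT
      rw [Submodule.mem_bot]
      apply hext
      intro x
      obtain ⟨y, hy1, hy2⟩ := key (2 * K) T hT x
      rw [ConjQ_F_bot hρ, Submodule.mem_bot] at hy2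
      have h0 : y = 0 := Subtype.ext hy2
      rw [hy1, h0, map_zero, LinearMap.zero_apply]
  · intro x
    change (P.submoduleOf Q).mkQ x = 0 ↔ _
    rw [Submodule.mkQ_apply, Submodule.Quotient.mk_eq_zero]
    exact Iff.rfl
  · intro i x
    unfold ide
    rw [LinearMap.smul_apply, LinearMap.sum_apply]
    have h1 : ∀ j ∈ Finset.range n, (ζ ^ ((n - 1) * i * j) • Φ' ^ j) (m x) =
        m (ζ ^ ((n - 1) * i * j) • ⟨Φ ^ j * x * Ψ ^ j, iter_mem Q hQp x.2 j⟩) := by
      intro j _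
      obtain ⟨hx, h2⟩ := hpow j x
      rw [LinearMap.smul_apply, h2, map_smul]
    rw [Finset.sum_congr rfl h1, ← map_sum, ← map_smul]
    congr 1
    apply Subtype.ext
    unfold ThR.cmp
    simp

/-- known supports, applied to conjugation modules -/
theorem relT {n s : ℕ} {S : Set (ZMod n)} (hT : Tn n s S) {φ : G →* G} (hG : Ph n G φ) {ζ : O}
    {Φ Ψ : A} {r : G →* A} (h : GRep n φ ζ Φ Ψ r) (t : ℕ) (P Q : Submodule O A)
    (hQ : ∀ g ∈ derG t (⊤ : Subgroup G), ∀ x ∈ Q, r g * x * r g⁻¹ ∈ Q)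
    (hP : ∀ g ∈ derG t (⊤ : Subgroup G), ∀ x ∈ P, r g * x * r g⁻¹ ∈ P)
    (hQp : ∀ x ∈ Q, Φ * x * Ψ ∈ Q) (hPp : ∀ x ∈ P, Φ * x * Ψ ∈ P)
    (hS : ∀ i : ℕ, (i : ZMod n) ∉ S → ∀ x ∈ Q, cmp n ζ Φ Ψ i x ∈ P) :
    ∀ g ∈ derG (t + s) (⊤ : Subgroup G), ∀ x ∈ Q, r g * x * r g⁻¹ - x ∈ P := by
  have hH := derG_top_phi φ t
  obtain ⟨M, _, _, mk, Φ', Ψ', r', hrep, hsur, hker, hr', hΦ', hide⟩ :=
    conjQ h (derG t (⊤ : Subgroup G)) hH Q P hQ hP hQp hPp
  have hsup : Sup n ζ Φ' S := by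
    intro i hi
    apply LinearMap.ext
    intro y
    obtain ⟨x, rfl⟩ := hsur y
    rw [hide, LinearMap.zero_apply, hker]
    exact hS i hi x x.2
  have key := hT _ _ (hG.sub _ hH) O _ ζ Φ' Ψ' r' hrep hsup
  intro g hg x hx
  have h1 : derG (t + s) (⊤ : Subgroup G) =
      (derG s (⊤ : Subgroup (derG t (⊤ : Subgroup G)))).map (derG t (⊤ : Subgroup G)).subtype := by
    rw [derG_sub, ThR.derG_add]
  rw [h1] at hg
  obtain ⟨g', hg', rfl⟩ := hg
  have h2 := key g' hg'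
  have h3 := hr' g' ⟨x, hx⟩
  rw [h2, Module.End.one_apply] at h3
  have h4 : mk (⟨r g' * x * r (g' : G)⁻¹, hQ g' g'.2 x hx⟩ - ⟨x, hx⟩) = 0 := by
    rw [map_sub, ← h3, sub_self]
  exact (hker _).1 h4

/-- known supports, applied to layers -/
theorem relD {n s : ℕ} {S : Set (ZMod n)} (hT : Tn n s S) {φ : G →* G} (hG : Ph n G φ) {ζ : O}
    {Φ Ψ : A} {r : G →* A} (h : GRep n φ ζ Φ Ψ r) (t : ℕ) (B D : Submodule O A) (hBD : B ≤ D)
    (hD : ∀ g ∈ derG t (⊤ : Subgroup G), ∀ x ∈ D, r g * x ∈ D)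
    (hB : ∀ g ∈ derG t (⊤ : Subgroup G), ∀ x ∈ B, r g * x ∈ B)
    (hDp : ∀ x ∈ D, Φ * x ∈ D) (hBp : ∀ x ∈ B, Φ * x ∈ B)
    (hS : ∀ i : ℕ, (i : ZMod n) ∉ S → ∀ x ∈ D, ide n ζ Φ i * x ∈ B) :
    ∀ g ∈ derG (t + s) (⊤ : Subgroup G), ∀ x ∈ D, (r g - 1) * x ∈ B := by
  have hH := derG_top_phi φ t
  let ρ : derG t (⊤ : Subgroup G) →* A := r.comp (derG t (⊤ : Subgroup G)).subtype
  have hrep : GRep n (res φ _ hH) ζ Φ Ψ ρ := by
    refine ⟨h.prim, h.pq, h.qp, h.pow, fun g => h.eq g, ?_⟩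
    obtain ⟨K, hK⟩ := h.nil
    refine ⟨K, ?_⟩
    rw [eq_bot_iff, ← hK]
    refine pow_le_pow_left' ?_ K
    unfold aug
    refine Submodule.span_mono ?_
    rintro _ ⟨g, rfl⟩
    exact ⟨(g : G), rfl⟩
  intro g hg x hx
  have h1 : derG (t + s) (⊤ : Subgroup G) =
      (derG s (⊤ : Subgroup (derG t (⊤ : Subgroup G)))).map (derG t (⊤ : Subgroup G)).subtype := by
    rw [derG_sub, ThR.derG_add]
  rw [h1] at hg
  obtain ⟨g', hg', rfl⟩ := hg
  exact rel n _ S _ (hT _ _ (hG.sub _ hH)) ζ Φ Ψ ρ hrep B D hBD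
    ⟨fun g x hx => hD g g.2 x hx, hDp⟩ ⟨fun g x hx => hB g g.2 x hx, hBp⟩ hS g' hg' x hx

end Pool.Agent.FT
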