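import Pool.Agent.ThR.Periodic

/-!
# FT: derived length of nilpotent groups with a fixed-point-free automorphism, all n, all primes (S01057)

Basic definitions on top of `ThR/Defs.lean`.
-/

set_option autoImplicit false

namespace Pool.Agent.FT

open Pool.Agent.LgP Pool.Agent.ThR

/-- finite nilpotent groups of order prime to `n` with a fixed-point-free `φ`, `φ^n = 1` -/
structure Ph (n : ℕ) (G : Type) [Group G] (φ : G →* G) : Prop where
  pos : 0 < n
  fin : Finite G
  nil : Group.IsNilpotent G
  co : Nat.Coprime n (Nat.card G)
  per : ∀ g, (⇑φ)^[n] g = g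
  fix : ∀ g, φ g = g → g = 1

/-- restriction of `φ` to an invariant subgroup -/
def res {G : Type} [Group G] (φ : G →* G) (H : Subgroup G) (hH : ∀ g ∈ H, φ g ∈ H) : H →* H where
  toFun g := ⟨φ (g : G), hH g g.2⟩
  map_one' := Subtype.ext (map_one φ)
  map_mul' a b := Subtype.ext (map_mul φ (a : G) (b : G))

/-- the `s`-th derived group acts trivially on all graded modules with support in `S` -/
def Tn (n s : ℕ) (S : Set (ZMod n)) : Prop :=
  ∀ (G : Type) [Group G] (φ : G →* G), Ph n G φ → Triv n φ S (derG s (⊤ : Subgroup G))

/-- all supports with at most `k` elements are known, with constant `s` -/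
def TT (n s k : ℕ) : Prop := ∀ S : Set (ZMod n), S.ncard ≤ k → Tn n s S

end Pool.Agent.FT
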