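import Pool.Agent.FT.Ph
import Pool.Agent.LgP.Rep

/-!
# End: from graded modules without degree `0` to the group

PROOF. `N := derG s ⊤`, `H := ⁅N, N⁆ = derG (s + 1) ⊤` (normal, `φ`-invariant). `LgP.rep_exists n _ hG.co φ hG.per H` gives `O, V, ζ, ρ, Φ, Ψ`; with
`A = Module.End O V` this is a `GRep` (`Φ ρ(g) Ψ = ρ (φ g)`). For `f = ∑ j < n, X^j` the last clause gives `∑ Φ^j = 0`: `pw φ f h` is the product of the
`φ^j(h)`, which is `1` by `Split` (`Ph.split`), compare `Three_pw` in `OrdS/Three.lean`. So `ide n ζ Φ i = 0` for `(i : ZMod n) = 0`, i.e. `Sup n ζ Φ {x | x ≠ 0}`, and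
`ρ g = 1` for `g ∈ N`, i.e. `⁅g, h⁆ ∈ ⁅H, H⁆` for `g ∈ N`, `h ∈ H`: `⁅N, ⁅N,N⁆⁆ ≤ ⁅⁅N,N⁆,⁅N,N⁆⁆ ≤ ⁅N, ⁅N, ⁅N,N⁆⁆⁆` (three subgroups lemma). `G` is nilpotent, so
`⁅N, ⁅N,N⁆⁆ = ⊥` and `derG (s+2) ⊤ = ⁅H, H⁆ = ⊥`. (`LgP.gamma` in `LgP/Gen.lean` is this last argument.)
-/

set_option autoImplicit false

open scoped commutatorElement

namespace Pool.Agent.FT

open Pool.Agent.LgP Pool.Agent.ThR

/-- deep elements act trivially on the abelianisations of normal invariant subgroups -/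
theorem fin_key {n s : ℕ} (hT : Tn n s {x : ZMod n | x ≠ 0}) {G : Type} [Group G] {φ : G →* G}
    (hG : Ph n G φ) (H : Subgroup G) (hHn : H.Normal) (hH : ∀ h ∈ H, φ h ∈ H) :
    ∀ g ∈ derG s (⊤ : Subgroup G), ∀ h ∈ H, ⁅g, h⁆ ∈ ⁅H, H⁆ := by
  have := hG.fin
  have := hG.nil
  have hn := hG.pos
  intro g hg
  obtain ⟨O, V, _, _, _, ζ, ρ, Φ, Ψ, hP, _, _, h1, h2, h3, hρ, htriv, hK, hpoly⟩ :=
    rep_exists n hn hG.co φ hG.per H hHn hH
  have hsum : ∑ j ∈ Finset.range n, Φ ^ j = 0 := by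
    have h3 := hpoly _ (lev_start n hn φ hG.split H hHn hH)
    rw [fk_self n hn, map_sum] at h3
    simpa only [map_pow, Polynomial.aeval_X] using h3
  have hrep : GRep n φ ζ Φ Ψ ρ := ⟨hP, h1, h2, h3, fun g => (hρ g).symm, hK⟩
  have hsup : Sup n ζ Φ {x : ZMod n | x ≠ 0} := by
    intro i hi
    have h4 : (i : ZMod n) = 0 := by
      by_contra h5
      exact hi h5
    obtain ⟨k, rfl⟩ := (ZMod.natCast_eq_zero_iff i n).1 h4
    unfold ide
    have h5 : ∀ j ∈ Finset.range n, ζ ^ ((n - 1) * (n * k) * j) • Φ ^ j = Φ ^ j := by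
      intro j _
      have h6 : (n - 1) * (n * k) * j = n * ((n - 1) * k * j) := by ring
      rw [h6, pow_mul, hP.pow, one_pow, one_smul]
    rw [Finset.sum_congr rfl h5, hsum, smul_zero]
  exact htriv g (hT G φ hG O _ ζ Φ Ψ ρ hrep hsup g hg)

theorem fin (n s : ℕ) (hT : Tn n s {x : ZMod n | x ≠ 0}) (G : Type) [Group G] (φ : G →* G)
    (hG : Ph n G φ) : derG (s + 2) (⊤ : Subgroup G) = ⊥ := by
  have := hG.fin
  have := hG.nil
  have hKn : (derG s (⊤ : Subgroup G)).Normal := LgP.derG_normal _ _ inferInstance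
  have hKc : ∀ h ∈ ⁅derG s (⊤ : Subgroup G), derG s (⊤ : Subgroup G)⁆,
      φ h ∈ ⁅derG s (⊤ : Subgroup G), derG s (⊤ : Subgroup G)⁆ :=
    derG_inv φ (s + 1) ⊤ (fun h _ => Subgroup.mem_top _)
  refine gamma (derG s (⊤ : Subgroup G)) hKn ?_
  intro g hg a ha
  exact fin_key hT hG ⁅derG s (⊤ : Subgroup G), derG s (⊤ : Subgroup G)⁆
    (Subgroup.commutator_normal _ _) hKc g hg a ha

end Pool.Agent.FT
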