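import Pool.Agent.FT.Ph
import Pool.Agent.RegA.NilB

/-!
# Nilp: all finite nilpotent groups

PROOF (compare `OrdS/SixAll.lean`). For a prime `p` write `n = p^v * n'`, `p ∤ n'`. On a Sylow `p`-subgroup `P` of the finite nilpotent group `G` (normal, characteristic)
`ψ := φ^(p^v)` restricted to `P` is fixed-point-free (`fpf_pow` of `RegA/NilB.lean`), `ψ^[n'] = id`, `|P|` is prime to `n'`: `Ph n' P ψ`, so `derG s ⊤ = ⊥` with the
constant of `n' ∣ n`. Take `d :=` sup of the constants over all divisors of `n`. `G` is the product of its Sylow subgroups (`Group.isNilpotent_of_finite_tfae`).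
-/

set_option autoImplicit false

namespace Pool.Agent.FT

open Pool.Agent.LgP Pool.Agent.ThR Pool.Agent.RegA

private theorem Nilp_der {G : Type} [Group G] {a b : ℕ} (h : derivedSeries G a = ⊥) (hab : a ≤ b) :
    derivedSeries G b = ⊥ :=
  le_bot_iff.1 (h ▸ derivedSeries_antitone G hab)

/-- the automorphism induced on a Sylow subgroup -/
private theorem Nilp_sylow {n : ℕ} (hn : 0 < n) (d : ℕ → ℕ)
    (hd : ∀ m : ℕ, m ∈ n.divisors → ∀ (G : Type) [Group G] (φ : G →* G), Ph m G φ →
      derG (d m) (⊤ : Subgroup G) = ⊥)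
    {G : Type} [Group G] [Finite G] (φ : MulAut G) (hφ : φ ^ n = 1)
    (hfix : ∀ g : G, φ g = g → g = 1) (p : ℕ) (hpp : p.Prime) (P : Sylow p G)
    (hP : (P : Subgroup G).Normal) :
    derivedSeries (P : Subgroup G) (∑ m ∈ n.divisors, d m) = ⊥ := by
  have : Fact p.Prime := ⟨hpp⟩
  have hit : ∀ (c : ℕ) (x : G), (⇑φ)^[c] x = (φ ^ c) x := by
    intro c
    induction c with
    | zero =>
      intro x
      rfl
    | succ c ih =>
      intro x
      rw [Function.iterate_succ_apply, ih, pow_succ]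
      rfl
  have hch : (P : Subgroup G).Characteristic := P.characteristic_of_normal hP
  have hmap : (P : Subgroup G).map (φ : G →* G) = P :=
    Subgroup.characteristic_iff_map_eq.1 hch φ
  set θ := resA φ (P : Subgroup G) hmap with hθ
  have hres : ∀ (c : ℕ) (x : (P : Subgroup G)),
      (((⇑θ)^[c] x : (P : Subgroup G)) : G) = (⇑φ)^[c] (x : G) := by
    intro c
    induction c with
    | zero =>
      intro x
      rfl
    | succ c ih =>
      intro x
      rw [Function.iterate_succ_apply, Function.iterate_succ_apply, ih, resA_apply]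
  have hper : ∀ g, (⇑θ)^[n] g = g := by
    intro g
    apply Subtype.ext
    rw [hres, hit, hφ]
    rfl
  have hf : ∀ g, θ g = g → g = 1 := by
    intro g hg
    apply Subtype.ext
    apply hfix
    rw [← resA_apply φ (P : Subgroup G) hmap g]
    exact congrArg (Subtype.val) hg
  obtain ⟨a, m, hm, hnm⟩ := Nat.exists_eq_pow_mul_and_not_dvd hn.ne' p hpp.ne_one
  have hm0 : 0 < m := by
    rcases Nat.eq_zero_or_pos m with h0 | h0
    · rw [h0] at hm
      exact absurd (dvd_zero p) hm
    · exact h0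
  have hmd : m ∈ n.divisors := by
    rw [Nat.mem_divisors]
    exact ⟨⟨p ^ a, by rw [hnm, mul_comm]⟩, hn.ne'⟩
  -- the `p'`-part
  let ψ : (P : Subgroup G) →* (P : Subgroup G) := ((θ : MulAut (P : Subgroup G)) ^ (p ^ a)).toMonoidHom
  have hψ : ∀ x, ψ x = (⇑θ)^[p ^ a] x := by
    intro x
    have h1 : ∀ (c : ℕ) (x : (P : Subgroup G)),
        (⇑θ)^[c] x = ((θ : MulAut (P : Subgroup G)) ^ c) x := by
      intro c
      induction c with
      | zero =>
        intro x
        rfl
      | succ c ih =>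
        intro x
        rw [Function.iterate_succ_apply, ih, pow_succ]
        rfl
    rw [h1]
    rfl
  have hψf : (⇑ψ) = (⇑θ)^[p ^ a] := funext hψ
  have hψm : ∀ g, (⇑ψ)^[m] g = g := by
    intro g
    rw [hψf, ← Function.iterate_mul, ← hnm, hper]
  have hnil : Group.IsNilpotent (P : Subgroup G) := P.isPGroup'.isNilpotent
  have hPh : Ph m (P : Subgroup G) ψ := by
    refine ⟨hm0, inferInstance, hnil, ?_, hψm, ?_⟩
    · obtain ⟨k, hk⟩ := IsPGroup.iff_card.1 P.isPGroup'
      rw [hk]
      refine Nat.Coprime.pow_right k ?_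
      rw [Nat.coprime_comm, Nat.Prime.coprime_iff_not_dvd hpp]
      exact hm
    · intro g hg
      rw [hψ] at hg
      exact fpf_pow (p := p) (P : Subgroup G) P.isPGroup' θ hf a g hg
  have h4 := hd m hmd (P : Subgroup G) ψ hPh
  rw [derG_derivedSeries] at h4
  exact Nilp_der h4 (Finset.single_le_sum (f := d) (fun _ _ => Nat.zero_le _) hmd)

theorem nilp (n : ℕ) (hn : 0 < n) (hQ : ∀ b : ℕ, 0 < b → b ∣ n → ∃ s : ℕ,
      ∀ (G : Type) [Group G] (φ : G →* G), Ph b G φ → derG s (⊤ : Subgroup G) = ⊥) :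
    ∃ d : ℕ, ∀ (G : Type) [Group G] [Finite G] [Group.IsNilpotent G] (φ : MulAut G),
      φ ^ n = 1 → (∀ g : G, φ g = g → g = 1) → derivedSeries G d = ⊥ := by
  classical
  have hex : ∀ m : ℕ, ∃ d : ℕ, m ∈ n.divisors → ∀ (G : Type) [Group G] (φ : G →* G), Ph m G φ →
      derG d (⊤ : Subgroup G) = ⊥ := by
    intro m
    by_cases hm : m ∈ n.divisors
    · obtain ⟨s, hs⟩ := hQ m (Nat.pos_of_mem_divisors hm) (Nat.dvd_of_mem_divisors hm)
      exact ⟨s, fun _ => hs⟩
    · exact ⟨0, fun h => absurd h hm⟩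
  choose d hd using hex
  refine ⟨∑ m ∈ n.divisors, d m, ?_⟩
  intro G _ _ hnil φ hφ hfix
  obtain ⟨E⟩ := ((Group.isNilpotent_of_finite_tfae (G := G)).out 0 4).1 hnil
  have hnorm := ((Group.isNilpotent_of_finite_tfae (G := G)).out 0 3).1 hnil
  have hsyl : ∀ (p : ℕ), p.Prime → ∀ P : Sylow p G,
      derivedSeries (P : Subgroup G) (∑ m ∈ n.divisors, d m) = ⊥ := by
    intro p hpp P
    have : Fact p.Prime := ⟨hpp⟩
    exact Nilp_sylow hn d (fun m hm G _ φ hG => hd m hm G φ hG) φ hφ hfix p hpp P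
      (hnorm p inferInstance P)
  rw [eq_bot_iff]
  intro x hx
  have h1 : E.symm x = 1 := by
    funext p P
    have hpp : (p : ℕ).Prime := Nat.prime_of_mem_primeFactors p.2
    have h2 := hsyl p hpp P
    set f : G →* (P : Subgroup G) :=
      ((Pi.evalMonoidHom (fun P : Sylow (p : ℕ) G => (P : Subgroup G)) P).comp
        (Pi.evalMonoidHom (fun p : (Nat.card G).primeFactors =>
          ∀ P : Sylow (p : ℕ) G, (P : Subgroup G)) p)).comp E.symm.toMonoidHom with hf
    have h3 : f x ∈ derivedSeries (P : Subgroup G) (∑ m ∈ n.divisors, d m) :=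
      map_derivedSeries_le_derivedSeries f _ ⟨x, hx, rfl⟩
    rw [h2] at h3
    exact Subgroup.mem_bot.1 h3
  rw [Subgroup.mem_bot]
  have h4 : E (E.symm x) = E 1 := by rw [h1]
  rw [MulEquiv.apply_symm_apply, map_one] at h4
  exact h4

end Pool.Agent.FT
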