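import Pool.Agent.FT.Close
import Pool.Agent.FT.End
import Pool.Agent.FT.Nilp

/-!
# Final

`main`: strong induction on `n`. `TT n 0 0`: `S.ncard = 0` means `S = ∅` (`ZMod n` finite, `n > 0`), so all `ide` vanish, `1 = 0` in `A` (`ide_sum`), `r g = 1`. By `close`
(with the induction hypothesis for the proper divisors) `∃ s, TT n s k` for all `k < n`. For `k = n - 1`, `S = {x | x ≠ 0}` (`ncard = n - 1`) use `fin`.
(`n = 1`: `k = 0`, `S = ∅`.)
`all`: `nilp` and `main`.
-/

set_option autoImplicit false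

namespace Pool.Agent.FT

open Pool.Agent.LgP Pool.Agent.ThR

private theorem Final_zero (n : ℕ) (hn : 0 < n) : TT n 0 0 := by
  have : NeZero n := ⟨hn.ne'⟩
  intro S hS G _ φ _ O A _ _ _ ζ Φ Ψ r h hsup g _
  have hS' : S = ∅ := by
    rw [← Set.ncard_eq_zero (Set.toFinite S)]
    omega
  subst hS'
  have h1 := ide_sum h.dt
  rw [Finset.sum_eq_zero fun i _ => hsup i (Set.notMem_empty _)] at h1
  have h2 : ∀ a : A, a = 0 := fun a => by rw [← one_mul a, ← h1, zero_mul]
  rw [h2 (r g), h2 1]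

theorem main (n : ℕ) (hn : 0 < n) : ∃ s : ℕ, ∀ (G : Type) [Group G] (φ : G →* G), Ph n G φ →
    derG s (⊤ : Subgroup G) = ⊥ := by
  induction n using Nat.strong_induction_on with
  | _ n ih =>
    have hQ : ∀ b : ℕ, 0 < b → b ∣ n → b < n → ∃ s' : ℕ, ∀ (G : Type) [Group G] (φ : G →* G),
        Ph b G φ → derG s' (⊤ : Subgroup G) = ⊥ := fun b hb _ hbn => ih b hbn hb
    have hk : ∀ k : ℕ, k < n → ∃ s : ℕ, TT n s k := by
      intro k
      induction k with
      | zero => exact fun _ => ⟨0, Final_zero n hn⟩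
      | succ k ihk =>
        intro hk
        obtain ⟨s, hs⟩ := ihk (by omega)
        exact close n s k hs hk hQ
    obtain ⟨s, hs⟩ := hk (n - 1) (by omega)
    have hcard : ({x : ZMod n | x ≠ 0} : Set (ZMod n)).ncard ≤ n - 1 := by
      have : NeZero n := ⟨hn.ne'⟩
      have h1 : ({x : ZMod n | x ≠ 0} : Set (ZMod n)) = Set.univ \ {0} := by
        ext x
        simp
      rw [h1, Set.ncard_sdiff_singleton_of_mem (Set.mem_univ _), Set.ncard_univ, Nat.card_zmod]
    exact ⟨s + 2, fun G _ φ hG => fin n s (hs _ hcard) G φ hG⟩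

theorem all : ∃ f : ℕ → ℕ, ∀ (G : Type) [Group G] [Finite G] [Group.IsNilpotent G]
    (φ : MulAut G), (∀ g : G, φ g = g → g = 1) → derivedSeries G (f (orderOf φ)) = ⊥ := by
  have h : ∀ n : ℕ, ∃ d : ℕ, 0 < n → ∀ (G : Type) [Group G] [Finite G] [Group.IsNilpotent G]
      (φ : MulAut G), φ ^ n = 1 → (∀ g : G, φ g = g → g = 1) → derivedSeries G d = ⊥ := by
    intro n
    by_cases hn : 0 < n
    · obtain ⟨d, hd⟩ := nilp n hn fun b hb _ => main b hb
      exact ⟨d, fun _ => hd⟩
    · exact ⟨0, fun h => absurd h hn⟩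
  choose f hf using h
  refine ⟨f, ?_⟩
  intro G _ _ _ φ hφ
  have : Finite (MulAut G) := Finite.of_injective (fun e : MulAut G => (e : G → G)) DFunLike.coe_injective
  exact hf (orderOf φ) (orderOf_pos φ) G φ (pow_orderOf_eq_one φ) hφ

end Pool.Agent.FT
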