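import Pool.Agent.FT.Claim
import Pool.Agent.ThR.Cr
import Pool.Agent.ThR.Gr

/-!
# Gain

For every normal invariant subgroup `K` and every `N ≤ derG t ⊤` (in particular for all smaller invariant subgroups):
`(ag ⁅K, N⁆)^M * ((ag K)^i * ⊤) ≤ (ag K)^(i + M + 1) * ⊤`.

PROOF. `claim` with `ρ = 2^(n-1) - 1` gives `t`, `M`. `ThR.gr` (with `Ph.split`) gives `A'`, `L`; `LgP.kreknin` as in the proof of `ThR.cr` gives
`derL (2^(n-1) - 1) L = ⊥`. `claim` for `A'`, `J = L`, `D = ⊤`, `B = ⊥` (`L ^ k = ⊥`) gives `(Xs r' L (derG t ⊤))^M = ⊥`, and `Xs r' L N ≤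
Xs r' L (derG t ⊤)`, so `(Xs r' L N)^M = ⊥`; the last part of `ThR.gr` is the statement. (Copy the private `Cr_conj` lemmas of `ThR/Cr.lean`.)
-/

set_option autoImplicit false

open scoped commutatorElement

namespace Pool.Agent.FT

open Pool.Agent.LgP Pool.Agent.ThR

private def Gain_conj (O : Type) {A : Type} [CommRing O] [Ring A] [Algebra O A] {p q : A}
    (hpq : p * q = 1) (hqp : q * p = 1) : A →ₐ[O] A :=
  AlgHom.ofLinearMap ((LinearMap.mulLeft O p).comp (LinearMap.mulRight O q)) (by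
    rw [LinearMap.comp_apply, LinearMap.mulLeft_apply, LinearMap.mulRight_apply, one_mul, hpq])
    (by
    intro x y
    simp only [LinearMap.comp_apply, LinearMap.mulLeft_apply, LinearMap.mulRight_apply]
    calc p * (x * y * q) = p * x * 1 * y * q := by simp only [mul_assoc, one_mul]
      _ = p * x * (q * p) * y * q := by rw [hqp]
      _ = _ := by simp only [mul_assoc])

private theorem Gain_conj_apply {O A : Type} [CommRing O] [Ring A] [Algebra O A] {p q : A}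
    (hpq : p * q = 1) (hqp : q * p = 1) (x : A) : Gain_conj O hpq hqp x = p * x * q := by
  change p * (x * q) = p * x * q
  rw [mul_assoc]

private theorem Gain_conj_iter {O A : Type} [CommRing O] [Ring A] [Algebra O A] {p q : A}
    (hpq : p * q = 1) (hqp : q * p = 1) (j : ℕ) (x : A) :
    (⇑(Gain_conj O hpq hqp))^[j] x = p ^ j * x * q ^ j := by
  induction j with
  | zero => simp
  | succ j ih =>
    rw [Function.iterate_succ_apply', ih, Gain_conj_apply, pow_succ', pow_succ]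
    simp only [mul_assoc]

theorem gain (n s k : ℕ) (hT : TT n s k) : ∃ t M : ℕ, 0 < M ∧ ∀ S : Set (ZMod n),
    S.ncard ≤ k + 1 → S ≠ Set.univ → ∀ (G : Type) [Group G] (φ : G →* G), Ph n G φ →
    ∀ (O A : Type) [CommRing O] [Ring A] [Algebra O A] (ζ : O) (Φ Ψ : A) (r : G →* A),
    GRep n φ ζ Φ Ψ r → Sup n ζ Φ S →
    ∀ K N : Subgroup G, K.Normal → (∀ g ∈ K, φ g ∈ K) → N ≤ derG t (⊤ : Subgroup G) → ∀ i : ℕ,
    (ag O r ⁅K, N⁆) ^ M * ((ag O r K) ^ i * ⊤) ≤ (ag O r K) ^ (i + M + 1) * ⊤ := by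
  obtain ⟨t, M, hM, hcl⟩ := claim n s k hT (2 ^ (n - 1) - 1)
  refine ⟨t, M, hM, ?_⟩
  intro S hSc hSu G _ φ hph O A _ _ _ ζ Φ Ψ r h hS K N hK hKφ hN i
  obtain ⟨A', _, _, Φ', Ψ', r', L, h', hS', hL, hLg, hLp, hLt, hLn, hfin⟩ :=
    gr n φ hph.split S ζ Φ Ψ r h hS K hK hKφ
  have h0 : derL (2 ^ (n - 1) - 1) L = ⊥ := by
    refine kreknin n ζ h'.prim (Gain_conj O h'.pq h'.qp) ?_ L hL ?_ ?_
    · intro a
      rw [Gain_conj_iter, h'.pow, h'.dt.psi_pow, one_mul, mul_one]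
    · intro a ha
      rw [Gain_conj_apply]
      exact hLp a ha
    · intro a ha
      rw [← hLt a ha]
      exact Finset.sum_congr rfl fun j _ => Gain_conj_iter _ _ j a
  have h1 := hcl S hSc hSu G φ hph O A' ζ Φ' Ψ' r' h' hS' L hL ⟨hLg, hLp⟩ hLt ⊤ ⊥
    ⟨bot_le, ⟨fun _ _ _ => Submodule.mem_top, fun _ _ => Submodule.mem_top⟩,
      ⟨fun g x hx => by
        rw [Submodule.mem_bot] at hx ⊢
        rw [hx, mul_zero], fun x hx => by
        rw [Submodule.mem_bot] at hx ⊢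
        rw [hx, mul_zero]⟩, fun _ _ _ _ => Submodule.mem_top, fun a _ x hx => by
      rw [Submodule.mem_bot] at hx ⊢
      rw [hx, mul_zero]⟩
    (by
      obtain ⟨m, hm⟩ := hLn
      exact ⟨m, by rw [hm, Submodule.bot_mul]⟩) (by rw [h0, Submodule.bot_mul])
  have h2 : (Xs r' L (derG t (⊤ : Subgroup G))) ^ M = ⊥ := by
    rw [eq_bot_iff]
    refine le_trans ?_ h1
    intro x hx
    have h3 := Submodule.mul_mem_mul hx (Submodule.mem_top : (1 : A') ∈ (⊤ : Submodule O A'))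
    rw [mul_one] at h3
    exact h3
  have h4 : Xs r' L N ≤ Xs r' L (derG t (⊤ : Subgroup G)) := by
    unfold Xs
    refine Submodule.span_mono ?_
    rintro a ⟨x, hx, g, hg, rfl⟩
    exact ⟨x, hx, g, hN hg, rfl⟩
  have h5 : (Xs r' L N) ^ M = ⊥ := by
    rw [eq_bot_iff, ← h2]
    exact pow_le_pow_left' h4 M
  exact hfin N M hM h5 i

end Pool.Agent.FT
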