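import Pool.Agent.ThR.Deg

/-!
# Definitions for the identification lemma (helper81, note 2227 (1)(b), (1L))

`Sec`: `B ≤ D` are stable left submodules, `c` is a stable space of operators commuting on `D / B`, `L` is a
nilpotent stable space of operators with `[L, c] ⊆ c`. `Knd X H T`: the space `X` of products of elements
of `c` is killed (on `D / B`) by the letters of `c` whose degree is not in `H`, and it kills the parts of
`D / B` of degree outside the `H`-periodic set `T`. `Clo X`: the closure of `X` under conjugation by the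
group and by `Φ`, under commutation with `L` and under multiplication by `c`.
-/

set_option autoImplicit false

namespace Pool.Agent.FT

open Pool.Agent.LgP Pool.Agent.ThR

/-- sections of graded `G`-algebras with a commuting space `c` and a nilpotent space `L` of
operators normalising `c` -/
structure Sec {O A G : Type} [CommRing O] [Ring A] [Algebra O A] [Group G] (r : G →* A) (Φ Ψ : A)
    (c L D B : Submodule O A) : Prop where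
  le : B ≤ D
  sD : Stab r Φ D
  sB : Stab r Φ B
  cg : ∀ g, ∀ a ∈ c, r g * a * r g⁻¹ ∈ c
  cp : ∀ a ∈ c, Φ * a * Ψ ∈ c
  cD : ∀ a ∈ c, ∀ x ∈ D, a * x ∈ D
  cB : ∀ a ∈ c, ∀ x ∈ B, a * x ∈ B
  comm : ∀ a ∈ c, ∀ b ∈ c, ∀ x ∈ D, (a * b - b * a) * x ∈ B
  lg : ∀ g, ∀ y ∈ L, r g * y * r g⁻¹ ∈ L
  lp : ∀ y ∈ L, Φ * y * Ψ ∈ L
  lc : ∀ y ∈ L, ∀ a ∈ c, y * a - a * y ∈ c
  lD : ∀ y ∈ L, ∀ x ∈ D, y * x ∈ D
  lB : ∀ y ∈ L, ∀ x ∈ B, y * x ∈ B
  nil : ∃ k : ℕ, L ^ k = ⊥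

/-- spaces of kind `(H, T)` -/
structure Knd {O A : Type} [CommRing O] [Ring A] [Algebra O A] (n : ℕ) (ζ : O) (Φ Ψ : A)
    (c D B X : Submodule O A) (H : AddSubgroup (ZMod n)) (T : Set (ZMod n)) : Prop where
  sub : ∀ x ∈ X, x ∈ Algebra.adjoin O (c : Set A)
  ph : ∀ x ∈ X, Φ * x * Ψ ∈ X
  kill : ∀ x ∈ X, ∀ e : ℕ, (e : ZMod n) ∉ H → ∀ y ∈ c, ∀ v ∈ D, x * (cmp n ζ Φ Ψ e y * v) ∈ B
  per : ∀ i ∈ T, ∀ t ∈ H, i + t ∈ T
  sup : ∀ x ∈ X, ∀ i : ℕ, (i : ZMod n) ∉ T → ∀ v ∈ D, x * (ide n ζ Φ i * v) ∈ B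

/-- closure under conjugation by the group and by `Φ`, commutation with `L`, multiplication by `c` -/
def Clo {O A G : Type} [CommRing O] [Ring A] [Algebra O A] [Group G] (r : G →* A) (Φ Ψ : A)
    (c L X : Submodule O A) : Submodule O A :=
  sInf {T | X ≤ T ∧ (∀ g, ∀ x ∈ T, r g * x * r g⁻¹ ∈ T) ∧ (∀ x ∈ T, Φ * x * Ψ ∈ T) ∧
    (∀ y ∈ L, ∀ x ∈ T, y * x - x * y ∈ T) ∧ ∀ a ∈ c, ∀ x ∈ T, a * x ∈ T}

section basic

variable {O A G : Type} [CommRing O] [Ring A] [Algebra O A] [Group G] {r : G →* A} {Φ Ψ : A}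
  {c L X : Submodule O A}

theorem le_clo : X ≤ Clo r Φ Ψ c L X := le_sInf fun _ hT => hT.1

theorem clo_le {T : Submodule O A} (h1 : X ≤ T) (h2 : ∀ g, ∀ x ∈ T, r g * x * r g⁻¹ ∈ T)
    (h3 : ∀ x ∈ T, Φ * x * Ψ ∈ T) (h4 : ∀ y ∈ L, ∀ x ∈ T, y * x - x * y ∈ T)
    (h5 : ∀ a ∈ c, ∀ x ∈ T, a * x ∈ T) : Clo r Φ Ψ c L X ≤ T :=
  sInf_le ⟨h1, h2, h3, h4, h5⟩

theorem clo_g (g : G) {x : A} (hx : x ∈ Clo r Φ Ψ c L X) :
    r g * x * r g⁻¹ ∈ Clo r Φ Ψ c L X := by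
  unfold Clo at hx ⊢
  rw [Submodule.mem_sInf] at hx ⊢
  exact fun T hT => hT.2.1 g x (hx T hT)

theorem clo_p {x : A} (hx : x ∈ Clo r Φ Ψ c L X) : Φ * x * Ψ ∈ Clo r Φ Ψ c L X := by
  unfold Clo at hx ⊢
  rw [Submodule.mem_sInf] at hx ⊢
  exact fun T hT => hT.2.2.1 x (hx T hT)

theorem clo_l {y : A} (hy : y ∈ L) {x : A} (hx : x ∈ Clo r Φ Ψ c L X) :
    y * x - x * y ∈ Clo r Φ Ψ c L X := by
  unfold Clo at hx ⊢
  rw [Submodule.mem_sInf] at hx ⊢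
  exact fun T hT => hT.2.2.2.1 y hy x (hx T hT)

theorem clo_c {a : A} (ha : a ∈ c) {x : A} (hx : x ∈ Clo r Φ Ψ c L X) :
    a * x ∈ Clo r Φ Ψ c L X := by
  unfold Clo at hx ⊢
  rw [Submodule.mem_sInf] at hx ⊢
  exact fun T hT => hT.2.2.2.2 a ha x (hx T hT)

end basic

end Pool.Agent.FT
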