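import Pool.Agent.FT.Base

/-!
# The layering principle

`c` is a space of operators commuting modulo `B` on `D`, `L` a space of operators with `L^k = 0`, `[L, c] ≤ c`,
everything stable under the subgroup `H` and `Φ`. `ML_M e` is the smallest subspace of `c` containing the
components of degree `e` and closed under conjugation by `H`, `Φ` and under `[L, ·]`; `ML_P l` is the product of
the `ML_M e`, `e ∈ l`. If `ML_P l * D` is not contained in `B`, there is one homogeneous `v ∈ D` of some degree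
`i` such that all `c_e`, `e ∈ l`, act nontrivially on `v` modulo `B`: take `v` in
`(ag H)^b * (L^a * D)` with `a`, then `b` maximal such that `ML_P l` does not map this space into `B`.
So `i ∈ S` and `i + e ∈ S`, hence `|l| < |S|`. The layers are
`ML_U k = B ⊔ ⨆_{|E| ≥ k} ML_P E * D`.
-/

set_option autoImplicit false

namespace Pool.Agent.FT

open Pool.Agent.LgP Pool.Agent.ThR

section ops

variable {O A G : Type} [CommRing O] [Ring A] [Algebra O A] [Group G]

/-- closed under conjugation by `H` and `Φ` and under brackets with `L` -/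
structure ML_Cl (r : G →* A) (Φ Ψ : A) (H : Subgroup G) (L T : Submodule O A) : Prop where
  g : ∀ g ∈ H, ∀ x ∈ T, r g * x * r g⁻¹ ∈ T
  p : ∀ x ∈ T, Φ * x * Ψ ∈ T
  l : ∀ z ∈ L, ∀ x ∈ T, z * x - x * z ∈ T

/-- stable under left multiplication by `H`, `Φ` and `L` -/
structure ML_St (r : G →* A) (Φ : A) (H : Subgroup G) (L D : Submodule O A) : Prop where
  g : ∀ g ∈ H, ∀ x ∈ D, r g * x ∈ D
  p : ∀ x ∈ D, Φ * x ∈ D
  l : ∀ z ∈ L, ∀ x ∈ D, z * x ∈ D

private theorem ML_inv (r : G →* A) (g : G) : r g⁻¹ * r g = 1 := by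
  rw [← map_mul, inv_mul_cancel, map_one]

private theorem ML_inv' (r : G →* A) (g : G) : r g * r g⁻¹ = 1 := by
  rw [← map_mul, mul_inv_cancel, map_one]

variable {r : G →* A} {Φ Ψ : A} {H : Subgroup G} {L : Submodule O A}

theorem ML_Cl.mul (hqp : Ψ * Φ = 1) {S T : Submodule O A} (hS : ML_Cl r Φ Ψ H L S)
    (hT : ML_Cl r Φ Ψ H L T) : ML_Cl r Φ Ψ H L (S * T) := by
  refine ⟨?_, ?_, ?_⟩
  · intro g hg x hx
    refine Submodule.mul_induction_on hx ?_ ?_
    · intro a ha b hb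
      have e : r g * (a * b) * r g⁻¹ = (r g * a * r g⁻¹) * (r g * b * r g⁻¹) := by
        calc r g * (a * b) * r g⁻¹ = r g * a * 1 * b * r g⁻¹ := by simp only [mul_assoc, one_mul]
          _ = r g * a * (r g⁻¹ * r g) * b * r g⁻¹ := by rw [ML_inv]
          _ = _ := by simp only [mul_assoc]
      rw [e]
      exact Submodule.mul_mem_mul (hS.g g hg a ha) (hT.g g hg b hb)
    · intro a b ha hb
      rw [mul_add, add_mul]
      exact Submodule.add_mem _ ha hb
  · intro x hx
    refine Submodule.mul_induction_on hx ?_ ?_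
    · intro a ha b hb
      have e : Φ * (a * b) * Ψ = (Φ * a * Ψ) * (Φ * b * Ψ) := by
        calc Φ * (a * b) * Ψ = Φ * a * 1 * b * Ψ := by simp only [mul_assoc, one_mul]
          _ = Φ * a * (Ψ * Φ) * b * Ψ := by rw [hqp]
          _ = _ := by simp only [mul_assoc]
      rw [e]
      exact Submodule.mul_mem_mul (hS.p a ha) (hT.p b hb)
    · intro a b ha hb
      rw [mul_add, add_mul]
      exact Submodule.add_mem _ ha hb
  · intro z hz x hx
    refine Submodule.mul_induction_on hx ?_ ?_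
    · intro a ha b hb
      have e : z * (a * b) - a * b * z = (z * a - a * z) * b + a * (z * b - b * z) := by
        noncomm_ring
      rw [e]
      exact Submodule.add_mem _ (Submodule.mul_mem_mul (hS.l z hz a ha) hb)
        (Submodule.mul_mem_mul ha (hT.l z hz b hb))
    · intro a b ha hb
      have e : z * (a + b) - (a + b) * z = (z * a - a * z) + (z * b - b * z) := by
        noncomm_ring
      rw [e]
      exact Submodule.add_mem _ ha hb

theorem ML_Cl.one (hpq : Φ * Ψ = 1) : ML_Cl r Φ Ψ H L (1 : Submodule O A) := by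
  refine ⟨?_, ?_, ?_⟩
  · intro g _ x hx
    obtain ⟨c, rfl⟩ := Submodule.mem_one.1 hx
    have e : r g * algebraMap O A c * r g⁻¹ = algebraMap O A c := by
      rw [← Algebra.commutes, mul_assoc, ML_inv', mul_one]
    rw [e]
    exact hx
  · intro x hx
    obtain ⟨c, rfl⟩ := Submodule.mem_one.1 hx
    have e : Φ * algebraMap O A c * Ψ = algebraMap O A c := by
      rw [← Algebra.commutes, mul_assoc, hpq, mul_one]
    rw [e]
    exact hx
  · intro z _ x hx
    obtain ⟨c, rfl⟩ := Submodule.mem_one.1 hx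
    rw [← Algebra.commutes, sub_self]
    exact Submodule.zero_mem _

theorem ML_St.mul (hqp : Ψ * Φ = 1) {T D : Submodule O A} (hT : ML_Cl r Φ Ψ H L T)
    (hD : ML_St r Φ H L D) : ML_St r Φ H L (T * D) := by
  refine ⟨?_, ?_, ?_⟩
  · intro g hg x hx
    refine Submodule.mul_induction_on hx ?_ ?_
    · intro a ha b hb
      have e : r g * (a * b) = (r g * a * r g⁻¹) * (r g * b) := by
        calc r g * (a * b) = r g * a * 1 * b := by simp only [mul_assoc, one_mul]
          _ = r g * a * (r g⁻¹ * r g) * b := by rw [ML_inv]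
          _ = _ := by simp only [mul_assoc]
      rw [e]
      exact Submodule.mul_mem_mul (hT.g g hg a ha) (hD.g g hg b hb)
    · intro a b ha hb
      rw [mul_add]
      exact Submodule.add_mem _ ha hb
  · intro x hx
    refine Submodule.mul_induction_on hx ?_ ?_
    · intro a ha b hb
      have e : Φ * (a * b) = (Φ * a * Ψ) * (Φ * b) := by
        calc Φ * (a * b) = Φ * a * 1 * b := by simp only [mul_assoc, one_mul]
          _ = Φ * a * (Ψ * Φ) * b := by rw [hqp]
          _ = _ := by simp only [mul_assoc]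
      rw [e]
      exact Submodule.mul_mem_mul (hT.p a ha) (hD.p b hb)
    · intro a b ha hb
      rw [mul_add]
      exact Submodule.add_mem _ ha hb
  · intro z hz x hx
    refine Submodule.mul_induction_on hx ?_ ?_
    · intro a ha b hb
      have e : z * (a * b) = (z * a - a * z) * b + a * (z * b) := by
        noncomm_ring
      rw [e]
      exact Submodule.add_mem _ (Submodule.mul_mem_mul (hT.l z hz a ha) hb)
        (Submodule.mul_mem_mul ha (hD.l z hz b hb))
    · intro a b ha hb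
      rw [mul_add]
      exact Submodule.add_mem _ ha hb

theorem ML_St.sup {B D : Submodule O A} (hB : ML_St r Φ H L B) (hD : ML_St r Φ H L D) :
    ML_St r Φ H L (B ⊔ D) := by
  refine ⟨?_, ?_, ?_⟩
  · intro g hg x hx
    obtain ⟨a, ha, b, hb, rfl⟩ := Submodule.mem_sup.1 hx
    rw [mul_add]
    exact Submodule.add_mem_sup (hB.g g hg a ha) (hD.g g hg b hb)
  · intro x hx
    obtain ⟨a, ha, b, hb, rfl⟩ := Submodule.mem_sup.1 hx
    rw [mul_add]
    exact Submodule.add_mem_sup (hB.p a ha) (hD.p b hb)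
  · intro z hz x hx
    obtain ⟨a, ha, b, hb, rfl⟩ := Submodule.mem_sup.1 hx
    rw [mul_add]
    exact Submodule.add_mem_sup (hB.l z hz a ha) (hD.l z hz b hb)

theorem ML_St.iSup {ι : Type} {D : ι → Submodule O A} (hD : ∀ i, ML_St r Φ H L (D i)) :
    ML_St r Φ H L (⨆ i, D i) := by
  refine ⟨?_, ?_, ?_⟩
  · intro g hg x hx
    refine Submodule.iSup_induction D (motive := fun x => r g * x ∈ ⨆ i, D i) hx ?_ ?_ ?_
    · intro i y hy
      exact Submodule.mem_iSup_of_mem i ((hD i).g g hg y hy)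
    · rw [mul_zero]
      exact Submodule.zero_mem _
    · intro y z hy hz
      rw [mul_add]
      exact Submodule.add_mem _ hy hz
  · intro x hx
    refine Submodule.iSup_induction D (motive := fun x => Φ * x ∈ ⨆ i, D i) hx ?_ ?_ ?_
    · intro i y hy
      exact Submodule.mem_iSup_of_mem i ((hD i).p y hy)
    · rw [mul_zero]
      exact Submodule.zero_mem _
    · intro y z hy hz
      rw [mul_add]
      exact Submodule.add_mem _ hy hz
  · intro w hw x hx
    refine Submodule.iSup_induction D (motive := fun x => w * x ∈ ⨆ i, D i) hx ?_ ?_ ?_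
    · intro i y hy
      exact Submodule.mem_iSup_of_mem i ((hD i).l w hw y hy)
    · rw [mul_zero]
      exact Submodule.zero_mem _
    · intro y z hy hz
      rw [mul_add]
      exact Submodule.add_mem _ hy hz

theorem ML_St.psi {n : ℕ} {ζ : O} (hd : Dt n ζ Φ Ψ) {D : Submodule O A}
    (hD : ∀ x ∈ D, Φ * x ∈ D) (x : A) (hx : x ∈ D) : Ψ * x ∈ D := by
  have hp : ∀ j : ℕ, Φ ^ j * x ∈ D := by
    intro j
    induction j with
    | zero => simpa using hx
    | succ j ih => rw [pow_succ', mul_assoc]; exact hD _ ih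
  rw [hd.psi]
  exact hp _

theorem ML_Cl.psi {n : ℕ} {ζ : O} (hd : Dt n ζ Φ Ψ) {T : Submodule O A}
    (hT : ∀ x ∈ T, Φ * x * Ψ ∈ T) (x : A) (hx : x ∈ T) : Ψ * x * Φ ∈ T := by
  have hΨ : Ψ = Φ ^ (n - 1) := hd.psi
  have hΦ : Φ = Ψ ^ (n - 1) := by
    have h1 : Ψ ^ n = 1 := hd.psi_pow
    have h2 : n = (n - 1) + 1 := by have := hd.prim.pos; omega
    calc Φ = Φ * Ψ ^ n := by rw [h1, mul_one]
      _ = Φ * Ψ ^ ((n - 1) + 1) := by rw [← h2]
      _ = Ψ ^ (n - 1) := by rw [pow_succ', ← mul_assoc, hd.pq, one_mul]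
  have h1 := iter_mem T hT hx (n - 1)
  rw [← hΨ] at h1
  rwa [← hΦ] at h1

end ops

section main

variable {O A G : Type} [CommRing O] [Ring A] [Algebra O A] [Group G]

/-- the smallest closed subspace containing the components of degree `e` of the elements of `c` -/
def ML_M (n : ℕ) (ζ : O) (Φ Ψ : A) (r : G →* A) (H : Subgroup G) (L c : Submodule O A)
    (e : ℕ) : Submodule O A :=
  sInf {T | (∀ a ∈ c, cmp n ζ Φ Ψ e a ∈ T) ∧ ML_Cl r Φ Ψ H L T}

/-- the product of the `ML_M e`, `e ∈ l` -/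
def ML_P (n : ℕ) (ζ : O) (Φ Ψ : A) (r : G →* A) (H : Subgroup G) (L c : Submodule O A)
    (l : List ℕ) : Submodule O A :=
  (l.map (ML_M n ζ Φ Ψ r H L c)).prod

/-- the layers -/
noncomputable def ML_U (n : ℕ) (ζ : O) (Φ Ψ : A) (r : G →* A) (H : Subgroup G) (L c D B : Submodule O A)
    (k : ℕ) : Submodule O A :=
  B ⊔ ⨆ E : {E : Finset ℕ // E ⊆ Finset.Ico 1 n ∧ k ≤ E.card},
    ML_P n ζ Φ Ψ r H L c E.1.toList * D

/-- the data for the layering principle -/
structure ML_Op (n : ℕ) (r : G →* A) (Φ Ψ : A) (H : Subgroup G) (L c D B : Submodule O A) :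
    Prop where
  le : B ≤ D
  sD : ML_St r Φ H L D
  sB : ML_St r Φ H L B
  Lg : ∀ g ∈ H, ∀ x ∈ L, r g * x * r g⁻¹ ∈ L
  Lp : ∀ x ∈ L, Φ * x * Ψ ∈ L
  nil : ∃ k : ℕ, L ^ k * D ≤ B
  cc : ML_Cl r Φ Ψ H L c
  cD : ∀ a ∈ c, ∀ x ∈ D, a * x ∈ D
  cB : ∀ a ∈ c, ∀ x ∈ B, a * x ∈ B
  comm : ∀ a ∈ c, ∀ b ∈ c, ∀ x ∈ D, (a * b - b * a) * x ∈ B
  tr : ∀ a ∈ c, ∑ j ∈ Finset.range n, Φ ^ j * a * Ψ ^ j = 0

variable {n : ℕ} {ζ : O} {Φ Ψ : A} {r : G →* A} {H : Subgroup G} {L c D B : Submodule O A}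

theorem ML_M_cl (e : ℕ) : ML_Cl r Φ Ψ H L (ML_M n ζ Φ Ψ r H L c e) := by
  refine ⟨?_, ?_, ?_⟩
  · intro g hg x hx
    refine Submodule.mem_sInf.2 fun T hT => ?_
    exact hT.2.g g hg x (Submodule.mem_sInf.1 hx T hT)
  · intro x hx
    refine Submodule.mem_sInf.2 fun T hT => ?_
    exact hT.2.p x (Submodule.mem_sInf.1 hx T hT)
  · intro z hz x hx
    refine Submodule.mem_sInf.2 fun T hT => ?_
    exact hT.2.l z hz x (Submodule.mem_sInf.1 hx T hT)

theorem ML_M_cmp (e : ℕ) {a : A} (ha : a ∈ c) : cmp n ζ Φ Ψ e a ∈ ML_M n ζ Φ Ψ r H L c e :=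
  Submodule.mem_sInf.2 fun _ hT => hT.1 a ha

theorem ML_M_le {T : Submodule O A} (e : ℕ) (h1 : ∀ a ∈ c, cmp n ζ Φ Ψ e a ∈ T)
    (h2 : ML_Cl r Φ Ψ H L T) : ML_M n ζ Φ Ψ r H L c e ≤ T :=
  sInf_le ⟨h1, h2⟩

theorem ML_P_cons (e : ℕ) (l : List ℕ) : ML_P n ζ Φ Ψ r H L c (e :: l) =
    ML_M n ζ Φ Ψ r H L c e * ML_P n ζ Φ Ψ r H L c l := by
  unfold ML_P
  rw [List.map_cons, List.prod_cons]

theorem ML_P_nil : ML_P n ζ Φ Ψ r H L c [] = 1 := rfl

theorem ML_P_cl (hpq : Φ * Ψ = 1) (hqp : Ψ * Φ = 1) (l : List ℕ) :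
    ML_Cl r Φ Ψ H L (ML_P n ζ Φ Ψ r H L c l) := by
  induction l with
  | nil => exact ML_Cl.one hpq
  | cons e l ih => rw [ML_P_cons]; exact (ML_M_cl e).mul hqp ih

theorem ML_Op.M_le (h : ML_Op n r Φ Ψ H L c D B) (e : ℕ) : ML_M n ζ Φ Ψ r H L c e ≤ c :=
  ML_M_le e (fun _ ha => cmp_mem c h.cc.p ha e) h.cc

/-- the operators in `ML_P l` preserve submodules preserved by `c` -/
theorem ML_Op.P_act (h : ML_Op n r Φ Ψ H L c D B) {X : Submodule O A}
    (hX : ∀ a ∈ c, ∀ x ∈ X, a * x ∈ X) (l : List ℕ) : ML_P n ζ Φ Ψ r H L c l * X ≤ X := by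
  induction l with
  | nil => rw [ML_P_nil, one_mul]
  | cons e l ih =>
    rw [ML_P_cons, mul_assoc]
    refine Submodule.mul_le.2 fun a ha x hx => ?_
    exact hX a (h.M_le e ha) x (ih hx)

/-- permutations -/
theorem ML_Op.perm (h : ML_Op n r Φ Ψ H L c D B) {X : Submodule O A} (hX : X ≤ D)
    {l l' : List ℕ} (hl : l.Perm l') :
    ML_P n ζ Φ Ψ r H L c l * X ≤ ML_P n ζ Φ Ψ r H L c l' * X ⊔ B := by
  induction hl with
  | nil => exact le_sup_left
  | cons e _ ih =>
    rw [ML_P_cons, ML_P_cons, mul_assoc, mul_assoc]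
    refine Submodule.mul_le.2 fun a ha x hx => ?_
    obtain ⟨y, hy, b, hb, rfl⟩ := Submodule.mem_sup.1 (ih hx)
    rw [mul_add]
    exact Submodule.add_mem_sup (Submodule.mul_mem_mul ha hy) (h.cB a (h.M_le e ha) b hb)
  | swap a b l =>
    rw [ML_P_cons, ML_P_cons, ML_P_cons, ML_P_cons, mul_assoc, mul_assoc, mul_assoc, mul_assoc]
    refine Submodule.mul_le.2 fun u hu x hx => ?_
    refine Submodule.mul_induction_on hx ?_ ?_
    · intro w hw y hy
      have hyD : y ∈ D := h.P_act h.cD l ((mul_le_mul' le_rfl hX) hy)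
      have e : u * (w * y) = w * (u * y) + (u * w - w * u) * y := by noncomm_ring
      rw [e]
      refine Submodule.add_mem_sup (Submodule.mul_mem_mul hw (Submodule.mul_mem_mul hu hy)) ?_
      exact h.comm u (h.M_le _ hu) w (h.M_le _ hw) y hyD
    · intro x y hx hy
      rw [mul_add]
      exact Submodule.add_mem _ hx hy
  | trans _ _ ih1 ih2 => exact ih1.trans (sup_le ih2 le_sup_right)

/-- the last index with a property -/
private theorem ML_last (p : ℕ → Prop) (h0 : p 0) (k : ℕ) (hk : ¬ p k) :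
    ∃ a, p a ∧ ¬ p (a + 1) := by
  by_contra hcon
  push Not at hcon
  exact hk (by
    induction k with
    | zero => exact h0
    | succ k ih =>
      by_cases hp : p k
      · exact hcon k hp
      · exact absurd (ih hp) hp)

private theorem ML_ag_act (r : G →* A) {X : Submodule O A}
    (hX : ∀ g ∈ H, ∀ x ∈ X, r g * x ∈ X) : ag O r H * X ≤ X := by
  refine Submodule.mul_le.2 fun a ha x hx => ?_
  unfold ag at ha
  induction ha using Submodule.span_induction with
  | mem a ha =>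
    obtain ⟨k, hk, rfl⟩ := ha
    rw [sub_mul, one_mul]
    exact Submodule.sub_mem _ (hX k hk x hx) hx
  | zero => rw [zero_mul]; exact Submodule.zero_mem _
  | add a b _ _ h1 h2 => rw [add_mul]; exact Submodule.add_mem _ h1 h2
  | smul c a _ h1 => rw [smul_mul_assoc]; exact Submodule.smul_mem _ c h1

/-- `ag H` is closed under conjugation (not under brackets with `L`) -/
private theorem ML_ag_cl {φ : G →* G} {Φ Ψ : A} {r : G →* A} (heq : ∀ g, Φ * r g * Ψ = r (φ g))
    (hpq : Φ * Ψ = 1) (hH : ∀ g ∈ H, φ g ∈ H) : ML_Cl r Φ Ψ H ⊥ (ag O r H) := by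
  refine ⟨?_, ?_, ?_⟩
  · intro g hg x hx
    unfold ag at hx
    induction hx using Submodule.span_induction with
    | mem a ha =>
      obtain ⟨k, hk, rfl⟩ := ha
      refine Submodule.subset_span ⟨g * k * g⁻¹, H.mul_mem (H.mul_mem hg hk) (H.inv_mem hg), ?_⟩
      rw [mul_sub, sub_mul, mul_one, ML_inv', map_mul, map_mul]
    | zero => rw [mul_zero, zero_mul]; exact Submodule.zero_mem _
    | add a b _ _ h1 h2 => rw [mul_add, add_mul]; exact Submodule.add_mem _ h1 h2
    | smul c a _ h1 => rw [mul_smul_comm, smul_mul_assoc]; exact Submodule.smul_mem _ c h1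
  · intro x hx
    unfold ag at hx
    induction hx using Submodule.span_induction with
    | mem a ha =>
      obtain ⟨k, hk, rfl⟩ := ha
      refine Submodule.subset_span ⟨φ k, hH k hk, ?_⟩
      rw [mul_sub, sub_mul, mul_one, hpq, heq]
    | zero => rw [mul_zero, zero_mul]; exact Submodule.zero_mem _
    | add a b _ _ h1 h2 => rw [mul_add, add_mul]; exact Submodule.add_mem _ h1 h2
    | smul c a _ h1 => rw [mul_smul_comm, smul_mul_assoc]; exact Submodule.smul_mem _ c h1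
  · intro z hz x _
    rw [Submodule.mem_bot] at hz
    rw [hz, zero_mul, mul_zero, sub_zero]
    exact Submodule.zero_mem _

private theorem ML_pow_st (hqp : Ψ * Φ = 1) {L' T X : Submodule O A} (hT : ML_Cl r Φ Ψ H L' T)
    (hX : ML_St r Φ H L' X) (k : ℕ) : ML_St r Φ H L' (T ^ k * X) := by
  induction k with
  | zero => rw [pow_zero, one_mul]; exact hX
  | succ k ih => rw [pow_succ', mul_assoc]; exact ih.mul hqp hT

/-- `L` moves `(ag H)^b * (L^a * D)` into `L^(a+1) * D` -/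
private theorem ML_L_mul (hLg : ∀ g ∈ H, ∀ x ∈ L, r g * x * r g⁻¹ ∈ L)
    {X Y : Submodule O A} (hXY : L * X ≤ Y) (hY : ∀ g ∈ H, ∀ x ∈ Y, r g * x ∈ Y) (b : ℕ) :
    L * ((ag O r H) ^ b * X) ≤ Y := by
  induction b with
  | zero => rw [pow_zero, one_mul]; exact hXY
  | succ b ih =>
    rw [pow_succ', mul_assoc]
    refine Submodule.mul_le.2 fun z hz x hx => ?_
    refine Submodule.mul_induction_on hx ?_ ?_
    · intro a ha y hy
      unfold ag at ha
      induction ha using Submodule.span_induction with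
      | mem a ha =>
        obtain ⟨g, hg, rfl⟩ := ha
        have h1 : r g⁻¹ * z * r g ∈ L := by
          have h2 := hLg g⁻¹ (H.inv_mem hg) z hz
          rwa [inv_inv] at h2
        have e : z * ((r g - 1) * y) = r g * ((r g⁻¹ * z * r g) * y) - z * y := by
          have e1 : r g * ((r g⁻¹ * z * r g) * y) = (r g * r g⁻¹) * (z * (r g * y)) := by
            simp only [mul_assoc]
          rw [e1, ML_inv', one_mul, sub_mul, one_mul, mul_sub]
        rw [e]
        exact Submodule.sub_mem _ (hY g hg _ (ih (Submodule.mul_mem_mul h1 hy)))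
          (ih (Submodule.mul_mem_mul hz hy))
      | zero => rw [zero_mul, mul_zero]; exact Submodule.zero_mem _
      | add a b _ _ h1 h2 => rw [add_mul, mul_add]; exact Submodule.add_mem _ h1 h2
      | smul c a _ h1 => rw [smul_mul_assoc, mul_smul_comm]; exact Submodule.smul_mem _ c h1
    · intro x y hx hy
      rw [mul_add]
      exact Submodule.add_mem _ hx hy

/-- the key claim -/
theorem ML_Op.key (h : ML_Op n r Φ Ψ H L c D B) (hd : Dt n ζ Φ Ψ) {φ : G →* G}
    (heq : ∀ g, Φ * r g * Ψ = r (φ g)) (hH : ∀ g ∈ H, φ g ∈ H)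
    (hag : ∃ K : ℕ, (ag O r H) ^ K = ⊥) (l : List ℕ)
    (hl : ¬ ML_P n ζ Φ Ψ r H L c l * D ≤ B) :
    ∃ (i : ℕ) (v : A), v ∈ D ∧ v ∉ B ∧ ide n ζ Φ i * v = v ∧
      ∀ e ∈ l, ∃ a ∈ c, cmp n ζ Φ Ψ e a * v ∉ B := by
  have hcl := ML_P_cl (n := n) (ζ := ζ) (r := r) (H := H) (L := L) (c := c) hd.pq hd.qp
  obtain ⟨P, hP⟩ : ∃ P, P = ML_P n ζ Φ Ψ r H L c l := ⟨_, rfl⟩
  have hLcl : ML_Cl r Φ Ψ H (⊥ : Submodule O A) L := by
    refine ⟨h.Lg, h.Lp, ?_⟩
    intro z hz x _
    rw [Submodule.mem_bot] at hz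
    rw [hz, zero_mul, mul_zero, sub_zero]
    exact Submodule.zero_mem _
  have hDst : ML_St r Φ H (⊥ : Submodule O A) D := by
    refine ⟨h.sD.g, h.sD.p, ?_⟩
    intro z hz x _
    rw [Submodule.mem_bot] at hz
    rw [hz, zero_mul]
    exact Submodule.zero_mem _
  have hPB : P * B ≤ B := by rw [hP]; exact h.P_act h.cB l
  -- the choice of `a`
  obtain ⟨k, hk⟩ := h.nil
  obtain ⟨a, ha, ha'⟩ := ML_last (fun a => ¬ P * (L ^ a * D) ≤ B)
    (by rw [hP, pow_zero, one_mul]; exact hl) k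
    (not_not.2 ((mul_le_mul' le_rfl hk).trans hPB))
  have ha1 : P * (L ^ (a + 1) * D) ≤ B := not_not.1 ha'
  -- the choice of `b`
  obtain ⟨K, hK⟩ := hag
  obtain ⟨b, hb, hb'⟩ := ML_last (fun b => ¬ P * ((ag O r H) ^ b * (L ^ a * D)) ≤ B)
    (by rw [pow_zero, one_mul]; exact ha) K
    (not_not.2 (by rw [hK, Submodule.bot_mul, Submodule.mul_bot]; exact bot_le))
  have hb1 : P * ((ag O r H) ^ (b + 1) * (L ^ a * D)) ≤ B := not_not.1 hb'
  obtain ⟨D1, hD1⟩ : ∃ D1, D1 = (ag O r H) ^ b * (L ^ a * D) := ⟨_, rfl⟩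
  have hLa : ∀ m, L ^ m * D ≤ D := by
    intro m
    induction m with
    | zero => rw [pow_zero, one_mul]
    | succ m ih =>
      rw [pow_succ', mul_assoc]
      exact Submodule.mul_le.2 fun z hz x hx => h.sD.l z hz x (ih hx)
  have hst1 : ML_St r Φ H (⊥ : Submodule O A) D1 := by
    rw [hD1]
    exact ML_pow_st hd.qp (ML_ag_cl heq hd.pq hH) (ML_pow_st hd.qp hLcl hDst a) b
  have hD1D : D1 ≤ D := by
    have h1 : ∀ m (X : Submodule O A), (∀ g ∈ H, ∀ x ∈ X, r g * x ∈ X) →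
        (ag O r H) ^ m * X ≤ X := by
      intro m X hX
      induction m with
      | zero => rw [pow_zero, one_mul]
      | succ m ih =>
        rw [pow_succ', mul_assoc]
        exact (mul_le_mul' le_rfl ih).trans (ML_ag_act r hX)
    rw [hD1]
    exact (h1 b _ (ML_pow_st hd.qp hLcl hDst a).g).trans (hLa a)
  -- killing properties
  have hkg : ∀ p ∈ P, ∀ g ∈ H, ∀ x ∈ D1, p * ((r g - 1) * x) ∈ B := by
    intro p hp g hg x hx
    refine hb1 (Submodule.mul_mem_mul hp ?_)
    rw [pow_succ', mul_assoc, ← hD1]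
    exact Submodule.mul_mem_mul (Submodule.subset_span ⟨g, hg, rfl⟩) hx
  have hkl : ∀ p ∈ P, ∀ z ∈ L, ∀ x ∈ D1, p * (z * x) ∈ B := by
    intro p hp z hz x hx
    refine ha1 (Submodule.mul_mem_mul hp ?_)
    rw [hD1] at hx
    refine ML_L_mul h.Lg (X := L ^ a * D) (Y := L ^ (a + 1) * D) ?_
      (ML_pow_st hd.qp hLcl hDst (a + 1)).g b (Submodule.mul_mem_mul hz hx)
    rw [pow_succ', mul_assoc]
  -- the vector
  rw [← hD1] at hb
  obtain ⟨p, hp, x, hx, hpx⟩ : ∃ p ∈ P, ∃ x ∈ D1, p * x ∉ B := by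
    by_contra hcon
    push Not at hcon
    exact hb (Submodule.mul_le.2 hcon)
  obtain ⟨i, hi⟩ : ∃ i, p * (ide n ζ Φ i * x) ∉ B := by
    by_contra hcon
    push Not at hcon
    refine hpx ?_
    rw [ide_dec hd x, Finset.mul_sum]
    exact Submodule.sum_mem _ fun i _ => hcon i
  obtain ⟨v, hv⟩ : ∃ v, v = ide n ζ Φ i * x := ⟨_, rfl⟩
  rw [← hv] at hi
  have hvD1 : v ∈ D1 := by rw [hv]; exact ide_stab hst1.p i x hx
  have hvD : v ∈ D := hD1D hvD1
  have hvv : ide n ζ Φ i * v = v := by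
    rw [hv, ← mul_assoc, ide_mul hd, if_pos rfl]
  have hΦv : Φ * v = ζ ^ i • v := by
    rw [← hvv, ← mul_assoc, ide_phi hd, smul_mul_assoc]
  have hΦk : ∀ m, Φ ^ m * v = (ζ ^ i) ^ m • v := by
    intro m
    induction m with
    | zero => simp
    | succ m ih => rw [pow_succ', mul_assoc, ih, mul_smul_comm, hΦv, smul_smul, ← pow_succ]
  have hΨv : Ψ * v = (ζ ^ i) ^ (n - 1) • v := by
    rw [hd.psi, hΦk]
  refine ⟨i, v, hvD, ?_, hvv, ?_⟩
  · intro hvB
    exact hi (hPB (Submodule.mul_mem_mul hp hvB))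
  · intro e he
    by_contra hcon
    push Not at hcon
    obtain ⟨F, hF⟩ : ∃ F, F = ML_P n ζ Φ Ψ r H L c (l.erase e) := ⟨_, rfl⟩
    have hFcl : ML_Cl r Φ Ψ H L F := by rw [hF]; exact hcl _
    obtain ⟨M, hM⟩ : ∃ M, M = ML_M n ζ Φ Ψ r H L c e := ⟨_, rfl⟩
    have hFB : F * B ≤ B := by rw [hF]; exact h.P_act h.cB _
    have hperm : (l.erase e ++ [e]).Perm l :=
      (List.perm_append_singleton e (l.erase e)).trans (List.perm_cons_erase he).symm
    have hFM : ML_P n ζ Φ Ψ r H L c (l.erase e ++ [e]) = F * M := by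
      rw [hF, hM]
      unfold ML_P
      simp
    -- `F M X` is contained in `P X` modulo `B`
    have hswap : ∀ X : Submodule O A, X ≤ D → P * X ≤ B → ∀ f ∈ F, ∀ m ∈ M, ∀ x ∈ X,
        f * (m * x) ∈ B := by
      intro X hX hPX f hf m hm x hx
      have h1 := h.perm (ζ := ζ) hX hperm
      rw [hFM, ← hP] at h1
      have h2 := h1 (Submodule.mul_mem_mul (Submodule.mul_mem_mul hf hm) hx)
      rw [mul_assoc] at h2
      exact (sup_le hPX le_rfl) h2
    have hspan : ∀ y ∈ D, (∀ p ∈ P, p * y ∈ B) → ∀ f ∈ F, ∀ m ∈ M, f * (m * y) ∈ B := by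
      intro y hy hpy f hf m hm
      refine hswap (Submodule.span O {y}) ?_ ?_ f hf m hm y (Submodule.mem_span_singleton_self y)
      · rw [Submodule.span_singleton_le_iff_mem]
        exact hy
      · refine Submodule.mul_le.2 fun p hp x hx => ?_
        obtain ⟨o, rfl⟩ := Submodule.mem_span_singleton.1 hx
        rw [mul_smul_comm]
        exact Submodule.smul_mem _ _ (hpy p hp)
    let T : Submodule O A :=
      { carrier := {x | x ∈ M ∧ ∀ f ∈ F, f * (x * v) ∈ B}
        add_mem' := by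
          rintro a b ⟨ha1, ha2⟩ ⟨hb1, hb2⟩
          refine ⟨Submodule.add_mem _ ha1 hb1, fun f hf => ?_⟩
          rw [add_mul, mul_add]
          exact Submodule.add_mem _ (ha2 f hf) (hb2 f hf)
        zero_mem' := by
          refine ⟨Submodule.zero_mem _, fun f _ => ?_⟩
          rw [zero_mul, mul_zero]
          exact Submodule.zero_mem _
        smul_mem' := by
          rintro o a ⟨ha1, ha2⟩
          refine ⟨Submodule.smul_mem _ _ ha1, fun f hf => ?_⟩
          rw [smul_mul_assoc, mul_smul_comm]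
          exact Submodule.smul_mem _ _ (ha2 f hf) }
    have hMcl : ML_Cl r Φ Ψ H L M := by rw [hM]; exact ML_M_cl e
    have hMT : M ≤ T := by
      have h1 : ML_M n ζ Φ Ψ r H L c e ≤ T := by
        refine ML_M_le e ?_ ⟨?_, ?_, ?_⟩
        · intro a ha
          refine ⟨by rw [hM]; exact ML_M_cmp e ha, fun f hf => ?_⟩
          exact hFB (Submodule.mul_mem_mul hf (hcon a ha))
        · rintro g hg x ⟨hx1, hx2⟩
          refine ⟨hMcl.g g hg x hx1, fun f hf => ?_⟩
          have hf' : r g⁻¹ * f * r g ∈ F := by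
            have h2 := hFcl.g g⁻¹ (H.inv_mem hg) f hf
            rwa [inv_inv] at h2
          have hgv : (r g⁻¹ - 1) * v ∈ D := by
            rw [sub_mul, one_mul]
            exact Submodule.sub_mem _ (h.sD.g g⁻¹ (H.inv_mem hg) v hvD) hvD
          have e1 : f * (r g * x * r g⁻¹ * v) = r g * ((r g⁻¹ * f * r g) * (x * v) +
              (r g⁻¹ * f * r g) * (x * ((r g⁻¹ - 1) * v))) := by
            have e2 : (r g⁻¹ * f * r g) * (x * v) +
                (r g⁻¹ * f * r g) * (x * ((r g⁻¹ - 1) * v)) =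
                r g⁻¹ * (f * (r g * (x * (r g⁻¹ * v)))) := by
              noncomm_ring
            rw [e2, ← mul_assoc (r g), ML_inv', one_mul]
            simp only [mul_assoc]
          rw [e1]
          refine h.sB.g g hg _ (Submodule.add_mem _ (hx2 _ hf') ?_)
          exact hspan _ hgv (fun p hp => hkg p hp g⁻¹ (H.inv_mem hg) v hvD1) _ hf' x hx1
        · rintro x ⟨hx1, hx2⟩
          refine ⟨hMcl.p x hx1, fun f hf => ?_⟩
          have hf' : Ψ * f * Φ ∈ F := ML_Cl.psi hd hFcl.p f hf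
          have e1 : f * (Φ * x * Ψ * v) = Φ * ((Ψ * f * Φ) * (x * (Ψ * v))) := by
            have e2 : Φ * ((Ψ * f * Φ) * (x * (Ψ * v))) =
                (Φ * Ψ) * (f * (Φ * (x * (Ψ * v)))) := by
              simp only [mul_assoc]
            rw [e2, hd.pq, one_mul]
            simp only [mul_assoc]
          rw [e1, hΨv, mul_smul_comm, mul_smul_comm, mul_smul_comm]
          exact Submodule.smul_mem _ _ (h.sB.p _ (hx2 _ hf'))
        · rintro z hz x ⟨hx1, hx2⟩
          refine ⟨hMcl.l z hz x hx1, fun f hf => ?_⟩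
          have e1 : f * ((z * x - x * z) * v) = z * (f * (x * v)) - (z * f - f * z) * (x * v) -
              f * (x * (z * v)) := by
            noncomm_ring
          rw [e1]
          refine Submodule.sub_mem _ (Submodule.sub_mem _ (h.sB.l z hz _ (hx2 f hf))
            (hx2 _ (hFcl.l z hz f hf))) ?_
          exact hspan _ (h.sD.l z hz v hvD) (fun p hp => hkl p hp z hz v hvD1) f hf x hx1
      rw [hM]
      exact h1
    -- contradiction
    have h1 := h.perm (ζ := ζ) (X := Submodule.span O {v})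
      (by rw [Submodule.span_singleton_le_iff_mem]; exact hvD) hperm.symm
    rw [hFM, ← hP] at h1
    have h2 := h1 (Submodule.mul_mem_mul hp (Submodule.mem_span_singleton_self v))
    have h3 : F * M * Submodule.span O {v} ≤ B := by
      rw [mul_assoc]
      refine Submodule.mul_le.2 fun f hf y hy => ?_
      refine Submodule.mul_induction_on hy ?_ ?_
      · intro m hm w hw
        obtain ⟨o, rfl⟩ := Submodule.mem_span_singleton.1 hw
        rw [mul_smul_comm, mul_smul_comm]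
        exact Submodule.smul_mem _ _ ((hMT hm).2 f hf)
      · intro x y hx hy
        rw [mul_add]
        exact Submodule.add_mem _ hx hy
    exact hi (sup_le h3 le_rfl h2)

theorem ML_cmp_congr (hd : Dt n ζ Φ Ψ) {i j : ℕ} (hij : i % n = j % n) (a : A) :
    cmp n ζ Φ Ψ i a = cmp n ζ Φ Ψ j a := by
  unfold ThR.cmp
  congr 1
  refine Finset.sum_congr rfl fun k _ => ?_
  congr 1
  apply zpow_congr hd.prim
  have h1 : (n - 1) * i * k = (n - 1) * k * i := by ring
  have h2 : (n - 1) * j * k = (n - 1) * k * j := by ring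
  rw [h1, h2, Nat.mul_mod, hij, ← Nat.mul_mod]

/-- alive sets of degrees are small -/
theorem ML_Op.card (h : ML_Op n r Φ Ψ H L c D B) (hd : Dt n ζ Φ Ψ) {φ : G →* G}
    (heq : ∀ g, Φ * r g * Ψ = r (φ g)) (hH : ∀ g ∈ H, φ g ∈ H)
    (hag : ∃ K : ℕ, (ag O r H) ^ K = ⊥) {S : Set (ZMod n)} (hS : Sup n ζ Φ S) (E : Finset ℕ)
    (hE : E ⊆ Finset.Ico 1 n) (hl : ¬ ML_P n ζ Φ Ψ r H L c E.toList * D ≤ B) :
    E.card + 1 ≤ S.ncard := by
  obtain ⟨i, v, hvD, hvB, hiv, hev⟩ := h.key hd heq hH hag _ hl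
  have hn := hd.prim.pos
  have : NeZero n := ⟨by omega⟩
  have h0 : ∀ e ∈ insert 0 E, ((i + e : ℕ) : ZMod n) ∈ S := by
    intro e he
    by_contra hcon
    have h1 := hS _ hcon
    rcases Finset.mem_insert.1 he with rfl | he
    · rw [add_zero] at h1
      rw [h1, zero_mul] at hiv
      exact hvB (by rw [← hiv]; exact Submodule.zero_mem _)
    · obtain ⟨a, ha, hav⟩ := hev e (Finset.mem_toList.2 he)
      have h2 := (cmp_hm hd e a).ide hd i
      rw [h1, zero_mul] at h2
      refine hav ?_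
      rw [← hiv, ← mul_assoc, h2, zero_mul]
      exact Submodule.zero_mem _
  have h1 : (insert 0 E).card = E.card + 1 := by
    refine Finset.card_insert_of_notMem fun h0 => ?_
    have := Finset.mem_Ico.1 (hE h0)
    omega
  have h2 : ((insert 0 E).image fun e : ℕ => ((i + e : ℕ) : ZMod n)).card = (insert 0 E).card := by
    refine Finset.card_image_of_injOn ?_
    have hlt : ∀ e ∈ insert 0 E, e < n := by
      intro e he
      rcases Finset.mem_insert.1 he with rfl | he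
      · exact hn
      · exact (Finset.mem_Ico.1 (hE he)).2
    intro e he e' he' hee
    have h3 : ((i + e : ℕ) : ZMod n) = ((i + e' : ℕ) : ZMod n) := hee
    rw [ZMod.natCast_eq_natCast_iff] at h3
    have h4 : e ≡ e' [MOD n] := Nat.ModEq.add_left_cancel' i h3
    exact Nat.ModEq.eq_of_lt_of_lt h4 (hlt e he) (hlt e' he')
  rw [← h1, ← h2, ← Set.ncard_coe_finset]
  refine Set.ncard_le_ncard ?_ (Set.toFinite S)
  intro x hx
  rw [Finset.mem_coe, Finset.mem_image] at hx
  obtain ⟨e, he, rfl⟩ := hx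
  exact h0 e he

theorem ML_Op.U_st (h : ML_Op n r Φ Ψ H L c D B) (hd : Dt n ζ Φ Ψ) (k : ℕ) :
    ML_St r Φ H L (ML_U n ζ Φ Ψ r H L c D B k) :=
  h.sB.sup (ML_St.iSup fun _ => ML_St.mul hd.qp (ML_P_cl hd.pq hd.qp _) h.sD)

theorem ML_U_le {E : Finset ℕ} {k : ℕ} (hE : E ⊆ Finset.Ico 1 n) (hk : k ≤ E.card) :
    ML_P n ζ Φ Ψ r H L c E.toList * D ≤ ML_U n ζ Φ Ψ r H L c D B k :=
  le_sup_of_le_right (le_iSup (fun E : {E : Finset ℕ // E ⊆ Finset.Ico 1 n ∧ k ≤ E.card} =>
    ML_P n ζ Φ Ψ r H L c E.1.toList * D) ⟨E, hE, hk⟩)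

theorem ML_Op.U_zero (h : ML_Op n r Φ Ψ H L c D B) : ML_U n ζ Φ Ψ r H L c D B 0 = D := by
  apply le_antisymm
  · exact sup_le h.le (iSup_le fun _ => h.P_act h.cD _)
  · have h1 := ML_U_le (ζ := ζ) (Φ := Φ) (Ψ := Ψ) (r := r) (H := H) (L := L) (c := c) (D := D)
      (B := B) (E := ∅) (k := 0) (Finset.empty_subset (Finset.Ico 1 n)) (Nat.zero_le _)
    rwa [Finset.toList_empty, ML_P_nil, one_mul] at h1

theorem ML_U_succ (k : ℕ) : ML_U n ζ Φ Ψ r H L c D B (k + 1) ≤ ML_U n ζ Φ Ψ r H L c D B k :=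
  sup_le le_sup_left (iSup_le fun E => ML_U_le E.2.1 ((Nat.le_succ k).trans E.2.2))

theorem ML_U_top (hn : 0 < n) : ML_U n ζ Φ Ψ r H L c D B n ≤ B := by
  refine sup_le le_rfl (iSup_le fun E => ?_)
  have h1 := Finset.card_le_card E.2.1
  have h2 := E.2.2
  rw [Nat.card_Ico] at h1
  omega

/-- `derG s ⊤` acts trivially on `c` on every layer -/
theorem ML_Op.layer {φ : G →* G} {s m : ℕ} (hT : TT n s m) (hG : Ph n G φ)
    (hr : GRep n φ ζ Φ Ψ r) {S : Set (ZMod n)} (hS : Sup n ζ Φ S) (hm : S.ncard ≤ m + 1)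
    (h : ML_Op n r Φ Ψ (⊤ : Subgroup G) L c D B) (k : ℕ) :
    ∀ g ∈ derG s (⊤ : Subgroup G), ∀ a ∈ c, ∀ v ∈ ML_U n ζ Φ Ψ r ⊤ L c D B k,
      (r g * a * r g⁻¹ - a) * v ∈ ML_U n ζ Φ Ψ r ⊤ L c D B (k + 1) := by
  have hd := hr.dt
  have hn := hd.prim.pos
  have hag : ∃ K : ℕ, (ag O r (⊤ : Subgroup G)) ^ K = ⊥ := by
    obtain ⟨K, hK⟩ := hr.nil
    refine ⟨K, le_bot_iff.1 ?_⟩
    rw [← hK]
    refine pow_le_pow_left' ?_ K
    unfold ag aug
    refine Submodule.span_mono ?_
    rintro _ ⟨g, _, rfl⟩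
    exact ⟨g, rfl⟩
  obtain ⟨U, hU⟩ : ∃ U, U = ML_U n ζ Φ Ψ r ⊤ L c D B (k + 1) := ⟨_, rfl⟩
  have hUst : ML_St r Φ ⊤ L U := by rw [hU]; exact h.U_st hd _
  have hBU : B ≤ U := by rw [hU]; exact le_sup_left
  intro g hg a ha v hv
  rw [← hU]
  have hga : r g * a * r g⁻¹ - a ∈ c :=
    Submodule.sub_mem _ (h.cc.g g (Subgroup.mem_top g) a ha) ha
  -- the claim for one set `E`
  have key : ∀ E : {E : Finset ℕ // E ⊆ Finset.Ico 1 n ∧ k ≤ E.card},
      ∀ v ∈ ML_P n ζ Φ Ψ r ⊤ L c E.1.toList * D, (r g * a * r g⁻¹ - a) * v ∈ U := by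
    rintro ⟨E, hE, hk⟩ v hv
    by_cases hl : ML_P n ζ Φ Ψ r ⊤ L c E.toList * D ≤ B
    · exact hBU (h.cB _ hga _ (hl hv))
    · have hcard := h.card hd hr.eq (fun g _ => Subgroup.mem_top _) hag hS E hE hl
      obtain ⟨W, hW⟩ : ∃ W, W = ML_P n ζ Φ Ψ r ⊤ L c E.toList * D := ⟨_, rfl⟩
      have hWst : ML_St r Φ ⊤ L W := by
        rw [hW]
        exact ML_St.mul hd.qp (ML_P_cl hd.pq hd.qp _) h.sD
      rw [← hW] at hv
      let Ann : Submodule O A :=
        { carrier := {x | x ∈ c ∧ ∀ y ∈ W, x * y ∈ U}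
          add_mem' := by
            rintro x y ⟨hx1, hx2⟩ ⟨hy1, hy2⟩
            refine ⟨Submodule.add_mem _ hx1 hy1, fun z hz => ?_⟩
            rw [add_mul]
            exact Submodule.add_mem _ (hx2 z hz) (hy2 z hz)
          zero_mem' := by
            refine ⟨Submodule.zero_mem _, fun z _ => ?_⟩
            rw [zero_mul]
            exact Submodule.zero_mem _
          smul_mem' := by
            rintro o x ⟨hx1, hx2⟩
            refine ⟨Submodule.smul_mem _ _ hx1, fun z hz => ?_⟩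
            rw [smul_mul_assoc]
            exact Submodule.smul_mem _ _ (hx2 z hz) }
      have hAnng : ∀ g : G, ∀ x ∈ Ann, r g * x * r g⁻¹ ∈ Ann := by
        rintro g x ⟨hx1, hx2⟩
        refine ⟨h.cc.g g (Subgroup.mem_top g) x hx1, fun y hy => ?_⟩
        have e : r g * x * r g⁻¹ * y = r g * (x * (r g⁻¹ * y)) := by simp only [mul_assoc]
        rw [e]
        exact hUst.g g (Subgroup.mem_top g) _ (hx2 _ (hWst.g g⁻¹ (Subgroup.mem_top _) y hy))
      have hAnnp : ∀ x ∈ Ann, Φ * x * Ψ ∈ Ann := by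
        rintro x ⟨hx1, hx2⟩
        refine ⟨h.cc.p x hx1, fun y hy => ?_⟩
        have e : Φ * x * Ψ * y = Φ * (x * (Ψ * y)) := by simp only [mul_assoc]
        rw [e]
        exact hUst.p _ (hx2 _ (ML_St.psi hd hWst.p y hy))
      have hS' : ((E.image fun e : ℕ => (e : ZMod n) : Finset (ZMod n)) : Set (ZMod n)).ncard ≤
          m := by
        rw [Set.ncard_coe_finset]
        have := Finset.card_image_le (s := E) (f := fun e : ℕ => (e : ZMod n))
        omega
      have hcmp : ∀ i : ℕ, (i : ZMod n) ∉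
          ((E.image fun e : ℕ => (e : ZMod n) : Finset (ZMod n)) : Set (ZMod n)) →
          ∀ x ∈ c, cmp n ζ Φ Ψ i x ∈ Ann := by
        intro i hi x hx
        refine ⟨cmp_mem c h.cc.p hx i, fun y hy => ?_⟩
        rw [ML_cmp_congr hd (Nat.mod_mod i n).symm x]
        by_cases h0 : i % n = 0
        · rw [h0, cmp_zero, h.tr x hx, smul_zero, zero_mul]
          exact Submodule.zero_mem _
        · have hin : i % n ∉ E := by
            intro hin
            refine hi ?_
            rw [Finset.mem_coe, Finset.mem_image]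
            exact ⟨i % n, hin, ZMod.natCast_mod i n⟩
          have hins : insert (i % n) E ⊆ Finset.Ico 1 n :=
            Finset.insert_subset (Finset.mem_Ico.2 ⟨Nat.pos_of_ne_zero h0, Nat.mod_lt _ hn⟩) hE
          have h1 : ML_M n ζ Φ Ψ r ⊤ L c (i % n) * W ≤ U := by
            have h2 := h.perm (ζ := ζ) (X := D) le_rfl (Finset.toList_insert hin).symm
            rw [ML_P_cons, mul_assoc, ← hW] at h2
            refine h2.trans (sup_le ?_ hBU)
            rw [hU]
            refine ML_U_le hins ?_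
            rw [Finset.card_insert_of_notMem hin]
            omega
          exact h1 (Submodule.mul_mem_mul (ML_M_cmp _ hx) hy)
      have h3 := relT (hT _ hS') hG hr 0 Ann c (fun g _ => h.cc.g g (Subgroup.mem_top g))
        (fun g _ => hAnng g) h.cc.p hAnnp hcmp g (by rwa [zero_add]) a ha
      exact h3.2 v hv
  unfold ML_U at hv
  obtain ⟨b, hb, w, hw, rfl⟩ := Submodule.mem_sup.1 hv
  rw [mul_add]
  refine Submodule.add_mem _ (hBU (h.cB _ hga b hb)) ?_
  refine Submodule.iSup_induction _ (motive := fun w => (r g * a * r g⁻¹ - a) * w ∈ U) hw ?_ ?_ ?_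
  · exact fun E y hy => key E y hy
  · rw [mul_zero]
    exact Submodule.zero_mem _
  · intro x y hx hy
    rw [mul_add]
    exact Submodule.add_mem _ hx hy

end main

theorem ml (n : ℕ) : ∃ M : ℕ, 0 < M ∧ ∀ (s k : ℕ), TT n s k → ∀ S : Set (ZMod n),
    S.ncard ≤ k + 1 → ∀ (G : Type) [Group G] (φ : G →* G), Ph n G φ →
    ∀ (O A : Type) [CommRing O] [Ring A] [Algebra O A] (ζ : O) (Φ Ψ : A) (r : G →* A),
    GRep n φ ζ Φ Ψ r → Sup n ζ Φ S →
    ∀ L c : Submodule O A, Cj r Φ Ψ L → Cj r Φ Ψ c → c ≤ L →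
    (∀ y ∈ L, ∀ x ∈ c, y * x - x * y ∈ c) → Tr0 n Φ Ψ c →
    ∀ D B : Submodule O A, Lay r Φ L D B → Cm c D B → (∃ m : ℕ, L ^ m * D ≤ B) →
    ∀ (X : Submodule O A) (m : ℕ),
    (∀ D' B' : Submodule O A, D' ≤ D → B ≤ B' → Lay r Φ L D' B' →
      (∀ g ∈ derG s (⊤ : Subgroup G), ∀ x ∈ c, ∀ v ∈ D', (r g * x * r g⁻¹ - x) * v ∈ B') →
      X ^ m * D' ≤ B') →
    X ^ (m * M) * D ≤ B := by
  refine ⟨n + 1, Nat.succ_pos n, ?_⟩
  intro s k hT S hS G _ φ hG O A _ _ _ ζ Φ Ψ r hr hSup L c hL hc hcL hLc hTr D B hlay hcm hnil X m hX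
  have hd := hr.dt
  have hn := hd.prim.pos
  have h : ML_Op n r Φ Ψ (⊤ : Subgroup G) L c D B :=
    { le := hlay.le
      sD := ⟨fun g _ => hlay.sD.g g, hlay.sD.p, hlay.lD⟩
      sB := ⟨fun g _ => hlay.sB.g g, hlay.sB.p, hlay.lB⟩
      Lg := fun g _ => hL.g g
      Lp := hL.p
      nil := hnil
      cc := ⟨fun g _ => hc.g g, hc.p, hLc⟩
      cD := fun a ha => hlay.lD a (hcL ha)
      cB := fun a ha => hlay.lB a (hcL ha)
      comm := hcm
      tr := hTr }
  have hstep : ∀ j, X ^ m * ML_U n ζ Φ Ψ r ⊤ L c D B j ≤ ML_U n ζ Φ Ψ r ⊤ L c D B (j + 1) := by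
    intro j
    have h1 := h.U_st hd (ζ := ζ) j
    have h2 := h.U_st hd (ζ := ζ) (j + 1)
    refine hX _ _ ?_ le_sup_left ⟨ML_U_succ j, ⟨fun g => h1.g g (Subgroup.mem_top g), h1.p⟩,
      ⟨fun g => h2.g g (Subgroup.mem_top g), h2.p⟩, h1.l, h2.l⟩ (h.layer hT hG hr hSup hS j)
    exact sup_le h.le (iSup_le fun _ => h.P_act h.cD _)
  have hit : ∀ j, X ^ (m * j) * D ≤ ML_U n ζ Φ Ψ r ⊤ L c D B j := by
    intro j
    induction j with
    | zero => rw [mul_zero, pow_zero, one_mul, h.U_zero]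
    | succ j ih =>
      have e : m * (j + 1) = m + m * j := by ring
      rw [e, pow_add, mul_assoc]
      exact (mul_le_mul' le_rfl ih).trans (hstep j)
  exact (hit (n + 1)).trans ((ML_U_succ n).trans (ML_U_top hn))

end Pool.Agent.FT
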