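import Pool.Agent.FT.Defs
import Pool.Agent.LgP.Gen
import Pool.Agent.LgP.Main

/-!
# Basic facts on `Ph`
-/

set_option autoImplicit false

open scoped commutatorElement

namespace Pool.Agent.FT

open Pool.Agent.LgP Pool.Agent.ThR

variable {G : Type} [Group G] {n : ℕ} {φ : G →* G}

theorem Ph.split (h : Ph n G φ) : Split n φ := by
  have := h.fin
  exact split_of_fpf n φ h.per h.fix

theorem Ph.inj (h : Ph n G φ) : Function.Injective (fun g : G => g⁻¹ * φ g) := by
  intro a b hab
  have h1 : a⁻¹ * φ a = b⁻¹ * φ b := hab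
  have h2 : φ (b * a⁻¹) = b * a⁻¹ := by
    rw [map_mul, map_inv]
    have h3 : φ b = b * (a⁻¹ * φ a) := by rw [h1]; group
    rw [h3]
    group
  have h4 := h.fix _ h2
  exact (mul_inv_eq_one.1 h4).symm

theorem Ph.surj (h : Ph n G φ) (t : G) : ∃ s : G, t = s⁻¹ * φ s := by
  have := h.fin
  obtain ⟨g, hg⟩ := (Finite.injective_iff_surjective.1 h.inj) t
  exact ⟨g, hg.symm⟩

theorem res_apply (φ : G →* G) (H : Subgroup G) (hH : ∀ g ∈ H, φ g ∈ H) (g : H) :
    ((res φ H hH g : H) : G) = φ g := rfl

theorem res_iter (φ : G →* G) (H : Subgroup G) (hH : ∀ g ∈ H, φ g ∈ H) (j : ℕ) (g : H) :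
    (((⇑(res φ H hH))^[j] g : H) : G) = (⇑φ)^[j] (g : G) := by
  induction j with
  | zero => rfl
  | succ j ih => rw [Function.iterate_succ_apply', Function.iterate_succ_apply', res_apply, ih]

theorem Ph.sub (h : Ph n G φ) (H : Subgroup G) (hH : ∀ g ∈ H, φ g ∈ H) :
    Ph n H (res φ H hH) := by
  have := h.fin
  have := h.nil
  refine ⟨h.pos, inferInstance, inferInstance, ?_, ?_, ?_⟩
  · exact Nat.Coprime.coprime_dvd_right (Subgroup.card_subgroup_dvd_card H) h.co
  · intro g
    apply Subtype.ext
    rw [res_iter]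
    exact h.per g
  · intro g hg
    apply Subtype.ext
    apply h.fix
    rw [← res_apply φ H hH g, hg]

theorem quot_iter (φ : G →* G) (N : Subgroup G) [N.Normal] (hN : N ≤ N.comap φ) (j : ℕ) (g : G) :
    (⇑(QuotientGroup.map N N φ hN))^[j] (g : G ⧸ N) = (((⇑φ)^[j] g : G) : G ⧸ N) := by
  induction j with
  | zero => rfl
  | succ j ih => rw [Function.iterate_succ_apply', ih, Function.iterate_succ_apply']; rfl

theorem list_pow (g : G) (j : ℕ) : ((List.range j).map fun _ => g).prod = g ^ j := by
  rw [List.map_const', List.prod_replicate, List.length_range]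

theorem Ph.quot (h : Ph n G φ) (N : Subgroup G) [N.Normal] (hN : N ≤ N.comap φ) :
    Ph n (G ⧸ N) (QuotientGroup.map N N φ hN) := by
  have := h.fin
  have := h.nil
  have hco : Nat.Coprime n (Nat.card (G ⧸ N)) :=
    Nat.Coprime.coprime_dvd_right (Subgroup.card_quotient_dvd_card _) h.co
  refine ⟨h.pos, inferInstance, inferInstance, hco, ?_, ?_⟩
  · intro g
    obtain ⟨g, rfl⟩ := QuotientGroup.mk_surjective g
    have := quot_iter φ N hN n g
    rw [h.per] at this
    exact this
  · intro g hg
    have h1 : ∀ j : ℕ, (⇑(QuotientGroup.map N N φ hN))^[j] g = g := by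
      intro j
      induction j with
      | zero => rfl
      | succ j ih => rw [Function.iterate_succ_apply', ih, hg]
    have h2 : Split n (QuotientGroup.map N N φ hN) := by
      intro x
      obtain ⟨x, rfl⟩ := QuotientGroup.mk_surjective x
      have h3 := h.split x
      have h4 : ((List.range n).map fun j => (⇑(QuotientGroup.map N N φ hN))^[j] (x : G ⧸ N)) =
          (((List.range n).map fun j => (⇑φ)^[j] x).map (QuotientGroup.mk' N)) := by
        rw [List.map_map]
        refine List.map_congr_left fun j _ => ?_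
        exact quot_iter φ N hN j x
      have h5 : ((((List.range n).map fun j => (⇑φ)^[j] x).map (QuotientGroup.mk' N)).prod) = 1 := by
        rw [← map_list_prod, h3, map_one]
      rw [← h4] at h5
      exact h5
    have h3 := h2 g
    have h4 : (List.range n).map (fun j => (⇑(QuotientGroup.map N N φ hN))^[j] g) =
        (List.range n).map fun _ => g := List.map_congr_left fun j _ => h1 j
    rw [h4, list_pow] at h3
    have h5 : orderOf g ∣ n := orderOf_dvd_of_pow_eq_one h3
    have h6 : orderOf g ∣ Nat.card (G ⧸ N) := orderOf_dvd_natCard g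
    have h7 : orderOf g ∣ 1 := by
      rw [← Nat.Coprime.gcd_eq_one hco]
      exact Nat.dvd_gcd h5 h6
    exact orderOf_eq_one_iff.1 (Nat.dvd_one.1 h7)

/-- derived groups of an invariant subgroup, inside the big group -/
theorem derG_sub (H : Subgroup G) (s : ℕ) :
    (derG s (⊤ : Subgroup H)).map H.subtype = derG s H := by
  rw [derG_map', ← MonoidHom.range_eq_map, Subgroup.range_subtype]

theorem Tn.mono {s s' : ℕ} {S S' : Set (ZMod n)} (h : Tn n s S) (hs : s ≤ s') (hS : S' ⊆ S) :
    Tn n s' S' := by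
  intro G _ φ hG
  obtain ⟨j, rfl⟩ := Nat.exists_eq_add_of_le hs
  exact ((h G φ hG).anti hS).sub (derG_top_le _ _)

theorem TT.mono {s s' k k' : ℕ} (h : TT n s k) (hs : s ≤ s') (hk : k' ≤ k) : TT n s' k' :=
  fun S hS => (h S (hS.trans hk)).mono hs le_rfl

end Pool.Agent.FT
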