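import Pool.Agent.FT.Base

/-!
# XsC: the spaces `[U, N]` and commutators of subgroups (helper file for ClaimAux)

`Xs r U N` is the span of the `r g * x * r g⁻¹ - x`, `x ∈ U`, `g ∈ N`. Main facts: `[U, ⁅N, N⁆] ≤ [[U, N], N]` and
step (v) of `Claim`.
-/

set_option autoImplicit false

open scoped commutatorElement

namespace Pool.Agent.FT.XsC

open Pool.Agent.LgP Pool.Agent.ThR Pool.Agent.FT

variable {O A G : Type} [CommRing O] [Ring A] [Algebra O A] [Group G] {n : ℕ} {φ : G →* G}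
  {ζ : O} {Φ Ψ : A} {r : G →* A}

theorem Xs_gen {U : Submodule O A} {N : Subgroup G} {x : A} (hx : x ∈ U) {g : G} (hg : g ∈ N) :
    r g * x * r g⁻¹ - x ∈ Xs r U N := Submodule.subset_span ⟨x, hx, g, hg, rfl⟩

theorem Xs_le_iff {U T : Submodule O A} {N : Subgroup G}
    (h : ∀ x ∈ U, ∀ g ∈ N, r g * x * r g⁻¹ - x ∈ T) : Xs r U N ≤ T := by
  unfold Xs
  rw [Submodule.span_le]
  rintro _ ⟨x, hx, g, hg, rfl⟩
  exact h x hx g hg

theorem Xs_mono {c c' : Submodule O A} {N N' : Subgroup G} (hc : c ≤ c') (hN : N ≤ N') :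
    Xs r c N ≤ Xs r c' N' :=
  Xs_le_iff fun _ hx _ hg => Xs_gen (hc hx) (hN hg)

theorem Xs_le {c : Submodule O A} (hc : Cj r Φ Ψ c) (N : Subgroup G) : Xs r c N ≤ c :=
  Xs_le_iff fun _ hx g _ => c.sub_mem (hc.g g _ hx) hx

theorem r_inv (r : G →* A) (g : G) : r g⁻¹ * r g = 1 := by
  rw [← map_mul, inv_mul_cancel, map_one]

theorem r_inv' (r : G →* A) (g : G) : r g * r g⁻¹ = 1 := by
  rw [← map_mul, mul_inv_cancel, map_one]

theorem conj_conj (r : G →* A) (a b : G) (x : A) :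
    r a * (r b * x * r b⁻¹) * r a⁻¹ = r (a * b) * x * r (a * b)⁻¹ := by
  rw [mul_inv_rev, map_mul, map_mul]
  simp only [mul_assoc]

/-- `[U, ⁅N, N⁆] ≤ [[U, N], N]` -/
theorem Xs_comm {U : Submodule O A} (hU : Cj r Φ Ψ U) (N : Subgroup G) :
    Xs r U ⁅N, N⁆ ≤ Xs r (Xs r U N) N := by
  let T := Xs r (Xs r U N) N
  let Y : Subgroup G :=
    { carrier := {c | ∀ x ∈ U, r c * x * r c⁻¹ - x ∈ T}
      mul_mem' := by
        intro a b ha hb x hx
        have hx' := hU.g b x hx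
        have e : r (a * b) * x * r (a * b)⁻¹ - x =
            (r a * (r b * x * r b⁻¹) * r a⁻¹ - r b * x * r b⁻¹) + (r b * x * r b⁻¹ - x) := by
          rw [conj_conj]
          abel
        rw [e]
        exact T.add_mem (ha _ hx') (hb x hx)
      one_mem' := by
        intro x _
        rw [inv_one, map_one, one_mul, mul_one, sub_self]
        exact T.zero_mem
      inv_mem' := by
        intro a ha x hx
        have hx' := hU.g a⁻¹ x hx
        have h1 := T.neg_mem (ha _ hx')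
        have e : -(r a * (r a⁻¹ * x * r a⁻¹⁻¹) * r a⁻¹ - r a⁻¹ * x * r a⁻¹⁻¹) =
            r a⁻¹ * x * r a⁻¹⁻¹ - x := by
          rw [conj_conj, mul_inv_cancel, inv_one, map_one, one_mul, mul_one]
          abel
        rwa [e] at h1 }
  have hY : ⁅N, N⁆ ≤ Y := by
    rw [Subgroup.commutator_le]
    intro g hg h hh x hx
    -- `y = Ad(g⁻¹ h⁻¹) x`
    have hyU : r (g⁻¹ * h⁻¹) * x * r (g⁻¹ * h⁻¹)⁻¹ ∈ U := hU.g _ x hx
    have e1 : r (g * h) * (r (g⁻¹ * h⁻¹) * x * r (g⁻¹ * h⁻¹)⁻¹) * r (g * h)⁻¹ =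
        r ⁅g, h⁆ * x * r ⁅g, h⁆⁻¹ := by
      rw [conj_conj]
      have e3 : g * h * (g⁻¹ * h⁻¹) = ⁅g, h⁆ := by
        rw [commutatorElement_def]
        group
      rw [e3]
    have e4 : r (h * g) * (r (g⁻¹ * h⁻¹) * x * r (g⁻¹ * h⁻¹)⁻¹) * r (h * g)⁻¹ = x := by
      rw [conj_conj]
      have e3 : h * g * (g⁻¹ * h⁻¹) = 1 := by group
      rw [e3, inv_one, map_one, one_mul, mul_one]
    generalize r (g⁻¹ * h⁻¹) * x * r (g⁻¹ * h⁻¹)⁻¹ = y at hyU e1 e4
    have h1 : r g * (r h * y * r h⁻¹ - y) * r g⁻¹ - (r h * y * r h⁻¹ - y) ∈ T :=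
      Xs_gen (Xs_gen hyU hh) hg
    have h2 : r h * (r g * y * r g⁻¹ - y) * r h⁻¹ - (r g * y * r g⁻¹ - y) ∈ T :=
      Xs_gen (Xs_gen hyU hg) hh
    have e5 : r ⁅g, h⁆ * x * r ⁅g, h⁆⁻¹ - x =
        (r g * (r h * y * r h⁻¹ - y) * r g⁻¹ - (r h * y * r h⁻¹ - y)) -
          (r h * (r g * y * r g⁻¹ - y) * r h⁻¹ - (r g * y * r g⁻¹ - y)) := by
      rw [← e1]
      conv_lhs => rw [← e4]
      rw [← conj_conj, ← conj_conj]
      noncomm_ring
    rw [e5]
    exact T.sub_mem h1 h2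
  exact Xs_le_iff fun x hx g hg => hY hg x hx

theorem res_Xs (U : Submodule O A) (H : Subgroup G) (K : Subgroup H) :
    Xs (r.comp H.subtype) U K = Xs r U (K.map H.subtype) := by
  apply le_antisymm
  · refine Xs_le_iff fun x hx g hg => ?_
    exact Xs_gen (r := r) hx (Subgroup.mem_map_of_mem H.subtype hg)
  · refine Xs_le_iff fun x hx g hg => ?_
    obtain ⟨g, hg, rfl⟩ := hg
    exact Xs_gen (r := r.comp H.subtype) hx hg

theorem derG_res (s t : ℕ) :
    (derG t (⊤ : Subgroup (derG s (⊤ : Subgroup G)))).map (derG s (⊤ : Subgroup G)).subtype =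
      derG (s + t) ⊤ := by
  rw [derG_sub, ThR.derG_add]

theorem LI_mono {J X X' : Submodule O A} (h : X ≤ X') : LI J X ≤ LI J X' :=
  LI_le (h.trans (le_LI J X')) (LI_br J X')

/-- `LI J X` is stable under an automorphism which preserves `J` and `X` -/
theorem LI_map {J X : Submodule O A} {p q : A} (hqp : q * p = 1) (hJ : ∀ a ∈ J, p * a * q ∈ J)
    (hX : ∀ a ∈ X, p * a * q ∈ X) : ∀ a ∈ LI J X, p * a * q ∈ LI J X := by
  let f : A →ₗ[O] A := (LinearMap.mulLeft O p).comp (LinearMap.mulRight O q)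
  have hf : ∀ a, f a = p * a * q := fun a => (mul_assoc _ _ _).symm
  have key : LI J X ≤ (LI J X).comap f := by
    refine LI_le ?_ ?_
    · intro a ha
      rw [Submodule.mem_comap, hf]
      exact le_LI J X (hX a ha)
    · intro y hy a ha
      rw [Submodule.mem_comap, hf] at ha ⊢
      have h1 := LI_br J X (p * y * q) (hJ y hy) _ ha
      have e : p * (y * a - a * y) * q = p * y * q * (p * a * q) - p * a * q * (p * y * q) := by
        have e1 : p * y * q * (p * a * q) = p * y * a * q := by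
          calc _ = p * y * (q * p) * a * q := by simp only [mul_assoc]
            _ = _ := by rw [hqp, mul_one]
        have e2 : p * a * q * (p * y * q) = p * a * y * q := by
          calc _ = p * a * (q * p) * y * q := by simp only [mul_assoc]
            _ = _ := by rw [hqp, mul_one]
        rw [e1, e2, mul_sub, sub_mul]
        simp only [mul_assoc]
      rw [e]
      exact h1
  intro a ha
  have := key ha
  rwa [Submodule.mem_comap, hf] at this

theorem LI_cj (h : GRep n φ ζ Φ Ψ r) {J X : Submodule O A} (hJ : Cj r Φ Ψ J)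
    (hX : Cj r Φ Ψ X) : Cj r Φ Ψ (LI J X) :=
  ⟨fun g => LI_map (r_inv r g) (hJ.g g) (hX.g g), LI_map h.qp hJ.p hX.p⟩

theorem Xs_cj (h : GRep n φ ζ Φ Ψ r) {c : Submodule O A} (hc : Cj r Φ Ψ c) {N : Subgroup G}
    (hN : N.Normal) (hNφ : ∀ g ∈ N, φ g ∈ N) : Cj r Φ Ψ (Xs r c N) := by
  constructor
  · intro g a ha
    unfold Xs at ha
    refine Submodule.span_induction (p := fun a _ => r g * a * r g⁻¹ ∈ Xs r c N) ?_ ?_ ?_ ?_ ha
    · rintro _ ⟨x, hx, k, hk, rfl⟩
      have h1 : r (g * k * g⁻¹) * (r g * x * r g⁻¹) * r (g * k * g⁻¹)⁻¹ - r g * x * r g⁻¹ ∈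
          Xs r c N := Xs_gen (hc.g g x hx) (hN.conj_mem k hk g)
      have e : r (g * k * g⁻¹) * (r g * x * r g⁻¹) * r (g * k * g⁻¹)⁻¹ =
          r g * (r k * x * r k⁻¹) * r g⁻¹ := by
        rw [conj_conj, conj_conj]
        have : g * k * g⁻¹ * g = g * k := by group
        rw [this]
      rw [e] at h1
      rw [mul_sub, sub_mul]
      exact h1
    · rw [mul_zero, zero_mul]
      exact Submodule.zero_mem _
    · intro a b _ _ ha hb
      rw [mul_add, add_mul]
      exact Submodule.add_mem _ ha hb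
    · intro o a _ ha
      rw [mul_smul_comm, smul_mul_assoc]
      exact Submodule.smul_mem _ _ ha
  · intro a ha
    unfold Xs at ha
    refine Submodule.span_induction (p := fun a _ => Φ * a * Ψ ∈ Xs r c N) ?_ ?_ ?_ ?_ ha
    · rintro _ ⟨x, hx, k, hk, rfl⟩
      have h1 : r (φ k) * (Φ * x * Ψ) * r (φ k)⁻¹ - Φ * x * Ψ ∈ Xs r c N :=
        Xs_gen (hc.p x hx) (hNφ k hk)
      have e : r (φ k) * (Φ * x * Ψ) * r (φ k)⁻¹ = Φ * (r k * x * r k⁻¹) * Ψ := by
        rw [← map_inv, ← h.eq, ← h.eq]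
        calc _ = Φ * r k * (Ψ * Φ) * x * (Ψ * Φ) * r k⁻¹ * Ψ := by simp only [mul_assoc]
          _ = _ := by rw [h.qp, mul_one, mul_one]; simp only [mul_assoc]
      rw [e] at h1
      rw [mul_sub, sub_mul]
      exact h1
    · rw [mul_zero, zero_mul]
      exact Submodule.zero_mem _
    · intro a b _ _ ha hb
      rw [mul_add, add_mul]
      exact Submodule.add_mem _ ha hb
    · intro o a _ ha
      rw [mul_smul_comm, smul_mul_assoc]
      exact Submodule.smul_mem _ _ ha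

theorem derG_le {a b : ℕ} (h : a ≤ b) : derG b (⊤ : Subgroup G) ≤ derG a ⊤ := by
  obtain ⟨c, rfl⟩ := Nat.exists_eq_add_of_le h
  exact derG_top_le a c

/-- step (v) of `Claim` -/
theorem step5 (h : GRep n φ ζ Φ Ψ r) {J : Submodule O A} (hJ : Cj r Φ Ψ J)
    (s t : ℕ) :
    Xs r J (derG (2 * s + t + 2) (⊤ : Subgroup G)) ≤
      Xs (r.comp (derG s (⊤ : Subgroup G)).subtype)
        (LI (LI J (Xs r J (derG s (⊤ : Subgroup G))))
          (Xs (r.comp (derG s (⊤ : Subgroup G)).subtype) (LI J (Xs r J (derG s (⊤ : Subgroup G))))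
            (derG s (⊤ : Subgroup (derG s (⊤ : Subgroup G))))))
        (derG t (⊤ : Subgroup (derG s (⊤ : Subgroup G)))) := by
  have hJ1 : Cj r Φ Ψ (LI J (Xs r J (derG s (⊤ : Subgroup G)))) :=
    LI_cj h hJ (Xs_cj h hJ (derG_top_normal s) (derG_top_phi φ s))
  have h1 : Xs r J (derG (2 * s + t + 1) (⊤ : Subgroup G)) ≤
      LI J (Xs r J (derG s (⊤ : Subgroup G))) :=
    (Xs_mono le_rfl (derG_le (by omega))).trans (le_LI _ _)
  rw [res_Xs, res_Xs, derG_res, derG_res]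
  have h2 : Xs r (LI J (Xs r J (derG s (⊤ : Subgroup G)))) (derG (2 * s + t) (⊤ : Subgroup G)) ≤
      LI (LI J (Xs r J (derG s (⊤ : Subgroup G))))
        (Xs r (LI J (Xs r J (derG s (⊤ : Subgroup G)))) (derG (s + s) (⊤ : Subgroup G))) :=
    (Xs_mono le_rfl (derG_le (by omega))).trans (le_LI _ _)
  calc Xs r J (derG (2 * s + t + 2) (⊤ : Subgroup G))
      ≤ Xs r (Xs r J (derG (2 * s + t + 1) ⊤)) (derG (2 * s + t + 1) ⊤) := Xs_comm hJ _
    _ ≤ Xs r (LI J (Xs r J (derG s (⊤ : Subgroup G)))) (derG (2 * s + t + 1) ⊤) :=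
        Xs_mono h1 le_rfl
    _ ≤ Xs r (Xs r (LI J (Xs r J (derG s (⊤ : Subgroup G)))) (derG (2 * s + t) ⊤))
        (derG (2 * s + t) ⊤) := Xs_comm hJ1 _
    _ ≤ _ := Xs_mono h2 (derG_le (by omega))

end Pool.Agent.FT.XsC
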